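import Pool.Agent.Pal.Targets

/-!
# A volume preserving local map cannot decrease a function with a strict minimum
-/

set_option autoImplicit false

open Set MeasureTheory Filter Topology Metric
open scoped Manifold ContDiff

namespace Pool.Agent.Pal

theorem area : T_AREA := by
  intro n Φ I U hn hU hΦ0 hΦ hI hI0 hpos hvol hdec
  obtain ⟨s, hs, hsU⟩ := Metric.nhds_basis_closedBall.mem_iff.1 hU
  have hΦc : ContinuousAt Φ 0 := hΦ.continuousAt hU
  obtain ⟨s₁, hs₁, hs₁Φ⟩ : ∃ s₁ > 0, ∀ y ∈ ball (0 : E n) s₁, Φ y ∈ ball (0 : E n) s := by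
    have h : ∀ᶠ y in 𝓝 (0 : E n), Φ y ∈ ball (0 : E n) s := by
      have h2 : ball (0 : E n) s ∈ 𝓝 (Φ 0) := by
        rw [hΦ0]; exact ball_mem_nhds _ hs
      exact hΦc.eventually h2
    obtain ⟨s₁, hs₁, h⟩ := Metric.eventually_nhds_iff_ball.1 h
    exact ⟨s₁, hs₁, h⟩
  -- the annulus
  have hcA : IsCompact (closedBall (0 : E n) s \ ball (0 : E n) s₁) :=
    (isCompact_closedBall _ _).diff isOpen_ball
  obtain ⟨m, hm, hmA⟩ := hcA.exists_forall_le' (hI.mono (fun y hy => hsU hy.1)) (a := 0)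
    (fun y hy => hpos y (hsU hy.1) (by
      rintro rfl
      exact hy.2 (mem_ball_self hs₁)))
  set t : ℝ := m / 2 with ht
  have ht0 : 0 < t := by positivity
  have htm : t < m := by rw [ht]; linarith
  set Ub : Set (E n) := {y ∈ closedBall (0 : E n) s | I y ≤ t} with hUb
  set W : Set (E n) := {y ∈ ball (0 : E n) s | I y < t} with hW
  have hWU : W ⊆ Ub := fun y hy => ⟨ball_subset_closedBall hy.1, hy.2.le⟩
  have hUbs : ∀ y ∈ Ub, y ∈ ball (0 : E n) s₁ := by
    intro y hy
    by_contra hcon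
    have := hmA y ⟨hy.1, hcon⟩
    have := hy.2
    linarith
  have hIcl : ContinuousOn I (closedBall (0 : E n) s) := hI.mono hsU
  have hUbc : IsCompact Ub := by
    have : IsClosed Ub := by
      have h := hIcl.preimage_isClosed_of_isClosed isClosed_closedBall (isClosed_Iic (a := t))
      exact h
    exact (isCompact_closedBall (0 : E n) s).of_isClosed_subset this (fun y hy => hy.1)
  have hWo : IsOpen W := by
    have h := (hIcl.mono ball_subset_closedBall).isOpen_inter_preimage isOpen_ball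
      (isOpen_Iio (a := t))
    exact h
  have hUbU : Ub ⊆ U := fun y hy => hsU hy.1
  have hΦUb : IsCompact (Φ '' Ub) := hUbc.image_of_continuousOn (hΦ.mono hUbU)
  have h0W : (0 : E n) ∈ W := ⟨mem_ball_self hs, by rw [hI0]; exact ht0⟩
  have hsub : Φ '' Ub ⊆ W := by
    rintro _ ⟨y, hy, rfl⟩
    by_cases hy0 : y = 0
    · subst hy0
      rw [hΦ0]; exact h0W
    · exact ⟨hs₁Φ y (hUbs y hy), lt_of_lt_of_le (hdec y (hUbU hy) hy0) hy.2⟩
  have hvolU : volume (Φ '' Ub) = volume Ub := hvol Ub hUbU hUbc.measurableSet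
  have hfin : volume (Φ '' Ub) ≠ ⊤ := hΦUb.measure_lt_top.ne
  have hle : volume W ≤ volume (Φ '' Ub) := by
    rw [hvolU]; exact measure_mono hWU
  have hdiff : volume (W \ Φ '' Ub) = 0 := by
    rw [measure_sdiff hsub hΦUb.measurableSet.nullMeasurableSet hfin]
    exact tsub_eq_zero_of_le hle
  have hempty : W \ Φ '' Ub = ∅ := by
    by_contra hne
    have hne' : (W \ Φ '' Ub).Nonempty := nonempty_iff_ne_empty.2 hne
    have hopen : IsOpen (W \ Φ '' Ub) := hWo.sdiff hΦUb.isClosed
    exact (hopen.measure_pos volume hne').ne' hdiff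
  have hWeq : W = Φ '' Ub := Subset.antisymm (sdiff_eq_empty.1 hempty) hsub
  have hWclosed : IsClosed W := by rw [hWeq]; exact hΦUb.isClosed
  have hWuniv : W = univ := IsClopen.eq_univ ⟨hWclosed, hWo⟩ ⟨0, h0W⟩
  have hcu : IsCompact (univ : Set (E n)) := by
    rw [← hWuniv, hWeq]; exact hΦUb
  have : Nonempty (Fin n) := ⟨⟨0, hn⟩⟩
  have : Nontrivial (E n) := inferInstance
  have : NoncompactSpace (E n) := NormedSpace.noncompactSpace ℝ (E n)
  exact noncompact_univ (E n) hcu

end Pool.Agent.Pal
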