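import Pool.Agent.Pal.Targets

/-!
# PAL-BIRK: Birkhoff's integral
-/

set_option autoImplicit false

open Set MeasureTheory Filter Topology Metric Asymptotics
open scoped Manifold ContDiff

namespace Pool.Agent.Pal

namespace BIRK_

lemma hom_contDiff {k : ℕ} {u : ℂ → ℂ} (hu : u ∈ Hom k) : ContDiff ℝ ∞ u := by
  obtain ⟨c, hc⟩ := hu
  have h1 : u = fun z => ∑ i ∈ Finset.range (k + 1),
      c i * z ^ i * (starRingEnd ℂ z) ^ (k - i) := funext hc
  rw [h1]
  refine ContDiff.sum fun i _ => ?_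
  exact (contDiff_const.mul (contDiff_id.pow i)).mul ((Complex.conjCLE.contDiff).pow _)

lemma hom_homog {k : ℕ} {u : ℂ → ℂ} (hu : u ∈ Hom k) (t : ℝ) (z : ℂ) :
    u ((t : ℂ) * z) = (t : ℂ) ^ k * u z := by
  obtain ⟨c, hc⟩ := hu
  rw [hc, hc, Finset.mul_sum]
  refine Finset.sum_congr rfl fun i hi => ?_
  have hik : i ≤ k := by
    rw [Finset.mem_range] at hi
    omega
  have h2 : (t : ℂ) ^ k = (t : ℂ) ^ i * (t : ℂ) ^ (k - i) := by
    rw [← pow_add, Nat.add_sub_cancel' hik]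
  rw [map_mul, Complex.conj_ofReal, mul_pow, mul_pow, h2]
  ring

lemma hom_bound {k : ℕ} {u : ℂ → ℂ} (hu : u ∈ Hom k) : ∃ C : ℝ, 0 ≤ C ∧
    ∀ z, ‖u z‖ ≤ C * ‖z‖ ^ k := by
  obtain ⟨c, hc⟩ := hu
  refine ⟨∑ i ∈ Finset.range (k + 1), ‖c i‖, Finset.sum_nonneg fun _ _ => norm_nonneg _, ?_⟩
  intro z
  rw [hc, Finset.sum_mul]
  refine (norm_sum_le _ _).trans (Finset.sum_le_sum fun i hi => ?_)
  have hik : i ≤ k := by
    rw [Finset.mem_range] at hi
    omega
  rw [norm_mul, norm_mul, norm_pow, norm_pow, RCLike.norm_conj, mul_assoc, ← pow_add,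
    Nat.add_sub_cancel' hik]

lemma hom_sub {k : ℕ} {u v : ℂ → ℂ} (hu : u ∈ Hom k) (hv : v ∈ Hom k) :
    (fun z => u z - v z) ∈ Hom k := by
  obtain ⟨c, hc⟩ := hu
  obtain ⟨d, hd⟩ := hv
  refine ⟨fun i => c i - d i, fun z => ?_⟩
  beta_reduce
  rw [hc, hd, ← Finset.sum_sub_distrib]
  refine Finset.sum_congr rfl fun i _ => ?_
  ring

lemma hom_bigO {k : ℕ} {u : ℂ → ℂ} (hu : u ∈ Hom k) : u =O[𝓝 0] (fun z => ‖z‖ ^ k) := by
  obtain ⟨C, -, hC⟩ := hom_bound hu
  refine IsBigO.of_bound C (Eventually.of_forall fun z => ?_)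
  rw [norm_pow, norm_norm]
  exact hC z

lemma pow_littleO {a b : ℕ} (h : a < b) :
    (fun z : ℂ => ‖z‖ ^ b) =o[𝓝 0] (fun z : ℂ => ‖z‖ ^ a) := by
  have h1 : Tendsto (fun z : ℂ => ‖z‖) (𝓝 0) (𝓝 0) := by
    simpa using (continuous_norm (E := ℂ)).tendsto 0
  exact (isLittleO_pow_pow (𝕜 := ℝ) h).comp_tendsto h1

lemma pow_bigO {a b : ℕ} (h : a ≤ b) :
    (fun z : ℂ => ‖z‖ ^ b) =O[𝓝 0] (fun z : ℂ => ‖z‖ ^ a) := by
  rcases h.eq_or_lt with rfl | h
  · exact isBigO_refl _ _
  · exact (pow_littleO h).isBigO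

lemma mul_diff {f1 g1 f2 g2 : ℂ → ℂ} {a b : ℕ}
    (h1 : (fun z => f1 z - g1 z) =o[𝓝 0] (fun z : ℂ => ‖z‖ ^ a))
    (h1' : g1 =O[𝓝 0] (fun z : ℂ => ‖z‖ ^ a))
    (h2 : (fun z => f2 z - g2 z) =o[𝓝 0] (fun z : ℂ => ‖z‖ ^ b))
    (h2' : g2 =O[𝓝 0] (fun z : ℂ => ‖z‖ ^ b)) :
    (fun z => f1 z * f2 z - g1 z * g2 z) =o[𝓝 0] (fun z : ℂ => ‖z‖ ^ (a + b)) := by
  have e1 := h1.mul h2
  have e2 := h1.mul_isBigO h2'
  have e3 := h1'.mul_isLittleO h2
  have e4 := (e1.add e2).add e3
  refine (e4.congr (fun z => ?_) (fun z => ?_))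
  · ring
  · rw [pow_add]

lemma pow_diff {f g : ℂ → ℂ} (h1 : (fun z => f z - g z) =o[𝓝 0] (fun z : ℂ => ‖z‖))
    (h1' : g =O[𝓝 0] (fun z : ℂ => ‖z‖)) (i : ℕ) :
    (fun z => f z ^ i - g z ^ i) =o[𝓝 0] (fun z : ℂ => ‖z‖ ^ i) ∧
      (fun z => g z ^ i) =O[𝓝 0] (fun z : ℂ => ‖z‖ ^ i) := by
  refine ⟨?_, h1'.pow i⟩
  induction i with
  | zero =>
    simp
  | succ i ih =>
    have h := mul_diff ih (h1'.pow i) (b := 1) (f2 := f) (g2 := g) (by simpa using h1)
      (by simpa using h1')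
    simpa [pow_succ] using h

/-- The value of a homogeneous polynomial at `Φ z = l z + o(z)`. -/
lemma hom_diff {k : ℕ} {u : ℂ → ℂ} (hu : u ∈ Hom k) {f g : ℂ → ℂ}
    (h1 : (fun z => f z - g z) =o[𝓝 0] (fun z : ℂ => ‖z‖))
    (h1' : g =O[𝓝 0] (fun z : ℂ => ‖z‖)) :
    (fun z => u (f z) - u (g z)) =o[𝓝 0] (fun z : ℂ => ‖z‖ ^ k) := by
  obtain ⟨c, hc⟩ := hu
  have h2 : (fun z => (starRingEnd ℂ) (f z) - (starRingEnd ℂ) (g z)) =o[𝓝 0]
      (fun z : ℂ => ‖z‖) := by
    refine IsLittleO.of_norm_left ?_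
    refine h1.norm_left.congr_left fun z => ?_
    rw [← map_sub, RCLike.norm_conj]
  have h2' : (fun z => (starRingEnd ℂ) (g z)) =O[𝓝 0] (fun z : ℂ => ‖z‖) := by
    refine IsBigO.of_norm_left ?_
    refine h1'.norm_left.congr_left fun z => ?_
    rw [RCLike.norm_conj]
  have h3 : (fun z => u (f z) - u (g z)) = fun z => ∑ i ∈ Finset.range (k + 1),
      (c i * (f z ^ i * (starRingEnd ℂ (f z)) ^ (k - i) -
        g z ^ i * (starRingEnd ℂ (g z)) ^ (k - i))) := by
    funext z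
    rw [hc, hc, ← Finset.sum_sub_distrib]
    refine Finset.sum_congr rfl fun i _ => ?_
    ring
  rw [h3]
  refine IsLittleO.fun_sum fun i hi => ?_
  have hik : i ≤ k := by
    rw [Finset.mem_range] at hi
    omega
  refine IsLittleO.const_mul_left ?_ _
  have h4 := mul_diff (pow_diff h1 h1' i).1 (pow_diff h1 h1' i).2 (pow_diff h2 h2' (k - i)).1
    (pow_diff h2 h2' (k - i)).2
  rw [Nat.add_sub_cancel' hik] at h4
  exact h4

/-- A sum of homogeneous functions that is small has no terms of small degree. -/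
lemma homzero (a : ℕ → ℂ → ℝ) (n k : ℕ)
    (hom : ∀ j, ∀ t : ℝ, ∀ z : ℂ, a j ((t : ℂ) * z) = t ^ j * a j z)
    (h : (fun z => ∑ j ∈ Finset.Icc 2 n, a j z) =o[𝓝 0] (fun z : ℂ => ‖z‖ ^ k)) :
    ∀ j, j ∈ Finset.Icc 2 n → j ≤ k → ∀ z, a j z = 0 := by
  intro j
  induction j using Nat.strong_induction_on with
  | _ j ih =>
    intro hj hjk z
    have hlim : Tendsto (fun t : ℝ => (t : ℂ) * z) (𝓝[>] 0) (𝓝 0) := by
      have h1 : Tendsto (fun t : ℝ => (t : ℂ) * z) (𝓝 0) (𝓝 (((0 : ℝ) : ℂ) * z)) :=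
        ((Complex.continuous_ofReal.mul continuous_const).tendsto 0)
      rw [Complex.ofReal_zero, zero_mul] at h1
      exact h1.mono_left nhdsWithin_le_nhds
    have h2 := h.comp_tendsto hlim
    have h3 : (fun t : ℝ => ∑ i ∈ Finset.Icc 2 n, t ^ i * a i z) =o[𝓝[>] 0]
        (fun t : ℝ => t ^ j) := by
      refine (h2.congr_left fun t => ?_).trans_isBigO ?_
      · simp only [Function.comp]
        exact Finset.sum_congr rfl fun i _ => hom i t z
      · have h4 : (fun t : ℝ => ‖(t : ℂ) * z‖ ^ k) =O[𝓝[>] 0] (fun t : ℝ => t ^ k) := by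
          refine IsBigO.of_bound (‖z‖ ^ k) (Eventually.of_forall fun t => ?_)
          rw [norm_mul, mul_pow, norm_mul, norm_pow, norm_pow, norm_pow, norm_norm, norm_norm,
            Complex.norm_real, mul_comm]
        have h5 : (fun t : ℝ => t ^ k) =O[𝓝[>] 0] (fun t : ℝ => t ^ j) := by
          refine IsBigO.mono ?_ nhdsWithin_le_nhds
          rcases hjk.eq_or_lt with rfl | hlt
          · exact isBigO_refl _ _
          · exact (isLittleO_pow_pow (𝕜 := ℝ) hlt).isBigO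
        exact h4.trans h5
    have h6 : Tendsto (fun t : ℝ => (∑ i ∈ Finset.Icc 2 n, t ^ i * a i z) / t ^ j) (𝓝[>] 0)
        (𝓝 0) := h3.tendsto_div_nhds_zero
    have h7 : Tendsto (fun t : ℝ => ∑ i ∈ Finset.Icc 2 n,
        (if i < j then 0 else t ^ (i - j) * a i z)) (𝓝[>] 0) (𝓝 (a j z)) := by
      have h8 : Continuous (fun t : ℝ => ∑ i ∈ Finset.Icc 2 n,
          (if i < j then 0 else t ^ (i - j) * a i z)) := by
        refine continuous_finsetSum _ fun i _ => ?_
        split_ifs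
        · exact continuous_const
        · exact (continuous_pow _).mul continuous_const
      have h9 := (h8.tendsto 0).mono_left (nhdsWithin_le_nhds (s := Ioi (0 : ℝ)))
      have h10 : (∑ i ∈ Finset.Icc 2 n, (if i < j then 0 else (0 : ℝ) ^ (i - j) * a i z)) =
          a j z := by
        rw [Finset.sum_eq_single_of_mem j hj]
        · simp
        · intro i _ hij
          split_ifs with h11
          · rfl
          · rw [zero_pow (by omega), zero_mul]
      rw [h10] at h9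
      exact h9
    refine tendsto_nhds_unique h7 (h6.congr' ?_)
    filter_upwards [self_mem_nhdsWithin] with t ht
    have ht0 : (0 : ℝ) < t := ht
    rw [Finset.sum_div]
    refine Finset.sum_congr rfl fun i hi => ?_
    split_ifs with h11
    · rw [ih i h11 hi (by omega) z]
      simp
    · have h12 : t ^ i = t ^ (i - j) * t ^ j := by
        rw [← pow_add]
        congr 1
        omega
      rw [h12]
      field_simp

lemma re_littleO {f : ℂ → ℂ} {g : ℂ → ℝ} (h : f =o[𝓝 0] g) :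
    (fun z => (f z).re) =o[𝓝 0] g := by
  refine IsBigO.trans_isLittleO (IsBigO.of_bound 1 (Eventually.of_forall fun z => ?_)) h
  rw [one_mul, Real.norm_eq_abs]
  exact Complex.abs_re_le_norm _

/-- One step of the construction. -/
lemma step (hE : T_EXPC) (hC : T_COH) (r k : ℕ) (Φ : ℂ → ℂ) (l : ℂ) (u : ℕ → ℂ → ℂ)
    (hr : 1 ≤ r) (hk2 : 2 ≤ k) (hk : k + 1 ≤ r + 1) (h0 : Φ 0 = 0) (hΦ : ContDiffAt ℝ r Φ 0)
    (hl : ‖l‖ = 1) (hres : ∀ j, 1 ≤ j → j ≤ r + 1 → l ^ j ≠ 1)
    (hlin : (fun z => Φ z - l * z) =o[𝓝 0] (fun z : ℂ => ‖z‖))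
    (hu : ∀ j, u j ∈ Hom j)
    (hF : (fun z => (∑ j ∈ Finset.Icc 2 k, u j (Φ z)).re - (∑ j ∈ Finset.Icc 2 k, u j z).re)
      =o[𝓝 0] (fun z : ℂ => ‖z‖ ^ k)) :
    ∃ (h : ℂ → ℂ) (c : ℂ), h ∈ Hom (k + 1) ∧
      (fun z => ((∑ j ∈ Finset.Icc 2 k, u j (Φ z)).re + (h (Φ z)).re) -
        ((∑ j ∈ Finset.Icc 2 k, u j z).re + (h z).re) - c.re * ‖z‖ ^ (k + 1))
      =o[𝓝 0] (fun z : ℂ => ‖z‖ ^ (k + 1)) := by
  obtain ⟨v, hv, hvE⟩ := hE r k Φ hr h0 hΦ u hu
  -- the terms
  have hz0 : ∀ j, (fun _ : ℂ => (0 : ℂ)) ∈ Hom j := fun j => ⟨fun _ => 0, fun z => by simp⟩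
  set w : ℕ → ℂ → ℂ := fun j => if j ≤ k then (fun z => v j z - u j z) else v j with hw
  have hwH : ∀ j, w j ∈ Hom j := by
    intro j
    simp only [hw]
    split_ifs
    · exact hom_sub (hv j) (hu j)
    · exact hv j
  have hsplit : ∀ z, (∑ j ∈ Finset.Icc 2 (r + 1), w j z) =
      (∑ j ∈ Finset.Icc 2 (r + 1), v j z) - ∑ j ∈ Finset.Icc 2 k, u j z := by
    intro z
    have h1 : ∑ j ∈ Finset.Icc 2 k, u j z =
        ∑ j ∈ Finset.Icc 2 (r + 1), (if j ≤ k then u j z else 0) := by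
      rw [← Finset.sum_filter]
      refine Finset.sum_congr ?_ fun _ _ => rfl
      ext j
      simp only [Finset.mem_filter, Finset.mem_Icc]
      omega
    rw [h1, ← Finset.sum_sub_distrib]
    refine Finset.sum_congr rfl fun j _ => ?_
    simp only [hw]
    split_ifs
    · rfl
    · ring
  -- F = Re ∑ w + o
  have hFw : (fun z => ((∑ j ∈ Finset.Icc 2 k, u j (Φ z)).re -
      (∑ j ∈ Finset.Icc 2 k, u j z).re) - ∑ j ∈ Finset.Icc 2 (r + 1), (w j z).re)
      =o[𝓝 0] (fun z : ℂ => ‖z‖ ^ (r + 1)) := by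
    refine (re_littleO hvE).congr_left fun z => ?_
    have h1 : ∑ j ∈ Finset.Icc 2 (r + 1), (w j z).re =
        (∑ j ∈ Finset.Icc 2 (r + 1), w j z).re := (Complex.re_sum _ _).symm
    rw [h1, hsplit, Complex.sub_re, Complex.sub_re]
    ring
  have hsum : (fun z => ∑ j ∈ Finset.Icc 2 (r + 1), (w j z).re) =o[𝓝 0]
      (fun z : ℂ => ‖z‖ ^ k) := by
    have h1 := hF.sub (hFw.trans_isBigO (pow_bigO (by omega : k ≤ r + 1)))
    refine h1.congr_left fun z => ?_
    ring
  have hzero := homzero (fun j z => (w j z).re) (r + 1) k (fun j t z => by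
    rw [hom_homog (hwH j), ← Complex.ofReal_pow, Complex.re_ofReal_mul]) hsum
  -- F = Re w_{k+1} + o
  have hFk : (fun z => ((∑ j ∈ Finset.Icc 2 k, u j (Φ z)).re -
      (∑ j ∈ Finset.Icc 2 k, u j z).re) - (w (k + 1) z).re)
      =o[𝓝 0] (fun z : ℂ => ‖z‖ ^ (k + 1)) := by
    have h1 : (fun z => ∑ j ∈ Finset.Icc (k + 2) (r + 1), (w j z).re) =o[𝓝 0]
        (fun z : ℂ => ‖z‖ ^ (k + 1)) := by
      refine IsLittleO.fun_sum fun j hj => ?_
      rw [Finset.mem_Icc] at hj
      exact re_littleO ((hom_bigO (hwH j)).trans_isLittleO (pow_littleO (by omega)))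
    have h2 := (hFw.trans_isBigO (pow_bigO hk)).add h1
    refine h2.congr_left fun z => ?_
    have h3 : ∑ j ∈ Finset.Icc 2 (r + 1), (w j z).re =
        (w (k + 1) z).re + ∑ j ∈ Finset.Icc (k + 2) (r + 1), (w j z).re := by
      have h4 : Finset.Icc 2 (r + 1) = Finset.Icc 2 k ∪ ({k + 1} ∪ Finset.Icc (k + 2) (r + 1)) := by
        ext j
        simp only [Finset.mem_union, Finset.mem_Icc, Finset.mem_singleton]
        omega
      rw [h4, Finset.sum_union, Finset.sum_union, Finset.sum_singleton]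
      · rw [Finset.sum_eq_zero, zero_add]
        intro j hj
        rw [Finset.mem_Icc] at hj
        exact hzero j (Finset.mem_Icc.mpr (by omega)) hj.2 z
      · rw [Finset.disjoint_left]
        intro j hj
        simp only [Finset.mem_Icc, Finset.mem_singleton] at hj ⊢
        omega
      · rw [Finset.disjoint_left]
        intro j hj
        simp only [Finset.mem_union, Finset.mem_Icc, Finset.mem_singleton] at hj ⊢
        omega
    rw [h3]
    ring
  obtain ⟨h, c, hh, hcoh⟩ := hC (k + 1) l (w (k + 1)) (by omega) hl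
    (fun j h1 h2 => hres j h1 (by omega)) (hwH (k + 1))
  refine ⟨h, c, hh, ?_⟩
  have hg : (fun z : ℂ => l * z) =O[𝓝 0] (fun z : ℂ => ‖z‖) := by
    refine IsBigO.of_bound 1 (Eventually.of_forall fun z => ?_)
    rw [norm_mul, hl, norm_norm]
  have hd := re_littleO (hom_diff hh hlin hg)
  have h5 := hFk.add hd
  refine h5.congr_left fun z => ?_
  have h6 := congrArg Complex.re (hcoh z)
  rw [Complex.add_re, Complex.sub_re] at h6
  have h7 : (c * (‖z‖ : ℂ) ^ (k + 1)).re = c.re * ‖z‖ ^ (k + 1) := by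
    rw [← Complex.ofReal_pow, Complex.re_mul_ofReal]
  rw [h7] at h6
  rw [Complex.sub_re]
  linarith

/-- The function is positive. -/
lemma pos (u : ℕ → ℂ → ℂ) (k : ℕ) (hk : 2 ≤ k) (hu : ∀ j, u j ∈ Hom j)
    (hu2 : ∀ z, u 2 z = ((‖z‖ ^ 2 : ℝ) : ℂ)) :
    ∀ᶠ z in 𝓝 (0 : ℂ), 1 / 2 * ‖z‖ ^ 2 ≤ (∑ j ∈ Finset.Icc 2 k, u j z).re := by
  have h1 : (fun z => (∑ j ∈ Finset.Icc 3 k, u j z).re) =o[𝓝 0] (fun z : ℂ => ‖z‖ ^ 2) := by
    refine re_littleO (IsLittleO.fun_sum fun j hj => ?_)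
    rw [Finset.mem_Icc] at hj
    exact (hom_bigO (hu j)).trans_isLittleO (pow_littleO (by omega))
  filter_upwards [h1.bound (show (0 : ℝ) < 1 / 2 by norm_num)] with z hz
  have h2 : Finset.Icc 2 k = {2} ∪ Finset.Icc 3 k := by
    ext j
    simp only [Finset.mem_union, Finset.mem_Icc, Finset.mem_singleton]
    omega
  have h3 : ∑ j ∈ Finset.Icc 2 k, u j z = u 2 z + ∑ j ∈ Finset.Icc 3 k, u j z := by
    rw [h2, Finset.sum_union, Finset.sum_singleton]
    rw [Finset.disjoint_left]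
    intro j hj
    simp only [Finset.mem_Icc, Finset.mem_singleton] at hj ⊢
    omega
  rw [h3, Complex.add_re, hu2, Complex.ofReal_re]
  rw [norm_pow, norm_norm, Real.norm_eq_abs] at hz
  have h4 := neg_abs_le (∑ j ∈ Finset.Icc 3 k, u j z).re
  linarith

/-- No real eigenvalue: the determinant is positive. -/
lemma det_eq_one (A : E 2 →L[ℝ] E 2) (hA : NoRealEigenvalue A) (hd : |A.det| = 1) :
    A.det = 1 := by
  rcases abs_eq (zero_le_one) |>.mp hd with h | h
  · exact h
  · exfalso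
    set b := (EuclideanSpace.basisFun (Fin 2) ℝ).toBasis with hb
    set m := LinearMap.toMatrix b b (A : E 2 →ₗ[ℝ] E 2) with hm
    have hdet : ∀ c : ℝ, LinearMap.det ((A : E 2 →ₗ[ℝ] E 2) - c • LinearMap.id) =
        (m 0 0 - c) * (m 1 1 - c) - m 0 1 * m 1 0 := by
      intro c
      rw [← LinearMap.det_toMatrix b, map_sub, map_smul, LinearMap.toMatrix_id, ← hm,
        Matrix.det_fin_two]
      simp
    have h1 : LinearMap.det (A : E 2 →ₗ[ℝ] E 2) = m 0 0 * m 1 1 - m 0 1 * m 1 0 := by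
      have := hdet 0
      simpa using this
    have h2 : m 0 0 * m 1 1 - m 0 1 * m 1 0 = -1 := by
      rw [← h1]
      exact h
    set D : ℝ := (m 0 0 + m 1 1) ^ 2 + 4 with hD
    have hDpos : 0 ≤ D := by positivity
    have h3 := hdet ((m 0 0 + m 1 1 + √D) / 2)
    have h4 : √D ^ 2 = D := Real.sq_sqrt hDpos
    have h5 : LinearMap.det ((A : E 2 →ₗ[ℝ] E 2) - ((m 0 0 + m 1 1 + √D) / 2) • LinearMap.id) = 0 := by
      rw [h3]
      linear_combination (1 / 4 : ℝ) * h4 + h2 + (1 / 4 : ℝ) * hD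
    obtain ⟨v, hv, hv0⟩ := Submodule.exists_mem_ne_zero_of_ne_bot
      (LinearMap.bot_lt_ker_of_det_eq_zero h5).ne'
    refine hA v hv0 ((m 0 0 + m 1 1 + √D) / 2) ?_
    rw [LinearMap.mem_ker] at hv
    have h6 : A v - ((m 0 0 + m 1 1 + √D) / 2) • v = 0 := hv
    exact sub_eq_zero.mp h6

end BIRK_

open BIRK_

/-- Birkhoff's integral. -/
theorem birk (hE : T_EXPC) (hC : T_COH) (hA : T_AREA) (hL : T_LIN) (hJ : T_JAC) : T_BIRK := by
  intro r Φ Ψ U hr hΦ0 hΨ0 hΦr hΨc hU hΦU hΨU hΨΦ hΦΨ hvΦ hvΨ hne hres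
  have hΦ1 : ContDiffAt ℝ 1 Φ 0 := hΦr.of_le (by exact_mod_cast hr)
  have hinj : InjOn Φ U := fun x hx y hy hxy => by rw [← hΨΦ x hx, hxy, hΨΦ y hy]
  have hdet : (fderiv ℝ Φ 0).det = 1 := det_eq_one _ hne (hJ 2 Φ U hU hΦ1 hinj hvΦ)
  obtain ⟨P, l, hl, hPl, hlk⟩ := hL (fderiv ℝ Φ 0) hne hdet
  have hres' : ∀ j, 1 ≤ j → j ≤ r + 1 → l ^ j ≠ 1 := fun j h1 h2 h3 =>
    hres j h1 h2 ((hlk j).mpr h3)
  -- the conjugated map
  set F : ℂ → ℂ := fun z => P.symm (Φ (P z)) with hF
  have hF0 : F 0 = 0 := by simp [hF, hΦ0]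
  have hFr : ContDiffAt ℝ r F 0 := by
    refine P.symm.contDiff.contDiffAt.comp (0 : ℂ) (ContDiffAt.comp (0 : ℂ) ?_ P.contDiff.contDiffAt)
    rw [map_zero]
    exact hΦr
  have hlin : (fun z => F z - l * z) =o[𝓝 0] (fun z : ℂ => ‖z‖) := by
    have h1 : HasFDerivAt Φ (fderiv ℝ Φ 0) (P 0) := by
      rw [map_zero]
      exact (hΦ1.differentiableAt (by simp)).hasFDerivAt
    have h2 : HasFDerivAt F ((P.symm : E 2 →L[ℝ] ℂ).comp ((fderiv ℝ Φ 0).comp (P : ℂ →L[ℝ] E 2)))
        0 := (P.symm.hasFDerivAt).comp (0 : ℂ) (h1.comp (0 : ℂ) P.hasFDerivAt)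
    have h3 := h2.isLittleO
    refine (h3.congr (fun z => ?_) (fun z => rfl)).trans_isBigO ?_
    · rw [hF0, sub_zero, sub_zero]
      simp only [ContinuousLinearMap.comp_apply, ContinuousLinearEquiv.coe_coe]
      rw [hPl, ContinuousLinearEquiv.symm_apply_apply]
    · simpa using (isBigO_refl (fun z : ℂ => z) (𝓝 0)).norm_right
  -- the induction
  have key : ∀ k, 2 ≤ k → k ≤ r + 1 → ∃ u : ℕ → ℂ → ℂ, (∀ j, u j ∈ Hom j) ∧
      (∀ z, u 2 z = ((‖z‖ ^ 2 : ℝ) : ℂ)) ∧
      (fun z => (∑ j ∈ Finset.Icc 2 k, u j (F z)).re - (∑ j ∈ Finset.Icc 2 k, u j z).re)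
        =o[𝓝 0] (fun z : ℂ => ‖z‖ ^ k) := by
    intro k hk2
    induction k, hk2 using Nat.le_induction with
    | base =>
      intro _
      set u : ℕ → ℂ → ℂ := fun j => if j = 2 then (fun z => z * (starRingEnd ℂ) z) else
        (fun _ => 0) with hu
      have huH : ∀ j, u j ∈ Hom j := by
        intro j
        by_cases hj : j = 2
        · subst hj
          refine ⟨fun i => if i = 1 then 1 else 0, fun z => ?_⟩
          simp [hu]
        · refine ⟨fun _ => 0, fun z => ?_⟩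
          simp [hu, hj]
      have hu2 : ∀ z, u 2 z = ((‖z‖ ^ 2 : ℝ) : ℂ) := by
        intro z
        simp only [hu, if_true]
        rw [Complex.mul_conj, Complex.normSq_eq_norm_sq]
      refine ⟨u, huH, hu2, ?_⟩
      have hg : (fun z : ℂ => l * z) =O[𝓝 0] (fun z : ℂ => ‖z‖) := by
        refine IsBigO.of_bound 1 (Eventually.of_forall fun z => ?_)
        rw [norm_mul, hl, norm_norm]
      have h1 := re_littleO (hom_diff (huH 2) hlin hg)
      refine h1.congr_left fun z => ?_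
      rw [Finset.Icc_self, Finset.sum_singleton, Finset.sum_singleton, Complex.sub_re]
      have h2 : (u 2 (l * z)) = u 2 z := by
        rw [hu2, hu2, norm_mul, hl, one_mul]
      rw [h2]
    | succ k hk2 ih =>
      intro hk
      obtain ⟨u, huH, hu2, hFk⟩ := ih (by omega)
      obtain ⟨h, c, hh, hstep⟩ := step hE hC r k F l u hr hk2 hk hF0 hFr hl hres' hlin huH hFk
      set u' : ℕ → ℂ → ℂ := fun j => if j = k + 1 then h else u j with hu'
      have hu'H : ∀ j, u' j ∈ Hom j := by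
        intro j
        simp only [hu']
        split_ifs with hj
        · rw [hj]; exact hh
        · exact huH j
      have hu'2 : ∀ z, u' 2 z = ((‖z‖ ^ 2 : ℝ) : ℂ) := by
        intro z
        have : u' 2 = u 2 := by
          simp only [hu']
          rw [if_neg (by omega)]
        rw [this]
        exact hu2 z
      have hsum : ∀ z, (∑ j ∈ Finset.Icc 2 (k + 1), u' j z) =
          (∑ j ∈ Finset.Icc 2 k, u j z) + h z := by
        intro z
        rw [Finset.sum_Icc_succ_top (by omega)]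
        congr 1
        · refine Finset.sum_congr rfl fun j hj => ?_
          rw [Finset.mem_Icc] at hj
          simp only [hu']
          rw [if_neg (by omega)]
        · simp only [hu', if_true]
      set J : ℂ → ℝ := fun z => (∑ j ∈ Finset.Icc 2 (k + 1), u' j z).re with hJdef
      have hJstep : (fun z => J (F z) - J z - c.re * ‖z‖ ^ (k + 1)) =o[𝓝 0]
          (fun z : ℂ => ‖z‖ ^ (k + 1)) := by
        refine hstep.congr_left fun z => ?_
        simp only [hJdef]
        rw [hsum, hsum, Complex.add_re, Complex.add_re]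
      have hJpos := pos u' (k + 1) (by omega) hu'H hu'2
      have hJcont : Continuous J := by
        have h1 : Continuous fun z => ∑ j ∈ Finset.Icc 2 (k + 1), u' j z :=
          continuous_finsetSum _ fun j _ => (hom_contDiff (hu'H j)).continuous
        exact Complex.continuous_re.comp h1
      have hJ0 : J 0 = 0 := by
        simp only [hJdef]
        have h1 : ∀ j ∈ Finset.Icc 2 (k + 1), u' j 0 = 0 := by
          intro j hj
          rw [Finset.mem_Icc] at hj
          obtain ⟨C, -, hCb⟩ := hom_bound (hu'H j)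
          have := hCb 0
          rw [norm_zero, zero_pow (by omega), mul_zero] at this
          exact norm_le_zero_iff.mp this
        rw [Finset.sum_eq_zero h1, Complex.zero_re]
      -- the function on the plane
      set I : E 2 → ℝ := fun y => J (P.symm y) with hI
      have hIc : Continuous I := hJcont.comp P.symm.continuous
      have hI0 : I 0 = 0 := by simp only [hI, map_zero, hJ0]
      have hPt : Tendsto (fun y : E 2 => P.symm y) (𝓝 0) (𝓝 0) := by
        have := P.symm.continuous.tendsto (0 : E 2)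
        rwa [map_zero] at this
      have hIpos : ∀ᶠ y in 𝓝 (0 : E 2), y ≠ 0 → 0 < I y := by
        filter_upwards [hPt.eventually hJpos] with y hy hy0
        have h1 : 0 < ‖P.symm y‖ := by
          rw [norm_pos_iff]
          intro h
          exact hy0 (by simpa using h)
        have h2 : 0 < 1 / 2 * ‖P.symm y‖ ^ 2 := by positivity
        exact lt_of_lt_of_le h2 hy
      -- the constant vanishes
      have hc : c.re = 0 := by
        rcases lt_trichotomy c.re 0 with hneg | h0 | hpos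
        · exfalso
          have h1 : ∀ᶠ z in 𝓝 (0 : ℂ), z ≠ 0 → J (F z) < J z := by
            filter_upwards [hJstep.bound (show 0 < -c.re / 2 by linarith)] with z hz hz0
            have h2 : 0 < ‖z‖ ^ (k + 1) := pow_pos (norm_pos_iff.mpr hz0) _
            rw [Real.norm_eq_abs, norm_pow, norm_norm] at hz
            have h3 := (le_abs_self _).trans hz
            nlinarith
          have h2 : ∀ᶠ y in 𝓝 (0 : E 2), y ≠ 0 → I (Φ y) < I y := by
            filter_upwards [hPt.eventually h1] with y hy hy0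
            have h3 := hy (by
              intro h
              exact hy0 (by simpa using h))
            simp only [hF, ContinuousLinearEquiv.apply_symm_apply] at h3
            exact h3
          obtain ⟨W, hW, hWpos⟩ := (hIpos.and h2).exists_mem
          refine hA 2 Φ I (U ∩ W) (by norm_num) (inter_mem hU hW) hΦ0
            (hΦU.mono inter_subset_left) hIc.continuousOn hI0
            (fun y hy => (hWpos y hy.2).1) (fun A hAs => hvΦ A (hAs.trans inter_subset_left))
            fun y hy => (hWpos y hy.2).2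
        · exact h0
        · exfalso
          have h1 : ∀ᶠ z in 𝓝 (0 : ℂ), z ≠ 0 → J z < J (F z) := by
            filter_upwards [hJstep.bound (show 0 < c.re / 2 by linarith)] with z hz hz0
            have h2 : 0 < ‖z‖ ^ (k + 1) := pow_pos (norm_pos_iff.mpr hz0) _
            rw [Real.norm_eq_abs, norm_pow, norm_norm] at hz
            have h3 := (neg_abs_le _).trans' (neg_le_neg hz)
            nlinarith
          have h2 : ∀ᶠ y in 𝓝 (0 : E 2), y ≠ 0 → I y < I (Φ y) := by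
            filter_upwards [hPt.eventually h1] with y hy hy0
            have h3 := hy (by
              intro h
              exact hy0 (by simpa using h))
            simp only [hF, ContinuousLinearEquiv.apply_symm_apply] at h3
            exact h3
          have hΨt : Tendsto Ψ (𝓝 0) (𝓝 0) := by
            have := hΨc.tendsto
            rwa [hΨ0] at this
          have h4 : ∀ᶠ y in 𝓝 (0 : E 2), y ≠ 0 → I (Ψ y) < I y := by
            filter_upwards [hΨt.eventually h2, hU] with y hy hyU hy0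
            have h5 : Ψ y ≠ 0 := by
              intro h
              apply hy0
              rw [← hΦΨ y hyU, h, hΦ0]
            have h6 := hy h5
            rwa [hΦΨ y hyU] at h6
          obtain ⟨W, hW, hWpos⟩ := (hIpos.and h4).exists_mem
          refine hA 2 Ψ I (U ∩ W) (by norm_num) (inter_mem hU hW) hΨ0
            (hΨU.mono inter_subset_left) hIc.continuousOn hI0
            (fun y hy => (hWpos y hy.2).1) (fun A hAs => hvΨ A (hAs.trans inter_subset_left))
            fun y hy => (hWpos y hy.2).2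
      refine ⟨u', hu'H, hu'2, ?_⟩
      refine hJstep.congr_left fun z => ?_
      rw [hc]
      simp only [hJdef]
      ring
  obtain ⟨u, huH, hu2, hFk⟩ := key (r + 1) (by omega) le_rfl
  set J : ℂ → ℝ := fun z => (∑ j ∈ Finset.Icc 2 (r + 1), u j z).re with hJdef
  have hJpos := pos u (r + 1) (by omega) huH hu2
  have hPt : Tendsto (fun y : E 2 => P.symm y) (𝓝 0) (𝓝 0) := by
    have := P.symm.continuous.tendsto (0 : E 2)
    rwa [map_zero] at this
  have hPn : 0 < ‖(P : ℂ →L[ℝ] E 2)‖ + 1 := by positivity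
  refine ⟨fun y => J (P.symm y), 1 / (2 * (‖(P : ℂ →L[ℝ] E 2)‖ + 1) ^ 2), ?_, ?_, by positivity,
    ?_, ?_⟩
  · have h1 : ContDiff ℝ ∞ fun z => ∑ j ∈ Finset.Icc 2 (r + 1), u j z :=
      ContDiff.sum fun j _ => hom_contDiff (huH j)
    exact (Complex.reCLM.contDiff.comp h1).comp P.symm.contDiff
  · have h1 : ∀ j ∈ Finset.Icc 2 (r + 1), u j 0 = 0 := by
      intro j hj
      rw [Finset.mem_Icc] at hj
      obtain ⟨C, -, hCb⟩ := hom_bound (huH j)
      have := hCb 0
      rw [norm_zero, zero_pow (by omega), mul_zero] at this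
      exact norm_le_zero_iff.mp this
    simp only [hJdef, map_zero]
    rw [Finset.sum_eq_zero h1, Complex.zero_re]
  · filter_upwards [hPt.eventually hJpos] with y hy
    refine le_trans ?_ hy
    have h1 : ‖y‖ ≤ (‖(P : ℂ →L[ℝ] E 2)‖ + 1) * ‖P.symm y‖ := by
      have h2 := (P : ℂ →L[ℝ] E 2).le_opNorm (P.symm y)
      rw [ContinuousLinearEquiv.coe_coe, ContinuousLinearEquiv.apply_symm_apply] at h2
      have h3 := norm_nonneg (P.symm y)
      linarith
    have h4 : ‖y‖ ^ 2 ≤ ((‖(P : ℂ →L[ℝ] E 2)‖ + 1) * ‖P.symm y‖) ^ 2 :=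
      pow_le_pow_left₀ (norm_nonneg _) h1 2
    rw [div_mul_eq_mul_div, one_mul, div_le_iff₀ (by positivity)]
    rw [mul_pow] at h4
    linarith
  · have h1 := hFk.comp_tendsto hPt
    have h2 : ((fun z : ℂ => ‖z‖ ^ (r + 1)) ∘ fun y : E 2 => P.symm y) =O[𝓝 0]
        (fun y : E 2 => ‖y‖ ^ (r + 1)) := by
      refine IsBigO.pow ?_ (r + 1)
      refine IsBigO.of_bound ‖(P.symm : E 2 →L[ℝ] ℂ)‖ (Eventually.of_forall fun y => ?_)
      rw [norm_norm, norm_norm]
      exact (P.symm : E 2 →L[ℝ] ℂ).le_opNorm y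
    refine (h1.trans_isBigO h2).congr_left fun y => ?_
    simp only [Function.comp, hF, hJdef, ContinuousLinearEquiv.apply_symm_apply]

end Pool.Agent.Pal
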