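import Pool.Agent.Pal.Targets

/-!
# PAL-C0: the modification is uniformly close to the identity
-/

set_option autoImplicit false

open Set MeasureTheory Filter Topology Metric Asymptotics
open scoped Manifold ContDiff

namespace Pool.Agent.Pal

theorem c0 : T_C0 := by
  intro n M _ _ _ e C η _ hC hCt hη
  have hcont : ∀ y ∈ C, ContinuousAt e.symm y := fun y hy =>
    e.symm.continuousAt (hCt hy)
  have hU := hC.uniformContinuousAt_of_continuousAt e.symm hcont (Metric.dist_mem_uniformity hη)
  obtain ⟨δ, hδ, h⟩ := Metric.mem_uniformity_dist.1 hU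
  refine ⟨δ / 2, by positivity, ?_⟩
  intro L hL hnear x
  have hdist : ∀ y, dist y (L y) < δ := by
    intro y
    have h1 := hnear 0 le_rfl y
    rw [norm_iteratedFDeriv_zero] at h1
    rw [dist_comm, dist_eq_norm]
    linarith
  unfold ext
  split_ifs with hx
  · by_cases hxC : e x ∈ C
    · have h2 := h (hdist (e x)) hxC
      simp only [Set.mem_ofPred_eq] at h2
      rw [e.left_inv hx, dist_comm] at h2
      exact h2
    · rw [hL.2 _ hxC, e.left_inv hx, dist_self]
      exact hη
  · rw [dist_self]
    exact hη

end Pool.Agent.Pal
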