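import Pool.Agent.Pal.Targets2

/-!
# PALR-C0C: `C^1` close maps are uniformly close
-/

set_option autoImplicit false

open Set MeasureTheory Filter Topology Metric Asymptotics
open scoped Manifold ContDiff

namespace Pool.Agent.Pal

namespace C0C_

variable {n : ℕ} {M : Type} [MetricSpace M] [ChartedSpace (E n) M]

theorem norm_zero_sub (φ ψ : E n → E n) (y : E n) :
    ‖iteratedFDeriv ℝ 0 φ y - iteratedFDeriv ℝ 0 ψ y‖ = ‖φ y - ψ y‖ := by
  rw [iteratedFDeriv_zero_eq_comp, iteratedFDeriv_zero_eq_comp, Function.comp_apply,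
    Function.comp_apply, ← map_sub, LinearIsometryEquiv.norm_map]

omit [ChartedSpace (E n) M] in
theorem crClose_dist {g g' : M → M} {e e' : OpenPartialHomeomorph M (E n)} {K : Set M} {ε : ℝ}
    (hKe : K ⊆ e.source) (h : CrClose 1 g g' e e' K ε) {x : M} (hx : x ∈ K) :
    dist (e' (g' x)) (e' (g x)) < ε := by
  have h1 := h.2 x hx 0 (by omega)
  rw [norm_zero_sub] at h1
  simp only [Function.comp_apply, e.left_inv (hKe hx)] at h1
  rw [dist_eq_norm]
  exact h1

theorem local_close (hN : T_NBD) {g : M → M} (hg : Continuous g)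
    {e e' : OpenPartialHomeomorph M (E n)} (he : e ∈ Ch n M) (he' : e' ∈ Ch n M) {K : Set M}
    (hK : IsCompact K) (hKe : K ⊆ e.source) (hgK : MapsTo g K e'.source) {η : ℝ} (hη : 0 < η) :
    Nbd n g {g' | ∀ x ∈ K, dist (g' x) (g x) < η} := by
  have hC : IsCompact (e' '' (g '' K)) :=
    (hK.image hg).image_of_continuousOn
      (e'.continuousOn.mono (by rintro _ ⟨x, hx, rfl⟩; exact hgK hx))
  have hCt : e' '' (g '' K) ⊆ e'.target := by
    rintro _ ⟨_, ⟨x, hx, rfl⟩, rfl⟩
    exact e'.map_source (hgK hx)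
  have hcont : ∀ y ∈ e' '' (g '' K), ContinuousAt e'.symm y := fun y hy =>
    e'.symm.continuousAt (hCt hy)
  have hU := hC.uniformContinuousAt_of_continuousAt e'.symm hcont
    (Metric.dist_mem_uniformity hη)
  obtain ⟨δ, hδ, h⟩ := Metric.mem_uniformity_dist.1 hU
  refine (hN n M g).2.1 _ _ ((hN n M g).2.2.2 e e' K δ hδ he he' hK hKe hgK) ?_
  intro g' hg' x hx
  have h1 := crClose_dist hKe hg' hx
  rw [dist_comm] at h1
  have h2 := h h1 ⟨g x, ⟨x, hx, rfl⟩, rfl⟩
  simp only [Set.mem_ofPred_eq] at h2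
  rw [e'.left_inv (hgK hx), e'.left_inv (hg'.1 hx), dist_comm] at h2
  exact h2

theorem nbd_univ (g : M → M) : Nbd n g univ :=
  ⟨0, fun i => i.elim0, fun i => i.elim0, fun i => i.elim0, 1, one_pos, fun i => i.elim0,
    fun _ _ _ => mem_univ _⟩

theorem nbd_finset (hN : T_NBD) {ι : Type} (g : M → M) (t : Finset ι) (V : ι → Set (M → M))
    (h : ∀ i ∈ t, Nbd n g (V i)) : Nbd n g {g' | ∀ i ∈ t, g' ∈ V i} := by
  classical
  induction t using Finset.induction_on with
  | empty =>
    refine (hN n M g).2.1 _ _ (nbd_univ g) ?_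
    intro g' _ i hi
    exact absurd hi (Finset.notMem_empty i)
  | insert a s _ ih =>
    have h1 := (hN n M g).1 _ _ (h a (Finset.mem_insert_self a s))
      (ih fun i hi => h i (Finset.mem_insert_of_mem hi))
    refine (hN n M g).2.1 _ _ h1 ?_
    rintro g' ⟨h2, h3⟩ i hi
    rcases Finset.mem_insert.1 hi with rfl | hi
    · exact h2
    · exact h3 i hi

end C0C_

open C0C_ in
theorem c0c (hN : T_NBD) : T_C0C := by
  intro n M _ _ _ _ g η hg hη
  have hx : ∀ x : M, ∃ K : Set M, K ∈ 𝓝 x ∧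
      Nbd n g {g' | ∀ y ∈ K, dist (g' y) (g y) < η} := by
    intro x
    have hO : IsOpen ((chartAt (E n) x).source ∩ g ⁻¹' (chartAt (E n) (g x)).source) :=
      (chartAt (E n) x).open_source.inter ((chartAt (E n) (g x)).open_source.preimage hg)
    have hxO : x ∈ (chartAt (E n) x).source ∩ g ⁻¹' (chartAt (E n) (g x)).source :=
      ⟨mem_chart_source _ x, mem_chart_source _ (g x)⟩
    obtain ⟨K, hK, hxK, hKO⟩ := exists_compact_subset hO hxO
    exact ⟨K, mem_interior_iff_mem_nhds.1 hxK,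
      local_close hN hg (IsManifold.chart_mem_maximalAtlas x)
        (IsManifold.chart_mem_maximalAtlas (g x)) hK (fun y hy => (hKO hy).1)
        (fun y hy => (hKO hy).2) hη⟩
  choose K hKx hKN using hx
  obtain ⟨t, -, ht⟩ := isCompact_univ.elim_nhds_subcover K fun x _ => hKx x
  refine (hN n M g).2.1 _ _ (nbd_finset hN g t _ fun i _ => hKN i) ?_
  intro g' hg' x
  obtain ⟨i, hi, hxi⟩ := mem_iUnion₂.1 (ht (mem_univ x))
  exact hg' i hi x hxi

end Pool.Agent.Pal
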