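import Pool.Agent.Pal.Targets

/-!
# The cohomological equation
-/

set_option autoImplicit false

open Set MeasureTheory Filter Topology Metric Asymptotics
open scoped Manifold ContDiff

namespace Pool.Agent.Pal

namespace COH_

lemma conj_mul_self {l : ℂ} (hl : ‖l‖ = 1) : (starRingEnd ℂ l) * l = 1 := by
  rw [mul_comm, Complex.mul_conj, Complex.normSq_eq_norm_sq, hl]
  norm_num

lemma lam_ne {k i : ℕ} {l : ℂ} (hl : ‖l‖ = 1) (hj : ∀ j, 1 ≤ j → j ≤ k → l ^ j ≠ 1)
    (hi : i ≤ k) (h2 : 2 * i ≠ k) : l ^ i * (starRingEnd ℂ l) ^ (k - i) ≠ 1 := by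
  intro h
  have h3 : l ^ i = l ^ (k - i) := by
    have h4 : l ^ i * ((starRingEnd ℂ l) * l) ^ (k - i) = l ^ (k - i) := by
      rw [mul_pow, ← mul_assoc, h, one_mul]
    rw [conj_mul_self hl, one_pow, mul_one] at h4
    exact h4
  have hl0 : l ≠ 0 := by
    rintro rfl
    rw [norm_zero] at hl
    exact zero_ne_one hl
  rcases lt_or_gt_of_ne h2 with h5 | h5
  · apply hj (k - 2 * i) (by omega) (by omega)
    have h6 : l ^ (k - i) = l ^ i * l ^ (k - 2 * i) := by
      rw [← pow_add]; congr 1; omega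
    rw [h6] at h3
    have h7 : l ^ i * 1 = l ^ i * l ^ (k - 2 * i) := by rw [mul_one]; exact h3
    exact (mul_left_cancel₀ (pow_ne_zero _ hl0) h7).symm
  · apply hj (2 * i - k) (by omega) (by omega)
    have h6 : l ^ i = l ^ (k - i) * l ^ (2 * i - k) := by
      rw [← pow_add]; congr 1; omega
    rw [h6] at h3
    have h7 : l ^ (k - i) * l ^ (2 * i - k) = l ^ (k - i) * 1 := by rw [mul_one]; exact h3
    exact mul_left_cancel₀ (pow_ne_zero _ hl0) h7

end COH_

open COH_ in
theorem coh : T_COH := by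
  classical
  rintro k l v - hl hj ⟨c, hv⟩
  set lam : ℕ → ℂ := fun i => l ^ i * (starRingEnd ℂ l) ^ (k - i) with hlam
  set d : ℕ → ℂ := fun i => if 2 * i = k then 0 else c i / (1 - lam i) with hd
  refine ⟨fun z => ∑ i ∈ Finset.range (k + 1), d i * z ^ i * (starRingEnd ℂ z) ^ (k - i),
    if 2 * (k / 2) = k then c (k / 2) else 0, ⟨d, fun z => rfl⟩, ?_⟩
  intro z
  simp only
  rw [hv z, ← Finset.sum_sub_distrib, ← Finset.sum_add_distrib]
  have hterm : ∀ i ∈ Finset.range (k + 1),
      d i * (l * z) ^ i * (starRingEnd ℂ (l * z)) ^ (k - i) -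
        d i * z ^ i * (starRingEnd ℂ z) ^ (k - i) + c i * z ^ i * (starRingEnd ℂ z) ^ (k - i) =
      if 2 * i = k then c i * (‖z‖ : ℂ) ^ k else 0 := by
    intro i hi
    have hik : i ≤ k := Nat.lt_succ_iff.1 (Finset.mem_range.1 hi)
    have e1 : (l * z) ^ i * (starRingEnd ℂ (l * z)) ^ (k - i) =
        lam i * (z ^ i * (starRingEnd ℂ z) ^ (k - i)) := by
      rw [map_mul, mul_pow, mul_pow, hlam]
      ring
    by_cases h2 : 2 * i = k
    · rw [if_pos h2]
      have hd0 : d i = 0 := by simp only [hd]; rw [if_pos h2]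
      have hki : k - i = i := by omega
      rw [hd0, hki]
      have e2 : (‖z‖ : ℂ) ^ k = z ^ i * (starRingEnd ℂ z) ^ i := by
        rw [← mul_pow, Complex.mul_conj, Complex.normSq_eq_norm_sq, ← h2, pow_mul]
        push_cast
        rfl
      rw [e2]
      ring
    · rw [if_neg h2]
      have hne := lam_ne hl hj hik h2
      have hne' : (1 : ℂ) - lam i ≠ 0 := sub_ne_zero.2 (Ne.symm hne)
      have hdi : d i = c i / (1 - lam i) := by simp only [hd]; rw [if_neg h2]
      have e3 : d i * (1 - lam i) = c i := by rw [hdi, div_mul_cancel₀ _ hne']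
      rw [mul_assoc (d i) ((l * z) ^ i), e1]
      linear_combination (-(z ^ i * (starRingEnd ℂ z) ^ (k - i))) * e3
  rw [Finset.sum_congr rfl hterm]
  by_cases hk : 2 * (k / 2) = k
  · rw [if_pos hk, Finset.sum_eq_single (k / 2)]
    · rw [if_pos hk]
    · intro i _ hi
      rw [if_neg]
      intro h
      apply hi
      omega
    · intro h
      exfalso
      apply h
      rw [Finset.mem_range]
      omega
  · rw [if_neg hk, zero_mul]
    apply Finset.sum_eq_zero
    intro i _
    rw [if_neg]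
    intro h
    apply hk
    omega

end Pool.Agent.Pal
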