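import Pool.Agent.Pal.Defs

/-!
# Working definitions
-/

set_option autoImplicit false

open Set MeasureTheory Filter Topology
open scoped Manifold ContDiff

namespace Pool.Agent.Pal

variable {n : ℕ} {M : Type} [TopologicalSpace M] [ChartedSpace (E n) M]

/-- A smooth chart in which `μ` is Lebesgue measure. -/
def Uni [MeasurableSpace M] (μ : Measure M) (e : OpenPartialHomeomorph M (E n)) : Prop :=
  e ∈ Ch n M ∧ ∀ A ⊆ e.source, MeasurableSet A → μ A = volume (e '' A)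

open Classical in
/-- The map of `M` which is `L` in the chart `e` and the identity elsewhere. -/
noncomputable def ext (e : OpenPartialHomeomorph M (E n)) (L : E n → E n) : M → M :=
  fun x => if x ∈ e.source then e.symm (L (e x)) else x

/-- `L` is smooth and the identity off `C`. -/
def Mod (C : Set (E n)) (L : E n → E n) : Prop :=
  ContDiff ℝ ∞ L ∧ ∀ y, y ∉ C → L y = y

/-- The derivatives of order at most `r` of `L - id` are bounded by `δ`. -/
def Near (r : ℕ) (δ : ℝ) (L : E n → E n) : Prop :=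
  ∀ j ≤ r, ∀ y, ‖iteratedFDeriv ℝ j (fun z => L z - z) y‖ ≤ δ

variable (n) in
/-- A set of maps that is not left under sufficiently small modifications `ext e L ∘ g`. -/
def Rob (s : ℕ∞) (r : ℕ) (U : Set (M → M)) : Prop :=
  ∀ g ∈ U, IsDiffeo n s g → ∀ e ∈ Ch n M, ∀ C : Set (E n), IsCompact C → C ⊆ e.target →
    ∃ δ : ℝ, 0 < δ ∧ ∀ L, Mod C L → Near r δ L → (ext e L ∘ g) ∈ U

/-- The radial map. -/
noncomputable def rad (a : ℝ → ℝ) (κ ρ : ℝ) (y : E n) : E n := (1 - κ * a (‖y‖ ^ 2 / ρ ^ 2)) • y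

/-- The profile `a` of a radial map of width `N`. -/
structure Profile (n : ℕ) (N : ℝ) (a : ℝ → ℝ) (c κ₀ : ℝ) : Prop where
  smooth : ContDiff ℝ ∞ a
  nonneg : ∀ t, 0 ≤ a t
  le_one : ∀ t, a t ≤ 1
  off : ∀ t, N ^ 2 ≤ t → a t = 0
  c_pos : 0 < c
  low : ∀ t, t ≤ (N / 2) ^ 2 → c ≤ a t
  κ_pos : 0 < κ₀
  κ_le : κ₀ ≤ 1 / 2
  det : ∀ ρ κ : ℝ, 0 < ρ → 0 ≤ κ → κ ≤ κ₀ → ∀ y : E n, ρ ≤ ‖y‖ →
    1 ≤ (fderiv ℝ (rad a κ ρ) y).det

/-- The rotation by the angle `t` of the plane. -/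
noncomputable def rot (t : ℝ) : E 2 →L[ℝ] E 2 :=
  LinearMap.toContinuousLinearMap
    (Matrix.toEuclideanLin !![Real.cos t, -Real.sin t; Real.sin t, Real.cos t])

end Pool.Agent.Pal

namespace Pool.Agent.Pal

/-- The points of `V` can be expanded by small diffeomorphisms, with contraction only near `P`. -/
def Good (n : ℕ) {M : Type} [MetricSpace M] [ChartedSpace (E n) M] [MeasurableSpace M]
    (μ : Measure M) (s : ℕ∞) (r : ℕ) (P : Finset M) (d : ℝ) (V : Set M) : Prop :=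
  ∀ (g : M → M) (U : Set (M → M)) (η : ℝ), IsDiffeo n s g → Rob n s r U → g ∈ U → 0 < η →
    ∃ (ψ : M → M) (S : Set M) (θ : ℝ), IsDiffeo n ⊤ ψ ∧ (ψ ∘ g) ∈ U ∧
      (∀ x, dist (ψ x) x < η) ∧ (∀ x, (∃ p ∈ P, dist x p ≤ d / 4) → ψ x = x) ∧
      IsClosed S ∧ (∀ x ∈ S, ∃ p ∈ P, dist x p < d / 2) ∧ 0 < θ ∧
      (∀ A, MeasurableSet A → A ⊆ V → Disjoint A S →
        ENNReal.ofReal (1 + θ) * μ A ≤ μ (ψ '' A)) ∧
      (∀ A, MeasurableSet A → Disjoint A S → μ A ≤ μ (ψ '' A))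

end Pool.Agent.Pal
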