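import Pool.Agent.Pal.Targets

/-!
# PAL-DEC: the choice of the radial map
-/

set_option autoImplicit false

open Set MeasureTheory Filter Topology Metric Asymptotics
open scoped Manifold ContDiff

namespace Pool.Agent.Pal

namespace DEC_

variable {n : ℕ}

/-- bounds for a `C^2` function with a nondegenerate minimum -/
theorem energy {I : E n → ℝ} {b : ℝ} (hI : ContDiffAt ℝ ∞ I 0) (h0 : I 0 = 0) (hb : 0 < b)
    (hlow : ∀ᶠ y in 𝓝 (0 : E n), b * ‖y‖ ^ 2 ≤ I y) :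
    ∃ b₁ σ₀ : ℝ, b ≤ b₁ ∧ 0 < σ₀ ∧ ContinuousOn I (closedBall 0 σ₀) ∧
      (∀ y ∈ closedBall (0 : E n) σ₀, b * ‖y‖ ^ 2 ≤ I y ∧ I y ≤ b₁ * ‖y‖ ^ 2) ∧
      ∀ y ∈ closedBall (0 : E n) σ₀, ∀ t : ℝ, 0 ≤ t → t ≤ 1 / 2 →
        I ((1 - t) • y) ≤ I y - t * (b / 4) * ‖y‖ ^ 2 := by
  have hI2 : ContDiffAt ℝ 2 I 0 := hI.of_le (by norm_cast)
  have hd : ∀ᶠ y in 𝓝 (0 : E n), DifferentiableAt ℝ I y := by
    have h1 := hI2.eventually (by simp)
    filter_upwards [h1] with y hy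
    exact hy.differentiableAt (by norm_num)
  set G := fderiv ℝ I with hG
  have hG0 : G 0 = 0 := by
    have : IsLocalMin I 0 := by
      filter_upwards [hlow] with y hy
      rw [h0]
      exact le_trans (by positivity) hy
    exact this.fderiv_eq_zero
  have hGd : DifferentiableAt ℝ G 0 :=
    (hI2.fderiv_right (m := 1) (by norm_num)).differentiableAt (by norm_num)
  set H := fderiv ℝ G 0 with hH
  have hlit : ∀ η : ℝ, 0 < η → ∀ᶠ z in 𝓝 (0 : E n), ‖G z - H z‖ ≤ η * ‖z‖ := by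
    intro η hη
    have h1 := hGd.hasFDerivAt.isLittleO
    have h2 := h1.def hη
    filter_upwards [h2] with z hz
    simpa [hG0] using hz
  -- positivity of the Hessian
  have hpos : ∀ z : E n, 2 * b * ‖z‖ ^ 2 ≤ H z z := by
    intro z
    by_contra hcon
    push Not at hcon
    have hz : 0 < ‖z‖ := by
      rcases eq_or_ne z 0 with rfl | h
      · simp at hcon
      · exact norm_pos_iff.2 h
    set η := (2 * b * ‖z‖ ^ 2 - H z z) / (2 * ‖z‖ ^ 2) with hη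
    have hη0 : 0 < η := div_pos (by linarith) (by positivity)
    have hηe : H z z = 2 * b * ‖z‖ ^ 2 - 2 * η * ‖z‖ ^ 2 := by
      rw [hη]; field_simp; ring
    obtain ⟨s, hs, hsb⟩ := Metric.eventually_nhds_iff_ball.1 ((hlit η hη0).and (hd.and hlow))
    set t₀ := s / (2 * ‖z‖) with ht₀
    have ht₀p : 0 < t₀ := by positivity
    have hmem : ∀ t : ℝ, t ∈ Icc 0 t₀ → t • z ∈ ball (0 : E n) s := by
      intro t ht
      rw [mem_ball_zero_iff, norm_smul, Real.norm_of_nonneg ht.1]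
      calc t * ‖z‖ ≤ t₀ * ‖z‖ := by gcongr; exact ht.2
        _ = s / 2 := by rw [ht₀]; field_simp
        _ < s := half_lt_self hs
    have hder : ∀ t : ℝ, t ∈ Icc 0 t₀ →
        HasDerivAt (fun t : ℝ => I (t • z) - b * t ^ 2 * ‖z‖ ^ 2)
          (G (t • z) z - 2 * b * t * ‖z‖ ^ 2) t := by
      intro t ht
      have h1 : HasFDerivAt I (G (t • z)) (t • z) := ((hsb _ (hmem t ht)).2.1).hasFDerivAt
      have h2 : HasDerivAt (fun t : ℝ => t • z) z t := by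
        simpa using (hasDerivAt_id t).smul_const z
      have h3 := h1.comp_hasDerivAt t h2
      have h4 : HasDerivAt (fun t : ℝ => b * t ^ 2 * ‖z‖ ^ 2) (2 * b * t * ‖z‖ ^ 2) t := by
        have := ((hasDerivAt_pow 2 t).const_mul b).mul_const (‖z‖ ^ 2)
        refine this.congr_deriv ?_
        rw [Nat.cast_ofNat, show 2 - 1 = 1 from rfl, pow_one]
        ring
      exact h3.sub h4
    have hanti : StrictAntiOn (fun t : ℝ => I (t • z) - b * t ^ 2 * ‖z‖ ^ 2) (Icc 0 t₀) := by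
      refine strictAntiOn_of_deriv_neg (convex_Icc 0 t₀)
        (fun t ht => (hder t ht).continuousAt.continuousWithinAt) ?_
      intro t ht
      rw [interior_Icc] at ht
      have ht' : t ∈ Icc 0 t₀ := ⟨ht.1.le, ht.2.le⟩
      rw [(hder t ht').deriv]
      have h1 := (hsb _ (hmem t ht')).1
      have h2 : |G (t • z) z - H (t • z) z| ≤ η * ‖t • z‖ * ‖z‖ := by
        rw [← Real.norm_eq_abs, ← sub_apply]
        exact (ContinuousLinearMap.le_opNorm _ _).trans (by gcongr)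
      rw [norm_smul, Real.norm_of_nonneg ht.1.le, map_smul, smul_apply,
        smul_eq_mul, hηe] at h2
      have h3 := (abs_le.1 h2).2
      have h4 : 0 < t * η * ‖z‖ ^ 2 := by have := ht.1; positivity
      nlinarith
    have h5 := hanti ⟨le_rfl, ht₀p.le⟩ ⟨ht₀p.le, le_rfl⟩ ht₀p
    simp only [zero_smul, h0] at h5
    have h6 := (hsb _ (hmem t₀ ⟨ht₀p.le, le_rfl⟩)).2.2
    rw [norm_smul, Real.norm_of_nonneg ht₀p.le] at h6
    nlinarith
  obtain ⟨s, hs, hsb⟩ := Metric.eventually_nhds_iff_ball.1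
    ((hlit b hb).and (hd.and hlow))
  have hcl : ∀ y ∈ closedBall (0 : E n) (s / 2), y ∈ ball (0 : E n) s :=
    fun y hy => closedBall_subset_ball (half_lt_self hs) hy
  refine ⟨‖H‖ + b, s / 2, by linarith [norm_nonneg H], by positivity, ?_, ?_, ?_⟩
  · exact fun y hy => ((hsb y (hcl y hy)).2.1).continuousAt.continuousWithinAt
  · intro y hy
    refine ⟨(hsb y (hcl y hy)).2.2, ?_⟩
    have hy' := mem_closedBall_zero_iff.1 hy
    have h1 : ∀ z ∈ closedBall (0 : E n) ‖y‖, ‖G z‖ ≤ (‖H‖ + b) * ‖y‖ := by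
      intro z hz
      have hz' := mem_closedBall_zero_iff.1 hz
      have h2 := (hsb z (hcl z (mem_closedBall_zero_iff.2 (hz'.trans hy')))).1
      calc ‖G z‖ = ‖(G z - H z) + H z‖ := by rw [sub_add_cancel]
        _ ≤ ‖G z - H z‖ + ‖H z‖ := norm_add_le _ _
        _ ≤ b * ‖z‖ + ‖H‖ * ‖z‖ := add_le_add h2 (H.le_opNorm z)
        _ = (‖H‖ + b) * ‖z‖ := by ring
        _ ≤ (‖H‖ + b) * ‖y‖ := by gcongr
    have h2 := (convex_closedBall (0 : E n) ‖y‖).norm_image_sub_le_of_norm_fderiv_le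
      (𝕜 := ℝ) (f := I) (C := (‖H‖ + b) * ‖y‖) (x := 0) (y := y)
      (fun z hz => (hsb z (hcl z (mem_closedBall_zero_iff.2
        ((mem_closedBall_zero_iff.1 hz).trans hy')))).2.1) h1
      (mem_closedBall_self (norm_nonneg _)) (mem_closedBall_zero_iff.2 le_rfl)
    rw [h0, sub_zero, sub_zero] at h2
    calc I y ≤ ‖I y‖ := Real.le_norm_self _
      _ ≤ (‖H‖ + b) * ‖y‖ * ‖y‖ := h2
      _ = (‖H‖ + b) * ‖y‖ ^ 2 := by ring
  · intro y hy t ht ht'
    have hy' := mem_closedBall_zero_iff.1 hy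
    have hrad : ∀ z ∈ closedBall (0 : E n) (s / 2), b * ‖z‖ ^ 2 ≤ G z z := by
      intro z hz
      have h1 := (hsb z (hcl z hz)).1
      have h2 : |G z z - H z z| ≤ b * ‖z‖ * ‖z‖ := by
        rw [← Real.norm_eq_abs, ← sub_apply]
        exact (ContinuousLinearMap.le_opNorm _ _).trans (by gcongr)
      have h3 := (abs_le.1 h2).1
      have h4 := hpos z
      nlinarith
    have hmem : ∀ x ∈ Icc (1 / 2 : ℝ) 1, x • y ∈ closedBall (0 : E n) (s / 2) := by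
      intro x hx
      rw [mem_closedBall_zero_iff, norm_smul, Real.norm_of_nonneg (by linarith [hx.1])]
      calc x * ‖y‖ ≤ 1 * ‖y‖ := by gcongr; exact hx.2
        _ ≤ s / 2 := by rw [one_mul]; exact hy'
    have hder : ∀ x ∈ Icc (1 / 2 : ℝ) 1,
        HasDerivAt (fun x : ℝ => I (x • y)) (G (x • y) y) x := by
      intro x hx
      have h1 : HasFDerivAt I (G (x • y)) (x • y) :=
        ((hsb _ (hcl _ (hmem x hx))).2.1).hasFDerivAt
      have h2 : HasDerivAt (fun t : ℝ => t • y) y x := by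
        simpa using (hasDerivAt_id x).smul_const y
      exact h1.comp_hasDerivAt x h2
    have h5 := (convex_Icc (1 / 2 : ℝ) 1).mul_sub_le_image_sub_of_le_deriv
      (f := fun x : ℝ => I (x • y)) (fun x hx => (hder x hx).continuousAt.continuousWithinAt)
      (fun x hx => ((hder x (interior_subset hx)).differentiableAt).differentiableWithinAt)
      (C := b / 2 * ‖y‖ ^ 2) ?_ (1 - t) ⟨by linarith, by linarith⟩ 1 ⟨by norm_num, le_rfl⟩
      (by linarith)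
    · simp only [one_smul] at h5
      have h6 : 0 ≤ t * (b / 4) * ‖y‖ ^ 2 := by positivity
      nlinarith
    · intro x hx
      have hx' := interior_subset hx
      rw [(hder x hx').deriv]
      have h6 := hrad _ (hmem x hx')
      rw [map_smul, smul_eq_mul, norm_smul, Real.norm_of_nonneg (by linarith [hx'.1])] at h6
      have hx0 : 0 < x := by linarith [hx'.1]
      have h7 : b * x * ‖y‖ ^ 2 ≤ G (x • y) y := by
        have : x * (b * x * ‖y‖ ^ 2) ≤ x * G (x • y) y := by nlinarith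
        exact le_of_mul_le_mul_left this hx0
      have h8 : b / 2 * ‖y‖ ^ 2 ≤ b * x * ‖y‖ ^ 2 := by
        have := hx'.1
        have h9 : 0 ≤ ‖y‖ ^ 2 := by positivity
        nlinarith [mul_nonneg hb.le h9]
      linarith

/-- bounds for a map with an injective derivative -/
theorem bounds {Φ : E n → E n} (h0 : Φ 0 = 0) (hd : DifferentiableAt ℝ Φ 0)
    (hinj : Function.Injective (fderiv ℝ Φ 0)) :
    ∃ c C : ℝ, 0 < c ∧ 1 ≤ C ∧ ∀ᶠ y in 𝓝 (0 : E n), c * ‖y‖ ≤ ‖Φ y‖ ∧ ‖Φ y‖ ≤ C * ‖y‖ := by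
  obtain ⟨k, hk, hka⟩ := (fderiv ℝ Φ 0).toLinearMap.exists_antilipschitzWith
    (LinearMap.ker_eq_bot.2 hinj)
  have hk' : (0 : ℝ) < k := by exact_mod_cast hk
  have hlow : ∀ v : E n, (1 / (k : ℝ)) * ‖v‖ ≤ ‖fderiv ℝ Φ 0 v‖ := by
    intro v
    have h1 := hka.le_mul_dist v 0
    simp only [dist_zero_right, map_zero] at h1
    have h2 : ‖v‖ ≤ k * ‖fderiv ℝ Φ 0 v‖ := h1
    rw [div_mul_eq_mul_div, one_mul, div_le_iff₀ hk']
    linarith
  refine ⟨1 / (2 * k), ‖fderiv ℝ Φ 0‖ + (1 / (2 * k) + 1), by positivity,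
    by have := norm_nonneg (fderiv ℝ Φ 0); have : 0 < 1 / (2 * (k : ℝ)) := by positivity
       linarith, ?_⟩
  have h1 := hd.hasFDerivAt.isLittleO.def (c := 1 / (2 * (k : ℝ))) (by positivity)
  filter_upwards [h1] with y hy
  rw [h0, sub_zero, sub_zero] at hy
  constructor
  · have h2 := hlow y
    have h3 : ‖fderiv ℝ Φ 0 y‖ ≤ ‖Φ y‖ + ‖Φ y - fderiv ℝ Φ 0 y‖ := by
      have := norm_sub_norm_le (fderiv ℝ Φ 0 y) (Φ y)
      rw [norm_sub_rev] at this
      linarith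
    have h4 : 1 / (k : ℝ) * ‖y‖ = 1 / (2 * k) * ‖y‖ + 1 / (2 * k) * ‖y‖ := by
      field_simp; ring
    linarith
  · have h2 := (fderiv ℝ Φ 0).le_opNorm y
    have h3 : ‖Φ y‖ ≤ ‖fderiv ℝ Φ 0 y‖ + ‖Φ y - fderiv ℝ Φ 0 y‖ := by
      calc ‖Φ y‖ = ‖fderiv ℝ Φ 0 y + (Φ y - fderiv ℝ Φ 0 y)‖ := by rw [add_sub_cancel]
        _ ≤ _ := norm_add_le _ _
    have h4 := norm_nonneg y
    nlinarith

end DEC_

open DEC_

theorem dec : T_DEC := by
  intro n r Φ I b hr hΦ0 hΦd hinj hI hI0 hb hlow hlit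
  obtain ⟨b₁, σ₀, hb₁, hσ₀, hIc, hIb, hIr⟩ := energy hI hI0 hb hlow
  obtain ⟨c₂, C₂, hc₂, hC₂, hΦb⟩ := bounds hΦ0 (hΦd.differentiableAt (by norm_num)) hinj
  have hb₁0 : 0 < b₁ := hb.trans_le hb₁
  set q := √(b₁ / b) with hq
  have hq0 : 0 < q := Real.sqrt_pos.2 (by positivity)
  have hq2 : b * q ^ 2 = b₁ := by
    rw [hq, Real.sq_sqrt (by positivity)]
    field_simp
  refine ⟨max 2 (4 * C₂ * q), le_max_left _ _, ?_⟩
  intro a c κ₀ hP ε hε hεκ σ hσ
  set N := max 2 (4 * C₂ * q) with hN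
  have hN2 : 2 ≤ N := le_max_left _ _
  have hNq : 4 * C₂ * q ≤ N := le_max_right _ _
  have hcpos := hP.c_pos
  -- the constant of the remainder
  set w₀ := ε * c * (b / 4) * c₂ ^ 2 / (2 * (2 * q) ^ (r - 1)) with hw
  have hw0 : 0 < w₀ := by positivity
  have hlit' := hlit.def hw0
  obtain ⟨s, hs, hsb⟩ := Metric.eventually_nhds_iff_ball.1 (hΦb.and hlit')
  set σ₁ := min (min (s / 2) σ₀) (σ / 2) with hσ₁
  have hσ₁0 : 0 < σ₁ := by positivity
  have hσ₁s : σ₁ < s := lt_of_le_of_lt ((min_le_left _ _).trans (min_le_left _ _)) (half_lt_self hs)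
  have hσ₁σ₀ : σ₁ ≤ σ₀ := (min_le_left _ _).trans (min_le_right _ _)
  have hσ₁σ : σ₁ < σ := lt_of_le_of_lt (min_le_right _ _) (half_lt_self hσ)
  set ρ := min 1 (σ₁ / (2 * N)) with hρ
  have hN0 : 0 < N := by linarith
  have hρ0 : 0 < ρ := by positivity
  have hρ1 : ρ ≤ 1 := min_le_left _ _
  have hNρ : N * ρ < σ₁ := by
    calc N * ρ ≤ N * (σ₁ / (2 * N)) := by gcongr; exact min_le_right _ _
      _ = σ₁ / 2 := by field_simp
      _ < σ₁ := half_lt_self hσ₁0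
  refine ⟨ρ, hρ0, hρ1, hNρ.trans hσ₁σ, closedBall 0 σ₁ ∩ I ⁻¹' Iic (4 * b₁ * ρ ^ 2), ?_, ?_, ?_,
    ?_, ?_⟩
  · have hc : ContinuousOn I (closedBall (0 : E n) σ₁) :=
      hIc.mono (closedBall_subset_closedBall hσ₁σ₀)
    have hcl := hc.preimage_isClosed_of_isClosed isClosed_closedBall (isClosed_Iic (a := 4 * b₁ * ρ ^ 2))
    exact (isCompact_closedBall (0 : E n) σ₁).of_isClosed_subset hcl inter_subset_left
  · exact inter_subset_left.trans (closedBall_subset_ball hσ₁σ)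
  all_goals
    have hopen : IsOpen (ball (0 : E n) σ₁ ∩ I ⁻¹' Iio (4 * b₁ * ρ ^ 2)) :=
      ((hIc.mono (ball_subset_closedBall.trans
        (closedBall_subset_closedBall hσ₁σ₀))).isOpen_inter_preimage isOpen_ball isOpen_Iio)
    have hint : ball (0 : E n) σ₁ ∩ I ⁻¹' Iio (4 * b₁ * ρ ^ 2) ⊆
        interior (closedBall 0 σ₁ ∩ I ⁻¹' Iic (4 * b₁ * ρ ^ 2)) := by
      refine interior_maximal ?_ hopen
      exact inter_subset_inter ball_subset_closedBall (preimage_mono Iio_subset_Iic_self)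
  · intro y hy
    have hy' := mem_closedBall_zero_iff.1 hy
    have h1 : ρ < σ₁ := by nlinarith
    refine hint ⟨mem_ball_zero_iff.2 (hy'.trans_lt h1), ?_⟩
    have h2 := (hIb y (mem_closedBall_zero_iff.2 (hy'.trans (h1.le.trans hσ₁σ₀)))).2
    show I y < 4 * b₁ * ρ ^ 2
    have h3 : ‖y‖ ^ 2 ≤ ρ ^ 2 := by gcongr
    have h4 : b₁ * ‖y‖ ^ 2 ≤ b₁ * ρ ^ 2 := by gcongr
    have h5 : 0 < b₁ * ρ ^ 2 := by positivity
    linarith
  · exact hIc.mono (inter_subset_left.trans (closedBall_subset_closedBall hσ₁σ₀))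
  · rintro y ⟨hy, hyI⟩
    have hyI' : I y ≤ 4 * b₁ * ρ ^ 2 := hyI
    have hy' := mem_closedBall_zero_iff.1 hy
    have hIy := hIb y (closedBall_subset_closedBall hσ₁σ₀ hy)
    have hs' := hsb y (mem_ball_zero_iff.2 (hy'.trans_lt hσ₁s))
    -- the size of `y`
    have hyq : ‖y‖ ≤ 2 * q * ρ := by
      have h1 : b * ‖y‖ ^ 2 ≤ b * (2 * q * ρ) ^ 2 := by
        have : b * (2 * q * ρ) ^ 2 = 4 * b₁ * ρ ^ 2 := by rw [← hq2]; ring
        linarith [hIy.1]
      have h2 : ‖y‖ ^ 2 ≤ (2 * q * ρ) ^ 2 := le_of_mul_le_mul_left h1 hb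
      exact le_of_sq_le_sq h2 (by positivity)
    have hz1 : ‖Φ y‖ ≤ N / 2 * ρ := by
      calc ‖Φ y‖ ≤ C₂ * ‖y‖ := hs'.1.2
        _ ≤ C₂ * (2 * q * ρ) := by gcongr
        _ = (4 * C₂ * q) / 2 * ρ := by ring
        _ ≤ N / 2 * ρ := by gcongr
    have hz2 : ‖Φ y‖ < σ₁ := by nlinarith
    have hz3 : Φ y ∈ closedBall (0 : E n) σ₀ := mem_closedBall_zero_iff.2 (hz2.le.trans hσ₁σ₀)
    -- the factor
    set κ := ε * ρ ^ (r - 1) with hκ
    set t := κ * a (‖Φ y‖ ^ 2 / ρ ^ 2) with ht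
    have hκ0 : 0 < κ := by positivity
    have hκ1 : κ ≤ 1 / 2 := by
      have h1 : ρ ^ (r - 1) ≤ 1 := pow_le_one₀ hρ0.le hρ1
      have h2 := hP.κ_le
      calc κ ≤ ε * 1 := by rw [hκ]; gcongr
        _ ≤ 1 / 2 := by linarith
    have ha1 : c ≤ a (‖Φ y‖ ^ 2 / ρ ^ 2) := by
      refine hP.low _ ?_
      rw [div_le_iff₀ (by positivity), ← mul_pow]
      gcongr
    have ht0 : κ * c ≤ t := by rw [ht]; gcongr
    have ht00 : 0 ≤ t := le_trans (by positivity) ht0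
    have ht1 : t ≤ 1 / 2 := by
      calc t ≤ κ * 1 := by rw [ht]; gcongr; exact hP.le_one _
        _ ≤ 1 / 2 := by linarith
    have hrad : rad a κ ρ (Φ y) = (1 - t) • Φ y := rfl
    rw [hrad]
    have hdec := hIr (Φ y) hz3 t ht00 ht1
    -- the remainder
    have hrem : I (Φ y) ≤ I y + w₀ * (2 * q * ρ) ^ (r - 1) * ‖y‖ ^ 2 := by
      have h1 := hs'.2
      rw [Real.norm_of_nonneg (by positivity : 0 ≤ ‖y‖ ^ (r + 1))] at h1
      have h2 : I (Φ y) - I y ≤ w₀ * ‖y‖ ^ (r + 1) := (Real.le_norm_self _).trans h1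
      have h3 : ‖y‖ ^ (r + 1) = ‖y‖ ^ (r - 1) * ‖y‖ ^ 2 := by
        rw [← pow_add]; congr 1; omega
      have h4 : ‖y‖ ^ (r - 1) ≤ (2 * q * ρ) ^ (r - 1) := by gcongr
      rw [h3] at h2
      have h5 : w₀ * (‖y‖ ^ (r - 1) * ‖y‖ ^ 2) ≤ w₀ * ((2 * q * ρ) ^ (r - 1) * ‖y‖ ^ 2) := by
        gcongr
      linarith
    have hwe : w₀ * (2 * q * ρ) ^ (r - 1) = κ * c * (b / 4) * c₂ ^ 2 / 2 := by
      have hX : (2 * q) ^ (r - 1) ≠ 0 := by positivity
      rw [hw, mul_pow (2 * q) ρ, hκ]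
      generalize (2 * q) ^ (r - 1) = X at hX ⊢
      field_simp
    have hgain : κ * c * (b / 4) * c₂ ^ 2 * ‖y‖ ^ 2 ≤ t * (b / 4) * ‖Φ y‖ ^ 2 := by
      have h1 : (c₂ * ‖y‖) ^ 2 ≤ ‖Φ y‖ ^ 2 := by
        have := hs'.1.1
        gcongr
      calc κ * c * (b / 4) * c₂ ^ 2 * ‖y‖ ^ 2 = κ * c * (b / 4) * (c₂ * ‖y‖) ^ 2 := by ring
        _ ≤ t * (b / 4) * ‖Φ y‖ ^ 2 := by gcongr
    have hfin : I ((1 - t) • Φ y) ≤ I y - κ * c * (b / 4) * c₂ ^ 2 / 2 * ‖y‖ ^ 2 := by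
      rw [hwe] at hrem
      linarith
    have hstrict : y ≠ 0 → I ((1 - t) • Φ y) < I y := by
      intro hy0
      have : 0 < ‖y‖ := norm_pos_iff.2 hy0
      have : 0 < κ * c * (b / 4) * c₂ ^ 2 / 2 * ‖y‖ ^ 2 := by positivity
      linarith
    refine ⟨hint ⟨?_, ?_⟩, hstrict⟩
    · rw [mem_ball_zero_iff, norm_smul, Real.norm_of_nonneg (by linarith)]
      have h1 : (1 - t) * ‖Φ y‖ ≤ 1 * ‖Φ y‖ := by gcongr; linarith
      linarith
    · show I ((1 - t) • Φ y) < 4 * b₁ * ρ ^ 2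
      rcases eq_or_ne y 0 with rfl | hy0
      · rw [hΦ0, smul_zero, hI0]
        positivity
      · exact (hstrict hy0).trans_le hyI'

end Pool.Agent.Pal
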