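import Mathlib

/-!
# Attractors, smooth volumes and `C^r` closeness on compact manifolds

Statement level definitions for the theorem on conservative diffeomorphisms with an elliptic
periodic point.
-/

set_option autoImplicit false

open Set MeasureTheory Filter Topology
open scoped Manifold ContDiff

namespace Pool.Agent.Pal

/-- The model space `ℝⁿ` with the Euclidean norm. -/
abbrev E (n : ℕ) : Type := EuclideanSpace ℝ (Fin n)

variable {n : ℕ} {M : Type} [TopologicalSpace M] [ChartedSpace (E n) M]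

variable (n M) in
/-- The smooth charts of the manifold `M`, i.e. its maximal `C^∞` atlas. -/
def Ch : Set (OpenPartialHomeomorph M (E n)) := IsManifold.maximalAtlas 𝓘(ℝ, E n) ∞ M

variable (n) in
/-- `g` is a `C^s` diffeomorphism of `M`. -/
def IsDiffeo (s : ℕ∞) (g : M → M) : Prop :=
  ∃ G : Diffeomorph 𝓘(ℝ, E n) 𝓘(ℝ, E n) M M s, (G : M → M) = g

variable (n) in
/-- `μ` is a smooth volume: around every point there is a smooth chart in which `μ` is Lebesgue
measure. -/
def IsVolume [MeasurableSpace M] (μ : Measure M) : Prop :=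
  ∀ q : M, ∃ e ∈ Ch n M, q ∈ e.source ∧
    ∀ A ⊆ e.source, MeasurableSet A → μ A = volume (e '' A)

/-- On `K` the derivatives of order at most `r` of `g` and `f`, read in the charts `e` and `e'`,
differ by less than `ε`. -/
def CrClose (r : ℕ) (f g : M → M) (e e' : OpenPartialHomeomorph M (E n)) (K : Set M) (ε : ℝ) :
    Prop :=
  MapsTo g K e'.source ∧ ∀ x ∈ K, ∀ j ≤ r,
    ‖iteratedFDeriv ℝ j (e' ∘ g ∘ e.symm) (e x) - iteratedFDeriv ℝ j (e' ∘ f ∘ e.symm) (e x)‖ < ε

variable (n) in
/-- `f` is in the closure of `D` in the `C^r` topology. -/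
def InClosure (r : ℕ) (f : M → M) (D : Set (M → M)) : Prop :=
  ∀ (N : ℕ) (e e' : Fin N → OpenPartialHomeomorph M (E n)) (K : Fin N → Set M) (ε : ℝ),
    (∀ i, e i ∈ Ch n M ∧ e' i ∈ Ch n M ∧ IsCompact (K i) ∧ K i ⊆ (e i).source ∧
      MapsTo f (K i) (e' i).source) → 0 < ε →
    ∃ g ∈ D, ∀ i, CrClose r f g (e i) (e' i) (K i) ε

/-- The basin of `Λ`: the points whose `ω`-limit set is contained in `Λ`. -/
def basin (g : M → M) (Λ : Set M) : Set M :=
  {x | ∀ y, MapClusterPt y atTop (fun k : ℕ => g^[k] x) → y ∈ Λ}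

/-- `Λ` is an attractor of `g`: it is invariant and transitive, and its basin has positive
measure. -/
def IsAttractor [MeasurableSpace M] (μ : Measure M) (g : M → M) (Λ : Set M) : Prop :=
  g '' Λ = Λ ∧ (∃ x ∈ Λ, Λ ⊆ closure (range fun k : ℕ => g^[k] x)) ∧ 0 < μ (basin g Λ)

/-- The derivative of `f^m` at `p` is elliptic: it has no real eigenvalue. -/
def NoRealEigenvalue (A : E n →L[ℝ] E n) : Prop := ∀ v : E n, v ≠ 0 → ∀ c : ℝ, A v ≠ c • v

end Pool.Agent.Pal
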