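import Pool.Agent.Pal.TAY

/-!
# PAL-EXPC: expansions of compositions
-/

set_option autoImplicit false

open Set Filter Topology Metric Asymptotics

namespace Pool.Agent.Pal

namespace EXPC_

open TAY_

/-- polynomials without terms of degree less than `s` -/
def PL (s : ℕ) : AddSubmonoid (ℂ → ℂ) := AddSubmonoid.closure {u | ∃ k, s ≤ k ∧ u ∈ Hom k}

theorem pl_mem {s k : ℕ} (h : s ≤ k) {u : ℂ → ℂ} (hu : u ∈ Hom k) : u ∈ PL s :=
  AddSubmonoid.subset_closure ⟨k, h, hu⟩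

theorem pl_le {s t : ℕ} (h : s ≤ t) {p : ℂ → ℂ} (hp : p ∈ PL t) : p ∈ PL s :=
  AddSubmonoid.closure_mono (fun _ hx => by
    obtain ⟨k, hk, hu⟩ := hx
    exact ⟨k, h.trans hk, hu⟩) hp

theorem pl_mul {s t : ℕ} {p q : ℂ → ℂ} (hp : p ∈ PL s) (hq : q ∈ PL t) :
    (p * q) ∈ PL (s + t) := by
  induction hp using AddSubmonoid.closure_induction with
  | mem u hu =>
    obtain ⟨k, hk, hu⟩ := hu
    induction hq using AddSubmonoid.closure_induction with
    | mem v hv =>
      obtain ⟨l, hl, hv⟩ := hv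
      exact pl_mem (by omega) (hom_mul hu hv)
    | zero => rw [mul_zero]; exact zero_mem _
    | add v w _ _ h1 h2 => rw [mul_add]; exact add_mem h1 h2
  | zero => rw [zero_mul]; exact zero_mem _
  | add v w _ _ h1 h2 => rw [add_mul]; exact add_mem h1 h2

theorem pl_smul {s : ℕ} {p : ℂ → ℂ} (a : ℂ) (hp : p ∈ PL s) : (fun z => a * p z) ∈ PL s := by
  have h := pl_mul (s := 0) (pl_mem (le_refl 0) (hom_mono 0 0 a)) hp
  rw [zero_add] at h
  refine (congrArg (· ∈ PL s) ?_).mp h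
  funext z
  simp

theorem pl_conj {s : ℕ} {p : ℂ → ℂ} (hp : p ∈ PL s) : (fun z => starRingEnd ℂ (p z)) ∈ PL s := by
  induction hp using AddSubmonoid.closure_induction with
  | mem u hu =>
    obtain ⟨k, hk, hu⟩ := hu
    exact pl_mem hk (hom_conj hu)
  | zero =>
    refine (congrArg (· ∈ PL s) ?_).mp (zero_mem _)
    funext z
    simp
  | add v w _ _ h1 h2 =>
    refine (congrArg (· ∈ PL s) ?_).mp (add_mem h1 h2)
    funext z
    simp

theorem pow_O {s t : ℕ} (h : s ≤ t) :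
    (fun z : ℂ => ‖z‖ ^ t) =O[𝓝 0] (fun z : ℂ => ‖z‖ ^ s) := by
  refine IsBigO.of_bound 1 ?_
  filter_upwards [Metric.ball_mem_nhds (0 : ℂ) one_pos] with z hz
  rw [mem_ball_zero_iff] at hz
  rw [one_mul, norm_pow, norm_pow, norm_norm]
  exact pow_le_pow_of_le_one (norm_nonneg _) hz.le h

theorem pow_o {s t : ℕ} (h : s < t) :
    (fun z : ℂ => ‖z‖ ^ t) =o[𝓝 0] (fun z : ℂ => ‖z‖ ^ s) := by
  have h1 : (fun z : ℂ => ‖z‖ ^ (t - s)) =o[𝓝 0] (fun _ : ℂ => (1 : ℝ)) := by
    rw [isLittleO_one_iff]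
    have : Tendsto (fun z : ℂ => ‖z‖ ^ (t - s)) (𝓝 0) (𝓝 (‖(0 : ℂ)‖ ^ (t - s))) :=
      (by fun_prop : Continuous fun z : ℂ => ‖z‖ ^ (t - s)).tendsto 0
    rwa [norm_zero, zero_pow (by omega)] at this
  have h2 := (isBigO_refl (fun z : ℂ => ‖z‖ ^ s) (𝓝 0)).mul_isLittleO h1
  simp only [mul_one] at h2
  refine h2.congr_left fun z => ?_
  rw [← pow_add]
  congr 1
  omega

theorem pl_O {s : ℕ} {p : ℂ → ℂ} (hp : p ∈ PL s) : p =O[𝓝 0] (fun z => ‖z‖ ^ s) := by
  induction hp using AddSubmonoid.closure_induction with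
  | mem u hu =>
    obtain ⟨k, hk, hu⟩ := hu
    obtain ⟨C, hC⟩ := hom_bound hu
    have h : u =O[𝓝 0] (fun z : ℂ => ‖z‖ ^ k) := by
      refine IsBigO.of_bound C (Eventually.of_forall fun z => ?_)
      rw [norm_pow, norm_norm]
      exact hC z
    exact h.trans (pow_O hk)
  | zero => exact isBigO_zero _ _
  | add v w _ _ h1 h2 => exact h1.add h2

theorem pl_trunc {s : ℕ} {p : ℂ → ℂ} (hp : p ∈ PL s) (t : ℕ) : ∃ v : ℕ → ℂ → ℂ,
    (∀ k, v k ∈ Hom k) ∧
      (fun z => p z - ∑ k ∈ Finset.Icc s t, v k z) =o[𝓝 0] (fun z => ‖z‖ ^ t) := by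
  classical
  induction hp using AddSubmonoid.closure_induction with
  | mem u hu =>
    obtain ⟨k, hk, hu⟩ := hu
    by_cases hkt : k ≤ t
    · refine ⟨fun i => if i = k then u else 0, fun i => ?_, ?_⟩
      · by_cases hi : i = k
        · simp only [hi, if_true]
          exact hu
        · simp only [hi, if_false]
          exact hom_zero i
      · have e : (fun z => u z - ∑ i ∈ Finset.Icc s t, (if i = k then u else 0) z) =
            fun _ => (0 : ℂ) := by
          funext z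
          rw [Finset.sum_eq_single k]
          · simp
          · intro b _ hb
            simp [hb]
          · intro h
            exact absurd (Finset.mem_Icc.2 ⟨hk, hkt⟩) h
        rw [e]
        exact isLittleO_zero _ _
    · refine ⟨fun _ => 0, fun i => hom_zero i, ?_⟩
      simp only [Pi.zero_apply, Finset.sum_const_zero, sub_zero]
      exact (pl_O (pl_mem le_rfl hu)).trans_isLittleO (pow_o (by omega))
  | zero =>
    refine ⟨fun _ => 0, fun i => hom_zero i, ?_⟩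
    simp only [Pi.zero_apply, Finset.sum_const_zero, sub_zero]
    exact isLittleO_zero _ _
  | add a b _ _ h1 h2 =>
    obtain ⟨v, hv, hv'⟩ := h1
    obtain ⟨w, hw, hw'⟩ := h2
    refine ⟨fun k => v k + w k, fun k => hom_add (hv k) (hw k), ?_⟩
    refine (hv'.add hw').congr_left fun z => ?_
    simp only [Pi.add_apply, Finset.sum_add_distrib]
    ring

/-- expansions with terms from degree `s`, error `o(‖z‖ ^ t)` -/
def Ex (s t : ℕ) (f : ℂ → ℂ) : Prop :=
  ∃ p ∈ PL s, (fun z => f z - p z) =o[𝓝 0] (fun z => ‖z‖ ^ t)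

theorem Ex.mono {s t s' t' : ℕ} {f : ℂ → ℂ} (h : Ex s t f) (hs : s' ≤ s) (ht : t' ≤ t) :
    Ex s' t' f := by
  obtain ⟨p, hp, hf⟩ := h
  exact ⟨p, pl_le hs hp, hf.trans_isBigO (pow_O ht)⟩

theorem Ex.big {s t : ℕ} {f : ℂ → ℂ} (h : Ex s t f) (hst : s ≤ t) :
    f =O[𝓝 0] (fun z => ‖z‖ ^ s) := by
  obtain ⟨p, hp, hf⟩ := h
  have h1 := (hf.isBigO.trans (pow_O hst)).add (pl_O hp)
  refine h1.congr_left fun z => ?_
  ring

theorem Ex.add {s t : ℕ} {f g : ℂ → ℂ} (hf : Ex s t f) (hg : Ex s t g) :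
    Ex s t (fun z => f z + g z) := by
  obtain ⟨p, hp, hf⟩ := hf
  obtain ⟨q, hq, hg⟩ := hg
  refine ⟨p + q, add_mem hp hq, (hf.add hg).congr_left fun z => ?_⟩
  rw [Pi.add_apply]
  ring

theorem Ex.zero (s t : ℕ) : Ex s t (fun _ => 0) :=
  ⟨0, zero_mem _, by simp⟩

theorem Ex.sum {ι : Type*} {s t : ℕ} (S : Finset ι) {f : ι → ℂ → ℂ} (h : ∀ i ∈ S, Ex s t (f i)) :
    Ex s t (fun z => ∑ i ∈ S, f i z) := by
  classical
  induction S using Finset.induction_on with
  | empty => simpa using Ex.zero s t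
  | insert a S ha ih =>
    have h1 := h a (Finset.mem_insert_self a S)
    have h2 := ih (fun i hi => h i (Finset.mem_insert_of_mem hi))
    simp only [Finset.sum_insert ha]
    exact h1.add h2

theorem Ex.smul {s t : ℕ} {f : ℂ → ℂ} (a : ℂ) (hf : Ex s t f) : Ex s t (fun z => a * f z) := by
  obtain ⟨p, hp, hf⟩ := hf
  refine ⟨_, pl_smul a hp, (hf.const_mul_left a).congr_left fun z => ?_⟩
  ring

theorem Ex.conj {s t : ℕ} {f : ℂ → ℂ} (hf : Ex s t f) : Ex s t (fun z => starRingEnd ℂ (f z)) := by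
  obtain ⟨p, hp, hf⟩ := hf
  refine ⟨_, pl_conj hp, ?_⟩
  rw [← isLittleO_norm_left] at hf ⊢
  refine hf.congr_left fun z => ?_
  rw [← map_sub, Complex.norm_conj]

/-- products gain one order -/
theorem Ex.mul {r : ℕ} (hr : 1 ≤ r) {f g : ℂ → ℂ} (hf : Ex 1 r f) (hg : Ex 1 r g) :
    Ex 2 (r + 1) (fun z => f z * g z) := by
  have hgO := hg.big hr
  obtain ⟨p, hp, hf⟩ := hf
  obtain ⟨q, hq, hg⟩ := hg
  have hpq := pl_mul hp hq
  rw [show 1 + 1 = 2 from rfl] at hpq
  refine ⟨p * q, hpq, ?_⟩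
  have h1 := hf.mul_isBigO hgO
  have h2 := (pl_O hp).mul_isLittleO hg
  have h3 : (fun z : ℂ => ‖z‖ ^ 1 * ‖z‖ ^ r) = fun z : ℂ => ‖z‖ ^ (r + 1) := by
    funext z; ring
  have h4 : (fun z : ℂ => ‖z‖ ^ r * ‖z‖ ^ 1) = fun z : ℂ => ‖z‖ ^ (r + 1) := by
    funext z; ring
  rw [h3] at h2
  rw [h4] at h1
  refine (h1.add h2).congr_left fun z => ?_
  rw [Pi.mul_apply]
  ring

theorem mon_B {r : ℕ} (hr : 1 ≤ r) {Φ : ℂ → ℂ} (h : Ex 1 r Φ) : ∀ (n i j : ℕ), i + j = n + 1 →
    Ex 1 r (fun z => Φ z ^ i * (starRingEnd ℂ (Φ z)) ^ j) := by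
  intro n
  induction n with
  | zero =>
    intro i j hij
    rcases i with _ | i
    · have : j = 1 := by omega
      subst this
      simpa using h.conj
    · have h1 : i = 0 := by omega
      have h2 : j = 0 := by omega
      subst h1 h2
      simpa using h
  | succ n ih =>
    intro i j hij
    rcases i with _ | i
    · obtain ⟨j', rfl⟩ : ∃ j', j = j' + 1 := ⟨j - 1, by omega⟩
      have h1 := (Ex.mul hr (ih 0 j' (by omega)) h.conj).mono (s' := 1) (t' := r) (by omega)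
        (by omega)
      obtain ⟨p, hp, hp'⟩ := h1
      refine ⟨p, hp, hp'.congr_left fun z => ?_⟩
      ring
    · have h1 := (Ex.mul hr (ih i j (by omega)) h).mono (s' := 1) (t' := r) (by omega)
        (by omega)
      obtain ⟨p, hp, hp'⟩ := h1
      refine ⟨p, hp, hp'.congr_left fun z => ?_⟩
      ring

theorem mon_A {r : ℕ} (hr : 1 ≤ r) {Φ : ℂ → ℂ} (h : Ex 1 r Φ) (i j : ℕ) (hij : 2 ≤ i + j) :
    Ex 2 (r + 1) (fun z => Φ z ^ i * (starRingEnd ℂ (Φ z)) ^ j) := by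
  rcases i with _ | i
  · obtain ⟨j', rfl⟩ : ∃ j', j = j' + 1 := ⟨j - 1, by omega⟩
    have h1 := Ex.mul hr (mon_B hr h (j' - 1) 0 j' (by omega)) h.conj
    obtain ⟨p, hp, hp'⟩ := h1
    refine ⟨p, hp, hp'.congr_left fun z => ?_⟩
    ring
  · have h1 := Ex.mul hr (mon_B hr h (i + j - 1) i j (by omega)) h
    obtain ⟨p, hp, hp'⟩ := h1
    refine ⟨p, hp, hp'.congr_left fun z => ?_⟩
    ring

end EXPC_

open TAY_ EXPC_

theorem expc : T_EXPC := by
  intro r K Φ hr h0 hΦ u hu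
  -- the expansion of Φ
  obtain ⟨w, hw, hw'⟩ := tay r Φ hΦ
  have hΦE : Ex 1 r Φ := by
    refine ⟨∑ k ∈ Finset.Icc 1 r, w k, sum_mem fun k hk => ?_, ?_⟩
    · exact pl_mem (Finset.mem_Icc.1 hk).1 (hw k)
    · have hw0 : ∀ z, w 0 z = 0 := by
        have h1 : ∀ z, w 0 z = w 0 0 := by
          intro z
          obtain ⟨c, hc⟩ := hw 0
          rw [hc, hc]
          simp
        have h2 : ∀ k, 1 ≤ k → w k 0 = 0 := by
          intro k hk
          obtain ⟨C, hC⟩ := hom_bound (hw k)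
          have := hC 0
          rw [norm_zero, zero_pow (by omega), mul_zero] at this
          exact norm_le_zero_iff.1 this
        have h3 := (isLittleO_iff.1 hw') one_pos
        have h4 := h3.self_of_nhds
        rw [norm_zero, zero_pow (by omega), norm_zero, mul_zero] at h4
        have h5 := norm_le_zero_iff.1 h4
        rw [Finset.sum_range_succ', Finset.sum_eq_zero (fun k _ => h2 (k + 1) (by omega)), h0] at h5
        intro z
        rw [h1 z]
        simpa using h5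
      refine hw'.congr_left fun z => ?_
      rw [Finset.sum_apply, Finset.range_eq_Ico, Finset.sum_eq_sum_Ico_succ_bot (by omega), hw0,
        zero_add]
      rfl
  have hsum : Ex 2 (r + 1) (fun z => ∑ k ∈ Finset.Icc 2 K, u k (Φ z)) := by
    refine Ex.sum _ fun k hk => ?_
    obtain ⟨c, hc⟩ := hu k
    have hk2 := (Finset.mem_Icc.1 hk).1
    have e : (fun z => u k (Φ z)) = fun z => ∑ i ∈ Finset.range (k + 1),
        c i * (Φ z ^ i * (starRingEnd ℂ (Φ z)) ^ (k - i)) := by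
      funext z
      rw [hc]
      refine Finset.sum_congr rfl fun i _ => ?_
      ring
    rw [e]
    refine Ex.sum _ fun i hi => ?_
    rw [Finset.mem_range] at hi
    exact (mon_A hr hΦE i (k - i) (by omega)).smul (c i)
  obtain ⟨p, hp, hp'⟩ := hsum
  obtain ⟨v, hv, hv'⟩ := pl_trunc hp (r + 1)
  refine ⟨v, hv, (hp'.add hv').congr_left fun z => ?_⟩
  ring

end Pool.Agent.Pal
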