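import Pool.Agent.Pal.Targets

/-!
# Modifications of maps of a manifold in a chart
-/

set_option autoImplicit false

open Set MeasureTheory Filter Topology Metric
open scoped Manifold ContDiff

namespace Pool.Agent.Pal

namespace EXT_

lemma iter_smooth {n : ℕ} {M : Type} [TopologicalSpace M] [ChartedSpace (E n) M] {s : ℕ∞}
    {g : M → M} (hg : ContMDiff 𝓘(ℝ, E n) 𝓘(ℝ, E n) s g) (m : ℕ) :
    ContMDiff 𝓘(ℝ, E n) 𝓘(ℝ, E n) s (g^[m]) := by
  induction m with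
  | zero => exact contMDiff_id
  | succ m ih =>
    rw [Function.iterate_succ]
    exact ih.comp hg

section

variable {n : ℕ} {M : Type} [TopologicalSpace M]
  (e : OpenPartialHomeomorph M (E n)) {C : Set (E n)} {L : E n → E n}

lemma maps_target (hCt : C ⊆ e.target) (hL : Mod C L) (hLC : ∀ y ∈ C, L y ∈ C) :
    ∀ y ∈ e.target, L y ∈ e.target := by
  intro y hy
  by_cases h : y ∈ C
  · exact hCt (hLC y h)
  · rw [hL.2 y h]
    exact hy

lemma ext_source (hCt : C ⊆ e.target) (hL : Mod C L) (hLC : ∀ y ∈ C, L y ∈ C) (x : M)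
    (hx : x ∈ e.source) : ext e L x ∈ e.source ∧ e (ext e L x) = L (e x) := by
  have h1 : L (e x) ∈ e.target := maps_target e hCt hL hLC _ (e.map_source hx)
  have h2 : ext e L x = e.symm (L (e x)) := by
    unfold ext
    rw [if_pos hx]
  rw [h2]
  exact ⟨e.map_target h1, e.right_inv h1⟩

lemma ext_off (hL : Mod C L) (x : M) (hx : x ∉ e.symm '' C) : ext e L x = x := by
  unfold ext
  split_ifs with h
  · have h1 : e x ∉ C := fun h2 => hx ⟨e x, h2, e.left_inv h⟩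
    rw [hL.2 _ h1, e.left_inv h]
  · rfl

lemma ext_inv {L' : E n → E n} (hCt : C ⊆ e.target) (hL : Mod C L) (hLC : ∀ y ∈ C, L y ∈ C)
    (hinv : Function.LeftInverse L' L) (x : M) : ext e L' (ext e L x) = x := by
  by_cases hx : x ∈ e.source
  · obtain ⟨h1, h2⟩ := ext_source e hCt hL hLC x hx
    have h3 : ext e L' (ext e L x) = e.symm (L' (e (ext e L x))) := if_pos h1
    rw [h3, h2, hinv, e.left_inv hx]
  · have h1 : ext e L x = x := by
      unfold ext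
      rw [if_neg hx]
    rw [h1]
    unfold ext
    rw [if_neg hx]

lemma ext_smooth [ChartedSpace (E n) M] [IsManifold 𝓘(ℝ, E n) ∞ M] [T2Space M] (he : e ∈ Ch n M) (hC : IsCompact C)
    (hCt : C ⊆ e.target) (hL : Mod C L) (hLC : ∀ y ∈ C, L y ∈ C) :
    ContMDiff 𝓘(ℝ, E n) 𝓘(ℝ, E n) ∞ (ext e L) := by
  intro x
  by_cases hx : x ∈ e.source
  · have h1 : ContMDiffAt 𝓘(ℝ, E n) 𝓘(ℝ, E n) ∞ e x := contMDiffAt_of_mem_maximalAtlas he hx
    have h2 : ContMDiffAt 𝓘(ℝ, E n) 𝓘(ℝ, E n) ∞ L (e x) := hL.1.contMDiff.contMDiffAt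
    have hLt : L (e x) ∈ e.target := maps_target e hCt hL hLC _ (e.map_source hx)
    have h3 : ContMDiffAt 𝓘(ℝ, E n) 𝓘(ℝ, E n) ∞ e.symm (L (e x)) :=
      contMDiffAt_symm_of_mem_maximalAtlas he hLt
    have h4 : ContMDiffAt 𝓘(ℝ, E n) 𝓘(ℝ, E n) ∞ (e.symm ∘ L ∘ e) x :=
      ContMDiffAt.comp x h3 (ContMDiffAt.comp x h2 h1)
    refine h4.congr_of_eventuallyEq ?_
    filter_upwards [e.open_source.mem_nhds hx] with z hz
    unfold ext
    rw [if_pos hz]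
    rfl
  · have hcl : IsClosed (e.symm '' C) :=
      (hC.image_of_continuousOn (e.continuousOn_symm.mono hCt)).isClosed
    have hx2 : x ∉ e.symm '' C := by
      rintro ⟨y, hy, rfl⟩
      exact hx (e.map_target (hCt hy))
    have h4 : ContMDiffAt 𝓘(ℝ, E n) 𝓘(ℝ, E n) ∞ (id : M → M) x := contMDiffAt_id
    refine h4.congr_of_eventuallyEq ?_
    filter_upwards [hcl.isOpen_compl.mem_nhds hx2] with z hz
    exact ext_off e hL z hz

end

end EXT_

open EXT_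

theorem ext1 (h : T_MOD) : T_EXT := by
  intro n M _ _ _ _ e C L he hC hCt hL hN
  obtain ⟨hbij, hLC, -, L', hL', hl, hr⟩ := h n C L hC hL hN
  have hLC1 : ∀ y ∈ C, L y ∈ C := fun y hy => hLC ▸ mem_image_of_mem L hy
  have hLC2 : ∀ y ∈ C, L' y ∈ C := by
    intro y hy
    rw [← hLC] at hy
    obtain ⟨z, hz, rfl⟩ := hy
    rw [hl z]
    exact hz
  refine ⟨?_, fun x hx => ext_source e hCt hL hLC1 x hx, fun x hx => ext_off e hL x hx⟩
  refine ⟨⟨⟨ext e L, ext e L', fun x => ext_inv e hCt hL hLC1 hl x,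
    fun x => ext_inv e hCt hL' hLC2 hr x⟩, ?_, ?_⟩, rfl⟩
  · exact ext_smooth e he hC hCt hL hLC1
  · exact ext_smooth e he hC hCt hL' hLC2

theorem diff1 : T_DIFF := by
  intro n M _ _ _ s
  refine ⟨?_, ?_, ?_, ?_⟩
  · rintro g h ⟨G, rfl⟩ ⟨H, rfl⟩
    exact ⟨H.trans G, rfl⟩
  · rintro g ⟨G, rfl⟩
    have hle : ((s : ℕ∞) : WithTop ℕ∞) ≤ (((⊤ : ℕ∞)) : WithTop ℕ∞) := by exact_mod_cast le_top
    exact ⟨⟨G.toEquiv, G.contMDiff.of_le hle, G.symm.contMDiff.of_le hle⟩, rfl⟩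
  · rintro g ⟨G, rfl⟩
    exact ⟨G.toHomeomorph, rfl⟩
  · rintro g m e e' x ⟨G, rfl⟩ he he' hx hx'
    have hle : ((s : ℕ∞) : WithTop ℕ∞) ≤ (∞ : WithTop ℕ∞) := by exact_mod_cast le_top
    have hG : ContMDiff 𝓘(ℝ, E n) 𝓘(ℝ, E n) s ((G : M → M)^[m]) := iter_smooth G.contMDiff m
    have h1 : ContMDiffAt 𝓘(ℝ, E n) 𝓘(ℝ, E n) s e.symm (e x) :=
      (contMDiffAt_symm_of_mem_maximalAtlas he (e.map_source hx)).of_le hle
    have h2 : ContMDiffAt 𝓘(ℝ, E n) 𝓘(ℝ, E n) s ((G : M → M)^[m]) (e.symm (e x)) := hG _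
    have h3 : ContMDiffAt 𝓘(ℝ, E n) 𝓘(ℝ, E n) s e' ((G : M → M)^[m] (e.symm (e x))) := by
      rw [e.left_inv hx]
      exact (contMDiffAt_of_mem_maximalAtlas he' hx').of_le hle
    have h4 : ContMDiffAt 𝓘(ℝ, E n) 𝓘(ℝ, E n) s (e' ∘ (G : M → M)^[m] ∘ e.symm) (e x) :=
      ContMDiffAt.comp (e x) h3 (ContMDiffAt.comp (e x) h2 h1)
    exact h4.contDiffAt

end Pool.Agent.Pal
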