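import Pool.Agent.Pal.Targets

/-!
# Every point off the small balls is good
-/

set_option autoImplicit false

open Set MeasureTheory Filter Topology Metric
open scoped Manifold ContDiff

namespace Pool.Agent.Pal


theorem goodall (hS : T_GOODSTEP) (hV : T_VOL) : T_GOODALL := by
  intro n M _ _ _ _ _ _ _ μ _ s r P d hrs hμ hP hd
  set G : Set M := {x | (∃ p ∈ P, dist x p ≤ d / 4) ∨ ∃ V, IsOpen V ∧ x ∈ V ∧ Good n μ s r P d V}
    with hG
  have hopen : IsOpen G := by
    rw [isOpen_iff_mem_nhds]
    intro x hx
    rcases hx with ⟨p, hp, hxp⟩ | ⟨V, hVo, hxV, hgV⟩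
    · refine mem_of_superset (ball_mem_nhds x (by positivity : 0 < d / 8)) ?_
      intro y hy
      right
      refine ⟨ball y (d / 16), isOpen_ball, mem_ball_self (by positivity), ?_⟩
      intro g U η hg hR hgU hη
      refine ⟨id, closedBall y (d / 16), 1, ⟨Diffeomorph.refl 𝓘(ℝ, E n) M _, rfl⟩, hgU, ?_,
        fun _ _ => rfl, isClosed_closedBall, ?_, one_pos, ?_, ?_⟩
      · intro x
        rw [id, dist_self]
        exact hη
      · intro z hz
        refine ⟨p, hp, ?_⟩
        rw [mem_closedBall] at hz
        rw [mem_ball] at hy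
        have h1 := dist_triangle z y p
        have h2 := dist_triangle y x p
        linarith
      · intro A _ hA hAS
        have h1 : A = ∅ := by
          rw [Set.eq_empty_iff_forall_notMem]
          intro z hz
          exact (Set.disjoint_left.1 hAS hz) (ball_subset_closedBall (hA hz))
        rw [h1]
        simp
      · intro A _ _
        rw [image_id]
    · refine mem_of_superset (hVo.mem_nhds hxV) ?_
      intro y hy
      right
      exact ⟨V, hVo, hy, hgV⟩
  have hclosed : IsClosed G := by
    rw [← closure_subset_iff_isClosed]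
    intro x hx
    by_contra hxG
    have hxd : ∀ p ∈ P, d / 4 < dist x p := by
      intro p hp
      by_contra hcon
      exact hxG (Or.inl ⟨p, hp, not_lt.1 hcon⟩)
    obtain ⟨e, heU, hxe, he0⟩ := (hV n M μ hμ).2.2 x
    have hsy : e.symm 0 = x := by
      rw [← he0]
      exact e.left_inv hxe
    have h0t : (0 : E n) ∈ e.target := by
      rw [← he0]
      exact e.map_source hxe
    set O : Set M := {z | ∀ p ∈ P, d / 4 < dist z p} with hO
    have hOo : IsOpen O := by
      rw [hO]
      simp only [Set.ofPred_forall]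
      exact isOpen_biInter_finset fun p _ =>
        isOpen_lt continuous_const (continuous_id.dist continuous_const)
    have hnb : e.target ∩ e.symm ⁻¹' O ∈ 𝓝 (0 : E n) := by
      refine Filter.inter_mem (e.open_target.mem_nhds h0t) ?_
      refine (e.continuousAt_symm h0t).preimage_mem_nhds ?_
      rw [hsy]
      exact hOo.mem_nhds hxd
    obtain ⟨ρ, hρ, hball⟩ := Metric.nhds_basis_closedBall.mem_iff.1 hnb
    -- a good point near x
    have hnx : e.symm '' ball (0 : E n) (ρ / 4) ∈ 𝓝 x := by
      have h1 : ball (0 : E n) (ρ / 4) ∈ 𝓝 (e x) := by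
        rw [he0]
        exact ball_mem_nhds _ (by positivity)
      have h2 := e.symm_image_eq_source_inter_preimage (s := ball (0 : E n) (ρ / 4))
        (fun y hy => (hball (mem_closedBall.2 (by
          rw [mem_ball] at hy
          linarith))).1)
      rw [h2]
      exact Filter.inter_mem (e.open_source.mem_nhds hxe)
        ((e.continuousAt hxe).preimage_mem_nhds h1)
    obtain ⟨x', ⟨y', hy', rfl⟩, hx'G⟩ := mem_closure_iff_nhds.1 hx _ hnx
    rw [mem_ball] at hy'
    have hy'c : y' ∈ closedBall (0 : E n) ρ := mem_closedBall.2 (by linarith)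
    have hy't : y' ∈ e.target := (hball hy'c).1
    have hne : y' ≠ 0 := by
      rintro rfl
      rw [hsy] at hx'G
      exact hxG hx'G
    rcases hx'G with ⟨p, hp, hxp⟩ | ⟨V, hVo, hxV, hgV⟩
    · exact absurd ((hball hy'c).2 p hp) (not_lt.2 hxp)
    · have hVn : e.symm ⁻¹' V ∈ 𝓝 y' :=
        (e.continuousAt_symm hy't).preimage_mem_nhds (hVo.mem_nhds hxV)
      obtain ⟨σ₂, hσ₂, hball₂⟩ := Metric.nhds_basis_closedBall.mem_iff.1 hVn
      have hny : 0 < ‖y'‖ := norm_pos_iff.2 hne
      set σ : ℝ := min σ₂ (min (ρ / 4) (‖y'‖ / 2)) with hσ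
      have hσpos : 0 < σ := by
        rw [hσ]
        positivity
      have hσ1 : σ ≤ σ₂ := min_le_left _ _
      have hσ2 : σ ≤ ρ / 4 := (min_le_right _ _).trans (min_le_left _ _)
      have hσ3 : σ ≤ ‖y'‖ / 2 := (min_le_right _ _).trans (min_le_right _ _)
      have hseg : segment ℝ (0 : E n) y' ⊆ closedBall 0 (ρ / 4) := by
        refine (convex_closedBall (0 : E n) (ρ / 4)).segment_subset ?_ ?_
        · exact mem_closedBall_self (by positivity)
        · exact mem_closedBall.2 (by linarith)
      have hthick : cthickening σ (segment ℝ (0 : E n) y') ⊆ closedBall 0 ρ := by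
        refine (cthickening_subset_of_subset σ hseg).trans ?_
        rw [cthickening_closedBall hσpos.le (by positivity)]
        exact closedBall_subset_closedBall (by linarith)
      have hgood := hS n M μ s r P d e (0 : E n) y' σ V hrs heU hσpos
        (by rw [zero_sub, norm_neg]; linarith) (hthick.trans fun y hy => (hball hy).1)
        (fun y hy p hp => (hball (hthick hy)).2 p hp) hVo
        (fun y hy => hball₂ (closedBall_subset_closedBall hσ1 hy)) hgV
      refine hxG (Or.inr ⟨e.symm '' ball (0 : E n) (σ / 8), ?_, ?_, hgood⟩)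
      · refine e.symm.isOpen_image_of_subset_source isOpen_ball ?_
        intro y hy
        rw [mem_ball] at hy
        exact (hball (mem_closedBall.2 (by linarith))).1
      · exact ⟨0, mem_ball_self (by positivity), hsy⟩
  have huniv : G = univ := by
    refine IsClopen.eq_univ ⟨hclosed, hopen⟩ ?_
    obtain ⟨p, hp⟩ := hP
    refine ⟨p, Or.inl ⟨p, hp, ?_⟩⟩
    rw [dist_self]
    positivity
  intro x hx
  have h1 : x ∈ G := by
    rw [huniv]
    exact mem_univ x
  rcases h1 with ⟨p, hp, hxp⟩ | h
  · exact absurd (hx p hp) (not_lt.2 hxp)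
  · exact h

end Pool.Agent.Pal
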