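import Pool.Agent.Pal.Targets

/-!
# Strict expansion off small balls around the points of `P`
-/

set_option autoImplicit false

open Set MeasureTheory Filter Topology Metric
open scoped Manifold ContDiff

namespace Pool.Agent.Pal

namespace GLO_

lemma isDiffeo_id {n : ℕ} {M : Type} [TopologicalSpace M] [ChartedSpace (E n) M] (s : ℕ∞) :
    IsDiffeo n s (id : M → M) :=
  ⟨Diffeomorph.refl 𝓘(ℝ, E n) M s, rfl⟩

lemma measurableSet_image {n : ℕ} {M : Type} [TopologicalSpace M] [ChartedSpace (E n) M]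
    [MeasurableSpace M] [BorelSpace M] {s : ℕ∞} {ψ : M → M} (h : IsDiffeo n s ψ) {A : Set M}
    (hA : MeasurableSet A) : MeasurableSet (ψ '' A) := by
  obtain ⟨G, rfl⟩ := h
  exact (G.toHomeomorph.measurableEmbedding.measurableSet_image).2 hA

lemma injective {n : ℕ} {M : Type} [TopologicalSpace M] [ChartedSpace (E n) M]
    {s : ℕ∞} {ψ : M → M} (h : IsDiffeo n s ψ) : Function.Injective ψ := by
  obtain ⟨G, rfl⟩ := h
  exact G.injective

end GLO_

open GLO_ in
theorem glo (hG : T_GOODALL) (hD : T_DIFF) : T_GLO := by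
  intro n M _ _ _ _ _ _ _ μ _ s r P d hrs hμ hP hd g U η hg hR hgU hη
  set Q : Set M := {x | ∀ p ∈ P, d ≤ dist x p} with hQ
  -- good balls
  have hgood : ∀ x ∈ Q, ∃ ε : ℝ, 0 < ε ∧ Good n μ s r P d (ball x (2 * ε)) := by
    intro x hx
    obtain ⟨V, hV, hxV, hgV⟩ := hG n M μ s r P d hrs hμ hP hd x fun p hp => by
      have := hx p hp
      linarith
    obtain ⟨ε, hε, hball⟩ := Metric.isOpen_iff.1 hV x hxV
    refine ⟨ε / 2, by positivity, ?_⟩
    intro g' U' η' h1 h2 h3 h4
    obtain ⟨ψ, S, θ, a1, a2, a3, a4, a5, a6, a7, a8, a9⟩ := hgV g' U' η' h1 h2 h3 h4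
    refine ⟨ψ, S, θ, a1, a2, a3, a4, a5, a6, a7, fun A hA hAV hAS => ?_, a9⟩
    refine a8 A hA (hAV.trans ?_) hAS
    rw [show 2 * (ε / 2) = ε by ring]
    exact hball
  choose! ε hε hgε using hgood
  have hQc : IsCompact Q := by
    refine IsClosed.isCompact ?_
    rw [hQ]
    simp only [Set.ofPred_forall]
    exact isClosed_biInter fun p _ => isClosed_le continuous_const (continuous_id.dist continuous_const)
  obtain ⟨t, htQ, hcov⟩ := hQc.elim_nhds_subcover (fun x => ball x (ε x))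
    fun x hx => ball_mem_nhds x (hε x hx)
  -- induction
  have hind : ∀ t : Finset M, (∀ x ∈ t, x ∈ Q) → ∀ η : ℝ, 0 < η → η ≤ d / 2 →
      (∀ x ∈ t, η / 2 ≤ ε x) → ∃ ψ : M → M, IsDiffeo n ⊤ ψ ∧ (ψ ∘ g) ∈ U ∧
        (∀ x, dist (ψ x) x < η) ∧ (∀ x, (∃ p ∈ P, dist x p ≤ d / 4) → ψ x = x) ∧
        (∀ A, MeasurableSet A → (∀ x ∈ A, ∀ p ∈ P, 3 * d / 4 ≤ dist x p) → μ A ≤ μ (ψ '' A)) ∧
        ∀ x ∈ t, ∀ A, MeasurableSet A → A ⊆ ball x (ε x) →
          (∀ x ∈ A, ∀ p ∈ P, 3 * d / 4 ≤ dist x p) → 0 < μ A → μ A < μ (ψ '' A) := by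
    intro t
    classical
    induction t using Finset.induction_on with
    | empty =>
      intro _ η hη _ _
      refine ⟨id, isDiffeo_id ⊤, hgU, ?_, fun _ _ => rfl, ?_, ?_⟩
      · intro x
        rw [id, dist_self]
        exact hη
      · intro A _ _
        rw [image_id]
      · intro x hx
        simp at hx
    | insert x₀ t hx₀ ih =>
      intro htQ η hη hηd hηε
      obtain ⟨ψ, b1, b2, b3, b4, b5, b6⟩ := ih (fun x hx => htQ x (Finset.mem_insert_of_mem hx))
        (η / 2) (by linarith) (by linarith) fun x hx => by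
          have := hηε x (Finset.mem_insert_of_mem hx)
          linarith
      have hx₀Q : x₀ ∈ Q := htQ x₀ (Finset.mem_insert_self _ _)
      have hψg : IsDiffeo n s (ψ ∘ g) :=
        (hD n M s).1 ψ g ((hD n M s).2.1 ψ b1) hg
      obtain ⟨ψ₀, S, θ, a1, a2, a3, a4, a5, a6, a7, a8, a9⟩ :=
        hgε x₀ hx₀Q (ψ ∘ g) U (η / 2) hψg hR b2 (by linarith)
      have hdisj : ∀ A : Set M, (∀ x ∈ A, ∀ p ∈ P, 3 * d / 4 ≤ dist x p) →
          Disjoint (ψ '' A) S := by
        intro A hA
        rw [Set.disjoint_left]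
        rintro _ ⟨x, hx, rfl⟩ hS
        obtain ⟨p, hp, hxp⟩ := a6 _ hS
        have h1 := hA x hx p hp
        have h2 := b3 x
        have h3 := dist_triangle x (ψ x) p
        rw [dist_comm x (ψ x)] at h3
        linarith
      refine ⟨ψ₀ ∘ ψ, (hD n M ⊤).1 ψ₀ ψ a1 b1, ?_, ?_, ?_, ?_, ?_⟩
      · exact a2
      · intro x
        have h1 := a3 (ψ x)
        have h2 := b3 x
        have h3 := dist_triangle (ψ₀ (ψ x)) (ψ x) x
        simp only [Function.comp_apply]
        linarith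
      · intro x hx
        simp only [Function.comp_apply]
        rw [b4 x hx, a4 x hx]
      · intro A hA hAd
        rw [image_comp]
        exact (b5 A hA hAd).trans (a9 _ (measurableSet_image b1 hA) (hdisj A hAd))
      · intro x hx A hA hAx hAd hpos
        rw [image_comp]
        rcases Finset.mem_insert.1 hx with rfl | hx
        · have h1 : ψ '' A ⊆ ball x (2 * ε x) := by
            rintro _ ⟨y, hy, rfl⟩
            have h2 : dist y x < ε x := hAx hy
            have h3 := b3 y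
            have h4 := dist_triangle (ψ y) y x
            have h5 := hηε x (Finset.mem_insert_self _ _)
            rw [mem_ball]
            linarith
          have h2 := a8 _ (measurableSet_image b1 hA) h1 (hdisj A hAd)
          have h3 := b5 A hA hAd
          calc μ A < ENNReal.ofReal (1 + θ) * μ A := by
                have h4 : (1 : ENNReal) < ENNReal.ofReal (1 + θ) := by
                  rw [← ENNReal.ofReal_one]
                  exact (ENNReal.ofReal_lt_ofReal_iff (by linarith)).2 (by linarith)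
                calc μ A = 1 * μ A := (one_mul _).symm
                  _ < ENNReal.ofReal (1 + θ) * μ A :=
                    (ENNReal.mul_lt_mul_iff_left hpos.ne' (measure_ne_top μ A)).2 h4
            _ ≤ ENNReal.ofReal (1 + θ) * μ (ψ '' A) := by gcongr
            _ ≤ μ (ψ₀ '' (ψ '' A)) := h2
        · exact (b6 x hx A hA hAx hAd hpos).trans_le
            (a9 _ (measurableSet_image b1 hA) (hdisj A hAd))
  -- choose the displacement
  have hex : ∃ η' : ℝ, 0 < η' ∧ η' ≤ η ∧ η' ≤ d / 2 ∧ ∀ x ∈ t, η' / 2 ≤ ε x := by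
    have h1 : ∀ᶠ η' : ℝ in 𝓝[>] 0, 0 < η' := eventually_mem_nhdsWithin
    have h2 : ∀ᶠ η' : ℝ in 𝓝[>] 0, η' ≤ η :=
      eventually_nhdsWithin_of_eventually_nhds (eventually_le_nhds hη)
    have h3 : ∀ᶠ η' : ℝ in 𝓝[>] 0, η' ≤ d / 2 :=
      eventually_nhdsWithin_of_eventually_nhds (eventually_le_nhds (by linarith))
    have h4 : ∀ᶠ η' : ℝ in 𝓝[>] 0, ∀ x ∈ t, η' / 2 ≤ ε x := by
      rw [Filter.eventually_all_finset]
      intro x hx
      have h5 := hε x (htQ x hx)
      filter_upwards [eventually_nhdsWithin_of_eventually_nhds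
        (eventually_le_nhds (by linarith : (0 : ℝ) < 2 * ε x))] with y hy
      linarith
    exact (h1.and (h2.and (h3.and h4))).exists
  obtain ⟨η', k1, k2, k3, k4⟩ := hex
  obtain ⟨ψ, b1, b2, b3, b4, b5, b6⟩ := hind t htQ η' k1 k3 k4
  refine ⟨ψ, b1, b2, fun x => (b3 x).trans_le k2, b4, ?_⟩
  intro A hA hAd hpos
  have hAQ : A ⊆ Q := fun x hx p hp => hAd x hx p hp
  have hAd' : ∀ x ∈ A, ∀ p ∈ P, 3 * d / 4 ≤ dist x p := by
    intro x hx p hp
    have := hAd x hx p hp
    linarith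
  obtain ⟨x, hx, hxpos⟩ : ∃ x ∈ t, 0 < μ (A ∩ ball x (ε x)) := by
    by_contra hcon
    push Not at hcon
    have h1 : μ A ≤ ∑ x ∈ t, μ (A ∩ ball x (ε x)) := by
      refine le_trans (measure_mono ?_) (measure_biUnion_finset_le t fun x => A ∩ ball x (ε x))
      intro y hy
      obtain ⟨x, hx, hyx⟩ := mem_iUnion₂.1 (hcov (hAQ hy))
      exact mem_iUnion₂.2 ⟨x, hx, hy, hyx⟩
    rw [Finset.sum_eq_zero fun x hx => le_antisymm (hcon x hx) bot_le] at h1
    exact absurd hpos (not_lt.2 h1)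
  set A₁ := A ∩ ball x (ε x) with hA₁
  have hmA₁ : MeasurableSet A₁ := hA.inter measurableSet_ball
  have hmA₂ : MeasurableSet (A \ A₁) := hA.diff hmA₁
  have hsplit : A = A₁ ∪ (A \ A₁) := (union_sdiff_cancel inter_subset_left).symm
  have h1 : μ A₁ < μ (ψ '' A₁) := b6 x hx A₁ hmA₁ inter_subset_right
    (fun y hy => hAd' y hy.1) hxpos
  have h2 : μ (A \ A₁) ≤ μ (ψ '' (A \ A₁)) := b5 _ hmA₂ fun y hy => hAd' y hy.1
  have hdis : Disjoint A₁ (A \ A₁) := disjoint_sdiff_right
  calc μ A = μ A₁ + μ (A \ A₁) := by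
        conv_lhs => rw [hsplit]
        exact measure_union hdis hmA₂
    _ < μ (ψ '' A₁) + μ (ψ '' (A \ A₁)) :=
        ENNReal.add_lt_add_of_lt_of_le (measure_ne_top μ _) h1 h2
    _ = μ (ψ '' A) := by
        conv_rhs => rw [hsplit]
        rw [image_union, measure_union _ (measurableSet_image b1 hmA₂)]
        exact (disjoint_image_iff (injective b1)).2 hdis

end Pool.Agent.Pal
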