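import Pool.Agent.Pal.Targets

/-!
# One step of the spreading of the expansion
-/

set_option autoImplicit false

open Set MeasureTheory Filter Topology Metric
open scoped Manifold ContDiff

namespace Pool.Agent.Pal

theorem goodstep (hT : T_TRANS) (hE : T_EXT) (hD : T_DIFF) (hC : T_C0) (hV : T_VOLM) :
    T_GOODSTEP := by
  intro n M _ _ _ _ _ _ μ _ s r P d e y₀ y₁ σ V hrs hU hσ hd hCt hCP hVo hyV hG g U η hg hRob hgU hη
  obtain ⟨T, hT1, hT2, hT3⟩ := hT n y₀ y₁ σ hσ hd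
  have hCc : IsCompact (cthickening σ (segment ℝ y₀ y₁)) := by
    apply IsCompact.cthickening
    rw [segment_eq_image]
    exact isCompact_Icc.image (by fun_prop)
  have hB1 : closedBall y₁ σ ⊆ cthickening σ (segment ℝ y₀ y₁) := by
    intro y hy
    apply mem_cthickening_of_dist_le y y₁ σ _ (right_mem_segment ℝ y₀ y₁)
    exact mem_closedBall.1 hy
  have hB0 : closedBall y₀ σ ⊆ cthickening σ (segment ℝ y₀ y₁) := by
    intro y hy
    apply mem_cthickening_of_dist_le y y₀ σ _ (left_mem_segment ℝ y₀ y₁)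
    exact mem_closedBall.1 hy
  -- the compact sets
  have hQ : IsCompact (e.symm '' closedBall y₁ σ) :=
    (isCompact_closedBall y₁ σ).image_of_continuousOn
      (e.symm.continuousOn.mono (by simpa using hB1.trans hCt))
  have hQV : e.symm '' closedBall y₁ σ ⊆ V := by
    rintro _ ⟨y, hy, rfl⟩
    exact hyV y hy
  have h8 : closedBall y₀ (σ / 8) ⊆ closedBall y₀ σ := closedBall_subset_closedBall (by linarith)
  have h4 : ball y₀ (σ / 4) ⊆ closedBall y₀ σ :=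
    ball_subset_closedBall.trans (closedBall_subset_closedBall (by linarith))
  have hQ2 : IsCompact (e.symm '' closedBall y₀ (σ / 8)) :=
    (isCompact_closedBall y₀ (σ / 8)).image_of_continuousOn
      (e.symm.continuousOn.mono (by simpa using (h8.trans hB0).trans hCt))
  have hO : IsOpen (e.symm '' ball y₀ (σ / 4)) :=
    e.symm.isOpen_image_of_subset_source isOpen_ball (by simpa using (h4.trans hB0).trans hCt)
  have hQO : e.symm '' closedBall y₀ (σ / 8) ⊆ e.symm '' ball y₀ (σ / 4) :=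
    image_mono (closedBall_subset_ball (by linarith))
  obtain ⟨η₁, hη₁, hQV'⟩ := hQ.exists_thickening_subset_open hVo hQV
  obtain ⟨η₂, hη₂, hQO'⟩ := hQ2.exists_thickening_subset_open hO hQO
  obtain ⟨ψ, S, θ, hψ, hψU, hψd, hψP, hSc, hSP, hθ, hθ1, hθ2⟩ :=
    hG g U (min (η / 2) (min η₁ η₂)) hg hRob hgU (by positivity)
  have hψd1 : ∀ x, dist (ψ x) x < η / 2 := fun x => lt_of_lt_of_le (hψd x) (min_le_left _ _)
  have hψd2 : ∀ x, dist (ψ x) x < η₁ := fun x =>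
    lt_of_lt_of_le (hψd x) ((min_le_right _ _).trans (min_le_left _ _))
  have hψd3 : ∀ x, dist (ψ x) x < η₂ := fun x =>
    lt_of_lt_of_le (hψd x) ((min_le_right _ _).trans (min_le_right _ _))
  obtain ⟨hDc, hDt, hDh, -⟩ := hD n M s
  obtain ⟨hDc', -, hDh', -⟩ := hD n M ⊤
  obtain ⟨Ψ, hΨ⟩ := hDh' ψ hψ
  -- the parameters
  obtain ⟨δ, hδ, hδU⟩ := hRob (ψ ∘ g) hψU (hDc ψ g (hDt ψ hψ) hg) e hU.1 _ hCc hCt
  obtain ⟨δ₂, hδ₂, hδd⟩ := hC n M e _ (η / 2) hU.1 hCc hCt (by positivity)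
  obtain ⟨κ₁, hκ₁, hN1⟩ := hT3 r δ hδ
  obtain ⟨κ₂, hκ₂, hN2⟩ := hT3 0 δ₂ hδ₂
  obtain ⟨κ₃, hκ₃, hN3⟩ := hT3 1 (1 / 2) (by norm_num)
  obtain ⟨κ, hκ0, hκ1, hκ2, hκ3, hκ4⟩ : ∃ κ : ℝ, 0 < κ ∧ κ ≤ κ₁ ∧ κ ≤ κ₂ ∧ κ ≤ κ₃ ∧
      κ ≤ θ / (1 + θ) := by
    refine ⟨min (min κ₁ κ₂) (min κ₃ (θ / (1 + θ))), by positivity, ?_, ?_, ?_, ?_⟩
    · exact (min_le_left _ _).trans (min_le_left _ _)
    · exact (min_le_left _ _).trans (min_le_right _ _)
    · exact (min_le_right _ _).trans (min_le_left _ _)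
    · exact (min_le_right _ _).trans (min_le_right _ _)
  have hκ5 : κ * (1 + θ) ≤ θ := by rwa [le_div_iff₀ (by positivity)] at hκ4
  have hκ6 : κ ≤ 1 := by nlinarith
  have hκ7 : 1 ≤ (1 - κ) * (1 + θ) := by nlinarith
  have hMod := hT1 κ
  have hNear : Near 1 (1 / 2) (T κ) := hN3 κ hκ0.le hκ3
  obtain ⟨hE1, hE2, hE3⟩ := hE n M e _ (T κ) hU.1 hCc hCt hMod hNear
  obtain ⟨X, hX⟩ := hDh' _ hE1
  have hcomp : IsDiffeo n ⊤ (ext e (T κ) ∘ ψ) := hDc' _ _ hE1 hψ
  obtain ⟨H, hH⟩ := hDh' _ hcomp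
  have hmeasψ : ∀ A : Set M, MeasurableSet A → MeasurableSet (ψ '' A) := by
    intro A hA
    rw [← hΨ]
    exact (Ψ.toMeasurableEquiv.measurableSet_image).2 hA
  have hvol := fun (c : ℝ) (A : Set M) => hV n M μ e _ (T κ) c A hU hCc hCt hMod hNear
  refine ⟨ext e (T κ) ∘ ψ, S, κ, hcomp, ?_, ?_, ?_, hSc, hSP, hκ0, ?_, ?_⟩
  · exact hδU (T κ) hMod (hN1 κ hκ0.le hκ1)
  · intro x
    calc dist (ext e (T κ) (ψ x)) x ≤ dist (ext e (T κ) (ψ x)) (ψ x) + dist (ψ x) x :=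
          dist_triangle _ _ _
      _ < η / 2 + η / 2 := add_lt_add (hδd (T κ) hMod (hN2 κ hκ0.le hκ2) (ψ x)) (hψd1 x)
      _ = η := by ring
  · intro x hx
    have h1 := hψP x hx
    show ext e (T κ) (ψ x) = x
    rw [h1]
    apply hE3
    rintro ⟨y, hy, rfl⟩
    obtain ⟨p, hp, hpd⟩ := hx
    exact absurd (hCP y hy p hp) (not_lt.2 hpd)
  · intro A hA hAB hAS
    have h1 : ψ '' A ⊆ e.symm '' ball y₀ (σ / 4) := by
      rintro _ ⟨x, hx, rfl⟩
      apply hQO'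
      rw [mem_thickening_iff]
      exact ⟨x, image_mono ball_subset_closedBall (hAB hx), hψd3 x⟩
    have h2 : ψ '' A ⊆ e.source := by
      intro x hx
      obtain ⟨y, hy, rfl⟩ := h1 hx
      exact e.map_target (hCt (hB0 (h4 hy)))
    have h3 := hvol (1 + κ) (ψ '' A) (by linarith) (hmeasψ A hA) (by
      intro x hx _
      obtain ⟨y, hy, rfl⟩ := h1 hx
      rw [e.right_inv (hCt (hB0 (h4 hy)))]
      exact ((hT2 κ hκ0.le y).2.1) hy) (Or.inl h2)
    rw [image_comp]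
    refine le_trans ?_ h3
    exact mul_le_mul_right (hθ2 A hA hAS) _
  · intro A hA hAS
    -- the part that is carried to the closed ball around `y₁`
    have hQm : MeasurableSet (e.symm '' closedBall y₁ σ) := hQ.isClosed.measurableSet
    have hψm : Measurable ψ := by
      rw [← hΨ]
      exact Ψ.continuous.measurable
    have hA1 : MeasurableSet (A ∩ ψ ⁻¹' (e.symm '' closedBall y₁ σ)) := hA.inter (hψm hQm)
    have hA2 : MeasurableSet (A \ ψ ⁻¹' (e.symm '' closedBall y₁ σ)) := hA.diff (hψm hQm)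
    have hA1V : A ∩ ψ ⁻¹' (e.symm '' closedBall y₁ σ) ⊆ V := by
      intro x hx
      apply hQV'
      rw [mem_thickening_iff]
      exact ⟨ψ x, hx.2, by rw [dist_comm]; exact hψd2 x⟩
    have k1 := hθ1 _ hA1 hA1V (hAS.mono_left inter_subset_left)
    have k2 := hθ2 _ hA2 (hAS.mono_left sdiff_subset)
    have k3 := hvol (1 - κ) _ (by linarith) (hmeasψ _ hA1) (by
      intro x _ _
      exact (hT2 κ hκ0.le (e x)).2.2) (Or.inr (by linarith))
    have k4 := hvol 1 _ (by norm_num) (hmeasψ _ hA2) (by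
      rintro _ ⟨x, hx, rfl⟩ hs
      apply (hT2 κ hκ0.le _).1
      intro hy
      exact hx.2 ⟨e (ψ x), hy, e.left_inv hs⟩) (Or.inr le_rfl)
    have k5 : μ (A ∩ ψ ⁻¹' (e.symm '' closedBall y₁ σ)) ≤
        μ (ext e (T κ) '' (ψ '' (A ∩ ψ ⁻¹' (e.symm '' closedBall y₁ σ)))) := by
      refine le_trans ?_ ((mul_le_mul_right k1 _).trans k3)
      rw [← mul_assoc, ← ENNReal.ofReal_mul (by linarith)]
      calc μ (A ∩ ψ ⁻¹' (e.symm '' closedBall y₁ σ))
          = ENNReal.ofReal 1 * μ (A ∩ ψ ⁻¹' (e.symm '' closedBall y₁ σ)) := by simp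
        _ ≤ _ := by gcongr
    have k6 : μ (A \ ψ ⁻¹' (e.symm '' closedBall y₁ σ)) ≤
        μ (ext e (T κ) '' (ψ '' (A \ ψ ⁻¹' (e.symm '' closedBall y₁ σ)))) := by
      refine le_trans k2 ?_
      simpa using k4
    have hsplit : (ext e (T κ) ∘ ψ) '' A =
        (ext e (T κ) '' (ψ '' (A ∩ ψ ⁻¹' (e.symm '' closedBall y₁ σ)))) ∪
          (ext e (T κ) '' (ψ '' (A \ ψ ⁻¹' (e.symm '' closedBall y₁ σ)))) := by
      rw [← image_union, ← image_union, inter_union_sdiff, image_comp]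
    have hinj : Function.Injective (ext e (T κ) ∘ ψ) := by
      rw [← hH]
      exact H.injective
    have hdisj : Disjoint (ext e (T κ) '' (ψ '' (A ∩ ψ ⁻¹' (e.symm '' closedBall y₁ σ))))
        (ext e (T κ) '' (ψ '' (A \ ψ ⁻¹' (e.symm '' closedBall y₁ σ)))) := by
      rw [← image_comp, ← image_comp, disjoint_image_iff hinj]
      exact disjoint_sdiff_right.mono_left inter_subset_right |>.mono_right (by
        intro x hx
        exact ⟨hx.1, hx.2⟩)
    have hm2 : MeasurableSet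
        (ext e (T κ) '' (ψ '' (A \ ψ ⁻¹' (e.symm '' closedBall y₁ σ)))) := by
      rw [← hX]
      exact (X.toMeasurableEquiv.measurableSet_image).2 (hmeasψ _ hA2)
    rw [hsplit, measure_union hdisj hm2]
    calc μ A = μ (A ∩ ψ ⁻¹' (e.symm '' closedBall y₁ σ)) +
          μ (A \ ψ ⁻¹' (e.symm '' closedBall y₁ σ)) := (measure_inter_add_sdiff A (hψm hQm)).symm
      _ ≤ _ := add_le_add k5 k6

end Pool.Agent.Pal

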