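import Pool.Agent.Pal.Targets2

/-!
# Closeness of iterates
-/

set_option autoImplicit false

open Set MeasureTheory Filter Topology Metric Asymptotics
open scoped Manifold ContDiff

namespace Pool.Agent.Pal

namespace ITC_

variable {n : ℕ}

theorem norm_it0 (F G : E n → E n) (x : E n) :
    ‖iteratedFDeriv ℝ 0 F x - iteratedFDeriv ℝ 0 G x‖ = ‖F x - G x‖ := by
  rw [iteratedFDeriv_zero_eq_comp, iteratedFDeriv_zero_eq_comp]
  simp only [Function.comp_apply]
  rw [← map_sub, LinearIsometryEquiv.norm_map]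

theorem norm_it0' (F G : E n → (E n →L[ℝ] E n)) (x : E n) :
    ‖iteratedFDeriv ℝ 0 F x - iteratedFDeriv ℝ 0 G x‖ = ‖F x - G x‖ := by
  rw [iteratedFDeriv_zero_eq_comp, iteratedFDeriv_zero_eq_comp]
  simp only [Function.comp_apply]
  rw [← map_sub, LinearIsometryEquiv.norm_map]

theorem norm_it1 (F G : E n → E n) (x : E n) :
    ‖iteratedFDeriv ℝ 1 F x - iteratedFDeriv ℝ 1 G x‖ = ‖fderiv ℝ F x - fderiv ℝ G x‖ := by
  rw [iteratedFDeriv_succ_eq_comp_right, iteratedFDeriv_succ_eq_comp_right]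
  simp only [Function.comp_apply]
  rw [← map_sub, LinearIsometryEquiv.norm_map]
  exact norm_it0' _ _ _

theorem close_iff {M : Type} [TopologicalSpace M] [ChartedSpace (E n) M] (f g : M → M)
    (e e' : OpenPartialHomeomorph M (E n)) (K : Set M) (ε : ℝ) :
    CrClose 1 f g e e' K ε ↔ MapsTo g K e'.source ∧ ∀ x ∈ K,
      ‖(e' ∘ g ∘ e.symm) (e x) - (e' ∘ f ∘ e.symm) (e x)‖ < ε ∧
      ‖fderiv ℝ (e' ∘ g ∘ e.symm) (e x) - fderiv ℝ (e' ∘ f ∘ e.symm) (e x)‖ < ε := by
  unfold CrClose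
  refine and_congr_right fun _ => forall₂_congr fun x _ => ?_
  constructor
  · intro h
    have h0 := h 0 (by norm_num)
    have h1 := h 1 le_rfl
    rw [norm_it0] at h0
    rw [norm_it1] at h1
    exact ⟨h0, h1⟩
  · rintro ⟨h0, h1⟩ j hj
    interval_cases j
    · rw [norm_it0]
      exact h0
    · rw [norm_it1]
      exact h1

theorem cont_fderiv {G : E n → E n} {u : E n} (h : ContDiffAt ℝ 1 G u) :
    ContinuousAt (fderiv ℝ G) u := by
  have h1 : ContDiffAt ℝ (0 : WithTop ℕ∞) (fderiv ℝ G) u := h.fderiv_right (by simp)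
  exact h1.continuousAt

theorem loc {A : Set (E n)} {G H : E n → E n} {c : E n} {ρ ε : ℝ} (hA : IsCompact A)
    (hρ : 0 < ρ) (hε : 0 < ε) (hG : ∀ u ∈ A, ContDiffAt ℝ 1 G u)
    (hH : ∀ z ∈ closedBall c ρ, ContDiffAt ℝ 1 H z)
    (hGA : ∀ u ∈ A, G u ∈ closedBall c (ρ / 2)) :
    ∃ δ : ℝ, 0 < δ ∧ ∀ G' H' : E n → E n,
      (∀ u ∈ A, DifferentiableAt ℝ G' u ∧ ‖G' u - G u‖ < δ ∧
        ‖fderiv ℝ G' u - fderiv ℝ G u‖ < δ) →
      (∀ z ∈ closedBall c ρ, DifferentiableAt ℝ H' z ∧ ‖H' z - H z‖ < δ ∧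
        ‖fderiv ℝ H' z - fderiv ℝ H z‖ < δ) →
      ∀ u ∈ A, G' u ∈ closedBall c ρ ∧ ‖H' (G' u) - H (G u)‖ < ε ∧
        ‖fderiv ℝ (H' ∘ G') u - fderiv ℝ (H ∘ G) u‖ < ε := by
  have hB : IsCompact (closedBall c ρ) := isCompact_closedBall c ρ
  obtain ⟨b₁, hb₁⟩ := hA.exists_bound_of_continuousOn
    (f := fderiv ℝ G) fun u hu => (cont_fderiv (hG u hu)).continuousWithinAt
  obtain ⟨b₂, hb₂⟩ := hB.exists_bound_of_continuousOn
    (f := fderiv ℝ H) fun u hu => (cont_fderiv (hH u hu)).continuousWithinAt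
  set b : ℝ := max 0 (max b₁ b₂) with hb
  have hb0 : 0 ≤ b := le_max_left _ _
  have hbG : ∀ u ∈ A, ‖fderiv ℝ G u‖ ≤ b := fun u hu =>
    (hb₁ u hu).trans ((le_max_left _ _).trans (le_max_right _ _))
  have hbH : ∀ z ∈ closedBall c ρ, ‖fderiv ℝ H z‖ ≤ b := fun u hu =>
    (hb₂ u hu).trans ((le_max_right _ _).trans (le_max_right _ _))
  have hu1 : UniformContinuousOn H (closedBall c ρ) :=
    hB.uniformContinuousOn_of_continuous fun u hu => (hH u hu).continuousAt.continuousWithinAt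
  have hu2 : UniformContinuousOn (fderiv ℝ H) (closedBall c ρ) :=
    hB.uniformContinuousOn_of_continuous fun u hu => (cont_fderiv (hH u hu)).continuousWithinAt
  obtain ⟨η₁, hη₁, hc₁⟩ := Metric.uniformContinuousOn_iff.1 hu1 (ε / 2) (by linarith)
  set ε' : ℝ := ε / (4 * (b + 1)) with hε'
  have hε'0 : 0 < ε' := by positivity
  have hε'b : ε' * (b + 1) = ε / 4 := by
    rw [hε']
    field_simp
  obtain ⟨η₂, hη₂, hc₂⟩ := Metric.uniformContinuousOn_iff.1 hu2 ε' hε'0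
  refine ⟨min (ρ / 2) (min (min η₁ η₂) (min (min 1 (ε / 2)) ε')), by positivity, ?_⟩
  intro G' H' h1 h2 u hu
  obtain ⟨d1, n1, f1⟩ := h1 u hu
  have m1 : min (ρ / 2) (min (min η₁ η₂) (min (min 1 (ε / 2)) ε')) ≤ ρ / 2 := min_le_left _ _
  have m0 : min (ρ / 2) (min (min η₁ η₂) (min (min 1 (ε / 2)) ε')) ≤
    min (min η₁ η₂) (min (min 1 (ε / 2)) ε') := min_le_right _ _
  have m2 := m0.trans ((min_le_left _ _).trans (min_le_left _ _))
  have m3 := m0.trans ((min_le_left _ _).trans (min_le_right _ _))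
  have m4 := m0.trans ((min_le_right _ _).trans ((min_le_left _ _).trans (min_le_left _ _)))
  have m5 := m0.trans ((min_le_right _ _).trans ((min_le_left _ _).trans (min_le_right _ _)))
  have m6 := m0.trans ((min_le_right _ _).trans (min_le_right _ _))
  generalize min (ρ / 2) (min (min η₁ η₂) (min (min 1 (ε / 2)) ε')) = δ at *
  have hGu := hGA u hu
  have hGu' : G u ∈ closedBall c ρ := closedBall_subset_closedBall (by linarith) hGu
  have hG'u : G' u ∈ closedBall c ρ := by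
    rw [mem_closedBall] at hGu ⊢
    have := dist_triangle (G' u) (G u) c
    rw [dist_eq_norm (G' u) (G u)] at this
    linarith
  obtain ⟨d2, n2, f2⟩ := h2 _ hG'u
  have hd : dist (G' u) (G u) < δ := by
    rw [dist_eq_norm]
    exact n1
  refine ⟨hG'u, ?_, ?_⟩
  · have h3 := hc₁ _ hG'u _ hGu' (by linarith)
    rw [dist_eq_norm] at h3
    have h4 : H' (G' u) - H (G u) = (H' (G' u) - H (G' u)) + (H (G' u) - H (G u)) := by abel
    rw [h4]
    have := norm_add_le (H' (G' u) - H (G' u)) (H (G' u) - H (G u))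
    linarith
  · have h3 := hc₂ _ hG'u _ hGu' (by linarith)
    rw [dist_eq_norm] at h3
    rw [fderiv_comp u d2 d1, fderiv_comp u ((hH _ hGu').differentiableAt (by simp))
      ((hG u hu).differentiableAt (by simp))]
    have h4 : (fderiv ℝ H' (G' u)).comp (fderiv ℝ G' u) - (fderiv ℝ H (G u)).comp (fderiv ℝ G u) =
      (fderiv ℝ H' (G' u) - fderiv ℝ H (G' u)).comp (fderiv ℝ G' u) +
      (fderiv ℝ H (G' u) - fderiv ℝ H (G u)).comp (fderiv ℝ G' u) +
      (fderiv ℝ H (G u)).comp (fderiv ℝ G' u - fderiv ℝ G u) := by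
      ext v
      simp
    rw [h4]
    have hG' : ‖fderiv ℝ G' u‖ ≤ b + 1 := by
      have h5 : fderiv ℝ G' u = (fderiv ℝ G' u - fderiv ℝ G u) + fderiv ℝ G u := by abel
      rw [h5]
      have := norm_add_le (fderiv ℝ G' u - fderiv ℝ G u) (fderiv ℝ G u)
      have := hbG u hu
      linarith
    have e1 : ‖(fderiv ℝ H' (G' u) - fderiv ℝ H (G' u)).comp (fderiv ℝ G' u)‖ ≤ ε' * (b + 1) :=
      (ContinuousLinearMap.opNorm_comp_le _ _).trans
        (mul_le_mul (f2.le.trans m6) hG' (norm_nonneg _) hε'0.le)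
    have e2 : ‖(fderiv ℝ H (G' u) - fderiv ℝ H (G u)).comp (fderiv ℝ G' u)‖ ≤ ε' * (b + 1) :=
      (ContinuousLinearMap.opNorm_comp_le _ _).trans
        (mul_le_mul h3.le hG' (norm_nonneg _) hε'0.le)
    have e3 : ‖(fderiv ℝ H (G u)).comp (fderiv ℝ G' u - fderiv ℝ G u)‖ ≤ (b + 1) * ε' :=
      (ContinuousLinearMap.opNorm_comp_le _ _).trans
        (mul_le_mul ((hbH _ hGu').trans (by linarith)) (f1.le.trans m6) (norm_nonneg _)
          (by linarith))
    rw [mul_comm] at e3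
    rw [hε'b] at e1 e2 e3
    have := norm_add₃_le (a := (fderiv ℝ H' (G' u) - fderiv ℝ H (G' u)).comp (fderiv ℝ G' u))
      (b := (fderiv ℝ H (G' u) - fderiv ℝ H (G u)).comp (fderiv ℝ G' u))
      (c := (fderiv ℝ H (G u)).comp (fderiv ℝ G' u - fderiv ℝ G u))
    linarith

theorem comp (h0 : T_NBD) (h3 : T_DIFF) {M : Type} [MetricSpace M] [ChartedSpace (E n) M]
    [IsManifold 𝓘(ℝ, E n) ∞ M] {g h : M → M} (hg : IsDiffeo n 1 g) (hh : IsDiffeo n 1 h)
    {e e' : OpenPartialHomeomorph M (E n)} {K : Set M} {ε : ℝ} (he : e ∈ Ch n M)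
    (he' : e' ∈ Ch n M) (hK : IsCompact K) (hKe : K ⊆ e.source)
    (hm : MapsTo (h ∘ g) K e'.source) (hε : 0 < ε) :
    ∃ W₁ W₂ : Set (M → M), Nbd n g W₁ ∧ Nbd n h W₂ ∧ ∀ g' ∈ W₁, ∀ h' ∈ W₂,
      IsDiffeo n 1 g' → IsDiffeo n 1 h' → CrClose 1 (h ∘ g) (h' ∘ g') e e' K ε := by
  have hgc : Continuous g := by
    obtain ⟨G, rfl⟩ := hg
    exact G.continuous
  have hhc : Continuous h := by
    obtain ⟨G, rfl⟩ := hh
    exact G.continuous
  have hsm : ∀ (g : M → M) (a a' : OpenPartialHomeomorph M (E n)) (x : M), IsDiffeo n 1 g →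
      a ∈ Ch n M → a' ∈ Ch n M → x ∈ a.source → g x ∈ a'.source →
      ContDiffAt ℝ 1 (a' ∘ g ∘ a.symm) (a x) := by
    intro g a a' x hg ha ha' hx hgx
    exact (h3 n M 1).2.2.2 g 1 a a' x hg ha ha' hx hgx
  have huniv : ∀ f : M → M, Nbd n f univ := by
    intro f
    exact ⟨0, fun i => i.elim0, fun i => i.elim0, fun i => i.elim0, 1, one_pos,
      fun i => i.elim0, fun _ _ _ => mem_univ _⟩
  refine hK.induction_on (p := fun S => ∃ W₁ W₂ : Set (M → M), Nbd n g W₁ ∧ Nbd n h W₂ ∧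
    ∀ g' ∈ W₁, ∀ h' ∈ W₂, IsDiffeo n 1 g' → IsDiffeo n 1 h' →
      CrClose 1 (h ∘ g) (h' ∘ g') e e' S ε) ?_ ?_ ?_ ?_
  · exact ⟨univ, univ, huniv g, huniv h, fun g' _ h' _ _ _ => ⟨mapsTo_empty _ _,
      fun x hx => absurd hx (notMem_empty x)⟩⟩
  · rintro S T hST ⟨W₁, W₂, n1, n2, hW⟩
    refine ⟨W₁, W₂, n1, n2, fun g' hg' h' hh' dg dh => ?_⟩
    obtain ⟨a1, a2⟩ := hW g' hg' h' hh' dg dh
    exact ⟨a1.mono_left hST, fun x hx => a2 x (hST hx)⟩
  · rintro S T ⟨W₁, W₂, n1, n2, hW⟩ ⟨V₁, V₂, m1, m2, hV⟩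
    refine ⟨W₁ ∩ V₁, W₂ ∩ V₂, (h0 n M g).1 _ _ n1 m1, (h0 n M h).1 _ _ n2 m2,
      fun g' hg' h' hh' dg dh => ?_⟩
    obtain ⟨a1, a2⟩ := hW g' hg'.1 h' hh'.1 dg dh
    obtain ⟨b1, b2⟩ := hV g' hg'.2 h' hh'.2 dg dh
    refine ⟨a1.union_union b1 |>.mono_right (by simp), fun x hx => ?_⟩
    rcases hx with hx | hx
    · exact a2 x hx
    · exact b2 x hx
  · intro x hx
    set a : OpenPartialHomeomorph M (E n) := chartAt (E n) (g x) with ha
    have haC : a ∈ Ch n M := IsManifold.chart_mem_maximalAtlas (g x)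
    have hgx : g x ∈ a.source := mem_chart_source (E n) (g x)
    set Ω : Set (E n) := a.target ∩ a.symm ⁻¹' (h ⁻¹' e'.source) with hΩ
    have oΩ : IsOpen Ω := a.isOpen_inter_preimage_symm (e'.open_source.preimage hhc)
    have hcΩ : a (g x) ∈ Ω := by
      refine ⟨a.map_source hgx, ?_⟩
      show h (a.symm (a (g x))) ∈ e'.source
      rw [a.left_inv hgx]
      exact hm hx
    obtain ⟨ρ, hρ, hρΩ⟩ := Metric.nhds_basis_closedBall.mem_iff.1 (oΩ.mem_nhds hcΩ)
    set c : E n := a (g x) with hc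
    have hLc : IsCompact (a.symm '' closedBall c ρ) :=
      (isCompact_closedBall c ρ).image_of_continuousOn
        (a.continuousOn_symm.mono fun y hy => (hρΩ hy).1)
    have hLs : a.symm '' closedBall c ρ ⊆ a.source := by
      rintro _ ⟨z, hz, rfl⟩
      exact a.map_target (hρΩ hz).1
    have hLm : MapsTo h (a.symm '' closedBall c ρ) e'.source := by
      rintro _ ⟨z, hz, rfl⟩
      exact (hρΩ hz).2
    have hsub : closedBall c (ρ / 2) ⊆ closedBall c ρ :=
      closedBall_subset_closedBall (by linarith)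
    have hL2c : IsCompact (a.symm '' closedBall c (ρ / 2)) :=
      (isCompact_closedBall c (ρ / 2)).image_of_continuousOn
        (a.continuousOn_symm.mono fun y hy => (hρΩ (hsub hy)).1)
    set S : Set M := K ∩ g ⁻¹' (a.symm '' closedBall c (ρ / 2)) with hS
    have hSc : IsCompact S := hK.inter_right (hL2c.isClosed.preimage hgc)
    have hSe : S ⊆ e.source := fun y hy => hKe hy.1
    have hSa : ∀ y ∈ S, g y ∈ a.source ∧ a (g y) ∈ closedBall c (ρ / 2) := by
      rintro y ⟨_, z, hz, hzy⟩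
      rw [← hzy]
      have hzt := (hρΩ (hsub hz)).1
      refine ⟨a.map_target hzt, ?_⟩
      rw [a.right_inv hzt]
      exact hz
    have hSn : S ∈ 𝓝[K] x := by
      refine inter_mem self_mem_nhdsWithin (mem_nhdsWithin_of_mem_nhds ?_)
      apply hgc.continuousAt.preimage_mem_nhds
      have h5 : a.source ∩ a ⁻¹' ball c (ρ / 2) ∈ 𝓝 (g x) := by
        apply (a.isOpen_inter_preimage isOpen_ball).mem_nhds
        exact ⟨hgx, mem_ball_self (by linarith)⟩
      filter_upwards [h5] with y hy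
      exact ⟨a y, ball_subset_closedBall hy.2, a.left_inv hy.1⟩
    refine ⟨S, hSn, ?_⟩
    have hG : ∀ u ∈ e '' S, ContDiffAt ℝ 1 (a ∘ g ∘ e.symm) u := by
      rintro _ ⟨y, hy, rfl⟩
      exact hsm g e a y hg he haC (hSe hy) (hSa y hy).1
    have hH : ∀ z ∈ closedBall c ρ, ContDiffAt ℝ 1 (e' ∘ h ∘ a.symm) z := by
      intro z hz
      have h6 := hsm h a e' (a.symm z) hh haC he' (a.map_target (hρΩ hz).1) (hρΩ hz).2
      rw [a.right_inv (hρΩ hz).1] at h6
      exact h6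
    have hGA : ∀ u ∈ e '' S, (a ∘ g ∘ e.symm) u ∈ closedBall c (ρ / 2) := by
      rintro _ ⟨y, hy, rfl⟩
      show a (g (e.symm (e y))) ∈ _
      rw [e.left_inv (hSe hy)]
      exact (hSa y hy).2
    obtain ⟨δ, hδ, hloc⟩ := loc (hSc.image_of_continuousOn (e.continuousOn.mono hSe)) hρ hε
      hG hH hGA
    refine ⟨{g' | CrClose 1 g g' e a S δ}, {h' | CrClose 1 h h' a e' (a.symm '' closedBall c ρ) δ},
      (h0 n M g).2.2.2 e a S δ hδ he haC hSc hSe fun y hy => (hSa y hy).1,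
      (h0 n M h).2.2.2 a e' _ δ hδ haC he' hLc hLs hLm, ?_⟩
    intro g' hg' h' hh' dg dh
    obtain ⟨p1, p2⟩ := (close_iff _ _ _ _ _ _).1 hg'
    obtain ⟨q1, q2⟩ := (close_iff _ _ _ _ _ _).1 hh'
    have hg'c : Continuous g' := by
      obtain ⟨G, rfl⟩ := dg
      exact G.continuous
    have key := hloc (a ∘ g' ∘ e.symm) (e' ∘ h' ∘ a.symm) (by
      rintro _ ⟨y, hy, rfl⟩
      exact ⟨(hsm g' e a y dg he haC (hSe hy) (p1 hy)).differentiableAt (by simp),
        p2 y hy⟩) (by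
      intro z hz
      have hz' : a.symm z ∈ a.symm '' closedBall c ρ := ⟨z, hz, rfl⟩
      have h6 := hsm h' a e' (a.symm z) dh haC he' (a.map_target (hρΩ hz).1) (q1 hz')
      have h7 := q2 _ hz'
      rw [a.right_inv (hρΩ hz).1] at h6 h7
      exact ⟨h6.differentiableAt (by simp), h7⟩)
    rw [close_iff]
    have hin : ∀ y ∈ S, g' y ∈ a.symm '' closedBall c ρ := by
      intro y hy
      have h8 := (key (e y) ⟨y, hy, rfl⟩).1
      have h9 : (a ∘ g' ∘ e.symm) (e y) = a (g' y) := by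
        show a (g' (e.symm (e y))) = a (g' y)
        rw [e.left_inv (hSe hy)]
      rw [h9] at h8
      exact ⟨_, h8, a.left_inv (p1 hy)⟩
    refine ⟨fun y hy => q1 (hin y hy), fun y hy => ?_⟩
    have hyS : y ∈ e.source := hSe hy
    obtain ⟨-, k1, k2⟩ := key (e y) ⟨y, hy, rfl⟩
    have cat : ContinuousAt e.symm (e y) := e.continuousAt_symm (e.map_source hyS)
    have hev : ∀ (f k : M → M), Continuous f → f y ∈ a.source →
        e' ∘ (k ∘ f) ∘ e.symm =ᶠ[𝓝 (e y)] (e' ∘ k ∘ a.symm) ∘ (a ∘ f ∘ e.symm) := by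
      intro f k hf hfy
      have h10 : ∀ᶠ z in 𝓝 (e y), f (e.symm z) ∈ a.source := by
        have cat2 : ContinuousAt (fun z => f (e.symm z)) (e y) := hf.continuousAt.comp cat
        apply cat2.eventually_mem
        apply a.open_source.mem_nhds
        show f (e.symm (e y)) ∈ a.source
        rw [e.left_inv hyS]
        exact hfy
      filter_upwards [h10] with z hz
      show e' (k (f (e.symm z))) = e' (k (a.symm (a (f (e.symm z)))))
      rw [a.left_inv hz]
    have e1 := hev g' h' hg'c (p1 hy)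
    have e2 := hev g h hgc (hSa y hy).1
    refine ⟨?_, ?_⟩
    · rw [e1.self_of_nhds, e2.self_of_nhds]
      exact k1
    · rw [e1.fderiv_eq, e2.fderiv_eq]
      exact k2

theorem iter_diffeo (h3 : T_DIFF) {M : Type} [TopologicalSpace M] [ChartedSpace (E n) M]
    [IsManifold 𝓘(ℝ, E n) ∞ M] {g : M → M} (hg : IsDiffeo n 1 g) (m : ℕ) :
    IsDiffeo n 1 g^[m] := by
  induction m with
  | zero => exact ⟨Diffeomorph.refl _ _ _, rfl⟩
  | succ k ih =>
    rw [Function.iterate_succ]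
    exact (h3 n M 1).1 _ _ ih hg

end ITC_

open ITC_ in
theorem itc (h0 : T_NBD) (h3 : T_DIFF) : T_ITC := by
  intro n M _ _ _ _ g m e e' K ε hg he he' hK hKe hm hε
  induction m generalizing e e' K ε with
  | zero =>
    refine (h0 n M g).2.1 univ _ ⟨0, fun i => i.elim0, fun i => i.elim0, fun i => i.elim0, 1,
      one_pos, fun i => i.elim0, fun _ _ _ => mem_univ _⟩ fun g' _ => ?_
    refine ⟨hm, fun x hx j hj => ?_⟩
    simpa using hε
  | succ k ih =>
    have hP : ∀ V : Set (M → M), Nbd n g^[k] V → Nbd n g {g' | IsDiffeo n 1 g' → g'^[k] ∈ V} := by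
      rintro V ⟨N, a, a', L, ε', hε', hd, hV⟩
      have h5 : ∀ s : Finset (Fin N),
          Nbd n g {g' | ∀ i ∈ s, CrClose 1 g^[k] g'^[k] (a i) (a' i) (L i) ε'} := by
        intro s
        induction s using Finset.induction_on with
        | empty =>
          refine ⟨0, fun i => i.elim0, fun i => i.elim0, fun i => i.elim0, 1,
            one_pos, fun i => i.elim0, fun g' _ _ i hi => absurd hi (Finset.notMem_empty i)⟩
        | insert i s _ ihs =>
          have h6 := ih (a i) (a' i) (L i) ε' (hd i).1 (hd i).2.1 (hd i).2.2.1 (hd i).2.2.2.1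
            (hd i).2.2.2.2 hε'
          refine (h0 n M g).2.1 _ _ ((h0 n M g).1 _ _ h6 ihs) ?_
          rintro g' ⟨u1, u2⟩ j hj
          rcases Finset.mem_insert.1 hj with rfl | hj
          · exact u1
          · exact u2 j hj
      refine (h0 n M g).2.1 _ _ (h5 Finset.univ) fun g' hg' dg => ?_
      exact hV _ (iter_diffeo h3 dg k) fun i => hg' i (Finset.mem_univ i)
    obtain ⟨W₁, W₂, n1, n2, hW⟩ := comp h0 h3 hg (iter_diffeo h3 hg k) he he' hK hKe
      (by rw [← Function.iterate_succ]; exact hm) hε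
    obtain ⟨N, a, a', L, ε', hε', hd, hV⟩ := (h0 n M g).1 _ _ n1 (hP W₂ n2)
    refine ⟨N, a, a', L, ε', hε', hd, fun g' dg hc => ?_⟩
    obtain ⟨v1, v2⟩ := hV g' dg hc
    have := hW g' v1 _ (v2 dg) dg (iter_diffeo h3 dg k)
    show CrClose 1 g^[k + 1] g'^[k + 1] e e' K ε
    rw [Function.iterate_succ, Function.iterate_succ]
    exact this

end Pool.Agent.Pal
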