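import Pool.Agent.Pal.Targets

/-!
# Volume of the image under a modification
-/

set_option autoImplicit false

open Set MeasureTheory Filter Topology Metric Asymptotics
open scoped Manifold ContDiff

namespace Pool.Agent.Pal

namespace VOLM_

variable {n : ℕ} {M : Type} [TopologicalSpace M] [ChartedSpace (E n) M]

omit [ChartedSpace (E n) M] in
lemma image_meas [MeasurableSpace M] [BorelSpace M] (e : OpenPartialHomeomorph M (E n)) {A : Set M}
    (hA : MeasurableSet A) : MeasurableSet (e '' (A ∩ e.source)) := by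
  have h1 : e '' (A ∩ e.source) =
      Subtype.val '' (e.toHomeomorphSourceTarget '' (Subtype.val ⁻¹' A : Set e.source)) := by
    ext y
    constructor
    · rintro ⟨x, ⟨hxA, hxs⟩, rfl⟩
      exact ⟨e.toHomeomorphSourceTarget ⟨x, hxs⟩, ⟨⟨x, hxs⟩, hxA, rfl⟩, rfl⟩
    · rintro ⟨_, ⟨⟨x, hxs⟩, hxA, rfl⟩, rfl⟩
      exact ⟨x, ⟨hxA, hxs⟩, rfl⟩
  rw [h1]
  refine MeasurableSet.subtype_image e.open_target.measurableSet ?_
  exact e.toHomeomorphSourceTarget.measurableEmbedding.measurableSet_image.mpr
    (measurable_subtype_coe hA)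

lemma vol_image {L : E n → E n} (hL : ContDiff ℝ ∞ L) (hi : Function.Injective L) {S : Set (E n)}
    (hS : MeasurableSet S) :
    volume (L '' S) = ∫⁻ y in S, ENNReal.ofReal |(fderiv ℝ L y).det| := by
  rw [← lintegral_abs_det_fderiv_eq_addHaar_image volume hS
    (fun x _ => ((hL.differentiable (by simp)) x).hasFDerivAt.hasFDerivWithinAt) hi.injOn]

lemma key (hM : T_MOD) (hE : T_EXT) [IsManifold 𝓘(ℝ, E n) ∞ M] [T2Space M] [MeasurableSpace M]
    [BorelSpace M] {μ : Measure M} {e : OpenPartialHomeomorph M (E n)} {C : Set (E n)}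
    {L : E n → E n} {A : Set M} (hU : Uni μ e) (hC : IsCompact C) (hCe : C ⊆ e.target)
    (hL : Mod C L) (hN : Near 1 (1 / 2) L) (hA : MeasurableSet A) :
    μ (ext e L '' A) =
      (∫⁻ y in e '' (A ∩ e.source), ENNReal.ofReal |(fderiv ℝ L y).det|) + μ (A \ e.source) := by
  obtain ⟨hbij, -, -, -⟩ := hM n C L hC hL hN
  obtain ⟨⟨G, hG⟩, h1, h2⟩ := hE n M e C L hU.1 hC hCe hL hN
  have hGm : MeasurableEmbedding (ext e L) := by
    rw [← hG]
    exact G.toHomeomorph.measurableEmbedding
  have hA1 : MeasurableSet (A ∩ e.source) := hA.inter e.open_source.measurableSet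
  have hA2 : MeasurableSet (A \ e.source) := hA.diff e.open_source.measurableSet
  have hout : ∀ x, x ∉ e.source → ext e L x = x := fun x hx => by
    unfold ext
    rw [if_neg hx]
  have e1 : ext e L '' A = ext e L '' (A ∩ e.source) ∪ (A \ e.source) := by
    conv_lhs => rw [← inter_union_sdiff A e.source]
    rw [image_union]
    congr 1
    ext y
    constructor
    · rintro ⟨x, hx, rfl⟩
      rw [hout x hx.2]
      exact hx
    · intro hy
      exact ⟨y, hy, hout y hy.2⟩
  have hsub : ext e L '' (A ∩ e.source) ⊆ e.source := by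
    rintro _ ⟨x, hx, rfl⟩
    exact (h1 x hx.2).1
  have hdisj : Disjoint (ext e L '' (A ∩ e.source)) (A \ e.source) :=
    Set.disjoint_left.mpr fun x hx hx' => hx'.2 (hsub hx)
  rw [e1, measure_union hdisj hA2, hU.2 _ hsub (hGm.measurableSet_image.mpr hA1)]
  congr 1
  have e2 : e '' (ext e L '' (A ∩ e.source)) = L '' (e '' (A ∩ e.source)) := by
    rw [image_image, image_image]
    exact image_congr fun x hx => (h1 x hx.2).2
  rw [e2, vol_image hL.1 hbij.1 (image_meas e hA)]

end VOLM_

theorem volm (hM : T_MOD) (hE : T_EXT) : T_VOLM := by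
  intro n M _ _ _ _ _ _ μ e C L c A hU hC hCe hL hN hc hA hdet hor
  have hs : MeasurableSet (A ∩ e.source) := hA.inter e.open_source.measurableSet
  rw [VOLM_.key hM hE hU hC hCe hL hN hA, ← measure_inter_add_sdiff A e.open_source.measurableSet,
    mul_add]
  refine add_le_add ?_ ?_
  · rw [hU.2 _ inter_subset_right hs, ← setLIntegral_const]
    refine setLIntegral_mono' (VOLM_.image_meas e hA) ?_
    rintro _ ⟨x, hx, rfl⟩
    refine ENNReal.ofReal_le_ofReal ?_
    exact (hdet x hx.1 hx.2).trans (le_abs_self _)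
  · rcases hor with h | h
    · rw [sdiff_eq_empty.mpr h]
      simp
    · calc ENNReal.ofReal c * μ (A \ e.source) ≤ 1 * μ (A \ e.source) := by
            gcongr
            exact ENNReal.ofReal_le_one.mpr h
        _ = μ (A \ e.source) := one_mul _

theorem volp (hM : T_MOD) (hE : T_EXT) : T_VOLP := by
  intro n M _ _ _ _ _ _ μ e C L hU hC hCe hL hN hdet
  obtain ⟨⟨G, hG⟩, h1, h2⟩ := hE n M e C L hU.1 hC hCe hL hN
  have key : ∀ A, MeasurableSet A → μ (ext e L '' A) = μ A := by
    intro A hA
    have hs : MeasurableSet (A ∩ e.source) := hA.inter e.open_source.measurableSet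
    rw [VOLM_.key hM hE hU hC hCe hL hN hA, ← measure_inter_add_sdiff A e.open_source.measurableSet]
    congr 1
    simp only [hdet, abs_one, ENNReal.ofReal_one, lintegral_const, one_mul,
      Measure.restrict_apply_univ]
    rw [hU.2 _ inter_subset_right hs]
  have hme : MeasurableEmbedding (ext e L) := by
    rw [← hG]
    exact G.toHomeomorph.measurableEmbedding
  refine ⟨hme.measurable, ?_⟩
  ext B hB
  rw [Measure.map_apply hme.measurable hB, ← key _ (hme.measurable hB)]
  congr 1
  refine image_preimage_eq _ ?_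
  rw [← hG]
  exact G.surjective

end Pool.Agent.Pal
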