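import Pool.Agent.Pal.Targets2
import Pool.Agent.Pal.VOLM

/-!
# PALR-JACC: closeness of Jacobians
-/

set_option autoImplicit false

open Set MeasureTheory Filter Topology Metric Asymptotics
open scoped Manifold ContDiff

namespace Pool.Agent.Pal

namespace JACC_

variable {n : ℕ}

lemma det_close {X : Type} [TopologicalSpace X] {K : Set X} (hK : IsCompact K)
    (B : X → (E n →L[ℝ] E n)) (hB : ContinuousOn B K) (hd : ∀ x ∈ K, (B x).det ≠ 0) {δ : ℝ}
    (hδ : 0 < δ) :
    ∃ ε : ℝ, 0 < ε ∧ ∀ x ∈ K, ∀ B' : E n →L[ℝ] E n, ‖B' - B x‖ < ε →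
      (1 - δ) * |(B x).det| ≤ |B'.det| := by
  have hc : Continuous fun A : E n →L[ℝ] E n => A.det := ContinuousLinearMap.continuous_det
  have hO : IsOpen {p : (E n →L[ℝ] E n) × (E n →L[ℝ] E n) |
      (1 - δ) * |p.1.det| < |p.2.det|} := by
    refine isOpen_lt ?_ ?_
    · exact continuous_const.mul (hc.comp continuous_fst).abs
    · exact (hc.comp continuous_snd).abs
  have hC : IsCompact ((fun x => (B x, B x)) '' K) :=
    hK.image_of_continuousOn (hB.prodMk hB)
  have hsub : (fun x => (B x, B x)) '' K ⊆ {p : (E n →L[ℝ] E n) × (E n →L[ℝ] E n) |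
      (1 - δ) * |p.1.det| < |p.2.det|} := by
    rintro _ ⟨x, hx, rfl⟩
    have h1 : 0 < |(B x).det| := abs_pos.mpr (hd x hx)
    show (1 - δ) * |(B x).det| < |(B x).det|
    nlinarith
  obtain ⟨ε, hε, hε'⟩ := hC.exists_thickening_subset_open hO hsub
  refine ⟨ε, hε, fun x hx B' hB' => ?_⟩
  have h1 : ((B x, B') : (E n →L[ℝ] E n) × (E n →L[ℝ] E n)) ∈
      thickening ε ((fun x => (B x, B x)) '' K) := by
    rw [mem_thickening_iff]
    refine ⟨(B x, B x), ⟨x, hx, rfl⟩, ?_⟩
    rw [Prod.dist_eq, max_lt_iff, dist_self, dist_eq_norm]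
    exact ⟨hε, hB'⟩
  exact le_of_lt (hε' h1)

lemma fderiv_close (f h : E n → E n) (y : E n) {ε : ℝ}
    (H : ‖iteratedFDeriv ℝ 1 h y - iteratedFDeriv ℝ 1 f y‖ < ε) :
    ‖fderiv ℝ h y - fderiv ℝ f y‖ < ε := by
  refine lt_of_le_of_lt ?_ H
  refine ContinuousLinearMap.opNorm_le_bound _ (norm_nonneg _) fun v => ?_
  have h1 := (iteratedFDeriv ℝ 1 h y - iteratedFDeriv ℝ 1 f y).le_opNorm (fun _ => v)
  rw [sub_apply, iteratedFDeriv_one_apply, iteratedFDeriv_one_apply] at h1
  simpa using h1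

lemma det_comp' (A B : E n →L[ℝ] E n) : (A.comp B).det = A.det * B.det :=
  LinearMap.det_comp (A : E n →ₗ[ℝ] E n) (B : E n →ₗ[ℝ] E n)

variable {M : Type} [TopologicalSpace M] [ChartedSpace (E n) M]

lemma area [MeasurableSpace M] [BorelSpace M] [IsManifold 𝓘(ℝ, E n) ∞ M] (hD : T_DIFF)
    {μ : Measure M} {e e' : OpenPartialHomeomorph M (E n)} (he : Uni μ e) (he' : Uni μ e')
    {h : M → M} (hh : IsDiffeo n 1 h) {A : Set M} (hA : MeasurableSet A) (hAe : A ⊆ e.source)
    (hAe' : MapsTo h A e'.source) :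
    μ (h '' A) = ∫⁻ y in e '' A, ENNReal.ofReal |(fderiv ℝ (e' ∘ h ∘ e.symm) y).det| := by
  obtain ⟨G, hG⟩ := (hD n M 1).2.2.1 h hh
  have hm : MeasurableSet (h '' A) := by
    rw [← hG]
    exact G.toMeasurableEquiv.measurableEmbedding.measurableSet_image.mpr hA
  have hinj : Function.Injective h := by
    rw [← hG]
    exact G.injective
  have hsub : h '' A ⊆ e'.source := hAe'.image_subset
  have hS : MeasurableSet (e '' A) := by
    have := VOLM_.image_meas e hA
    rwa [inter_eq_left.mpr hAe] at this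
  rw [he'.2 _ hsub hm]
  have e1 : e' '' (h '' A) = (e' ∘ h ∘ e.symm) '' (e '' A) := by
    rw [image_image, image_image]
    refine image_congr fun x hx => ?_
    show e' (h x) = e' (h (e.symm (e x)))
    rw [e.left_inv (hAe hx)]
  rw [e1]
  rw [← lintegral_abs_det_fderiv_eq_addHaar_image volume hS (f := e' ∘ h ∘ e.symm)
    (f' := fun y => fderiv ℝ (e' ∘ h ∘ e.symm) y)]
  · rintro _ ⟨x, hx, rfl⟩
    have h1 : ContDiffAt ℝ 1 (e' ∘ h ∘ e.symm) (e x) := by
      have := (hD n M 1).2.2.2 h 1 e e' x hh he.1 he'.1 (hAe hx) (hAe' hx)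
      simpa using this
    exact (h1.differentiableAt (by simp)).hasFDerivAt.hasFDerivWithinAt
  · rintro _ ⟨x, hx, rfl⟩ _ ⟨x', hx', rfl⟩ hxx
    have h2 : e' (h (e.symm (e x))) = e' (h (e.symm (e x'))) := hxx
    rw [e.left_inv (hAe hx), e.left_inv (hAe hx')] at h2
    rw [hinj (e'.injOn (hAe' hx) (hAe' hx') h2)]

lemma det_ne [IsManifold 𝓘(ℝ, E n) ∞ M] (hD : T_DIFF) {e e' : OpenPartialHomeomorph M (E n)}
    (he : e ∈ Ch n M) (he' : e' ∈ Ch n M) {h : M → M} (hh : IsDiffeo n 1 h) {x : M}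
    (hx : x ∈ e.source) (hx' : h x ∈ e'.source) :
    (fderiv ℝ (e' ∘ h ∘ e.symm) (e x)).det ≠ 0 := by
  obtain ⟨G, hG⟩ := id hh
  have hi : IsDiffeo n 1 (G.symm : M → M) := ⟨G.symm, rfl⟩
  have h1 : ContDiffAt ℝ 1 (e' ∘ h ∘ e.symm) (e x) := by
    have := (hD n M 1).2.2.2 h 1 e e' x hh he he' hx hx'
    simpa using this
  have hgx : G.symm (h x) = x := by
    rw [← hG]
    exact G.symm_apply_apply x
  have h2 : ContDiffAt ℝ 1 (e ∘ G.symm ∘ e'.symm) (e' (h x)) := by
    have := (hD n M 1).2.2.2 G.symm 1 e' e (h x) hi he' he hx' (by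
      show G.symm (h x) ∈ e.source
      rw [hgx]
      exact hx)
    simpa using this
  have hy : (e' ∘ h ∘ e.symm) (e x) = e' (h x) := by
    show e' (h (e.symm (e x))) = e' (h x)
    rw [e.left_inv hx]
  have h2' : DifferentiableAt ℝ (e ∘ G.symm ∘ e'.symm) ((e' ∘ h ∘ e.symm) (e x)) := by
    rw [hy]
    exact h2.differentiableAt (by simp)
  have h1' : DifferentiableAt ℝ (e' ∘ h ∘ e.symm) (e x) := h1.differentiableAt (by simp)
  have hc : Continuous h := by
    rw [← hG]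
    exact G.continuous
  have hev : (e ∘ G.symm ∘ e'.symm) ∘ (e' ∘ h ∘ e.symm) =ᶠ[𝓝 (e x)] id := by
    have o1 : ∀ᶠ y in 𝓝 (e x), y ∈ e.target := e.open_target.mem_nhds (e.map_source hx)
    have o2 : ∀ᶠ y in 𝓝 (e x), h (e.symm y) ∈ e'.source := by
      have c : ContinuousAt (fun y => h (e.symm y)) (e x) :=
        hc.continuousAt.comp (e.continuousAt_symm (e.map_source hx))
      apply c.eventually_mem
      rw [e.left_inv hx]
      exact e'.open_source.mem_nhds hx'
    filter_upwards [o1, o2] with y hy1 hy2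
    show e (G.symm (e'.symm (e' (h (e.symm y))))) = y
    rw [e'.left_inv hy2, ← hG]
    have : G.symm (G (e.symm y)) = e.symm y := G.symm_apply_apply _
    rw [this, e.right_inv hy1]
  have hcomp : (fderiv ℝ (e ∘ G.symm ∘ e'.symm) ((e' ∘ h ∘ e.symm) (e x))).comp
      (fderiv ℝ (e' ∘ h ∘ e.symm) (e x)) = ContinuousLinearMap.id ℝ (E n) := by
    rw [← fderiv_comp (e x) h2' h1', hev.fderiv_eq, fderiv_id]
  intro h0
  have h3 := congrArg (fun T : E n →L[ℝ] E n => T.det) hcomp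
  rw [det_comp', h0, mul_zero] at h3
  have h4 : (ContinuousLinearMap.id ℝ (E n)).det = 1 := by
    show LinearMap.det _ = 1
    rw [ContinuousLinearMap.coe_id, LinearMap.det_id]
  rw [h4] at h3
  exact zero_ne_one h3

lemma local_key [MeasurableSpace M] [BorelSpace M] [IsManifold 𝓘(ℝ, E n) ∞ M] (hD : T_DIFF)
    {μ : Measure M} {e e' : OpenPartialHomeomorph M (E n)} (he : Uni μ e) (he' : Uni μ e')
    {g : M → M} (hg : IsDiffeo n 1 g) {K : Set M} (hK : IsCompact K) (hKe : K ⊆ e.source)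
    (hKe' : MapsTo g K e'.source) {δ : ℝ} (hδ : 0 < δ) (hδ1 : δ < 1) :
    ∃ ε : ℝ, 0 < ε ∧ ∀ g' : M → M, IsDiffeo n 1 g' → CrClose 1 g g' e e' K ε →
      ∀ A : Set M, MeasurableSet A → A ⊆ K →
        ENNReal.ofReal (1 - δ) * μ (g '' A) ≤ μ (g' '' A) := by
  have hB : ContinuousOn (fun x => fderiv ℝ (e' ∘ g ∘ e.symm) (e x)) K := by
    intro x hx
    apply ContinuousAt.continuousWithinAt
    have h1 : ContDiffAt ℝ 1 (e' ∘ g ∘ e.symm) (e x) := by
      have := (hD n M 1).2.2.2 g 1 e e' x hg he.1 he'.1 (hKe hx) (hKe' hx)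
      simpa using this
    have h2 : ContDiffAt ℝ 0 (fderiv ℝ (e' ∘ g ∘ e.symm)) (e x) :=
      h1.fderiv_right (by simp)
    exact h2.continuousAt.comp (f := e) (e.continuousAt (hKe hx))
  obtain ⟨ε, hε, H⟩ := det_close hK _ hB
    (fun x hx => det_ne hD he.1 he'.1 hg (hKe hx) (hKe' hx)) hδ
  refine ⟨ε, hε, fun g' hg' hcl A hA hAK => ?_⟩
  have hAe : A ⊆ e.source := hAK.trans hKe
  have hS : MeasurableSet (e '' A) := by
    have := VOLM_.image_meas e hA
    rwa [inter_eq_left.mpr hAe] at this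
  rw [area hD he he' hg hA hAe (hKe'.mono_left hAK), area hD he he' hg' hA hAe
    (hcl.1.mono_left hAK), ← lintegral_const_mul' _ _ ENNReal.ofReal_ne_top]
  refine setLIntegral_mono' hS ?_
  rintro _ ⟨x, hx, rfl⟩
  rw [← ENNReal.ofReal_mul (by linarith)]
  refine ENNReal.ofReal_le_ofReal ?_
  exact H x (hAK hx) _ (fderiv_close _ _ _ (hcl.2 x (hAK hx) 1 le_rfl))

omit [ChartedSpace (E n) M] in
lemma glue [MeasurableSpace M] [BorelSpace M] {μ : Measure M} (g g' : M ≃ₜ M) (c : ENNReal)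
    (K : M → Set M) (t : Finset M) (hK : ∀ q ∈ t, MeasurableSet (K q))
    (H : ∀ q ∈ t, ∀ A : Set M, MeasurableSet A → A ⊆ K q → c * μ (g '' A) ≤ μ (g' '' A)) :
    ∀ A : Set M, MeasurableSet A → A ⊆ ⋃ q ∈ t, K q → c * μ (g '' A) ≤ μ (g' '' A) := by
  classical
  induction t using Finset.induction_on with
  | empty =>
    intro A _ hAK
    have : A = ∅ := by
      rw [eq_empty_iff_forall_notMem]
      intro x hx
      simpa using hAK hx
    rw [this]
    simp
  | insert a t ha ih =>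
    intro A hA hAK
    have ih' := ih (fun q hq => hK q (Finset.mem_insert_of_mem hq))
      (fun q hq => H q (Finset.mem_insert_of_mem hq))
    have hKa := hK a (Finset.mem_insert_self a t)
    have h1 := H a (Finset.mem_insert_self a t) (A ∩ K a) (hA.inter hKa) inter_subset_right
    have h2 := ih' (A \ K a) (hA.diff hKa) (by
      intro x hx
      have h3 := hAK hx.1
      simp only [Finset.mem_insert, mem_iUnion, exists_prop] at h3 ⊢
      obtain ⟨q, hq, hxq⟩ := h3
      rcases hq with rfl | hq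
      · exact absurd hxq hx.2
      · exact ⟨q, hq, hxq⟩)
    have key : ∀ G : M ≃ₜ M, μ (G '' A) = μ (G '' (A ∩ K a)) + μ (G '' (A \ K a)) := by
      intro G
      have hd : Disjoint (G '' (A ∩ K a)) (G '' (A \ K a)) := by
        rw [disjoint_image_iff G.injective]
        exact disjoint_sdiff_right.mono_left inter_subset_right
      have hm : MeasurableSet (G '' (A \ K a)) :=
        G.toMeasurableEquiv.measurableEmbedding.measurableSet_image.mpr (hA.diff hKa)
      rw [← measure_union hd hm, ← image_union, inter_union_sdiff]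
    rw [key g, key g', mul_add]
    exact add_le_add h1 h2

end JACC_

open JACC_ in
theorem jacc (hN : T_NBD) (hD : T_DIFF) : T_JACC := by
  classical
  intro n M _ _ _ _ _ _ _ μ g δ hμ hg hδ hδ1
  obtain ⟨hI, hS, -, hC⟩ := hN n M g
  obtain ⟨G, hG⟩ := (hD n M 1).2.2.1 g hg
  have hgc : Continuous g := by
    rw [← hG]
    exact G.continuous
  have hloc : ∀ q : M, ∃ K : Set M, IsCompact K ∧ q ∈ interior K ∧
      Nbd n g {g' | IsDiffeo n 1 g' → ∀ A : Set M, MeasurableSet A → A ⊆ K →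
        ENNReal.ofReal (1 - δ) * μ (g '' A) ≤ μ (g' '' A)} := by
    intro q
    obtain ⟨e, he, hq, hv⟩ := hμ q
    obtain ⟨e', he', hq', hv'⟩ := hμ (g q)
    have hO : IsOpen (e.source ∩ g ⁻¹' e'.source) :=
      e.open_source.inter (e'.open_source.preimage hgc)
    obtain ⟨K, hK, hqK, hKO⟩ := exists_compact_subset hO ⟨hq, hq'⟩
    refine ⟨K, hK, hqK, ?_⟩
    obtain ⟨ε, hε, H⟩ := local_key hD ⟨he, hv⟩ ⟨he', hv'⟩ hg hK (fun x hx => (hKO hx).1)
      (fun x hx => (hKO hx).2) hδ hδ1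
    refine hS _ _ (hC e e' K ε hε he he' hK (fun x hx => (hKO hx).1)
      (fun x hx => (hKO hx).2)) ?_
    intro g' hg' hd A hA hAK
    exact H g' hd hg' A hA hAK
  choose K hK hqK hnb using hloc
  obtain ⟨t, -, ht⟩ := isCompact_univ.elim_nhds_subcover (fun q => interior (K q))
    (fun q _ => isOpen_interior.mem_nhds (hqK q))
  have hfin : ∀ s : Finset M, Nbd n g {g' | ∀ q ∈ s, IsDiffeo n 1 g' → ∀ A : Set M,
      MeasurableSet A → A ⊆ K q → ENNReal.ofReal (1 - δ) * μ (g '' A) ≤ μ (g' '' A)} := by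
    intro s
    induction s using Finset.induction_on with
    | empty =>
      refine ⟨0, fun i => i.elim0, fun i => i.elim0, fun i => i.elim0, 1, one_pos,
        fun i => i.elim0, ?_⟩
      intro g' _ _ q hq
      exact absurd hq (Finset.notMem_empty q)
    | insert a s ha ih =>
      refine hS _ _ (hI _ _ (hnb a) ih) ?_
      rintro g' ⟨h1, h2⟩ q hq
      rcases Finset.mem_insert.mp hq with rfl | hq
      · exact h1
      · exact h2 q hq
  have hdf : Nbd n g {g' | IsDiffeo n 1 g'} :=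
    ⟨0, fun i => i.elim0, fun i => i.elim0, fun i => i.elim0, 1, one_pos,
      fun i => i.elim0, fun g' hg' _ => hg'⟩
  refine hS _ _ (hI _ _ (hfin t) hdf) ?_
  rintro g' ⟨h1, h2⟩ A hA
  obtain ⟨G', hG'⟩ := (hD n M 1).2.2.1 g' h2
  rw [← hG, ← hG']
  refine glue G G' _ K t (fun q _ => (hK q).isClosed.measurableSet) ?_ A hA ?_
  · intro q hq B hB hBK
    rw [hG, hG']
    exact h1 q hq h2 B hB hBK
  · intro x _
    have h3 := ht (mem_univ x)
    simp only [mem_iUnion, exists_prop] at h3 ⊢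
    obtain ⟨q, hq, hxq⟩ := h3
    exact ⟨q, hq, interior_subset hxq⟩

end Pool.Agent.Pal
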