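import Pool.Agent.Pal.Targets

/-!
# LCOMP: composition of a small map with a fixed map
-/

set_option autoImplicit false

open Set MeasureTheory Filter Topology Metric Asymptotics
open scoped Manifold ContDiff Nat

namespace Pool.Agent.Pal

/-- The derivatives of order at most `r` are bounded on a compact set. -/
lemma LCOMP_.bound {n r : ℕ} {Ω K : Set (E n)} {u : E n → E n} (hΩ : IsOpen Ω)
    (hK : IsCompact K) (hKΩ : K ⊆ Ω) (hu : ContDiffOn ℝ r u Ω) :
    ∃ D : ℝ, 1 ≤ D ∧ ∀ j ≤ r, ∀ y ∈ K, ‖iteratedFDeriv ℝ j u y‖ ≤ D := by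
  have h1 : ∀ j ∈ Finset.range (r + 1), ∃ D : ℝ, 1 ≤ D ∧ ∀ y ∈ K, ‖iteratedFDeriv ℝ j u y‖ ≤ D := by
    intro j hj
    have hj' : (j : ℕ∞ω) ≤ r := by
      have : j ≤ r := by
        have := Finset.mem_range.1 hj
        omega
      exact_mod_cast this
    have hc : ContinuousOn (iteratedFDerivWithin ℝ j u Ω) Ω :=
      hu.continuousOn_iteratedFDerivWithin hj' hΩ.uniqueDiffOn
    obtain ⟨D, hD⟩ := hK.exists_bound_of_continuousOn (hc.mono hKΩ)
    refine ⟨max D 1, le_max_right _ _, fun y hy => ?_⟩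
    rw [← iteratedFDerivWithin_of_isOpen j hΩ (hKΩ hy)]
    exact (hD y hy).trans (le_max_left _ _)
  choose! D hD1 hD using h1
  refine ⟨∑ j ∈ Finset.range (r + 1), D j, ?_, fun j hj y hy => ?_⟩
  · have h0 : (0 : ℕ) ∈ Finset.range (r + 1) := by simp
    refine (hD1 0 h0).trans ?_
    exact Finset.single_le_sum (f := D) (fun i hi => zero_le_one.trans (hD1 i hi)) h0
  · have hj' : j ∈ Finset.range (r + 1) := by simp; omega
    refine (hD j hj' y hy).trans ?_
    exact Finset.single_le_sum (f := D) (fun i hi => zero_le_one.trans (hD1 i hi)) hj'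

/-- LCOMP -/
theorem lcomp : T_LCOMP := by
  intro n r Ω K u ε hΩ hK hKΩ hu hε
  obtain ⟨D, hD1, hD⟩ := LCOMP_.bound hΩ hK hKΩ hu
  have hD0 : 0 < D := by linarith
  refine ⟨ε / ((r ! : ℝ) * D ^ r), by positivity, ?_⟩
  intro W w hW hw hKW hsmall y hy j hj
  set δ : ℝ := ε / ((r ! : ℝ) * D ^ r) with hδ
  have hδ0 : 0 < δ := by positivity
  set s : Set (E n) := Ω ∩ u ⁻¹' W with hs
  have hsopen : IsOpen s := hu.continuousOn.isOpen_inter_preimage hΩ hW
  have hys : y ∈ s := ⟨hKΩ hy, hKW y hy⟩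
  have hjr : (j : ℕ∞ω) ≤ r := by exact_mod_cast hj
  have key := norm_iteratedFDerivWithin_comp_le (𝕜 := ℝ) (g := w) (f := u) (n := j) (s := s)
    (t := W) (x := y) (N := r) hw (hu.mono inter_subset_left) hjr hW.uniqueDiffOn
    hsopen.uniqueDiffOn (fun z hz => hz.2) hys (C := δ) (D := D) (fun i hi => by
      rw [iteratedFDerivWithin_of_isOpen i hW (hKW y hy)]
      exact hsmall y hy i (hi.trans hj)) (fun i hi1 hi => by
      rw [iteratedFDerivWithin_of_isOpen i hsopen hys]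
      refine (hD i (hi.trans hj) y hy).trans ?_
      exact le_self_pow₀ hD1 (by omega))
  rw [iteratedFDerivWithin_of_isOpen j hsopen hys] at key
  refine key.trans ?_
  have h1 : (j ! : ℝ) ≤ (r ! : ℝ) := by exact_mod_cast Nat.factorial_le hj
  have h2 : D ^ j ≤ D ^ r := pow_le_pow_right₀ hD1 hj
  calc (j ! : ℝ) * δ * D ^ j ≤ (r ! : ℝ) * δ * D ^ r := by gcongr
    _ = ε := by
      rw [hδ]
      field_simp

end Pool.Agent.Pal
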