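import Pool.Agent.Pal.Targets

/-!
# Elliptic linear maps of the plane (`T_LIN`, `T_NONRES`)
-/

set_option autoImplicit false

open Set MeasureTheory Filter Topology

namespace Pool.Agent.Pal

namespace LIN_

/-- the standard basis -/
noncomputable def e (i : Fin 2) : E 2 := EuclideanSpace.single i (1 : ℝ)

theorem e_apply (i j : Fin 2) : e i j = if j = i then 1 else 0 := by
  simp [e]

theorem decomp (x : E 2) : x = x 0 • e 0 + x 1 • e 1 := by
  ext i
  fin_cases i <;> simp [e_apply]

theorem apply_eq (A : E 2 →L[ℝ] E 2) (x : E 2) (i : Fin 2) :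
    A x i = A (e 0) i * x 0 + A (e 1) i * x 1 := by
  conv_lhs => rw [decomp x]
  simp only [map_add, map_smul, PiLp.add_apply, PiLp.smul_apply, smul_eq_mul]
  ring

theorem det_eq (A : E 2 →L[ℝ] E 2) :
    A.det = A (e 0) 0 * A (e 1) 1 - A (e 1) 0 * A (e 0) 1 := by
  have h : A.det = LinearMap.det (A : E 2 →ₗ[ℝ] E 2) := rfl
  rw [h, ← LinearMap.det_toMatrix (EuclideanSpace.basisFun (Fin 2) ℝ).toBasis,
    Matrix.det_fin_two]
  simp [LinearMap.toMatrix_apply, e]

theorem ext_e {x y : E 2} (h0 : x 0 = y 0) (h1 : x 1 = y 1) : x = y := by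
  ext i
  fin_cases i
  · exact h0
  · exact h1

/-- the trace -/
noncomputable def tr (A : E 2 →L[ℝ] E 2) : ℝ := A (e 0) 0 + A (e 1) 1

theorem no_iff (A : E 2 →L[ℝ] E 2) (hdet : A.det = 1) :
    NoRealEigenvalue A ↔ tr A ^ 2 < 4 := by
  rw [det_eq] at hdet
  set a := A (e 0) 0 with ha
  set b := A (e 1) 0 with hb
  set c := A (e 0) 1 with hc
  set d := A (e 1) 1 with hd
  have htr : tr A = a + d := rfl
  constructor
  · intro h
    by_contra hcon
    push Not at hcon
    rw [htr] at hcon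
    set l := ((a + d) + Real.sqrt ((a + d) ^ 2 - 4)) / 2 with hl
    have hs : Real.sqrt ((a + d) ^ 2 - 4) ^ 2 = (a + d) ^ 2 - 4 :=
      Real.sq_sqrt (by linarith)
    have hl2 : l ^ 2 - (a + d) * l + 1 = 0 := by
      rw [hl]
      linear_combination (1 / 4 : ℝ) * hs
    by_cases h0 : b = 0 ∧ l = a
    · -- `e 1` is an eigenvector
      have hv : e 1 ≠ 0 := by
        intro h1
        have := congrArg (fun x : E 2 => x 1) h1
        simp [e_apply] at this
      refine h (e 1) hv d (ext_e ?_ ?_)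
      · rw [← hb, h0.1]
        simp [e_apply]
      · rw [← hd]
        simp [e_apply]
    · set v : E 2 := b • e 0 + (l - a) • e 1 with hv
      have hv0 : v 0 = b := by simp [hv, e_apply]
      have hv1 : v 1 = l - a := by simp [hv, e_apply]
      have hvne : v ≠ 0 := by
        intro hz
        apply h0
        refine ⟨?_, ?_⟩
        · rw [← hv0, hz]
          rfl
        · have : v 1 = 0 := by
            rw [hz]
            rfl
          rw [hv1] at this
          linarith
      refine h v hvne l (ext_e ?_ ?_)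
      · rw [apply_eq, PiLp.smul_apply, hv0, hv1, smul_eq_mul, ← ha, ← hb]
        ring
      · rw [apply_eq, PiLp.smul_apply, hv0, hv1, smul_eq_mul, ← hc, ← hd]
        linear_combination -hdet - hl2
  · intro h v hv l hl
    rw [htr] at h
    have h0 : a * v 0 + b * v 1 = l * v 0 := by
      have := congrArg (fun x : E 2 => x 0) hl
      simpa [apply_eq A v 0, ← ha, ← hb] using this
    have h1 : c * v 0 + d * v 1 = l * v 1 := by
      have := congrArg (fun x : E 2 => x 1) hl
      simpa [apply_eq A v 1, ← hc, ← hd] using this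
    have k0 : (l ^ 2 - (a + d) * l + 1) * v 0 = 0 := by
      linear_combination (l - d) * (-h0) + (-b) * h1 - v 0 * hdet
    have k1 : (l ^ 2 - (a + d) * l + 1) * v 1 = 0 := by
      linear_combination (l - a) * (-h1) + (-c) * h0 - v 1 * hdet
    have hne : l ^ 2 - (a + d) * l + 1 ≠ 0 := by
      intro hz
      nlinarith [sq_nonneg (2 * l - (a + d))]
    apply hv
    refine ext_e ?_ ?_
    · rcases mul_eq_zero.1 k0 with h | h
      · exact absurd h hne
      · exact h
    · rcases mul_eq_zero.1 k1 with h | h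
      · exact absurd h hne
      · exact h

/-- the linear map `z ↦ (Re z + Im z x, Im z y)` -/
noncomputable def Pm (x y : ℝ) : ℂ →ₗ[ℝ] E 2 where
  toFun z := (z.re + z.im * x) • e 0 + (z.im * y) • e 1
  map_add' z w := by
    simp only [Complex.add_re, Complex.add_im]
    module
  map_smul' c z := by
    simp only [Complex.real_smul, Complex.mul_re, Complex.mul_im, Complex.ofReal_re,
      Complex.ofReal_im, RingHom.id_apply]
    module

theorem Pm_zero (x y : ℝ) (z : ℂ) : Pm x y z 0 = z.re + z.im * x := by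
  simp [Pm, e_apply]

theorem Pm_one (x y : ℝ) (z : ℂ) : Pm x y z 1 = z.im * y := by
  simp [Pm, e_apply]

theorem Pm_inj (x y : ℝ) (hy : y ≠ 0) : Function.Injective (Pm x y) := by
  rw [← LinearMap.ker_eq_bot, LinearMap.ker_eq_bot']
  intro z hz
  have h0 : Pm x y z 0 = 0 := by
    rw [hz]
    rfl
  have h1 : Pm x y z 1 = 0 := by
    rw [hz]
    rfl
  rw [Pm_zero] at h0
  rw [Pm_one] at h1
  have him : z.im = 0 := (mul_eq_zero.1 h1).resolve_right hy
  rw [him] at h0
  apply Complex.ext
  · simpa using h0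
  · exact him

theorem lin' (A : E 2 →L[ℝ] E 2) (hA : NoRealEigenvalue A) (hdet : A.det = 1) :
    ∃ (P : ℂ ≃L[ℝ] E 2) (l : ℂ), ‖l‖ = 1 ∧ 2 * l.re = tr A ∧ (∀ z, A (P z) = P (l * z)) ∧
    ∀ k : ℕ, (A ^ k = 1 ↔ l ^ k = 1) := by
  have ht := (no_iff A hdet).1 hA
  have hdet' := hdet
  rw [det_eq] at hdet'
  have htr : tr A = A (e 0) 0 + A (e 1) 1 := rfl
  set a := A (e 0) 0 with ha
  set b := A (e 1) 0 with hb
  set c := A (e 0) 1 with hc
  set d := A (e 1) 1 with hd
  rw [htr] at ht
  set w := Real.sqrt (1 - (a + d) ^ 2 / 4) with hw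
  have hwpos : 0 < w := Real.sqrt_pos.2 (by linarith)
  have hw2 : w ^ 2 = 1 - (a + d) ^ 2 / 4 := Real.sq_sqrt (by linarith)
  have hcne : c ≠ 0 := by
    intro h0
    rw [h0] at hdet'
    nlinarith [sq_nonneg (a - d)]
  have hy : c / w ≠ 0 := div_ne_zero hcne hwpos.ne'
  have hfin : Module.finrank ℝ ℂ = Module.finrank ℝ (E 2) := by
    rw [Complex.finrank_real_complex, finrank_euclideanSpace_fin]
  let P0 : ℂ ≃ₗ[ℝ] E 2 := LinearMap.linearEquivOfInjective (Pm ((a - d) / (2 * w)) (c / w))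
    (Pm_inj _ _ hy) hfin
  let P : ℂ ≃L[ℝ] E 2 := P0.toContinuousLinearEquiv
  have hP : ∀ z, P z = Pm ((a - d) / (2 * w)) (c / w) z := fun z => rfl
  let l : ℂ := ⟨(a + d) / 2, w⟩
  have hl0 : l.re = (a + d) / 2 := rfl
  have hl1 : l.im = w := rfl
  have hconj : ∀ z, A (P z) = P (l * z) := by
    intro z
    rw [hP, hP]
    apply ext_e
    · rw [apply_eq, Pm_zero, Pm_zero, Pm_one, ← ha, ← hb, Complex.mul_re, Complex.mul_im, hl0, hl1]
      field_simp
      have hw2' : w ^ 2 = (4 - (a + d) ^ 2) / 4 := by rw [hw2]; ring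
      have : 4 * w ^ 2 = 4 - (a + d) ^ 2 := by rw [hw2']; ring
      linear_combination (z.im) * (-4 : ℝ) * hdet' - z.im * (-1) * this
    · rw [apply_eq, Pm_one, Pm_zero, Pm_one, ← hc, ← hd, Complex.mul_im, hl0, hl1]
      field_simp
      ring
  have hpow : ∀ (k : ℕ) (z : ℂ), (A ^ k) (P z) = P (l ^ k * z) := by
    intro k
    induction k with
    | zero => intro z; simp
    | succ k ih =>
      intro z
      rw [pow_succ, ContinuousLinearMap.mul_apply, hconj, ih, pow_succ, mul_assoc]
  refine ⟨P, l, ?_, ?_, hconj, fun k => ⟨fun h => ?_, fun h => ?_⟩⟩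
  · have h1 : Complex.normSq l = 1 := by
      rw [Complex.normSq_apply, hl0, hl1]
      linear_combination hw2
    rw [Complex.norm_def, h1, Real.sqrt_one]
  · rw [hl0, htr]
    ring
  · have h1 := hpow k 1
    rw [h, mul_one, ContinuousLinearMap.one_apply] at h1
    exact (P.injective h1).symm
  · ext1 x
    obtain ⟨z, rfl⟩ := P.surjective x
    rw [hpow, h, one_mul, ContinuousLinearMap.one_apply]

theorem rot_zero (t : ℝ) (x : E 2) : rot t x 0 = Real.cos t * x 0 - Real.sin t * x 1 := by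
  simp [rot, Matrix.toEuclideanLin, Matrix.toLpLin, Matrix.mulVec, dotProduct, Fin.sum_univ_two]
  ring

theorem rot_one (t : ℝ) (x : E 2) : rot t x 1 = Real.sin t * x 0 + Real.cos t * x 1 := by
  simp [rot, Matrix.toEuclideanLin, Matrix.toLpLin, Matrix.mulVec, dotProduct, Fin.sum_univ_two]

end LIN_

open LIN_

theorem lin : T_LIN := by
  intro A hA hdet
  obtain ⟨P, l, h1, -, h2, h3⟩ := lin' A hA hdet
  exact ⟨P, l, h1, h2, h3⟩

theorem nonres : T_NONRES := by
  intro A t₀ R hA hdet ht₀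
  have hτ := (no_iff A hdet).1 hA
  have hdet' := hdet
  rw [det_eq] at hdet'
  have htr : tr A = A (e 0) 0 + A (e 1) 1 := rfl
  set a := A (e 0) 0 with ha
  set b := A (e 1) 0 with hb
  set c := A (e 0) 1 with hc
  set d := A (e 1) 1 with hd
  rw [htr] at hτ
  -- the composition
  have htrt : ∀ t, tr (rot t ∘L A) = Real.cos t * (a + d) + Real.sin t * (b - c) := by
    intro t
    change rot t (A (e 0)) 0 + rot t (A (e 1)) 1 = _
    rw [rot_zero, rot_one]
    ring
  have hdett : ∀ t, (rot t ∘L A).det = 1 := by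
    intro t
    rw [det_eq]
    change rot t (A (e 0)) 0 * rot t (A (e 1)) 1 - rot t (A (e 1)) 0 * rot t (A (e 0)) 1 = 1
    rw [rot_zero, rot_one, rot_zero, rot_one]
    have hsc := Real.sin_sq_add_cos_sq t
    rw [← ha, ← hb, ← hc, ← hd]
    linear_combination (a * d - b * c) * hsc + hdet'
  set F : ℝ → ℝ := fun t => Real.cos t * (a + d) + Real.sin t * (b - c) with hF
  have hFc : Continuous F := by
    simp only [hF]
    fun_prop
  have hbc : b - c ≠ 0 := by
    intro h0
    have : c = b := by linarith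
    rw [this] at hdet'
    nlinarith [sq_nonneg (a - d), sq_nonneg b]
  have hF0 : F 0 ^ 2 < 4 := by simpa [hF] using hτ
  have hev : ∀ᶠ t in 𝓝 (0 : ℝ), F t ^ 2 < 4 := by
    have hc2 : Continuous fun t => F t ^ 2 := hFc.pow 2
    exact hc2.continuousAt.eventually (IsOpen.mem_nhds isOpen_Iio hF0)
  obtain ⟨ε, hε, hball⟩ := Metric.eventually_nhds_iff.1 hev
  set t1 := min t₀ (min (ε / 2) 1) with ht1
  have ht1pos : 0 < t1 := by
    rw [ht1]
    exact lt_min ht₀ (lt_min (by linarith) one_pos)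
  have ht1a : t1 ≤ t₀ := min_le_left _ _
  have ht1b : t1 ≤ ε / 2 := (min_le_right _ _).trans (min_le_left _ _)
  have ht1c : t1 ≤ 1 := (min_le_right _ _).trans (min_le_right _ _)
  have hsin : 0 < Real.sin t1 := Real.sin_pos_of_pos_of_le_one ht1pos ht1c
  have hFne : F (-t1) ≠ F t1 := by
    simp only [hF, Real.cos_neg, Real.sin_neg]
    intro h0
    have : 2 * (Real.sin t1 * (b - c)) = 0 := by linarith
    have h2 : Real.sin t1 * (b - c) ≠ 0 := mul_ne_zero hsin.ne' hbc
    apply h2
    linarith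
  -- the bad values of the trace
  set Bad : Set ℝ := ⋃ k ∈ Finset.Icc 1 R, (fun z : ℂ => 2 * z.re) '' {z : ℂ | z ^ k = 1} with hBad
  have hBadfin : Bad.Finite := by
    refine Set.Finite.biUnion (Finset.finite_toSet _) fun k hk => Set.Finite.image _ ?_
    have hk1 : 1 ≤ k := (Finset.mem_Icc.1 hk).1
    have : {z : ℂ | z ^ k = 1} ⊆ (((Polynomial.X ^ k - 1 : Polynomial ℂ).roots.toFinset : Finset ℂ) :
        Set ℂ) := by
      intro z hz
      simp only [Finset.mem_coe, Multiset.mem_toFinset]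
      rw [Polynomial.mem_roots']
      refine ⟨Polynomial.X_pow_sub_C_ne_zero hk1 (1 : ℂ), ?_⟩
      simp only [Polynomial.IsRoot.def, Polynomial.eval_sub, Polynomial.eval_pow,
        Polynomial.eval_X, Polynomial.eval_one]
      rw [show z ^ k = 1 from hz, sub_self]
    exact (Finset.finite_toSet _).subset this
  have hinf : (Set.uIcc (F (-t1)) (F t1)).Infinite := by
    rcases lt_or_gt_of_ne hFne with h | h
    · rw [Set.uIcc_of_le h.le]
      exact Set.Icc_infinite h
    · rw [Set.uIcc_of_ge h.le]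
      exact Set.Icc_infinite h
  obtain ⟨x, hx, hxB⟩ := (hinf.diff hBadfin).nonempty
  obtain ⟨t, ht, htx⟩ := intermediate_value_uIcc (hFc.continuousOn (s := Set.uIcc (-t1) t1)) hx
  rw [Set.uIcc_of_le (by linarith)] at ht
  have htabs : |t| ≤ t1 := abs_le.2 ht
  have hFt : F t ^ 2 < 4 := by
    apply hball
    rw [Real.dist_eq, sub_zero]
    linarith
  have hno : NoRealEigenvalue (rot t ∘L A) := by
    rw [no_iff _ (hdett t), htrt]
    exact hFt
  refine ⟨t, htabs.trans ht1a, hno, fun k hk1 hkR hcon => hxB ?_⟩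
  obtain ⟨P, l, -, hre, -, h3⟩ := lin' (rot t ∘L A) hno (hdett t)
  have hlk : l ^ k = 1 := (h3 k).1 hcon
  simp only [hBad, Set.mem_iUnion]
  refine ⟨k, Finset.mem_Icc.2 ⟨hk1, hkR⟩, l, hlk, ?_⟩
  simp only
  rw [hre, htrt, ← htx]

end Pool.Agent.Pal
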