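import Pool.Agent.Pal.Targets2

/-!
# The derivative of the return map preserves a Euclidean norm (`T_LINS`)
-/

set_option autoImplicit false

open Set MeasureTheory Filter Topology Metric Asymptotics
open scoped Manifold ContDiff

namespace Pool.Agent.Pal

namespace LINS_

/-- Second order expansion at a critical point. -/
theorem taylor {n : ℕ} (I : E n → ℝ) (hI : ContDiffAt ℝ ∞ I 0) (h0 : I 0 = 0)
    (h1 : fderiv ℝ I 0 = 0) :
    (fun y => I y - (1 / 2) * fderiv ℝ (fderiv ℝ I) 0 y y) =o[𝓝 0] (fun y : E n => ‖y‖ ^ 2) := by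
  set D := fderiv ℝ I with hD
  set D' := fderiv ℝ D 0 with hD'
  have hI2 : ContDiffAt ℝ 2 I 0 := hI.of_le (WithTop.coe_le_coe.2 le_top)
  have hsymm : ∀ v w, D' v w = D' w v := by
    have h := hI2.isSymmSndFDerivAt (by simp)
    intro v w
    exact h v w
  have hDdiff : DifferentiableAt ℝ D 0 := by
    have h : ContDiffAt ℝ 1 D 0 := hI.fderiv_right (m := 1) (by norm_cast)
    exact h.differentiableAt one_ne_zero
  have hDlo : (fun y => D y - D' y) =o[𝓝 0] (fun y : E n => y) := by
    have h := hDdiff.hasFDerivAt.isLittleO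
    refine h.congr' (Eventually.of_forall fun y => ?_) (Eventually.of_forall fun y => ?_)
    · simp only [sub_zero, h1]
      rfl
    · simp
  have hdiff : ∀ᶠ y in 𝓝 (0 : E n), DifferentiableAt ℝ I y := by
    have h := hI2.eventually (by simp)
    filter_upwards [h] with y hy
    exact hy.differentiableAt two_ne_zero
  rw [isLittleO_iff]
  intro c hc
  have hev := (isLittleO_iff.1 hDlo) hc
  obtain ⟨δ, hδ, hball⟩ := Metric.eventually_nhds_iff_ball.1 (hev.and hdiff)
  filter_upwards [Metric.ball_mem_nhds (0 : E n) hδ] with y hy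
  have hyδ : ‖y‖ < δ := by simpa using hy
  have hder : ∀ x ∈ closedBall (0 : E n) ‖y‖, HasFDerivWithinAt
      (fun y => I y - (1 / 2) * D' y y) (D x - D' x) (closedBall (0 : E n) ‖y‖) x := by
    intro x hx
    have hxb : x ∈ ball (0 : E n) δ := by
      rw [mem_ball_zero_iff]
      exact (mem_closedBall_zero_iff.1 hx).trans_lt hyδ
    have hI1 : HasFDerivAt I (D x) x := (hball x hxb).2.hasFDerivAt
    have hq : HasFDerivAt (fun y : E n => D' y y) (D' x + D'.flip x) x := by
      have h := (D'.hasFDerivAt (x := x)).clm_apply (hasFDerivAt_id x)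
      refine h.congr_fderiv ?_
      ext v
      simp
    have hq2 := (hI1.sub (hq.const_mul (1 / 2 : ℝ))).hasFDerivWithinAt
      (s := closedBall (0 : E n) ‖y‖)
    refine hq2.congr_fderiv ?_
    ext v
    simp only [sub_apply, smul_apply,
      add_apply, ContinuousLinearMap.flip_apply, smul_eq_mul]
    rw [hsymm v x]
    ring
  have hb : ∀ x ∈ closedBall (0 : E n) ‖y‖, ‖D x - D' x‖ ≤ c * ‖y‖ := by
    intro x hx
    have hxb : x ∈ ball (0 : E n) δ := by
      rw [mem_ball_zero_iff]
      exact (mem_closedBall_zero_iff.1 hx).trans_lt hyδ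
    exact (hball x hxb).1.trans
      (mul_le_mul_of_nonneg_left (mem_closedBall_zero_iff.1 hx) hc.le)
  have hmv := (convex_closedBall (0 : E n) ‖y‖).norm_image_sub_le_of_norm_hasFDerivWithin_le
    hder hb (mem_closedBall_self (norm_nonneg y)) (y := y) (by simp)
  simp only [h0, map_zero, mul_zero, sub_zero] at hmv
  rw [Real.norm_of_nonneg (by positivity : (0 : ℝ) ≤ ‖y‖ ^ 2)]
  calc ‖I y - 1 / 2 * (D' y) y‖ ≤ c * ‖y‖ * ‖y‖ := hmv
    _ = c * ‖y‖ ^ 2 := by ring

/-- A homogeneous function of degree two that is `o(‖y‖²)` vanishes. -/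
theorem hom_zero {n : ℕ} (F : E n → ℝ) (hF : ∀ (t : ℝ) v, F (t • v) = t ^ 2 * F v)
    (ho : F =o[𝓝 0] (fun y : E n => ‖y‖ ^ 2)) (v : E n) : F v = 0 := by
  have ht : Tendsto (fun t : ℝ => t • v) (𝓝[≠] 0) (𝓝 0) := by
    have h : Continuous fun t : ℝ => t • v := by fun_prop
    have h2 := h.tendsto 0
    rw [zero_smul] at h2
    exact h2.mono_left nhdsWithin_le_nhds
  have h := ho.comp_tendsto ht
  have key : ∀ c : ℝ, 0 < c → |F v| ≤ c * ‖v‖ ^ 2 := by
    intro c hc
    have h1 := (isLittleO_iff.1 h) hc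
    have h2 : ∀ᶠ t : ℝ in 𝓝[≠] 0, t ≠ 0 := eventually_mem_nhdsWithin
    obtain ⟨t, h3, h4⟩ := (h1.and h2).exists
    simp only [Function.comp, hF, norm_mul, norm_pow, norm_smul, Real.norm_eq_abs,
      sq_abs, abs_norm, mul_pow] at h3
    have h5 : 0 < t ^ 2 := by positivity
    have h6 : t ^ 2 * |F v| ≤ t ^ 2 * (c * ‖v‖ ^ 2) := by
      calc t ^ 2 * |F v| ≤ c * (t ^ 2 * ‖v‖ ^ 2) := h3
        _ = t ^ 2 * (c * ‖v‖ ^ 2) := by ring
    exact le_of_mul_le_mul_left h6 h5
  by_contra hne
  have hpos : 0 < |F v| := abs_pos.2 hne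
  have h1 := key (|F v| / (2 * (‖v‖ ^ 2 + 1))) (by positivity)
  have h2 : |F v| / (2 * (‖v‖ ^ 2 + 1)) * ‖v‖ ^ 2 < |F v| := by
    rw [div_mul_eq_mul_div, div_lt_iff₀ (by positivity)]
    nlinarith [sq_nonneg ‖v‖]
  linarith

open scoped MatrixOrder in
/-- A positive definite form is the square of a Euclidean norm. -/
theorem root {n : ℕ} (B : E n →L[ℝ] E n →L[ℝ] ℝ) (hs : ∀ v w, B v w = B w v) (b : ℝ) (hb : 0 < b)
    (hp : ∀ v, b * ‖v‖ ^ 2 ≤ B v v) : ∃ S : E n ≃L[ℝ] E n, ∀ v, ‖S v‖ ^ 2 = B v v := by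
  classical
  set e : Fin n → E n := fun i => EuclideanSpace.single i (1 : ℝ) with he
  set M : Matrix (Fin n) (Fin n) ℝ := Matrix.of fun i j => B (e i) (e j) with hM
  have hexp : ∀ v : E n, v = ∑ i, v i • e i := by
    intro v
    ext j
    simp [he, Pi.single_apply]
  have hBM : ∀ v w : E n, B v w = (v : Fin n → ℝ) ⬝ᵥ (M.mulVec w) := by
    intro v w
    conv_lhs => rw [hexp v, hexp w]
    simp only [map_sum, map_smul, sum_apply, smul_apply,
      smul_eq_mul, dotProduct, Matrix.mulVec, hM, Matrix.of_apply]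
    simp only [Finset.mul_sum]
    rw [Finset.sum_comm]
    refine Finset.sum_congr rfl fun i _ => ?_
    refine Finset.sum_congr rfl fun j _ => ?_
    ring
  have hherm : M.IsHermitian := by
    ext i j
    simp only [hM, Matrix.conjTranspose_apply, Matrix.of_apply, star_trivial]
    exact hs _ _
  have hpsd : M.PosSemidef := by
    refine Matrix.PosSemidef.of_dotProduct_mulVec_nonneg hherm fun x => ?_
    have h := hBM (WithLp.toLp 2 x) (WithLp.toLp 2 x)
    have h2 := hp (WithLp.toLp 2 x)
    rw [h] at h2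
    refine le_trans (by positivity) h2
  obtain ⟨C, hC⟩ := CStarAlgebra.nonneg_iff_eq_star_mul_self.mp hpsd.nonneg
  set T : E n →ₗ[ℝ] E n := Matrix.toEuclideanLin C with hT
  have hTn : ∀ v, ‖T v‖ ^ 2 = B v v := by
    intro v
    rw [hBM, hC, EuclideanSpace.norm_sq_eq]
    simp only [Real.norm_eq_abs, sq_abs]
    rw [← Matrix.mulVec_mulVec, Matrix.star_eq_conjTranspose, Matrix.dotProduct_mulVec,
      Matrix.vecMul_conjTranspose]
    simp only [star_trivial, dotProduct]
    refine Finset.sum_congr rfl fun i _ => ?_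
    rw [sq]
    rfl
  have hinj : Function.Injective T := by
    rw [← LinearMap.ker_eq_bot, LinearMap.ker_eq_bot']
    intro v hv
    have h1 := hTn v
    rw [hv, norm_zero] at h1
    have h2 := hp v
    rw [← h1] at h2
    have h3 : ‖v‖ ^ 2 ≤ 0 := by
      by_contra hcon
      push Not at hcon
      have := mul_pos hb hcon
      norm_num at h2
      linarith
    have h4 : ‖v‖ = 0 := by
      have := sq_nonneg ‖v‖
      exact pow_eq_zero_iff (two_ne_zero) |>.1 (le_antisymm h3 this)
    exact norm_eq_zero.1 h4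
  let S0 : E n ≃ₗ[ℝ] E n := LinearEquiv.ofInjectiveEndo T hinj
  refine ⟨S0.toContinuousLinearEquiv, fun v => ?_⟩
  rw [← hTn v]
  rfl

end LINS_

open LINS_

theorem lins : T_LINS := by
  intro n Φ I b hΦ0 hΦ hI hI0 hb hIb hinv
  have hmin : IsLocalMin I 0 := by
    filter_upwards [hIb] with y hy
    rw [hI0]
    exact le_trans (by positivity) hy
  have hcrit : fderiv ℝ I 0 = 0 := hmin.fderiv_eq_zero
  have htay := taylor I hI hI0 hcrit
  set D' := fderiv ℝ (fderiv ℝ I) 0 with hD'
  have hI2 : ContDiffAt ℝ 2 I 0 := hI.of_le (WithTop.coe_le_coe.2 le_top)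
  have hsymm : ∀ v w, D' v w = D' w v := by
    have h := hI2.isSymmSndFDerivAt (by simp)
    intro v w
    exact h v w
  set A := fderiv ℝ Φ 0 with hA
  have hΦd : HasFDerivAt Φ A 0 := (hΦ.differentiableAt one_ne_zero).hasFDerivAt
  have hΦo : (fun y => Φ y - A y) =o[𝓝 0] (fun y : E n => y) := by
    have h := hΦd.isLittleO
    refine h.congr' (Eventually.of_forall fun y => ?_) (Eventually.of_forall fun y => ?_)
    · simp only [sub_zero, hΦ0]
    · simp
  have hAO : (fun y => A y) =O[𝓝 0] (fun y : E n => y) := A.isBigO_id _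
  have hΦO : Φ =O[𝓝 0] (fun y : E n => y) := by
    have h := hΦo.isBigO.add hAO
    refine h.congr_left fun y => ?_
    abel
  have hΦt : Tendsto Φ (𝓝 0) (𝓝 0) := by
    have h := hΦd.continuousAt.tendsto
    rwa [hΦ0] at h
  -- the invariance
  have hinv2 : ∀ v, D' (A v) (A v) - D' v v = 0 := by
    refine hom_zero (fun v => D' (A v) (A v) - D' v v) ?_ ?_
    · intro t v
      simp only [map_smul, smul_apply, smul_eq_mul]
      ring
    · have e1 : (fun y => I (Φ y) - (1 / 2) * D' (Φ y) (Φ y)) =o[𝓝 0] (fun y : E n => ‖y‖ ^ 2) := by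
        have h := htay.comp_tendsto hΦt
        refine h.trans_isBigO ?_
        exact (hΦO.norm_norm).pow 2
      have e2 : (fun y => D' (Φ y) (Φ y) - D' (A y) (A y)) =o[𝓝 0] (fun y : E n => ‖y‖ ^ 2) := by
        have e3 : (fun y => D' (Φ y - A y) (Φ y)) =o[𝓝 0] (fun y : E n => ‖y‖ ^ 2) := by
          have h := (D'.isBoundedBilinearMap).isBigO_comp (g := fun y => Φ y - A y)
            (h := fun y => Φ y) (l := 𝓝 (0 : E n))
          refine h.trans_isLittleO ?_
          have h2 := (hΦo.norm_norm).mul_isBigO (hΦO.norm_norm)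
          refine h2.congr_right fun y => ?_
          ring
        have e4 : (fun y => D' (A y) (Φ y - A y)) =o[𝓝 0] (fun y : E n => ‖y‖ ^ 2) := by
          have h := (D'.isBoundedBilinearMap).isBigO_comp (g := fun y => A y)
            (h := fun y => Φ y - A y) (l := 𝓝 (0 : E n))
          refine h.trans_isLittleO ?_
          have h2 := (hAO.norm_norm).mul_isLittleO (hΦo.norm_norm)
          refine h2.congr_right fun y => ?_
          ring
        refine (e3.add e4).congr_left fun y => ?_
        simp only [map_sub, sub_apply]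
        ring
      have e5 := ((hinv.sub e1).add htay).const_mul_left (2 : ℝ)
      have e6 := e5.sub e2
      refine e6.congr_left fun y => ?_
      ring
  -- positivity
  have hpos : ∀ v, b * ‖v‖ ^ 2 ≤ (1 / 2) * D' v v := by
    have h := hom_zero (fun v => min ((1 / 2) * D' v v - b * ‖v‖ ^ 2) 0) ?_ ?_
    · intro v
      have h1 := h v
      have h2 : 0 ≤ (1 / 2) * D' v v - b * ‖v‖ ^ 2 := by
        rw [← h1]
        exact min_le_left _ _
      linarith
    · intro t v
      simp only [map_smul, smul_apply, smul_eq_mul, norm_smul,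
        Real.norm_eq_abs, mul_pow, sq_abs]
      rw [mul_min_of_nonneg _ _ (sq_nonneg t), mul_zero]
      congr 1
      ring
    · refine IsBigO.trans_isLittleO ?_ htay
      refine IsBigO.of_bound 1 ?_
      filter_upwards [hIb] with y hy
      rw [one_mul, Real.norm_eq_abs, Real.norm_eq_abs]
      rcases le_total ((1 / 2) * D' y y - b * ‖y‖ ^ 2) 0 with h | h
      · rw [min_eq_left h, abs_of_nonpos h]
        have : -((1 / 2) * D' y y - b * ‖y‖ ^ 2) ≤ I y - (1 / 2) * D' y y := by linarith
        exact this.trans (le_abs_self _)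
      · rw [min_eq_right h, abs_zero]
        exact abs_nonneg _
  obtain ⟨S, hS⟩ := root ((1 / 2 : ℝ) • D') (fun v w => by
    simp only [smul_apply, hsymm v w]) b hb (fun v => by
    simpa only [smul_apply, smul_eq_mul] using hpos v)
  refine ⟨S, fun v => ?_⟩
  have h1 : ‖S (A v)‖ ^ 2 = ‖S v‖ ^ 2 := by
    rw [hS, hS]
    simp only [smul_apply, smul_eq_mul]
    have := hinv2 v
    linarith
  exact (sq_eq_sq₀ (norm_nonneg _) (norm_nonneg _)).1 h1

end Pool.Agent.Pal
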