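import Pool.Agent.Pal.Targets

/-!
# PAL-LYAP: points entering the trap converge to the orbit
-/

set_option autoImplicit false

open Set MeasureTheory Filter Topology Metric Asymptotics
open scoped Manifold ContDiff

namespace Pool.Agent.Pal

namespace LYAP_

/-- The orbits of the points of the trap converge to the fixed point. -/
lemma tendsto_trap {M : Type} [MetricSpace M] {h : M → M} {p : M} {K : Set M} {V : M → ℝ}
    (hh : Continuous h) (hp : h p = p) (hK : IsCompact K) (hV : ContinuousOn V K)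
    (hKK : ∀ x ∈ K, h x ∈ K) (hlt : ∀ x ∈ K, x ≠ p → V (h x) < V x) {z : M} (hz : z ∈ K) :
    Tendsto (fun j : ℕ => h^[j] z) atTop (𝓝 p) := by
  have hmem : ∀ j : ℕ, h^[j] z ∈ K := by
    intro j
    induction j with
    | zero => exact hz
    | succ j ih =>
      rw [Function.iterate_succ_apply']
      exact hKK _ ih
  have hle : ∀ x ∈ K, V (h x) ≤ V x := by
    intro x hx
    by_cases hxp : x = p
    · rw [hxp, hp]
    · exact (hlt x hx hxp).le
  have hanti : Antitone (fun j : ℕ => V (h^[j] z)) := by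
    refine antitone_nat_of_succ_le fun j => ?_
    rw [Function.iterate_succ_apply']
    exact hle _ (hmem j)
  refine hK.tendsto_nhds_of_unique_mapClusterPt (Eventually.of_forall hmem) ?_
  intro y hy hcl
  by_contra hyp
  obtain ⟨φ, hφ, hlim⟩ := MapClusterPt.tendsto_subseq hcl
  have hVlim : ∀ (w : ℕ → M) (q : M), q ∈ K → (∀ j, w j ∈ K) → Tendsto w atTop (𝓝 q) →
      Tendsto (fun j => V (w j)) atTop (𝓝 (V q)) := by
    intro w q hq hw hwq
    exact (hV q hq).tendsto.comp
      (tendsto_nhdsWithin_iff.mpr ⟨hwq, Eventually.of_forall hw⟩)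
  have l1 : Tendsto (fun j => V (h^[φ j] z)) atTop (𝓝 (V y)) :=
    hVlim _ y hy (fun j => hmem _) hlim
  have l1' : Tendsto (fun j => V (h^[φ (j + 1)] z)) atTop (𝓝 (V y)) :=
    l1.comp (tendsto_add_atTop_nat 1)
  have l2 : Tendsto (fun j => V (h^[φ j + 1] z)) atTop (𝓝 (V (h y))) := by
    refine hVlim _ (h y) (hKK y hy) (fun j => hmem _) ?_
    have : (fun j => h^[φ j + 1] z) = fun j => h (h^[φ j] z) := by
      funext j
      rw [Function.iterate_succ_apply']
    rw [this]
    exact (hh.tendsto y).comp hlim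
  have hcmp : V y ≤ V (h y) := by
    refine le_of_tendsto_of_tendsto' l1' l2 fun j => ?_
    exact hanti (hφ (Nat.lt_succ_self j))
  exact absurd (hlt y hy hyp) (not_lt.mpr hcmp)

end LYAP_

/-- All points that enter a trap converge to the orbit. -/
theorem lyap : T_LYAP := by
  intro M _ _ g m p K V hg hm hp hK hV _ hKK hlt x hx y hy
  obtain ⟨k₀, hk₀⟩ := hx
  set z : M := g^[k₀] x with hz
  have hlim := LYAP_.tendsto_trap (hg.iterate m) hp hK hV hKK hlt hk₀
  have hfin : ({y | ∃ i < m, y = g^[i] p} : Set M).Finite := by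
    refine (Set.Finite.image (fun i => g^[i] p) (Set.finite_lt_nat m)).subset ?_
    rintro y ⟨i, hi, rfl⟩
    exact ⟨i, hi, rfl⟩
  have key : ∀ ε : ℝ, 0 < ε → ∀ᶠ k : ℕ in atTop, ∃ i < m, dist (g^[k] x) (g^[i] p) < ε := by
    intro ε hε
    have h1 : ∀ᶠ j : ℕ in atTop, ∀ i ∈ Finset.range m,
        dist (g^[i] ((g^[m])^[j] z)) (g^[i] p) < ε := by
      rw [Finset.eventually_all]
      intro i _
      have h2 : Tendsto (fun j : ℕ => g^[i] ((g^[m])^[j] z)) atTop (𝓝 (g^[i] p)) :=
        ((hg.iterate i).tendsto p).comp hlim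
      exact (Metric.tendsto_nhds.mp h2) ε hε
    obtain ⟨J, hJ⟩ := eventually_atTop.mp h1
    filter_upwards [eventually_ge_atTop (k₀ + m * J)] with k hk
    refine ⟨(k - k₀) % m, Nat.mod_lt _ hm, ?_⟩
    have h3 : J ≤ (k - k₀) / m := by
      rw [Nat.le_div_iff_mul_le hm, mul_comm]
      omega
    have h4 := hJ _ h3 ((k - k₀) % m) (Finset.mem_range.mpr (Nat.mod_lt _ hm))
    have h5 : g^[(k - k₀) % m] ((g^[m])^[(k - k₀) / m] z) = g^[k] x := by
      rw [← Function.iterate_mul, ← Function.iterate_add_apply, Nat.mod_add_div, hz,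
        ← Function.iterate_add_apply]
      congr 1
      omega
    rwa [h5] at h4
  have hcl : y ∈ closure {y | ∃ i < m, y = g^[i] p} := by
    rw [Metric.mem_closure_iff]
    intro ε hε
    have h1 : ∃ᶠ k : ℕ in atTop, g^[k] x ∈ ball y (ε / 2) :=
      mapClusterPt_iff_frequently.mp hy _ (ball_mem_nhds y (half_pos hε))
    obtain ⟨k, hk1, i, hi, hk2⟩ := (h1.and_eventually (key (ε / 2) (half_pos hε))).exists
    refine ⟨g^[i] p, ⟨i, hi, rfl⟩, ?_⟩
    rw [mem_ball, dist_comm] at hk1
    calc dist y (g^[i] p) ≤ dist y (g^[k] x) + dist (g^[k] x) (g^[i] p) := dist_triangle _ _ _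
      _ < ε / 2 + ε / 2 := add_lt_add hk1 hk2
      _ = ε := add_halves ε
  rwa [hfin.isClosed.closure_eq] at hcl

/-- The orbit of a periodic point is an attractor if its basin has positive measure. -/
theorem orb : T_ORB := by
  intro M _ _ μ g m p hm hp hμ
  refine ⟨?_, ⟨p, ⟨0, hm, rfl⟩, ?_⟩, hμ⟩
  · apply Subset.antisymm
    · rintro _ ⟨y, ⟨i, hi, rfl⟩, rfl⟩
      rcases Nat.lt_or_ge (i + 1) m with h | h
      · refine ⟨i + 1, h, ?_⟩
        rw [Function.iterate_succ_apply']
      · refine ⟨0, hm, ?_⟩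
        have : m = i.succ := by omega
        rw [← Function.iterate_succ_apply' g i p, ← this, hp]
        rfl
    · rintro _ ⟨i, hi, rfl⟩
      rcases i with _ | i
      · refine ⟨g^[m - 1] p, ⟨m - 1, by omega, rfl⟩, ?_⟩
        rw [← Function.iterate_succ_apply' g (m - 1) p]
        have : (m - 1).succ = m := by omega
        rw [this, hp]
        rfl
      · refine ⟨g^[i] p, ⟨i, by omega, rfl⟩, ?_⟩
        rw [Function.iterate_succ_apply']
  · rintro _ ⟨i, hi, rfl⟩
    exact subset_closure ⟨i, rfl⟩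

end Pool.Agent.Pal
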