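import Pool.Agent.Pal.Targets

/-!
# Small modifications of the identity are diffeomorphisms
-/

set_option autoImplicit false

open Set MeasureTheory Filter Topology
open scoped Manifold ContDiff NNReal

namespace Pool.Agent.Pal

namespace MOD_

variable {n : ℕ}

/-- the kernel of `1 + t A` is trivial if `‖A‖ ≤ 1/2` and `0 ≤ t ≤ 1` -/
lemma det_ne (A : E n →L[ℝ] E n) (hA : ‖A‖ ≤ 1 / 2) (t : ℝ) (h0 : 0 ≤ t) (h1 : t ≤ 1) :
    (ContinuousLinearMap.id ℝ (E n) + t • A).det ≠ 0 := by
  intro hd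
  have hk := LinearMap.bot_lt_ker_of_det_eq_zero
    (f := ((ContinuousLinearMap.id ℝ (E n) + t • A : E n →L[ℝ] E n) : E n →ₗ[ℝ] E n)) hd
  obtain ⟨v, hv, hv0⟩ := Submodule.exists_mem_ne_zero_of_ne_bot hk.ne'
  have e : v + t • A v = 0 := by
    simpa using hv
  have e2 : v = -(t • A v) := by
    exact eq_neg_of_add_eq_zero_left e
  have n1 : ‖v‖ ≤ 1 / 2 * ‖v‖ := by
    calc ‖v‖ = ‖t • A v‖ := by rw [← norm_neg (t • A v), ← e2]
      _ = t * ‖A v‖ := by rw [norm_smul, Real.norm_of_nonneg h0]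
      _ ≤ 1 * ‖A v‖ := mul_le_mul_of_nonneg_right h1 (norm_nonneg _)
      _ = ‖A v‖ := one_mul _
      _ ≤ ‖A‖ * ‖v‖ := A.le_opNorm v
      _ ≤ 1 / 2 * ‖v‖ := mul_le_mul_of_nonneg_right hA (norm_nonneg _)
  have n2 : 0 < ‖v‖ := norm_pos_iff.mpr hv0
  linarith

lemma det_pos (A : E n →L[ℝ] E n) (hA : ‖A‖ ≤ 1 / 2) :
    0 < (ContinuousLinearMap.id ℝ (E n) + A).det := by
  by_contra hneg
  push Not at hneg
  have hc : Continuous fun t : ℝ => (ContinuousLinearMap.id ℝ (E n) + t • A).det := by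
    refine ContinuousLinearMap.continuous_det.comp ?_
    fun_prop
  have h0 : (ContinuousLinearMap.id ℝ (E n) + (0 : ℝ) • A).det = 1 := by
    have e : ContinuousLinearMap.id ℝ (E n) + (0 : ℝ) • A = ContinuousLinearMap.id ℝ (E n) := by
      ext1 v; simp
    rw [e]
    exact LinearMap.det_id
  have h1 : (ContinuousLinearMap.id ℝ (E n) + (1 : ℝ) • A).det ≤ 0 := by
    have e : ContinuousLinearMap.id ℝ (E n) + (1 : ℝ) • A =
        ContinuousLinearMap.id ℝ (E n) + A := by
      ext1 v; simp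
    rw [e]; exact hneg
  have iv := intermediate_value_Icc' (zero_le_one (α := ℝ)) hc.continuousOn
  have hm : (0 : ℝ) ∈ Icc ((ContinuousLinearMap.id ℝ (E n) + (1 : ℝ) • A).det)
      ((ContinuousLinearMap.id ℝ (E n) + (0 : ℝ) • A).det) := ⟨h1, by rw [h0]; norm_num⟩
  obtain ⟨t, ht, hte⟩ := iv hm
  exact det_ne A hA t ht.1 ht.2 hte

end MOD_

open MOD_ in
theorem mod1 : T_MOD := by
  intro n C L hC hL hN
  obtain ⟨hs, hoff⟩ := hL
  set h : E n → E n := fun z => L z - z with hh
  have hds : ContDiff ℝ ∞ h := hs.sub contDiff_id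
  have hdiff : Differentiable ℝ h := hds.differentiable (by simp)
  have hLd : Differentiable ℝ L := hs.differentiable (by simp)
  have hb : ∀ y, ‖fderiv ℝ h y‖ ≤ 1 / 2 := by
    intro y
    have := hN 1 le_rfl y
    rwa [norm_iteratedFDeriv_one] at this
  have hfd : ∀ y, fderiv ℝ L y = ContinuousLinearMap.id ℝ (E n) + fderiv ℝ h y := by
    intro y
    have e : L = fun z => z + h z := by
      funext z; simp [hh]
    have e1 : HasFDerivAt (fun z => z + h z)
        (ContinuousLinearMap.id ℝ (E n) + fderiv ℝ h y) y :=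
      (hasFDerivAt_id y).add (hdiff y).hasFDerivAt
    rw [← e] at e1
    exact e1.fderiv
  have hdet : ∀ y, 0 < (fderiv ℝ L y).det := by
    intro y
    rw [hfd y]
    exact det_pos _ (hb y)
  -- Lipschitz
  have hlip : LipschitzWith (1 / 2 : ℝ≥0) h := by
    refine lipschitzWith_of_nnnorm_fderiv_le hdiff ?_
    intro y
    rw [← NNReal.coe_le_coe]
    simpa using hb y
  have happ : ApproximatesLinearOn L
      ((ContinuousLinearEquiv.refl ℝ (E n) : E n ≃L[ℝ] E n) : E n →L[ℝ] E n) univ
      (1 / 2 : ℝ≥0) := by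
    intro x _ y _
    have := hlip.dist_le_mul x y
    rw [dist_eq_norm, dist_eq_norm] at this
    have e : h x - h y = L x - L y - (x - y) := by
      simp only [hh]; abel
    rw [e] at this
    exact this
  have hcc : Subsingleton (E n) ∨ (1 / 2 : ℝ≥0) <
      ‖(((ContinuousLinearEquiv.refl ℝ (E n) : E n ≃L[ℝ] E n).symm :
        E n ≃L[ℝ] E n) : E n →L[ℝ] E n)‖₊⁻¹ := by
    rcases subsingleton_or_nontrivial (E n) with hsub | hnt
    · exact Or.inl hsub
    · right
      have e : ‖(((ContinuousLinearEquiv.refl ℝ (E n) : E n ≃L[ℝ] E n).symm :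
        E n ≃L[ℝ] E n) : E n →L[ℝ] E n)‖₊ = 1 := by
        apply NNReal.coe_injective
        rw [coe_nnnorm]
        exact ContinuousLinearMap.norm_id
      rw [e, inv_one]
      rw [← NNReal.coe_lt_coe]
      norm_num
  have hinj : Function.Injective L := by
    intro x y hxy
    exact (happ.injOn hcc) (mem_univ x) (mem_univ y) hxy
  have hsurj : Function.Surjective L := happ.surjective hcc
  set F := happ.toHomeomorph L hcc with hF
  have hFL : (F : E n → E n) = L := rfl
  have himg : L '' C = C := by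
    ext y
    constructor
    · rintro ⟨x, hx, rfl⟩
      by_contra hy
      have := hoff _ hy
      exact hy (by rw [hinj this]; exact hx)
    · intro hy
      obtain ⟨x, hx⟩ := hsurj y
      by_cases hxC : x ∈ C
      · exact ⟨x, hxC, hx⟩
      · exfalso
        have := hoff x hxC
        rw [this] at hx
        exact hxC (hx ▸ hy)
  refine ⟨⟨hinj, hsurj⟩, himg, hdet, F.symm, ⟨?_, ?_⟩, ?_, ?_⟩
  · refine Homeomorph.contDiff_symm F
      (f₀' := fun a => (fderiv ℝ L a).toContinuousLinearEquivOfDetNeZero (hdet a).ne') ?_ ?_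
    · intro a
      rw [ContinuousLinearMap.coe_toContinuousLinearEquivOfDetNeZero]
      exact (hLd a).hasFDerivAt
    · exact hs
  · intro y hy
    have := hoff y hy
    have e : F.symm (L y) = y := F.symm_apply_apply y
    rw [this] at e
    exact e
  · intro x
    exact F.symm_apply_apply x
  · intro x
    exact F.apply_symm_apply x

end Pool.Agent.Pal
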