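import Pool.Agent.Pal.Targets2

/-!
# PALR-NBD: the neighbourhoods of a map
-/

set_option autoImplicit false

open Set MeasureTheory Filter Topology
open scoped Manifold ContDiff

namespace Pool.Agent.Pal

namespace NBD_

variable {n : ℕ} {M : Type} [TopologicalSpace M] [ChartedSpace (E n) M]

lemma mono {r : ℕ} {f g : M → M} {e e' : OpenPartialHomeomorph M (E n)} {K : Set M} {ε ε' : ℝ}
    (h : CrClose r f g e e' K ε) (hε : ε ≤ ε') : CrClose r f g e e' K ε' :=
  ⟨h.1, fun x hx j hj => (h.2 x hx j hj).trans_le hε⟩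

end NBD_

theorem nbd : T_NBD := by
  intro n M _ _ g
  refine ⟨?_, ?_, ?_, ?_⟩
  · rintro V W ⟨N₁, e₁, e₁', K₁, ε₁, hε₁, h₁, hV⟩ ⟨N₂, e₂, e₂', K₂, ε₂, hε₂, h₂, hW⟩
    refine ⟨N₁ + N₂, Fin.append e₁ e₂, Fin.append e₁' e₂', Fin.append K₁ K₂, min ε₁ ε₂,
      lt_min hε₁ hε₂, ?_, ?_⟩
    · intro i
      refine Fin.addCases (fun i => ?_) (fun i => ?_) i
      · simp only [Fin.append_left]
        exact h₁ i
      · simp only [Fin.append_right]
        exact h₂ i
    · intro g' hg' hC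
      refine ⟨hV g' hg' fun i => ?_, hW g' hg' fun i => ?_⟩
      · have := hC (Fin.castAdd N₂ i)
        simp only [Fin.append_left] at this
        exact NBD_.mono this (min_le_left _ _)
      · have := hC (Fin.natAdd N₁ i)
        simp only [Fin.append_right] at this
        exact NBD_.mono this (min_le_right _ _)
  · rintro V W ⟨N, e, e', K, ε, hε, h, hV⟩ hVW
    exact ⟨N, e, e', K, ε, hε, h, fun g' hg' hC => hVW (hV g' hg' hC)⟩
  · rintro V ⟨N, e, e', K, ε, hε, h, hV⟩ hg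
    refine hV g hg fun i => ⟨(h i).2.2.2.2, fun x _ j _ => ?_⟩
    rw [sub_self, norm_zero]
    exact hε
  · intro e e' K ε hε he he' hK hKe hgK
    exact ⟨1, fun _ => e, fun _ => e', fun _ => K, ε, hε, fun _ => ⟨he, he', hK, hKe, hgK⟩,
      fun g' _ hC => hC 0⟩

end Pool.Agent.Pal
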