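import Pool.Agent.Pal.Targets

/-!
# Profiles of radial maps
-/

set_option autoImplicit false

open Set MeasureTheory Filter Topology Metric Asymptotics
open scoped Manifold ContDiff

namespace Pool.Agent.Pal

namespace PROF_

/-- The determinant of a multiple of the identity plus a map of rank one. -/
theorem det_rank_one {n : ℕ} (hn : 1 ≤ n) (l : ℝ) (hl : l ≠ 0) (f : E n →L[ℝ] ℝ) (v : E n) :
    (l • ContinuousLinearMap.id ℝ (E n) + f.smulRight v).det = l ^ (n - 1) * (l + f v) := by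
  have h1 : ((l • ContinuousLinearMap.id ℝ (E n) + f.smulRight v : E n →L[ℝ] E n) :
      E n →ₗ[ℝ] E n) = l • LinearMap.transvection (l⁻¹ • (f : E n →ₗ[ℝ] ℝ)) v := by
    ext x i
    simp [LinearMap.transvection.apply, smul_add, smul_smul, hl]
  rw [ContinuousLinearMap.det, h1, LinearMap.det_smul, LinearMap.transvection.det]
  simp only [finrank_euclideanSpace, Fintype.card_fin, LinearMap.smul_apply,
    ContinuousLinearMap.coe_coe, smul_eq_mul]
  obtain ⟨k, rfl⟩ : ∃ k, n = k + 1 := ⟨n - 1, by omega⟩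
  simp only [Nat.add_sub_cancel, pow_succ]
  field_simp

/-- The derivative of `expNegInvGlue`. -/
theorem glue_deriv (x : ℝ) : HasDerivAt expNegInvGlue (x⁻¹ ^ 2 * expNegInvGlue x) x := by
  have h := expNegInvGlue.hasDerivAt_polynomial_eval_inv_mul 1 x
  simpa using h

/-- The profile. -/
noncomputable def pr (N C : ℝ) (t : ℝ) : ℝ := expNegInvGlue ((N ^ 2 - t) / C)

theorem pr_deriv (N C t : ℝ) :
    HasDerivAt (pr N C) (-(1 / C * ((N ^ 2 - t) / C)⁻¹ ^ 2 * pr N C t)) t := by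
  have h1 : HasDerivAt (fun t : ℝ => (N ^ 2 - t) / C) (-(1 / C)) t := by
    have := ((hasDerivAt_id t).const_sub (N ^ 2)).div_const C
    simpa [neg_div] using this
  have h2 := (glue_deriv ((N ^ 2 - t) / C)).comp t h1
  refine h2.congr_deriv ?_
  simp only [pr]
  ring

theorem pr_le_one (N C t : ℝ) : pr N C t ≤ 1 := by
  unfold pr expNegInvGlue
  split_ifs with h
  · norm_num
  · exact Real.exp_le_one_iff.2 (neg_nonpos.2 (inv_nonneg.2 (le_of_lt (not_le.1 h))))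

/-- The differential inequality. -/
theorem key (n : ℕ) (N : ℝ) (hN : 2 ≤ N) (t : ℝ) (ht : 1 ≤ t) :
    ((n : ℝ) + 1) * pr N (((n : ℝ) + 1) * N ^ 4 / 2) t ≤
      2 * t * (1 / (((n : ℝ) + 1) * N ^ 4 / 2) *
        ((N ^ 2 - t) / (((n : ℝ) + 1) * N ^ 4 / 2))⁻¹ ^ 2 *
        pr N (((n : ℝ) + 1) * N ^ 4 / 2) t) := by
  set C : ℝ := ((n : ℝ) + 1) * N ^ 4 / 2 with hC
  have hn0 : (0 : ℝ) ≤ n := Nat.cast_nonneg n
  have hC0 : 0 < C := by positivity
  have hp0 : 0 ≤ pr N C t := expNegInvGlue.nonneg _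
  rcases le_or_gt (N ^ 2) t with h | h
  · have : pr N C t = 0 := by
      unfold pr
      apply expNegInvGlue.zero_of_nonpos
      exact div_nonpos_of_nonpos_of_nonneg (by linarith) hC0.le
    simp [this]
  · have hd : 0 < N ^ 2 - t := by linarith
    have e1 : 1 / C * ((N ^ 2 - t) / C)⁻¹ ^ 2 = C / (N ^ 2 - t) ^ 2 := by
      field_simp
    rw [e1]
    have e2 : ((n : ℝ) + 1) / 2 ≤ C / (N ^ 2 - t) ^ 2 := by
      rw [le_div_iff₀ (by positivity)]
      have : (N ^ 2 - t) ^ 2 ≤ N ^ 4 := by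
        have : (N ^ 2 - t) ^ 2 ≤ (N ^ 2) ^ 2 := by
          apply pow_le_pow_left₀ hd.le
          linarith
        calc _ ≤ _ := this
          _ = N ^ 4 := by ring
      rw [hC]
      nlinarith [mul_le_mul_of_nonneg_left this (by positivity : 0 ≤ ((n : ℝ) + 1) / 2)]
    have e3 : ((n : ℝ) + 1) / 2 * pr N C t ≤ C / (N ^ 2 - t) ^ 2 * pr N C t :=
      mul_le_mul_of_nonneg_right e2 hp0
    have e4 : 0 ≤ C / (N ^ 2 - t) ^ 2 * pr N C t := by positivity
    nlinarith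

/-- Bernoulli type inequality. -/
theorem bern (n : ℕ) (hn : 1 ≤ n) (u : ℝ) (h0 : 0 ≤ u) (h1 : u * (2 * ((n : ℝ) ^ 2 + 1)) ≤ 1) :
    1 ≤ (1 - u) ^ (n - 1) * (1 + n * u) := by
  have hn1 : (1 : ℝ) ≤ n := by exact_mod_cast hn
  have hu : u ≤ 1 := by nlinarith
  have b : 1 + ((n - 1 : ℕ) : ℝ) * (-u) ≤ (1 + (-u)) ^ (n - 1) :=
    one_add_mul_le_pow (by linarith) _
  have hc : ((n - 1 : ℕ) : ℝ) = (n : ℝ) - 1 := by
    rw [Nat.cast_sub hn]; simp
  rw [hc] at b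
  have b' : 1 - ((n : ℝ) - 1) * u ≤ (1 - u) ^ (n - 1) := by
    have : (1 + (-u)) = 1 - u := by ring
    rw [this] at b
    linarith
  have : (1 - ((n : ℝ) - 1) * u) * (1 + n * u) ≤ (1 - u) ^ (n - 1) * (1 + n * u) :=
    mul_le_mul_of_nonneg_right b' (by positivity)
  refine le_trans ?_ this
  have : u * ((n : ℝ) * (n - 1)) ≤ 1 := by
    nlinarith
  nlinarith [mul_le_mul_of_nonneg_left this h0]

theorem rad_deriv {n : ℕ} (N C κ ρ : ℝ) (y : E n) :
    HasFDerivAt (rad (n := n) (pr N C) κ ρ)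
      ((1 - κ * pr N C (‖y‖ ^ 2 / ρ ^ 2)) • ContinuousLinearMap.id ℝ (E n) +
        ((κ * (1 / C * ((N ^ 2 - ‖y‖ ^ 2 / ρ ^ 2) / C)⁻¹ ^ 2 * pr N C (‖y‖ ^ 2 / ρ ^ 2)) *
          (2 / ρ ^ 2)) • innerSL ℝ y).smulRight y) y := by
  have h1 : HasFDerivAt (fun z : E n => ‖z‖ ^ 2 / ρ ^ 2) ((2 / ρ ^ 2) • innerSL ℝ y) y := by
    have h := (hasStrictFDerivAt_norm_sq y).hasFDerivAt.mul_const ((ρ ^ 2)⁻¹)
    have h' : HasFDerivAt (fun z : E n => ‖z‖ ^ 2 / ρ ^ 2) ((ρ ^ 2)⁻¹ • (2 • innerSL ℝ y)) y := by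
      simpa [div_eq_mul_inv] using h
    refine h'.congr_fderiv ?_
    ext v
    simp
    ring
  have h2 := ((pr_deriv N C (‖y‖ ^ 2 / ρ ^ 2)).comp_hasFDerivAt y h1).const_mul κ
  have h3 := (h2.const_sub 1).smul (hasFDerivAt_id y)
  refine h3.congr_fderiv ?_
  ext v i
  simp
  left
  ring

end PROF_

open PROF_ in
/-- Profiles exist. -/
theorem prof : T_PROF := by
  intro n N hn hN
  have hn0 : (0 : ℝ) ≤ n := Nat.cast_nonneg n
  have hn1 : (1 : ℝ) ≤ n := by exact_mod_cast hn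
  set C : ℝ := ((n : ℝ) + 1) * N ^ 4 / 2 with hC
  have hC0 : 0 < C := by positivity
  refine ⟨pr N C, pr N C ((N / 2) ^ 2), 1 / (2 * ((n : ℝ) ^ 2 + 1)), ?_⟩
  refine ⟨?_, ?_, ?_, ?_, ?_, ?_, ?_, ?_, ?_⟩
  · unfold pr
    apply expNegInvGlue.contDiff.comp
    fun_prop
  · intro t
    exact expNegInvGlue.nonneg _
  · exact pr_le_one N C
  · intro t ht
    apply expNegInvGlue.zero_of_nonpos
    exact div_nonpos_of_nonpos_of_nonneg (by linarith) hC0.le
  · apply expNegInvGlue.pos_of_pos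
    apply div_pos _ hC0
    nlinarith
  · intro t ht
    apply expNegInvGlue.monotone
    gcongr
  · positivity
  · rw [div_le_div_iff₀ (by positivity) (by norm_num)]
    nlinarith
  · intro ρ κ hρ hκ hκ0 y hy
    rw [(rad_deriv N C κ ρ y).fderiv]
    set t : ℝ := ‖y‖ ^ 2 / ρ ^ 2 with ht
    have ht1 : 1 ≤ t := by
      rw [ht, le_div_iff₀ (by positivity), one_mul]
      exact pow_le_pow_left₀ hρ.le hy 2
    have hp0 : 0 ≤ pr N C t := expNegInvGlue.nonneg _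
    have hp1 : pr N C t ≤ 1 := pr_le_one N C t
    set u : ℝ := κ * pr N C t with hu
    have hu0 : 0 ≤ u := mul_nonneg hκ hp0
    have hu1 : u * (2 * ((n : ℝ) ^ 2 + 1)) ≤ 1 := by
      have h1 : u ≤ κ := by nlinarith
      have h2 : u ≤ 1 / (2 * ((n : ℝ) ^ 2 + 1)) := h1.trans hκ0
      rwa [le_div_iff₀ (by positivity)] at h2
    have hl : 0 < 1 - u := by nlinarith
    rw [det_rank_one hn _ hl.ne']
    refine (bern n hn u hu0 hu1).trans ?_
    apply mul_le_mul_of_nonneg_left _ (pow_nonneg hl.le _)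
    have hk := key n N hN t ht1
    rw [← hC] at hk
    have hy2 : ‖y‖ ^ 2 = t * ρ ^ 2 := by
      rw [ht]; field_simp
    have hf : ((κ * (1 / C * ((N ^ 2 - t) / C)⁻¹ ^ 2 * pr N C t) * (2 / ρ ^ 2)) •
        innerSL ℝ y) y = κ * (2 * t * (1 / C * ((N ^ 2 - t) / C)⁻¹ ^ 2 * pr N C t)) := by
      simp only [smul_apply, innerSL_apply_apply, smul_eq_mul,
        real_inner_self_eq_norm_sq]
      rw [hy2]
      field_simp
    rw [hf]
    have := mul_le_mul_of_nonneg_left hk hκ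
    rw [hu]
    nlinarith

end Pool.Agent.Pal
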