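import Pool.Agent.Pal.Targets

/-!
# PAL-RAD: the size of the radial map
-/

set_option autoImplicit false

open Set MeasureTheory Filter Topology Metric
open scoped ContDiff

namespace Pool.Agent.Pal

namespace RAD_

variable {n : ℕ}

/-- the model field -/
noncomputable def A (a : ℝ → ℝ) (z : E n) : E n := a (‖z‖ ^ 2) • z

lemma A_smooth {a : ℝ → ℝ} (ha : ContDiff ℝ ∞ a) : ContDiff ℝ ∞ (A a : E n → E n) := by
  unfold A
  exact (ha.comp (contDiff_norm_sq ℝ)).smul contDiff_id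

lemma A_supp {a : ℝ → ℝ} {N : ℝ} (hN : 0 ≤ N) (ha : ∀ t, N ^ 2 ≤ t → a t = 0) :
    HasCompactSupport (A a : E n → E n) := by
  refine HasCompactSupport.intro (isCompact_closedBall (0 : E n) N) ?_
  intro z hz
  rw [mem_closedBall_zero_iff, not_le] at hz
  unfold A
  rw [ha _ (pow_le_pow_left₀ hN hz.le 2), zero_smul]

lemma rad_sub (a : ℝ → ℝ) (κ : ℝ) {ρ : ℝ} (hρ : 0 < ρ) :
    (fun z : E n => rad a κ ρ z - z) = fun z => (-(κ * ρ)) • A a (ρ⁻¹ • z) := by
  funext z
  unfold rad A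
  have h1 : ‖ρ⁻¹ • z‖ ^ 2 = ‖z‖ ^ 2 / ρ ^ 2 := by
    rw [norm_smul, norm_inv, Real.norm_of_nonneg hρ.le, mul_pow, inv_pow]
    field_simp
  rw [h1, smul_smul, smul_smul, sub_smul, one_smul]
  have h2 : -(κ * ρ) * a (‖z‖ ^ 2 / ρ ^ 2) * ρ⁻¹ = -(κ * a (‖z‖ ^ 2 / ρ ^ 2)) := by
    field_simp
  rw [h2, neg_smul]
  abel

end RAD_

open RAD_ in
theorem rad1 : T_RAD := by
  intro n N a c κ₀ hN hP
  constructor
  · intro κ ρ hρ
    refine ⟨?_, ?_⟩
    · have h1 : ContDiff ℝ ∞ (fun y : E n => a (‖y‖ ^ 2 / ρ ^ 2)) :=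
        hP.smooth.comp ((contDiff_norm_sq ℝ).div_const _)
      have h2 : ContDiff ℝ ∞ (fun y : E n => 1 - κ * a (‖y‖ ^ 2 / ρ ^ 2)) :=
        contDiff_const.sub (contDiff_const.mul h1)
      have h3 : ContDiff ℝ ∞ (fun y : E n => y) := contDiff_id
      exact h2.smul h3
    · intro y hy
      rw [mem_closedBall_zero_iff, not_le] at hy
      unfold rad
      have h1 : N ^ 2 ≤ ‖y‖ ^ 2 / ρ ^ 2 := by
        rw [le_div_iff₀ (by positivity), ← mul_pow]
        exact pow_le_pow_left₀ (by positivity) hy.le 2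
      rw [hP.off _ h1, mul_zero, sub_zero, one_smul]
  · intro r hr
    have hA : ContDiff ℝ ∞ (A a : E n → E n) := A_smooth hP.smooth
    have hs : HasCompactSupport (A a : E n → E n) := A_supp (by linarith) hP.off
    have hbd : ∀ j : ℕ, ∃ C : ℝ, ∀ z, ‖iteratedFDeriv ℝ j (A a : E n → E n) z‖ ≤ C := by
      intro j
      refine (hs.iteratedFDeriv (𝕜 := ℝ) j).exists_bound_of_continuous ?_
      exact hA.continuous_iteratedFDeriv (by exact_mod_cast le_top)
    choose C hC using hbd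
    have hC0 : ∀ j, 0 ≤ C j := fun j => (norm_nonneg _).trans (hC j 0)
    refine ⟨1 + ∑ j ∈ Finset.range (r + 1), C j, ?_, ?_⟩
    · have := Finset.sum_nonneg (s := Finset.range (r + 1)) (fun j _ => hC0 j)
      linarith
    · intro ρ ε hρ hρ1 hε j hj y
      rw [rad_sub a _ hρ]
      have hcd : ContDiff ℝ j (A a : E n → E n) := hA.of_le (by exact_mod_cast le_top)
      have hcd2 : ContDiffAt ℝ j (fun z : E n => A a (ρ⁻¹ • z)) y :=
        (hcd.comp (contDiff_const_smul ρ⁻¹)).contDiffAt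
      rw [iteratedFDeriv_const_smul_apply' hcd2, iteratedFDeriv_comp_const_smul ρ⁻¹ hcd, norm_smul,
        norm_smul]
      have e1 : ‖-(ε * ρ ^ (r - 1) * ρ)‖ = ε * ρ ^ r := by
        rw [norm_neg, Real.norm_of_nonneg (by positivity), mul_assoc, ← pow_succ,
          Nat.sub_add_cancel hr]
      have e2 : ‖(ρ⁻¹) ^ j‖ = (ρ ^ j)⁻¹ := by
        rw [Real.norm_of_nonneg (by positivity), inv_pow]
      rw [e1, e2]
      have e3 : ρ ^ r = ρ ^ (r - j) * ρ ^ j := by
        rw [← pow_add, Nat.sub_add_cancel hj]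
      have hpj : 0 < ρ ^ j := by positivity
      have e4 : C j ≤ 1 + ∑ j ∈ Finset.range (r + 1), C j := by
        have := Finset.single_le_sum (f := C) (s := Finset.range (r + 1)) (fun j _ => hC0 j)
          (Finset.mem_range.2 (by omega : j < r + 1))
        linarith
      calc ε * ρ ^ r * ((ρ ^ j)⁻¹ * ‖iteratedFDeriv ℝ j (A a) (ρ⁻¹ • y)‖)
          = ε * ρ ^ (r - j) * ‖iteratedFDeriv ℝ j (A a) (ρ⁻¹ • y)‖ := by
            rw [e3]
            field_simp
        _ ≤ ε * 1 * C j := by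
            refine mul_le_mul (mul_le_mul_of_nonneg_left (pow_le_one₀ hρ.le hρ1) hε) (hC j _)
              (norm_nonneg _) (by positivity)
        _ ≤ ε * 1 * (1 + ∑ j ∈ Finset.range (r + 1), C j) :=
            mul_le_mul_of_nonneg_left e4 (by positivity)
        _ = _ := by ring

end Pool.Agent.Pal
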