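import Pool.Agent.Pal.Targets

/-!
# Composition on the right with a map that is close to the identity (job RCOMP)
-/

set_option autoImplicit false

open Set MeasureTheory Filter Topology Metric Asymptotics
open scoped Manifold ContDiff

namespace Pool.Agent.Pal

namespace RCOMP_

variable {n : ℕ} {F : Type} [NormedAddCommGroup F] [NormedSpace ℝ F]

theorem norm_zero_sub (f g : E n → F) (y z : E n) :
    ‖iteratedFDeriv ℝ 0 f y - iteratedFDeriv ℝ 0 g z‖ = ‖f y - g z‖ := by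
  rw [iteratedFDeriv_zero_eq_comp, iteratedFDeriv_zero_eq_comp, Function.comp_apply,
    Function.comp_apply, ← map_sub, LinearIsometryEquiv.norm_map]

theorem norm_succ_sub (f g : E n → F) (y : E n) (j : ℕ) :
    ‖iteratedFDeriv ℝ (j + 1) f y - iteratedFDeriv ℝ (j + 1) g y‖ =
      ‖iteratedFDeriv ℝ j (fderiv ℝ f) y - iteratedFDeriv ℝ j (fderiv ℝ g) y‖ := by
  rw [iteratedFDeriv_succ_eq_comp_right, iteratedFDeriv_succ_eq_comp_right, Function.comp_apply,
    Function.comp_apply]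
  have h := (continuousMultilinearCurryRightEquiv' ℝ j (E n) F).symm.dist_map
    (iteratedFDeriv ℝ j (fderiv ℝ f) y) (iteratedFDeriv ℝ j (fderiv ℝ g) y)
  rw [dist_eq_norm, dist_eq_norm] at h
  exact h

/-- derivatives of a product (composition of linear maps) -/
theorem bil {W : Set (E n)} (hW : IsOpen W) {y : E n} (hy : y ∈ W) {f : E n → (E n →L[ℝ] F)}
    {g : E n → (E n →L[ℝ] E n)} (hf : ContDiffOn ℝ ∞ f W) (hg : ContDiffOn ℝ ∞ g W) (j : ℕ)
    {a b : ℝ} (hfa : ∀ i ≤ j, ‖iteratedFDeriv ℝ i f y‖ ≤ a)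
    (hgb : ∀ i ≤ j, ‖iteratedFDeriv ℝ i g y‖ ≤ b) :
    ‖iteratedFDeriv ℝ j (fun z => (f z).comp (g z)) y‖ ≤ 2 ^ j * (a * b) := by
  have h := ContinuousLinearMap.norm_iteratedFDerivWithin_le_of_bilinear
    (ContinuousLinearMap.compL ℝ (E n) (E n) F) hf hg hW.uniqueDiffOn hy (n := j)
    (by exact_mod_cast le_top)
  have ha : 0 ≤ a := (norm_nonneg _).trans (hfa 0 (Nat.zero_le _))
  have hb : 0 ≤ b := (norm_nonneg _).trans (hgb 0 (Nat.zero_le _))
  rw [iteratedFDerivWithin_of_isOpen j hW hy] at h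
  refine h.trans ?_
  have h2 : ∑ i ∈ Finset.range (j + 1), (j.choose i : ℝ) * ‖iteratedFDerivWithin ℝ i f W y‖ *
      ‖iteratedFDerivWithin ℝ (j - i) g W y‖ ≤ ∑ i ∈ Finset.range (j + 1), (j.choose i : ℝ) *
        (a * b) := by
    refine Finset.sum_le_sum fun i hi => ?_
    rw [Finset.mem_range] at hi
    rw [iteratedFDerivWithin_of_isOpen i hW hy, iteratedFDerivWithin_of_isOpen (j - i) hW hy,
      mul_assoc]
    refine mul_le_mul_of_nonneg_left ?_ (Nat.cast_nonneg _)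
    exact mul_le_mul (hfa i (by omega)) (hgb (j - i) (by omega)) (norm_nonneg _) ha
  have h3 : ∑ i ∈ Finset.range (j + 1), (j.choose i : ℝ) * (a * b) = 2 ^ j * (a * b) := by
    rw [← Finset.sum_mul]
    congr 1
    exact_mod_cast Nat.sum_range_choose j
  calc _ ≤ 1 * ∑ i ∈ Finset.range (j + 1), (j.choose i : ℝ) *
        ‖iteratedFDerivWithin ℝ i f W y‖ * ‖iteratedFDerivWithin ℝ (j - i) g W y‖ := by
        refine mul_le_mul_of_nonneg_right (ContinuousLinearMap.norm_compL_le _ _ _ _) ?_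
        refine Finset.sum_nonneg fun i _ => ?_
        positivity
    _ ≤ _ := by
        rw [one_mul, ← h3]
        exact h2

omit [NormedSpace ℝ F] in
/-- order zero -/
theorem zero (Ω C : Set (E n)) (hΩ : IsOpen Ω) (hC : IsCompact C) (hCΩ : C ⊆ Ω)
    (τ : E n → F) (hτ : ContinuousOn τ Ω) (ε : ℝ) (hε : 0 < ε) :
    ∃ δ : ℝ, 0 < δ ∧ ∀ L : E n → E n, Near 0 δ L →
      ∀ y ∈ C, L y ∈ Ω ∧ ‖(τ ∘ L) y - τ y‖ ≤ ε := by
  obtain ⟨δ₁, hδ₁, hsub⟩ := hC.exists_cthickening_subset_open hΩ hCΩ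
  have huc := (hC.cthickening (r := δ₁)).uniformContinuousOn_of_continuous (hτ.mono hsub)
  rw [Metric.uniformContinuousOn_iff] at huc
  obtain ⟨δ₂, hδ₂, huc⟩ := huc ε hε
  refine ⟨min δ₁ (δ₂ / 2), by positivity, fun L hL y hy => ?_⟩
  have h1 := hL 0 le_rfl y
  rw [norm_iteratedFDeriv_zero] at h1
  have h2 : dist (L y) y ≤ δ₁ := by
    rw [dist_eq_norm]
    exact h1.trans (min_le_left _ _)
  have h3 : dist (L y) y < δ₂ := by
    rw [dist_eq_norm]
    have := h1.trans (min_le_right _ _)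
    linarith
  have h4 : L y ∈ cthickening δ₁ C := mem_cthickening_of_dist_le _ y _ _ hy h2
  refine ⟨hsub h4, ?_⟩
  have h5 := huc (L y) h4 y (self_subset_cthickening _ hy) h3
  rw [dist_eq_norm] at h5
  exact h5.le

/-- derivatives of `DL` -/
theorem norm_DL_sub (r : ℕ) (δ : ℝ) (L : E n → E n) (hL : ContDiff ℝ ∞ L) (hN : Near (r + 1) δ L)
    (y : E n) (i : ℕ) (hi : i ≤ r) :
    ‖iteratedFDeriv ℝ i (fun z => fderiv ℝ L z - ContinuousLinearMap.id ℝ (E n)) y‖ ≤ δ := by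
  have e : (fun z => fderiv ℝ L z - ContinuousLinearMap.id ℝ (E n)) =
      fderiv ℝ (fun z => L z - z) := by
    funext z
    have h1 : DifferentiableAt ℝ L z := (hL.differentiable (by simp)) z
    rw [fderiv_fun_sub h1 differentiableAt_fun_id, fderiv_fun_id]
  rw [e, norm_iteratedFDeriv_fderiv]
  exact hN (i + 1) (by omega) y

theorem norm_DL (r : ℕ) (δ : ℝ) (hδ : δ ≤ 1) (L : E n → E n) (hL : ContDiff ℝ ∞ L)
    (hN : Near (r + 1) δ L) (y : E n) (i : ℕ) (hi : i ≤ r) :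
    ‖iteratedFDeriv ℝ i (fderiv ℝ L) y‖ ≤ 2 := by
  have hD : ContDiff ℝ ∞ (fderiv ℝ L) := hL.fderiv_right (by simp)
  have e : fderiv ℝ L = (fun z => fderiv ℝ L z - ContinuousLinearMap.id ℝ (E n)) +
      fun _ => ContinuousLinearMap.id ℝ (E n) := by
    funext z
    simp
  have h1 : ContDiff ℝ ∞ (fun z => fderiv ℝ L z - ContinuousLinearMap.id ℝ (E n)) :=
    hD.sub contDiff_const
  have hi' : ((i : ℕ∞) : ℕ∞ω) ≤ ∞ := by exact_mod_cast le_top
  rw [e, iteratedFDeriv_add_apply (h1.contDiffAt.of_le hi') contDiff_const.contDiffAt]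
  refine (norm_add_le _ _).trans ?_
  have h2 := norm_DL_sub r δ L hL hN y i hi
  have h3 : ‖iteratedFDeriv ℝ i (fun _ : E n => ContinuousLinearMap.id ℝ (E n)) y‖ ≤ 1 := by
    rcases Nat.eq_zero_or_pos i with rfl | h
    · rw [norm_iteratedFDeriv_zero]
      exact ContinuousLinearMap.norm_id_le
    · rw [iteratedFDeriv_const_of_ne h.ne']
      simp
  linarith

theorem key (Ω C : Set (E n)) (hΩ : IsOpen Ω) (hC : IsCompact C) (hCΩ : C ⊆ Ω) (r : ℕ) :
    ∀ (F : Type) [NormedAddCommGroup F] [NormedSpace ℝ F] (τ : E n → F), ContDiffOn ℝ ∞ τ Ω →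
      ∀ ε : ℝ, 0 < ε → ∃ δ : ℝ, 0 < δ ∧ ∀ L : E n → E n, ContDiff ℝ ∞ L → Near r δ L →
        ∀ y ∈ C, L y ∈ Ω ∧ ∀ j ≤ r,
          ‖iteratedFDeriv ℝ j (τ ∘ L) y - iteratedFDeriv ℝ j τ y‖ ≤ ε := by
  induction r with
  | zero =>
    intro F _ _ τ hτ ε hε
    obtain ⟨δ, hδ, h⟩ := zero Ω C hΩ hC hCΩ τ hτ.continuousOn ε hε
    refine ⟨δ, hδ, fun L _ hL y hy => ⟨(h L hL y hy).1, fun j hj => ?_⟩⟩
    obtain rfl : j = 0 := by omega
    rw [norm_zero_sub]
    exact (h L hL y hy).2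
  | succ r ih =>
    intro F _ _ τ hτ ε hε
    have hτ' : ContDiffOn ℝ ∞ (fderiv ℝ τ) Ω := hτ.fderiv_of_isOpen hΩ (by simp)
    -- a bound for the derivatives of `Dτ`
    have hM : ∃ M : ℝ, 0 < M ∧ ∀ i ≤ r, ∀ y ∈ C, ‖iteratedFDeriv ℝ i (fderiv ℝ τ) y‖ ≤ M := by
      have h1 : ∀ i : ℕ, ∃ M : ℝ, ∀ y ∈ C, ‖iteratedFDeriv ℝ i (fderiv ℝ τ) y‖ ≤ M := by
        intro i
        have h2 : ContinuousOn (iteratedFDerivWithin ℝ i (fderiv ℝ τ) Ω) Ω :=
          hτ'.continuousOn_iteratedFDerivWithin (by exact_mod_cast le_top) hΩ.uniqueDiffOn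
        obtain ⟨M, hM⟩ := hC.exists_bound_of_continuousOn (h2.mono hCΩ)
        refine ⟨M, fun y hy => ?_⟩
        rw [← iteratedFDerivWithin_of_isOpen i hΩ (hCΩ hy)]
        exact hM y hy
      choose M hM using h1
      refine ⟨1 + ∑ i ∈ Finset.range (r + 1), |M i|, by positivity, fun i hi y hy => ?_⟩
      have h3 : |M i| ≤ ∑ i ∈ Finset.range (r + 1), |M i| :=
        Finset.single_le_sum (f := fun i => |M i|) (fun _ _ => abs_nonneg _)
          (Finset.mem_range.2 (by omega))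
      have h4 := hM i y hy
      have h5 := le_abs_self (M i)
      linarith
    obtain ⟨M, hM0, hM⟩ := hM
    obtain ⟨δ₁, hδ₁, h1⟩ := ih (E n →L[ℝ] F) (fderiv ℝ τ) hτ' (ε / 2 ^ (r + 2)) (by positivity)
    obtain ⟨δ₂, hδ₂, h2⟩ := ih F τ hτ ε hε
    set δ := min (min δ₁ δ₂) (min 1 (ε / (2 ^ (r + 1) * M))) with hδdef
    have hδ : 0 < δ := by positivity
    have hδ1 : δ ≤ δ₁ := (min_le_left _ _).trans (min_le_left _ _)
    have hδ2 : δ ≤ δ₂ := (min_le_left _ _).trans (min_le_right _ _)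
    have hδ3 : δ ≤ 1 := (min_le_right _ _).trans (min_le_left _ _)
    have hδ4 : δ ≤ ε / (2 ^ (r + 1) * M) := (min_le_right _ _).trans (min_le_right _ _)
    refine ⟨δ, hδ, fun L hL hN y hy => ?_⟩
    have hN1 : Near r δ₁ L := fun j hj z => (hN j (by omega) z).trans hδ1
    have hN2 : Near r δ₂ L := fun j hj z => (hN j (by omega) z).trans hδ2
    have g2 := h2 L hL hN2 y hy
    refine ⟨g2.1, fun j hj => ?_⟩
    rcases Nat.eq_zero_or_pos j with rfl | hj0
    · exact g2.2 0 (Nat.zero_le _)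
    obtain ⟨k, rfl⟩ : ∃ k, j = k + 1 := ⟨j - 1, by omega⟩
    have hk : k ≤ r := by omega
    rw [norm_succ_sub]
    set W := Ω ∩ L ⁻¹' Ω with hWdef
    have hW : IsOpen W := hΩ.inter (hΩ.preimage hL.continuous)
    have hyW : y ∈ W := ⟨hCΩ hy, g2.1⟩
    have hD : ContDiff ℝ ∞ (fderiv ℝ L) := hL.fderiv_right (by simp)
    have hDW : ContDiffOn ℝ ∞ (fderiv ℝ L) W := hD.contDiffOn
    have hτW : ContDiffOn ℝ ∞ (fderiv ℝ τ) W := hτ'.mono inter_subset_left
    have hτLW : ContDiffOn ℝ ∞ (fderiv ℝ τ ∘ L) W :=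
      hτ'.comp hL.contDiffOn inter_subset_right
    -- the chain rule
    have hchain : fderiv ℝ (τ ∘ L) =ᶠ[𝓝 y] fun z => (fderiv ℝ τ (L z)).comp (fderiv ℝ L z) := by
      filter_upwards [hW.mem_nhds hyW] with z hz
      have h3 : DifferentiableAt ℝ τ (L z) :=
        (hτ.contDiffAt (hΩ.mem_nhds hz.2)).differentiableAt (by simp)
      have h4 : DifferentiableAt ℝ L z := (hL.differentiable (by simp)) z
      exact fderiv_comp z h3 h4
    have e1 : iteratedFDeriv ℝ k (fderiv ℝ (τ ∘ L)) y =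
        iteratedFDeriv ℝ k (fun z => (fderiv ℝ τ (L z)).comp (fderiv ℝ L z)) y :=
      (hchain.iteratedFDeriv ℝ k).eq_of_nhds
    have hk' : ((k : ℕ∞) : ℕ∞ω) ≤ ∞ := by exact_mod_cast le_top
    -- the difference
    have c1 : ContDiffOn ℝ ∞ (fun z => fderiv ℝ τ (L z) - fderiv ℝ τ z) W := hτLW.sub hτW
    have c2 : ContDiffOn ℝ ∞ (fun z => fderiv ℝ L z - ContinuousLinearMap.id ℝ (E n)) W :=
      hDW.sub contDiffOn_const
    have c3 : ContDiffOn ℝ ∞ (fun z => (fderiv ℝ τ (L z)).comp (fderiv ℝ L z)) W :=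
      hτLW.clm_comp hDW
    have c4 : ContDiffOn ℝ ∞ (fun z => (fderiv ℝ τ (L z) - fderiv ℝ τ z).comp (fderiv ℝ L z)) W :=
      c1.clm_comp hDW
    have c5 : ContDiffOn ℝ ∞ (fun z => (fderiv ℝ τ z).comp
        (fderiv ℝ L z - ContinuousLinearMap.id ℝ (E n))) W := hτW.clm_comp c2
    have at_ : ∀ {G : Type} [NormedAddCommGroup G] [NormedSpace ℝ G] {f : E n → G} {i : ℕ},
        ContDiffOn ℝ ∞ f W → ContDiffAt ℝ i f y := by
      intro G _ _ f i hf
      exact (hf.contDiffAt (hW.mem_nhds hyW)).of_le (by exact_mod_cast le_top)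
    have e2 : iteratedFDeriv ℝ k (fun z => (fderiv ℝ τ (L z)).comp (fderiv ℝ L z)) y -
        iteratedFDeriv ℝ k (fderiv ℝ τ) y =
        iteratedFDeriv ℝ k (fun z => (fderiv ℝ τ (L z) - fderiv ℝ τ z).comp (fderiv ℝ L z)) y +
        iteratedFDeriv ℝ k (fun z => (fderiv ℝ τ z).comp
          (fderiv ℝ L z - ContinuousLinearMap.id ℝ (E n))) y := by
      rw [← iteratedFDeriv_sub_apply (at_ c3) (at_ hτW), ← iteratedFDeriv_add_apply (at_ c4) (at_ c5)]
      congr 1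
      funext z
      ext v
      simp
    rw [e1, e2]
    refine (norm_add_le _ _).trans ?_
    have b1 := bil hW hyW c1 hDW k (a := ε / 2 ^ (r + 2)) (b := 2) (fun i hi => by
      have h5 := (h1 L hL hN1 y hy).2 i (by omega)
      have h6 : iteratedFDeriv ℝ i (fun z => fderiv ℝ τ (L z) - fderiv ℝ τ z) y =
          iteratedFDeriv ℝ i (fderiv ℝ τ ∘ L) y - iteratedFDeriv ℝ i (fderiv ℝ τ) y := by
        rw [← iteratedFDeriv_sub_apply (at_ hτLW) (at_ hτW)]
        rfl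
      rw [h6]
      exact h5) (fun i hi => norm_DL r δ hδ3 L hL hN y i (by omega))
    have b2 := bil hW hyW hτW c2 k (a := M) (b := δ) (fun i hi => hM i (by omega) y hy)
      (fun i hi => norm_DL_sub r δ L hL hN y i (by omega))
    have p1 : (2 : ℝ) ^ k ≤ 2 ^ r := pow_le_pow_right₀ one_le_two hk
    have p2 : (2 : ℝ) ^ k * (ε / 2 ^ (r + 2) * 2) ≤ ε / 2 := by
      calc (2 : ℝ) ^ k * (ε / 2 ^ (r + 2) * 2) ≤ 2 ^ r * (ε / 2 ^ (r + 2) * 2) :=
            mul_le_mul_of_nonneg_right p1 (by positivity)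
        _ = ε / 2 := by
            rw [pow_add]
            field_simp
    have p3 : (2 : ℝ) ^ k * (M * δ) ≤ ε / 2 := by
      calc (2 : ℝ) ^ k * (M * δ) ≤ 2 ^ r * (M * (ε / (2 ^ (r + 1) * M))) := by
            refine mul_le_mul p1 ?_ (by positivity) (by positivity)
            exact mul_le_mul_of_nonneg_left hδ4 hM0.le
        _ = ε / 2 := by
            rw [pow_succ]
            field_simp
    linarith

end RCOMP_

theorem rcomp : T_RCOMP := by
  intro n r Ω C τ ε hΩ hC hCΩ hτ hε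
  exact RCOMP_.key Ω C hΩ hC hCΩ r (E n) τ hτ ε hε

end Pool.Agent.Pal
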