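import Pool.Agent.Pal.Targets

/-!
# Closeness in the `C^r` topology is a robust property
-/

set_option autoImplicit false

open Set MeasureTheory Filter Topology Metric Asymptotics
open scoped Manifold ContDiff

namespace Pool.Agent.Pal

namespace ROB_

variable {n : ℕ}

theorem ext_off {M : Type} [TopologicalSpace M] [ChartedSpace (E n) M]
    {e : OpenPartialHomeomorph M (E n)} {C : Set (E n)} {L : E n → E n} (hL : Mod C L) {x : M}
    (hx : x ∉ e.symm '' C) : ext e L x = x := by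
  unfold ext
  split_ifs with h
  · have h1 : e x ∉ C := by
      intro h2
      exact hx ⟨e x, h2, e.left_inv h⟩
    rw [hL.2 _ h1, e.left_inv h]
  · rfl

theorem ext_on {M : Type} [TopologicalSpace M] [ChartedSpace (E n) M]
    {e : OpenPartialHomeomorph M (E n)} {L : E n → E n} {x : M} (hx : x ∈ e.source) :
    ext e L x = e.symm (L (e x)) := by
  unfold ext
  rw [if_pos hx]

theorem cont_of_contDiffAt {s : ℕ∞} {φ : E n → E n} {y : E n} (h : ContDiffAt ℝ s φ y) {j : ℕ}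
    (hj : (j : ℕ∞) ≤ s) : ContinuousAt (iteratedFDeriv ℝ j φ) y := by
  have h1 : ContDiffAt ℝ (0 : WithTop ℕ∞) (iteratedFDeriv ℝ j φ) y := by
    apply h.iteratedFDeriv_right
    rw [zero_add]
    exact_mod_cast hj
  exact h1.continuousAt

theorem uniform_lt {X : Type} [TopologicalSpace X] {K : Set X} (hK : IsCompact K) {ε : ℝ} (r : ℕ)
    (φ : ℕ → X → ℝ) (hc : ∀ j ≤ r, ContinuousOn (φ j) K) (h : ∀ x ∈ K, ∀ j ≤ r, φ j x < ε) :
    ∃ ε₁ < ε, ∀ x ∈ K, ∀ j ≤ r, φ j x ≤ ε₁ := by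
  have h1 : ∀ j, ∃ a < ε, j ≤ r → ∀ x ∈ K, φ j x ≤ a := by
    intro j
    by_cases hj : j ≤ r
    · rcases K.eq_empty_or_nonempty with h0 | h0
      · refine ⟨ε - 1, by linarith, fun _ x hx => ?_⟩
        rw [h0] at hx
        exact absurd hx (notMem_empty x)
      · obtain ⟨x, hx, hm⟩ := hK.exists_isMaxOn h0 (hc j hj)
        exact ⟨φ j x, h x hx j hj, fun _ y hy => hm hy⟩
    · exact ⟨ε - 1, by linarith, fun h2 => absurd h2 hj⟩
  choose a ha1 ha2 using h1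
  have hne : (Finset.range (r + 1)).Nonempty := Finset.nonempty_range_iff.mpr (by omega)
  refine ⟨(Finset.range (r + 1)).sup' hne a, ?_, ?_⟩
  · rw [Finset.sup'_lt_iff]
    intro j _
    exact ha1 j
  · intro x hx j hj
    exact (ha2 j hj x hx).trans
      (Finset.le_sup' a (Finset.mem_range.mpr (Nat.lt_succ_of_le hj)))

end ROB_

open ROB_ in
theorem rob (h1 : T_RCOMP) (h2 : T_LCOMP) (h3 : T_DIFF) : T_ROB := by
  intro n M _ _ _ _ s r f e e' K ε hrs hf he he' hK hKe hfK g hg hgd e₀ he₀ C hC hCe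
  have hgc : Continuous g := by
    obtain ⟨G, rfl⟩ := hgd
    exact G.continuous
  obtain ⟨hgK, hgε⟩ := hg
  have sg : ∀ (a a' : OpenPartialHomeomorph M (E n)) (x : M), a ∈ Ch n M → a' ∈ Ch n M →
      x ∈ a.source → g x ∈ a'.source → ContDiffAt ℝ s (a' ∘ g ∘ a.symm) (a x) := by
    intro a a' x ha ha' hx hgx
    exact (h3 n M s).2.2.2 g 1 a a' x hgd ha ha' hx hgx
  have sf : ∀ (a a' : OpenPartialHomeomorph M (E n)) (x : M), a ∈ Ch n M → a' ∈ Ch n M →
      x ∈ a.source → f x ∈ a'.source → ContDiffAt ℝ s (a' ∘ f ∘ a.symm) (a x) := by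
    intro a a' x ha ha' hx hgx
    exact (h3 n M s).2.2.2 f 1 a a' x hf ha ha' hx hgx
  have sτ : ∀ (a a' : OpenPartialHomeomorph M (E n)) (x : M), a ∈ Ch n M → a' ∈ Ch n M →
      x ∈ a.source → x ∈ a'.source → ContDiffAt ℝ ∞ (a' ∘ a.symm) (a x) := by
    intro a a' x ha ha' hx hx'
    exact (h3 n M ⊤).2.2.2 id 0 a a' x ⟨Diffeomorph.refl _ _ _, rfl⟩ ha ha' hx hx'
  obtain ⟨ε₁, hε₁, hle⟩ := uniform_lt hK r
    (fun j x => ‖iteratedFDeriv ℝ j (e' ∘ g ∘ e.symm) (e x) -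
      iteratedFDeriv ℝ j (e' ∘ f ∘ e.symm) (e x)‖) (by
      intro j hj x hx
      apply ContinuousAt.continuousWithinAt
      have hjs : (j : ℕ∞) ≤ s := le_trans (by exact_mod_cast hj) hrs
      have c1 := cont_of_contDiffAt (sg e e' x he he' (hKe hx) (hgK hx)) hjs
      have c2 := cont_of_contDiffAt (sf e e' x he he' (hKe hx) (hfK hx)) hjs
      have c3 : ContinuousAt e x := e.continuousAt (hKe hx)
      exact ((c1.comp c3).sub (c2.comp c3)).norm) hgε
  have hCc : IsCompact (e₀.symm '' C) := hC.image_of_continuousOn (e₀.continuousOn_symm.mono hCe)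
  have hCcl : IsClosed (e₀.symm '' C) := hCc.isClosed
  have hCs : e₀.symm '' C ⊆ e₀.source := by
    rintro _ ⟨c, hc, rfl⟩
    exact e₀.map_target (hCe hc)
  set K₁ : Set M := K ∩ g ⁻¹' (e₀.symm '' C) with hK₁
  have cK₁ : IsCompact K₁ := hK.inter_right (hCcl.preimage hgc)
  have hK₁e : K₁ ⊆ e.source := fun x hx => hKe hx.1
  have hgK₁ : g '' K₁ ⊆ e₀.source ∩ e'.source := by
    rintro _ ⟨x, hx, rfl⟩
    exact ⟨hCs hx.2, hgK hx.1⟩
  set v : E n → E n := e₀ ∘ g ∘ e.symm with hv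
  set τ : E n → E n := e' ∘ e₀.symm with hτ
  set Ω₀ : Set (E n) := e.target ∩ e.symm ⁻¹' (g ⁻¹' (e₀.source ∩ e'.source)) with hΩ₀
  have oΩ₀ : IsOpen Ω₀ := e.isOpen_inter_preimage_symm
    ((e₀.open_source.inter e'.open_source).preimage hgc)
  set Ωτ : Set (E n) := e₀.target ∩ e₀.symm ⁻¹' e'.source with hΩτ
  have oΩτ : IsOpen Ωτ := e₀.isOpen_inter_preimage_symm e'.open_source
  have cτ : ContDiffOn ℝ ∞ τ Ωτ := by
    intro y hy
    have h := sτ e₀ e' (e₀.symm y) he₀ he' (e₀.map_target hy.1) hy.2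
    rw [e₀.right_inv hy.1] at h
    exact h.contDiffWithinAt
  have cv : ContDiffOn ℝ r v Ω₀ := by
    intro y hy
    have h := sg e e₀ (e.symm y) he he₀ (e.map_target hy.1) hy.2.1
    rw [e.right_inv hy.1] at h
    exact (h.of_le (by exact_mod_cast hrs)).contDiffWithinAt
  have hKΩ : e '' K₁ ⊆ Ω₀ := by
    rintro _ ⟨x, hx, rfl⟩
    refine ⟨e.map_source (hK₁e hx), ?_⟩
    show g (e.symm (e x)) ∈ e₀.source ∩ e'.source
    rw [e.left_inv (hK₁e hx)]
    exact hgK₁ ⟨x, hx, rfl⟩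
  have cKe : IsCompact (e '' K₁) := cK₁.image_of_continuousOn (e.continuousOn.mono hK₁e)
  obtain ⟨δ₂, hδ₂, hl⟩ := h2 n r Ω₀ (e '' K₁) v ((ε - ε₁) / 2) oΩ₀ cKe hKΩ cv (by linarith)
  have hCΩ : e₀ '' (g '' K₁) ⊆ Ωτ := by
    rintro _ ⟨y, hy, rfl⟩
    refine ⟨e₀.map_source (hgK₁ hy).1, ?_⟩
    show e₀.symm (e₀ y) ∈ e'.source
    rw [e₀.left_inv (hgK₁ hy).1]
    exact (hgK₁ hy).2
  have cC₁ : IsCompact (e₀ '' (g '' K₁)) :=
    (cK₁.image hgc).image_of_continuousOn (e₀.continuousOn.mono fun y hy => (hgK₁ hy).1)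
  obtain ⟨δ, hδ, hr⟩ := h1 n r Ωτ (e₀ '' (g '' K₁)) τ δ₂ oΩτ cC₁ hCΩ cτ hδ₂
  refine ⟨δ, hδ, fun L hL hN => ?_⟩
  have hL' := hr L hL.1 hN
  refine ⟨?_, ?_⟩
  · intro x hx
    by_cases hx1 : g x ∈ e₀.symm '' C
    · have h5 := (hL' (e₀ (g x)) ⟨g x, ⟨x, ⟨hx, hx1⟩, rfl⟩, rfl⟩).1
      show ext e₀ L (g x) ∈ e'.source
      rw [ext_on (hCs hx1)]
      exact h5.2
    · show ext e₀ L (g x) ∈ e'.source
      rw [ext_off hL hx1]
      exact hgK hx
  · intro x hx j hj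
    have hxe : x ∈ e.source := hKe hx
    have cat : ContinuousAt e.symm (e x) := e.continuousAt_symm (e.map_source hxe)
    have cat2 : ContinuousAt (fun y => g (e.symm y)) (e x) := hgc.continuousAt.comp cat
    by_cases hx1 : g x ∈ e₀.symm '' C
    · have hx₁ : x ∈ K₁ := ⟨hx, hx1⟩
      have hmem : e₀ (g x) ∈ e₀ '' (g '' K₁) := ⟨g x, ⟨x, hx₁, rfl⟩, rfl⟩
      have hvx : v (e x) = e₀ (g x) := by
        show e₀ (g (e.symm (e x))) = e₀ (g x)
        rw [e.left_inv hxe]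
      have hexΩ : e x ∈ Ω₀ := hKΩ ⟨x, hx₁, rfl⟩
      -- the difference
      set w : E n → E n := τ ∘ L - τ with hw
      set W : Set (E n) := Ωτ ∩ L ⁻¹' Ωτ with hW
      have oW : IsOpen W := oΩτ.inter (oΩτ.preimage hL.1.continuous)
      have cτL : ContDiffOn ℝ ∞ (τ ∘ L) W := cτ.comp hL.1.contDiffOn fun y hy => hy.2
      have cw : ContDiffOn ℝ ∞ w W := cτL.sub (cτ.mono inter_subset_left)
      have hmW : ∀ y ∈ e '' K₁, v y ∈ W := by
        rintro _ ⟨z, hz, rfl⟩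
        have hvz : v (e z) = e₀ (g z) := by
          show e₀ (g (e.symm (e z))) = e₀ (g z)
          rw [e.left_inv (hK₁e hz)]
        rw [hvz]
        have hz' : e₀ (g z) ∈ e₀ '' (g '' K₁) := ⟨g z, ⟨z, hz, rfl⟩, rfl⟩
        exact ⟨hCΩ hz', (hL' _ hz').1⟩
      have hbd : ∀ y ∈ e '' K₁, ∀ i ≤ r, ‖iteratedFDeriv ℝ i w (v y)‖ ≤ δ₂ := by
        rintro y hy i hi
        have hvy := hmW y hy
        obtain ⟨z, hz, rfl⟩ := hy
        have hvz : v (e z) = e₀ (g z) := by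
          show e₀ (g (e.symm (e z))) = e₀ (g z)
          rw [e.left_inv (hK₁e hz)]
        have hz' : e₀ (g z) ∈ e₀ '' (g '' K₁) := ⟨g z, ⟨z, hz, rfl⟩, rfl⟩
        have b1 : ContDiffAt ℝ i (τ ∘ L) (v (e z)) :=
          ((cτL.contDiffAt (oW.mem_nhds hvy)).of_le (by exact_mod_cast le_top))
        have b2 : ContDiffAt ℝ i τ (v (e z)) :=
          ((cτ.contDiffAt (oΩτ.mem_nhds hvy.1)).of_le (by exact_mod_cast le_top))
        rw [hw, iteratedFDeriv_sub_apply b1 b2, hvz]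
        exact (hL' _ hz').2 i hi
      have hfin := hl W w oW (cw.of_le (by exact_mod_cast le_top)) hmW hbd (e x)
        ⟨x, hx₁, rfl⟩ j hj
      have hev : e' ∘ (ext e₀ L ∘ g) ∘ e.symm =ᶠ[𝓝 (e x)] w ∘ v + e' ∘ g ∘ e.symm := by
        filter_upwards [oΩ₀.mem_nhds hexΩ] with y hy
        have hy1 : g (e.symm y) ∈ e₀.source := hy.2.1
        show e' (ext e₀ L (g (e.symm y))) = (e' (e₀.symm (L (e₀ (g (e.symm y))))) -
          e' (e₀.symm (e₀ (g (e.symm y))))) + e' (g (e.symm y))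
        rw [ext_on hy1, e₀.left_inv hy1, sub_add_cancel]
      have b3 : ContDiffAt ℝ j (w ∘ v) (e x) := by
        have b4 : ContDiffAt ℝ r v (e x) := cv.contDiffAt (oΩ₀.mem_nhds hexΩ)
        have b5 : ContDiffAt ℝ r w (v (e x)) :=
          (cw.contDiffAt (oW.mem_nhds (hmW _ ⟨x, hx₁, rfl⟩))).of_le (by exact_mod_cast le_top)
        exact (b5.comp _ b4).of_le (by exact_mod_cast hj)
      have b6 : ContDiffAt ℝ j (e' ∘ g ∘ e.symm) (e x) :=
        (sg e e' x he he' hxe (hgK hx)).of_le (by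
          exact_mod_cast le_trans (by exact_mod_cast hj) hrs)
      rw [(hev.iteratedFDeriv (𝕜 := ℝ) j).self_of_nhds, iteratedFDeriv_add_apply b3 b6, add_sub_assoc]
      refine (norm_add_le _ _).trans_lt ?_
      have := hle x hx j hj
      linarith
    · have hev : e' ∘ (ext e₀ L ∘ g) ∘ e.symm =ᶠ[𝓝 (e x)] e' ∘ g ∘ e.symm := by
        have h6 : ∀ᶠ y in 𝓝 (e x), g (e.symm y) ∈ (e₀.symm '' C)ᶜ := by
          apply cat2.eventually_mem
          apply hCcl.isOpen_compl.mem_nhds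
          show g (e.symm (e x)) ∈ (e₀.symm '' C)ᶜ
          rw [e.left_inv hxe]
          exact hx1
        filter_upwards [h6] with y hy
        show e' (ext e₀ L (g (e.symm y))) = e' (g (e.symm y))
        rw [ext_off hL hy]
      rw [(hev.iteratedFDeriv (𝕜 := ℝ) j).self_of_nhds]
      exact hgε x hx j hj

end Pool.Agent.Pal
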