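import Pool.Agent.Pal.Targets2

/-!
# PALR-SINKC: persistence of a sink and of a compact part of its basin
-/

set_option autoImplicit false

open Set MeasureTheory Filter Topology Metric Asymptotics
open scoped Manifold ContDiff

namespace Pool.Agent.Pal

namespace SINKC_

lemma iter_close {M : Type} [MetricSpace M] [CompactSpace M] (g : M → M) (hg : Continuous g)
    (N : ℕ) : ∀ ε : ℝ, 0 < ε → ∃ η : ℝ, 0 < η ∧ ∀ g' : M → M, (∀ x, dist (g' x) (g x) < η) →
      ∀ x, dist (g'^[N] x) (g^[N] x) < ε := by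
  have huc : UniformContinuous g := CompactSpace.uniformContinuous_of_continuous hg
  induction N with
  | zero =>
    intro ε hε
    refine ⟨1, one_pos, fun ψ _ x => ?_⟩
    rw [Function.iterate_zero, Function.iterate_zero, id, dist_self]
    exact hε
  | succ N ih =>
    intro ε hε
    obtain ⟨δ, hδ, hδ'⟩ := Metric.uniformContinuous_iff.mp huc (ε / 2) (by linarith)
    obtain ⟨η, hη, hη'⟩ := ih δ hδ
    refine ⟨min η (ε / 2), lt_min hη (by linarith), fun g' hg' x => ?_⟩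
    rw [Function.iterate_succ_apply', Function.iterate_succ_apply']
    have h1 := hη' g' (fun y => (hg' y).trans_le (min_le_left _ _)) x
    have h2 := hδ' h1
    have h3 := (hg' (g'^[N] x)).trans_le (min_le_right _ _)
    calc dist (g' (g'^[N] x)) (g (g^[N] x))
        ≤ dist (g' (g'^[N] x)) (g (g'^[N] x)) + dist (g (g'^[N] x)) (g (g^[N] x)) :=
          dist_triangle _ _ _
      _ < ε := by linarith

lemma norm_sub_zero {n : ℕ} (f g : E n → E n) (y : E n) :
    ‖iteratedFDeriv ℝ 0 f y - iteratedFDeriv ℝ 0 g y‖ = ‖f y - g y‖ := by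
  rw [iteratedFDeriv_zero_eq_comp, iteratedFDeriv_zero_eq_comp, Function.comp_apply,
    Function.comp_apply, ← map_sub, LinearIsometryEquiv.norm_map]

lemma norm_sub_one {n : ℕ} (f g : E n → E n) (y : E n) :
    ‖iteratedFDeriv ℝ 1 f y - iteratedFDeriv ℝ 1 g y‖ = ‖fderiv ℝ f y - fderiv ℝ g y‖ := by
  have e1 : iteratedFDeriv ℝ (0 + 1) f y = iteratedFDeriv ℝ 1 f y := rfl
  rw [← e1, iteratedFDeriv_succ_eq_comp_right]
  have e2 : iteratedFDeriv ℝ (0 + 1) g y = iteratedFDeriv ℝ 1 g y := rfl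
  rw [← e2, iteratedFDeriv_succ_eq_comp_right, Function.comp_apply, Function.comp_apply,
    ← map_sub, LinearIsometryEquiv.norm_map, iteratedFDeriv_zero_eq_comp,
    iteratedFDeriv_zero_eq_comp, Function.comp_apply,
    Function.comp_apply, ← map_sub, LinearIsometryEquiv.norm_map]

/-- A contraction of a closed ball. -/
lemma contract {n : ℕ} (F : E n → E n) (y₀ : E n) (r l : ℝ) (hr : 0 ≤ r) (hl : l < 1)
    (hF : ∀ y ∈ closedBall y₀ r, DifferentiableAt ℝ F y)
    (hD : ∀ y ∈ closedBall y₀ r, ‖fderiv ℝ F y‖ ≤ l)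
    (hm : ∀ y ∈ closedBall y₀ r, F y ∈ closedBall y₀ r) :
    ∃ y' ∈ closedBall y₀ r, F y' = y' ∧
      ∀ y ∈ closedBall y₀ r, Tendsto (fun k : ℕ => F^[k] y) atTop (𝓝 y') := by
  have hl0 : 0 ≤ l := (norm_nonneg _).trans (hD y₀ (mem_closedBall_self hr))
  have hlip : ∀ a ∈ closedBall y₀ r, ∀ b ∈ closedBall y₀ r, dist (F a) (F b) ≤ l * dist a b := by
    intro a ha b hb
    rw [dist_eq_norm, dist_eq_norm]
    exact (convex_closedBall y₀ r).norm_image_sub_le_of_norm_fderiv_le (𝕜 := ℝ) hF hD hb ha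
  have hcomp : IsComplete (closedBall y₀ r) := isClosed_closedBall.isComplete
  have hcw : ContractingWith ⟨l, hl0⟩ (MapsTo.restrict F (closedBall y₀ r) (closedBall y₀ r) hm) := by
    refine ⟨?_, LipschitzWith.of_dist_le_mul fun a b => hlip a a.2 b b.2⟩
    exact_mod_cast hl
  have huniq : ∀ a ∈ closedBall y₀ r, ∀ b ∈ closedBall y₀ r, F a = a → F b = b → a = b := by
    intro a ha b hb hFa hFb
    have h := hlip a ha b hb
    rw [hFa, hFb] at h
    have h0 : 0 ≤ dist a b := dist_nonneg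
    have : dist a b = 0 := by nlinarith
    exact dist_eq_zero.mp this
  have hex : ∀ a ∈ closedBall y₀ r, ∃ b ∈ closedBall y₀ r, F b = b ∧
      Tendsto (fun k : ℕ => F^[k] a) atTop (𝓝 b) := by
    intro a ha
    obtain ⟨b, hb, hfb, hlim, -⟩ := hcw.exists_fixedPoint' hcomp hm ha (edist_ne_top _ _)
    exact ⟨b, hb, hfb, hlim⟩
  obtain ⟨y', hy', hfix, -⟩ := hex y₀ (mem_closedBall_self hr)
  refine ⟨y', hy', hfix, fun a ha => ?_⟩
  obtain ⟨b, hb, hfb, hlim⟩ := hex a ha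
  rw [huniq y' hy' b hb hfix hfb]
  exact hlim

lemma nbd_diffeo {n : ℕ} {M : Type} [TopologicalSpace M] [ChartedSpace (E n) M] {g : M → M}
    {V : Set (M → M)} (h : Nbd n g V) : Nbd n g {g' | IsDiffeo n 1 g' ∧ g' ∈ V} := by
  obtain ⟨N, e, e', K, ε, hε, h1, h2⟩ := h
  exact ⟨N, e, e', K, ε, hε, h1, fun g' hg' hC => ⟨hg', h2 g' hg' hC⟩⟩

/-- The dynamics in the chart. -/
lemma chart_dyn {n : ℕ} {M : Type} [TopologicalSpace M] [ChartedSpace (E n) M]
    (e : OpenPartialHomeomorph M (E n)) (h : M → M) (B : Set (E n)) (hB : B ⊆ e.target)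
    (hs : MapsTo h (e.symm '' B) e.source) (hF : ∀ y ∈ B, (e ∘ h ∘ e.symm) y ∈ B) :
    (∀ x ∈ e.symm '' B, h x ∈ e.symm '' B) ∧ ∀ x ∈ e.symm '' B, ∀ k : ℕ,
      h^[k] x = e.symm ((e ∘ h ∘ e.symm)^[k] (e x)) ∧ (e ∘ h ∘ e.symm)^[k] (e x) ∈ B := by
  have h1 : ∀ y ∈ B, h (e.symm y) = e.symm ((e ∘ h ∘ e.symm) y) := by
    intro y hy
    rw [Function.comp_apply, Function.comp_apply, e.left_inv (hs ⟨y, hy, rfl⟩)]
  refine ⟨?_, ?_⟩
  · rintro _ ⟨y, hy, rfl⟩
    rw [h1 y hy]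
    exact ⟨_, hF y hy, rfl⟩
  · rintro _ ⟨y, hy, rfl⟩ k
    rw [e.right_inv (hB hy)]
    induction k with
    | zero => exact ⟨rfl, hy⟩
    | succ k ih =>
      rw [Function.iterate_succ_apply', Function.iterate_succ_apply', ih.1]
      exact ⟨h1 _ ih.2, hF _ ih.2⟩

end SINKC_

open SINKC_ in
theorem sinkc (hNBD : T_NBD) (hC0C : T_C0C) (hITC : T_ITC) (hDIFF : T_DIFF) : T_SINKC := by
  intro n M _ _ _ _ g m p K e hg hm hp he hpe hder hK hpK hKK hlim
  obtain ⟨-, -, hhom, hcd⟩ := hDIFF n M 1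
  have hcont : ∀ f : M → M, IsDiffeo n 1 f → Continuous f := by
    intro f hf
    obtain ⟨G, rfl⟩ := hhom f hf
    exact G.continuous
  have hgc := hcont g hg
  set h : M → M := g^[m] with hh
  have hhc : Continuous h := hgc.iterate m
  set F : E n → E n := e ∘ h ∘ e.symm with hFdef
  have hF1 : ContDiffAt ℝ 1 F (e p) := hcd g m e e p hg he he hpe (by rw [← hh, hp]; exact hpe)
  have hFp : F (e p) = e p := by
    rw [hFdef, Function.comp_apply, Function.comp_apply, e.left_inv hpe, hp]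
  obtain ⟨l, hl1, hl2⟩ := exists_between hder
  have hl0 : 0 < l := (norm_nonneg _).trans_lt hl1
  -- a neighbourhood of e p with all good properties
  have hpt : e p ∈ e.target := e.map_source hpe
  have ev1 : ∀ᶠ y in 𝓝 (e p), y ∈ e.target := e.open_target.mem_nhds hpt
  have hsc : ContinuousAt e.symm (e p) := e.continuousAt_symm hpt
  have ev2 : ∀ᶠ y in 𝓝 (e p), e.symm y ∈ interior K := by
    refine hsc.eventually_mem ?_
    rw [e.left_inv hpe]
    exact isOpen_interior.mem_nhds hpK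
  have ev3 : ∀ᶠ y in 𝓝 (e p), h (e.symm y) ∈ e.source := by
    have : ContinuousAt (fun y => h (e.symm y)) (e p) := hhc.continuousAt.comp hsc
    refine this.eventually_mem ?_
    rw [e.left_inv hpe, hp]
    exact e.open_source.mem_nhds hpe
  have ev4 : ∀ᶠ y in 𝓝 (e p), ContDiffAt ℝ 1 F y := hF1.eventually (by simp)
  have ev5 : ∀ᶠ y in 𝓝 (e p), ‖fderiv ℝ F y‖ < l := by
    have hc : ContinuousAt (fderiv ℝ F) (e p) := hF1.continuousAt_fderiv (by simp)
    exact hc.norm.eventually_lt_const hl1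
  obtain ⟨r, hr, hball⟩ := Metric.nhds_basis_closedBall.mem_iff.mp
    (((ev1.and ev2).and (ev3.and ev4)).and ev5)
  set B : Set (E n) := closedBall (e p) r with hBdef
  have hB1 : B ⊆ e.target := fun y hy => (hball hy).1.1.1
  have hB2 : ∀ y ∈ B, e.symm y ∈ interior K := fun y hy => (hball hy).1.1.2
  have hB3 : ∀ y ∈ B, h (e.symm y) ∈ e.source := fun y hy => (hball hy).1.2.1
  have hB4 : ∀ y ∈ B, ContDiffAt ℝ 1 F y := fun y hy => (hball hy).1.2.2
  have hB5 : ∀ y ∈ B, ‖fderiv ℝ F y‖ < l := fun y hy => (hball hy).2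
  have hcb : IsCompact B := isCompact_closedBall _ _
  have hpB : e p ∈ B := mem_closedBall_self hr.le
  have hFl : ∀ y ∈ B, ‖F y - e p‖ ≤ l * ‖y - e p‖ := by
    intro y hy
    have := (convex_closedBall (e p) r).norm_image_sub_le_of_norm_fderiv_le (𝕜 := ℝ) (f := F)
      (C := l) (fun z hz => (hB4 z hz).differentiableAt (by simp)) (fun z hz => (hB5 z hz).le)
      hpB hy
    rwa [hFp] at this
  -- the compact set in M
  set Kb : Set M := e.symm '' B with hKb
  have hKbc : IsCompact Kb := hcb.image_of_continuousOn (e.continuousOn_symm.mono hB1)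
  have hKbs : Kb ⊆ e.source := by
    rintro _ ⟨y, hy, rfl⟩
    exact e.map_target (hB1 hy)
  have hKbm : MapsTo h Kb e.source := by
    rintro _ ⟨y, hy, rfl⟩
    exact hB3 y hy
  -- the open set
  set U : Set M := e.source ∩ e ⁻¹' ball (e p) r with hU
  have hUo : IsOpen U := e.isOpen_inter_preimage isOpen_ball
  have hUKb : U ⊆ Kb := by
    intro x hx
    exact ⟨e x, ball_subset_closedBall hx.2, e.left_inv hx.1⟩
  have hpU : p ∈ U := ⟨hpe, mem_ball_self hr⟩
  have hUU : ∀ x ∈ U, h x ∈ U := by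
    intro x hx
    have hy : e x ∈ B := ball_subset_closedBall hx.2
    have h1 : h x ∈ e.source := hKbm (hUKb hx)
    refine ⟨h1, ?_⟩
    have h2 : F (e x) = e (h x) := by
      rw [hFdef, Function.comp_apply, Function.comp_apply, e.left_inv hx.1]
    have h3 := hFl (e x) hy
    rw [h2] at h3
    have h4 : ‖e x - e p‖ < r := by rw [← dist_eq_norm]; exact hx.2
    change e (h x) ∈ ball (e p) r
    rw [mem_ball, dist_eq_norm]
    have h5 : 0 ≤ ‖e x - e p‖ := norm_nonneg _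
    nlinarith
  -- the time
  have hKk : ∀ x ∈ K, ∃ k : ℕ, h^[k] x ∈ U := by
    intro x hx
    have := (hlim x hx).eventually (hUo.mem_nhds hpU)
    obtain ⟨k, hk⟩ := this.exists
    refine ⟨k, ?_⟩
    rw [hh, ← Function.iterate_mul]
    exact hk
  have hiterU : ∀ x ∈ U, ∀ k : ℕ, h^[k] x ∈ U := by
    intro x hx k
    induction k with
    | zero => exact hx
    | succ k ih =>
      rw [Function.iterate_succ_apply']
      exact hUU _ ih
  obtain ⟨k₀, hk₀⟩ : ∃ k₀ : ℕ, ∀ x ∈ K, h^[k₀] x ∈ U := by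
    choose! kf hkf using hKk
    obtain ⟨t, htK, ht⟩ := hK.elim_nhds_subcover (fun x => h^[kf x] ⁻¹' U) fun x hx =>
      (hUo.preimage (hhc.iterate (kf x))).mem_nhds (hkf x hx)
    refine ⟨t.sup kf, fun x hx => ?_⟩
    obtain ⟨y, hyt, hxy⟩ := Set.mem_iUnion₂.mp (ht hx)
    have hle : kf y ≤ t.sup kf := Finset.le_sup hyt
    obtain ⟨j, hj⟩ := Nat.exists_eq_add_of_le hle
    rw [hj, Nat.add_comm, Function.iterate_add_apply]
    exact hiterU _ hxy j
  -- uniform closeness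
  have c1 : IsCompact (g^[m * k₀] '' K) := hK.image (hgc.iterate _)
  have c2 : g^[m * k₀] '' K ⊆ U := by
    rintro _ ⟨x, hx, rfl⟩
    rw [Function.iterate_mul]
    exact hk₀ x hx
  obtain ⟨ε₁, hε₁, hε₁'⟩ := c1.exists_thickening_subset_open hUo c2
  have c3 : IsCompact (h '' K) := hK.image hhc
  have c4 : h '' K ⊆ interior K := by
    rintro _ ⟨x, hx, rfl⟩
    exact hKK x hx
  obtain ⟨ε₂, hε₂, hε₂'⟩ := c3.exists_thickening_subset_open isOpen_interior c4
  obtain ⟨η₁, hη₁, hη₁'⟩ := iter_close g hgc (m * k₀) ε₁ hε₁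
  obtain ⟨η₂, hη₂, hη₂'⟩ := iter_close g hgc m ε₂ hε₂
  set ε : ℝ := min ((1 - l) / 2) ((1 - l) * r) with hε
  have hεpos : 0 < ε := lt_min (by linarith) (mul_pos (by linarith) hr)
  obtain ⟨hcap, hsup, -, -⟩ := hNBD n M g
  have n1 := hC0C n M g (min η₁ η₂) hgc (lt_min hη₁ hη₂)
  have n2 := hITC n M g m e e Kb ε hg he he hKbc hKbs hKbm hεpos
  refine hsup _ _ (nbd_diffeo (hcap _ _ n1 n2)) ?_
  rintro g' ⟨hg', hd, hcr⟩
  simp only [Set.mem_ofPred_eq] at hd hcr
  set h' : M → M := g'^[m] with hh'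
  set F' : E n → E n := e ∘ h' ∘ e.symm with hF'def
  have hm' : MapsTo h' Kb e.source := hcr.1
  have hd0 : ∀ y ∈ B, ‖F' y - F y‖ < ε := by
    intro y hy
    have := hcr.2 (e.symm y) ⟨y, hy, rfl⟩ 0 (by norm_num)
    rwa [norm_sub_zero, e.right_inv (hB1 hy)] at this
  have hd1 : ∀ y ∈ B, ‖fderiv ℝ F' y - fderiv ℝ F y‖ < ε := by
    intro y hy
    have := hcr.2 (e.symm y) ⟨y, hy, rfl⟩ 1 (le_refl 1)
    rwa [norm_sub_one, e.right_inv (hB1 hy)] at this
  have hdF' : ∀ y ∈ B, DifferentiableAt ℝ F' y := by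
    intro y hy
    have hys : e.symm y ∈ e.source := e.map_target (hB1 hy)
    have := hcd g' m e e (e.symm y) hg' he he hys (hm' ⟨y, hy, rfl⟩)
    rw [e.right_inv (hB1 hy)] at this
    exact this.differentiableAt (by simp)
  have hbd : ∀ y ∈ B, ‖fderiv ℝ F' y‖ ≤ (1 + l) / 2 := by
    intro y hy
    have h1 := hd1 y hy
    have h2 := hB5 y hy
    have h3 : ‖fderiv ℝ F' y‖ ≤ ‖fderiv ℝ F' y - fderiv ℝ F y‖ + ‖fderiv ℝ F y‖ := by
      have := norm_add_le (fderiv ℝ F' y - fderiv ℝ F y) (fderiv ℝ F y)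
      rwa [sub_add_cancel] at this
    have h4 : ε ≤ (1 - l) / 2 := min_le_left _ _
    linarith
  have hmapB : ∀ y ∈ B, F' y ∈ B := by
    intro y hy
    have h1 := hd0 y hy
    have h2 := hFl y hy
    have h3 : ‖y - e p‖ ≤ r := by rw [← dist_eq_norm]; exact hy
    have h4 : ‖F' y - e p‖ ≤ ‖F' y - F y‖ + ‖F y - e p‖ := by
      have := norm_add_le (F' y - F y) (F y - e p)
      rwa [sub_add_sub_cancel] at this
    have h5 : ε ≤ (1 - l) * r := min_le_right _ _
    rw [hBdef, mem_closedBall, dist_eq_norm]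
    nlinarith
  obtain ⟨y', hy', hfix, hconv⟩ := contract F' (e p) r ((1 + l) / 2) hr.le (by linarith) hdF' hbd
    hmapB
  obtain ⟨dyn1, dyn2⟩ := chart_dyn e h' B hB1 hm' hmapB
  have hp'fix : h' (e.symm y') = e.symm y' := by
    have := (dyn2 (e.symm y') ⟨y', hy', rfl⟩ 1).1
    rw [Function.iterate_one, Function.iterate_one, e.right_inv (hB1 hy')] at this
    rw [this]
    exact congrArg e.symm hfix
  have hconvKb : ∀ x ∈ Kb, Tendsto (fun k : ℕ => h'^[k] x) atTop (𝓝 (e.symm y')) := by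
    rintro _ ⟨y, hy, rfl⟩
    have h1 := hconv y hy
    have h2 : Tendsto (fun k : ℕ => e.symm (F'^[k] y)) atTop (𝓝 (e.symm y')) :=
      (e.continuousAt_symm (hB1 hy')).tendsto.comp h1
    refine h2.congr fun k => ?_
    rw [(dyn2 (e.symm y) ⟨y, hy, rfl⟩ k).1, e.right_inv (hB1 hy)]
  refine ⟨?_, e.symm y', interior_subset (hB2 y' hy'), hp'fix, ?_⟩
  · intro x hx
    apply hε₂'
    rw [Metric.mem_thickening_iff]
    exact ⟨h x, ⟨x, hx, rfl⟩, hη₂' g' (fun z => (hd z).trans_le (min_le_right _ _)) x⟩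
  · intro x hx
    have h1 : g'^[m * k₀] x ∈ U := by
      apply hε₁'
      rw [Metric.mem_thickening_iff]
      exact ⟨g^[m * k₀] x, ⟨x, hx, rfl⟩,
        hη₁' g' (fun z => (hd z).trans_le (min_le_left _ _)) x⟩
    rw [Function.iterate_mul] at h1
    have h2 := hconvKb _ (hUKb h1)
    have h3 : Tendsto (fun k : ℕ => h'^[k + k₀] x) atTop (𝓝 (e.symm y')) := by
      refine h2.congr fun k => ?_
      rw [Function.iterate_add_apply]
    have h4 : Tendsto (fun k : ℕ => h'^[k] x) atTop (𝓝 (e.symm y')) :=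
      (tendsto_add_atTop_iff_nat k₀).mp h3
    refine h4.congr fun k => ?_
    rw [hh', ← Function.iterate_mul]

end Pool.Agent.Pal
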