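import Pool.Agent.Pal.Targets2
import Pool.Agent.Pal.LYAP

/-!
# PALR-SMALL: charts followed by linear maps, basins, the measure argument
-/

set_option autoImplicit false

open Set MeasureTheory Filter Topology Metric Asymptotics
open scoped Manifold ContDiff

namespace Pool.Agent.Pal

namespace SMALL_

/-- Linear isomorphisms are smooth changes of coordinates. -/
theorem lin_mem (n : ℕ) (S : E n ≃L[ℝ] E n) :
    S.toHomeomorph.toOpenPartialHomeomorph ∈ contDiffGroupoid ∞ 𝓘(ℝ, E n) := by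
  rw [contDiffGroupoid, mem_groupoid_of_pregroupoid]
  constructor
  · have : ContDiff ℝ ∞ (fun x : E n => S x) := S.contDiff
    exact this.contDiffOn
  · have : ContDiff ℝ ∞ (fun x : E n => S.symm x) := S.symm.contDiff
    refine this.contDiffOn.congr ?_
    intro x _
    rfl

end SMALL_

/-- A smooth chart followed by a linear isomorphism. -/
theorem chs : T_CHS := by
  intro n M _ _ _ e S he e' he'
  obtain ⟨h1, h2⟩ := mem_maximalAtlas_iff.1 he e' he'
  have ht := SMALL_.lin_mem n S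
  constructor
  · rw [OpenPartialHomeomorph.trans_symm_eq_symm_trans_symm, OpenPartialHomeomorph.trans_assoc]
    exact (contDiffGroupoid ∞ 𝓘(ℝ, E n)).trans ((contDiffGroupoid ∞ 𝓘(ℝ, E n)).symm ht) h1
  · rw [← OpenPartialHomeomorph.trans_assoc]
    exact (contDiffGroupoid ∞ 𝓘(ℝ, E n)).trans h2 ht

/-- The value at the orbit of the trap. -/
theorem lyap2 : T_LYAP2 := by
  intro M _ _ g m p K V hg _ hp hK hV _ hKK hlt x hx
  have := LYAP_.tendsto_trap (hg.iterate m) hp hK hV hKK hlt hx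
  refine this.congr fun j => ?_
  rw [← Function.iterate_mul]

/-- Points that enter `K` are in the basin of the orbit of the sink. -/
theorem bas : T_BAS := by
  intro M _ _ g m p K hg hm hp hlim x hx y hy
  obtain ⟨k₀, hk₀⟩ := hx
  set z : M := g^[k₀] x with hz
  have hlim : Tendsto (fun j : ℕ => (g^[m])^[j] z) atTop (𝓝 p) := by
    refine (hlim z hk₀).congr fun j => ?_
    rw [← Function.iterate_mul]
  have hfin : ({y | ∃ i < m, y = g^[i] p} : Set M).Finite := by
    refine (Set.Finite.image (fun i => g^[i] p) (Set.finite_lt_nat m)).subset ?_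
    rintro y ⟨i, hi, rfl⟩
    exact ⟨i, hi, rfl⟩
  have key : ∀ ε : ℝ, 0 < ε → ∀ᶠ k : ℕ in atTop, ∃ i < m, dist (g^[k] x) (g^[i] p) < ε := by
    intro ε hε
    have h1 : ∀ᶠ j : ℕ in atTop, ∀ i ∈ Finset.range m,
        dist (g^[i] ((g^[m])^[j] z)) (g^[i] p) < ε := by
      rw [Finset.eventually_all]
      intro i _
      have h2 : Tendsto (fun j : ℕ => g^[i] ((g^[m])^[j] z)) atTop (𝓝 (g^[i] p)) :=
        ((hg.iterate i).tendsto p).comp hlim
      exact (Metric.tendsto_nhds.mp h2) ε hε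
    obtain ⟨J, hJ⟩ := eventually_atTop.mp h1
    filter_upwards [eventually_ge_atTop (k₀ + m * J)] with k hk
    refine ⟨(k - k₀) % m, Nat.mod_lt _ hm, ?_⟩
    have h3 : J ≤ (k - k₀) / m := by
      rw [Nat.le_div_iff_mul_le hm, mul_comm]
      omega
    have h4 := hJ _ h3 ((k - k₀) % m) (Finset.mem_range.mpr (Nat.mod_lt _ hm))
    have h5 : g^[(k - k₀) % m] ((g^[m])^[(k - k₀) / m] z) = g^[k] x := by
      rw [← Function.iterate_mul, ← Function.iterate_add_apply, Nat.mod_add_div, hz,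
        ← Function.iterate_add_apply]
      congr 1
      omega
    rwa [h5] at h4
  have hcl : y ∈ closure {y | ∃ i < m, y = g^[i] p} := by
    rw [Metric.mem_closure_iff]
    intro ε hε
    have h1 : ∃ᶠ k : ℕ in atTop, g^[k] x ∈ ball y (ε / 2) :=
      mapClusterPt_iff_frequently.mp hy _ (ball_mem_nhds y (half_pos hε))
    obtain ⟨k, hk1, i, hi, hk2⟩ := (h1.and_eventually (key (ε / 2) (half_pos hε))).exists
    refine ⟨g^[i] p, ⟨i, hi, rfl⟩, ?_⟩
    rw [mem_ball, dist_comm] at hk1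
    calc dist y (g^[i] p) ≤ dist y (g^[k] x) + dist (g^[k] x) (g^[i] p) := dist_triangle _ _ _
      _ < ε / 2 + ε / 2 := add_lt_add hk1 hk2
      _ = ε := add_halves ε
  rwa [hfin.isClosed.closure_eq] at hcl

/-- Almost all points enter the trap. -/
theorem meas2 : T_MEAS2 := by
  intro M _ _ _ μ _ g' f g ψR ψG U B D θ δ hU hg hinv hB hD hf hR hG hJ hθ hδ hδ1 hprod
  have hm : MeasurableSet (Uᶜ) := hU.measurableSet.compl
  have hmf : MeasurableSet (f '' Uᶜ) := f.measurableEmbedding.measurableSet_image.2 hm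
  have hmR : MeasurableSet (ψR '' (f '' Uᶜ)) :=
    ψR.measurableEmbedding.measurableSet_image.2 hmf
  have himg : g' '' Uᶜ = Uᶜ := by
    ext y
    constructor
    · rintro ⟨x, hx, rfl⟩ h
      exact hx ((hinv x).1 h)
    · intro hy
      refine ⟨g'.symm y, ?_, g'.apply_symm_apply y⟩
      intro h
      have := (hinv (g'.symm y)).2 h
      rw [g'.apply_symm_apply] at this
      exact hy this
  have hgimg : g '' Uᶜ = ψG '' (ψR '' (f '' Uᶜ)) := by
    rw [image_image, image_image]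
    exact image_congr fun x _ => hg x
  have h1 : μ Uᶜ ≤ μ (ψR '' (f '' Uᶜ)) := by
    rw [← hf _ hm]
    refine hR _ hmf (Set.disjoint_left.2 ?_)
    rintro _ ⟨x, hx, rfl⟩ hb
    exact hx (hB x hb)
  have h2 := hG _ hmR (Set.disjoint_left.2 (by
    rintro _ ⟨_, ⟨x, hx, rfl⟩, rfl⟩ hd
    exact hx (hD x hd)))
  have h3 := hJ _ hm
  rw [himg, hgimg] at h3
  have h4 : ENNReal.ofReal ((1 - δ) * (1 + θ)) * μ Uᶜ ≤ μ Uᶜ := by
    rw [ENNReal.ofReal_mul (by linarith), mul_assoc]
    exact (mul_le_mul_right ((mul_le_mul_right h1 _).trans h2) _).trans h3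
  by_contra hne
  have hfin : μ Uᶜ ≠ ⊤ := measure_ne_top μ _
  have h5 : 1 < ENNReal.ofReal ((1 - δ) * (1 + θ)) := by
    rw [← ENNReal.ofReal_one]
    exact (ENNReal.ofReal_lt_ofReal_iff (by linarith)).2 hprod
  have h6 : 1 * μ Uᶜ < ENNReal.ofReal ((1 - δ) * (1 + θ)) * μ Uᶜ :=
    (ENNReal.mul_lt_mul_iff_left hne hfin).2 h5
  rw [one_mul] at h6
  exact absurd (h6.trans_le h4) (lt_irrefl _)

end Pool.Agent.Pal
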