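import Pool.Agent.Pal.Targets

/-!
# PAL-TAY: expansions of a map of the plane
-/

set_option autoImplicit false

open Set Filter Topology Metric Asymptotics

namespace Pool.Agent.Pal

namespace TAY_

/-! ## the spaces `Hom k` -/

theorem hom_zero (k : ℕ) : (0 : ℂ → ℂ) ∈ Hom k := ⟨fun _ => 0, fun z => by simp⟩

theorem hom_add {k : ℕ} {u v : ℂ → ℂ} (hu : u ∈ Hom k) (hv : v ∈ Hom k) : u + v ∈ Hom k := by
  obtain ⟨c, hc⟩ := hu
  obtain ⟨d, hd⟩ := hv
  refine ⟨fun i => c i + d i, fun z => ?_⟩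
  rw [Pi.add_apply, hc, hd, ← Finset.sum_add_distrib]
  refine Finset.sum_congr rfl fun i _ => ?_
  ring

theorem hom_smul {k : ℕ} {u : ℂ → ℂ} (a : ℂ) (hu : u ∈ Hom k) : (fun z => a * u z) ∈ Hom k := by
  obtain ⟨c, hc⟩ := hu
  refine ⟨fun i => a * c i, fun z => ?_⟩
  simp only [hc, Finset.mul_sum]
  refine Finset.sum_congr rfl fun i _ => ?_
  ring

theorem hom_sum {ι : Type*} {k : ℕ} (s : Finset ι) {u : ι → ℂ → ℂ} (hu : ∀ i ∈ s, u i ∈ Hom k) :
    (fun z => ∑ i ∈ s, u i z) ∈ Hom k := by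
  classical
  induction s using Finset.induction_on with
  | empty =>
    simp only [Finset.sum_empty]
    exact hom_zero k
  | insert a s ha ih =>
    have h1 := hu a (Finset.mem_insert_self a s)
    have h2 := ih (fun i hi => hu i (Finset.mem_insert_of_mem hi))
    have h3 := hom_add h1 h2
    refine (congrArg (· ∈ Hom k) ?_).mp h3
    funext z
    simp [Finset.sum_insert ha]

theorem hom_mono (i j : ℕ) (c : ℂ) :
    (fun z : ℂ => c * z ^ i * (starRingEnd ℂ z) ^ j) ∈ Hom (i + j) := by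
  refine ⟨fun m => if m = i then c else 0, fun z => ?_⟩
  rw [Finset.sum_eq_single i]
  · simp
  · intro b _ hb
    simp [hb]
  · intro h
    exact absurd (Finset.mem_range.2 (by omega)) h

theorem hom_mul {k l : ℕ} {u v : ℂ → ℂ} (hu : u ∈ Hom k) (hv : v ∈ Hom l) :
    (fun z => u z * v z) ∈ Hom (k + l) := by
  obtain ⟨c, hc⟩ := hu
  obtain ⟨d, hd⟩ := hv
  have e : (fun z => u z * v z) = fun z => ∑ i ∈ Finset.range (k + 1),
      ∑ j ∈ Finset.range (l + 1), (c i * d j) * z ^ (i + j) *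
        (starRingEnd ℂ z) ^ ((k - i) + (l - j)) := by
    funext z
    rw [hc, hd, Finset.sum_mul_sum]
    refine Finset.sum_congr rfl fun i _ => Finset.sum_congr rfl fun j _ => ?_
    rw [pow_add, pow_add]
    ring
  rw [e]
  refine hom_sum _ fun i hi => ?_
  refine hom_sum _ fun j hj => ?_
  rw [Finset.mem_range] at hi hj
  have h := hom_mono (i + j) ((k - i) + (l - j)) (c i * d j)
  rwa [show i + j + ((k - i) + (l - j)) = k + l by omega] at h

theorem hom_conj {k : ℕ} {u : ℂ → ℂ} (hu : u ∈ Hom k) :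
    (fun z => starRingEnd ℂ (u z)) ∈ Hom k := by
  obtain ⟨c, hc⟩ := hu
  have e : (fun z => starRingEnd ℂ (u z)) = fun z => ∑ i ∈ Finset.range (k + 1),
      (starRingEnd ℂ (c i)) * z ^ (k - i) * (starRingEnd ℂ z) ^ i := by
    funext z
    rw [hc, map_sum]
    refine Finset.sum_congr rfl fun i _ => ?_
    simp only [map_mul, map_pow, Complex.conj_conj]
    ring
  rw [e]
  refine hom_sum _ fun i hi => ?_
  rw [Finset.mem_range] at hi
  have h := hom_mono (k - i) i (starRingEnd ℂ (c i))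
  rwa [show k - i + i = k by omega] at h

theorem hom_pow {k : ℕ} {u : ℂ → ℂ} (hu : u ∈ Hom k) (n : ℕ) : (fun z => u z ^ n) ∈ Hom (n * k) := by
  induction n with
  | zero =>
    have h := hom_mono 0 0 1
    simpa using h
  | succ n ih =>
    have h := hom_mul ih hu
    simp only [pow_succ]
    rwa [show (n + 1) * k = n * k + k by ring]

theorem hom_bound {k : ℕ} {u : ℂ → ℂ} (hu : u ∈ Hom k) : ∃ C : ℝ, ∀ z, ‖u z‖ ≤ C * ‖z‖ ^ k := by
  obtain ⟨c, hc⟩ := hu
  refine ⟨∑ i ∈ Finset.range (k + 1), ‖c i‖, fun z => ?_⟩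
  rw [hc, Finset.sum_mul]
  refine (norm_sum_le _ _).trans (Finset.sum_le_sum fun i hi => ?_)
  rw [Finset.mem_range] at hi
  rw [norm_mul, norm_mul, norm_pow, norm_pow, Complex.norm_conj, mul_assoc, ← pow_add,
    show i + (k - i) = k by omega]

theorem hom_re : (fun z : ℂ => ((z.re : ℝ) : ℂ)) ∈ Hom 1 := by
  have h := hom_add (hom_mono 1 0 (1 / 2)) (hom_mono 0 1 (1 / 2))
  refine (congrArg (· ∈ Hom 1) ?_).mp h
  funext z
  simp only [Pi.add_apply, pow_one, pow_zero, mul_one]
  rw [Complex.re_eq_add_conj]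
  ring

theorem hom_im : (fun z : ℂ => ((z.im : ℝ) : ℂ)) ∈ Hom 1 := by
  have h := hom_add (hom_mono 1 0 (1 / (2 * Complex.I))) (hom_mono 0 1 (-(1 / (2 * Complex.I))))
  refine (congrArg (· ∈ Hom 1) ?_).mp h
  funext z
  simp only [Pi.add_apply, pow_one, pow_zero, mul_one]
  rw [Complex.im_eq_sub_conj]
  ring

/-! ## homogeneous maps with values in a normed space -/

/-- homogeneous polynomial maps of degree `k` -/
def HF (F : Type) [NormedAddCommGroup F] [NormedSpace ℝ F] (k : ℕ) : AddSubmonoid (ℂ → F) :=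
  AddSubmonoid.closure {u | ∃ (i j : ℕ) (c : F), i + j = k ∧ u = fun z => (z.re ^ i * z.im ^ j) • c}

variable {F : Type} [NormedAddCommGroup F] [NormedSpace ℝ F]

theorem hf_mono (i j : ℕ) (c : F) : (fun z : ℂ => (z.re ^ i * z.im ^ j) • c) ∈ HF F (i + j) :=
  AddSubmonoid.subset_closure ⟨i, j, c, rfl, rfl⟩

theorem hf_apply {k : ℕ} {p : ℂ → (ℂ →L[ℝ] F)} (hp : p ∈ HF (ℂ →L[ℝ] F) k) (a : ℝ) :
    (fun z => a • (p z z)) ∈ HF F (k + 1) := by
  induction hp using AddSubmonoid.closure_induction with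
  | mem u hu =>
    obtain ⟨i, j, c, hij, rfl⟩ := hu
    have h1 := hf_mono (i + 1) j (a • c 1)
    have h2 := hf_mono i (j + 1) (a • c Complex.I)
    rw [show i + 1 + j = k + 1 by omega] at h1
    rw [show i + (j + 1) = k + 1 by omega] at h2
    refine (congrArg (· ∈ HF F (k + 1)) ?_).mp (add_mem h1 h2)
    funext z
    have hz : c z = z.re • c 1 + z.im • c Complex.I := by
      conv_lhs => rw [show z = z.re • (1 : ℂ) + z.im • Complex.I by
        apply Complex.ext <;> simp]
      rw [map_add, map_smul, map_smul]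
    simp only [Pi.add_apply, _root_.smul_apply, hz, smul_add, smul_smul]
    congr 1
    · congr 1; ring
    · congr 1; ring
  | zero =>
    refine (congrArg (· ∈ HF F (k + 1)) ?_).mp (zero_mem _)
    funext z
    simp
  | add u v _ _ h1 h2 =>
    refine (congrArg (· ∈ HF F (k + 1)) ?_).mp (add_mem h1 h2)
    funext z
    simp [smul_add]

theorem hf_hom {k : ℕ} {p : ℂ → F} (hp : p ∈ HF F k) (t : ℝ) (z : ℂ) : p (t • z) = t ^ k • p z := by
  induction hp using AddSubmonoid.closure_induction with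
  | mem u hu =>
    obtain ⟨i, j, c, hij, rfl⟩ := hu
    simp only [Complex.smul_re, Complex.smul_im, smul_eq_mul, smul_smul]
    congr 1
    rw [← hij, mul_pow, mul_pow, pow_add]
    ring
  | zero => simp
  | add u v _ _ h1 h2 => rw [Pi.add_apply, Pi.add_apply, h1, h2, smul_add]

theorem hf_to_hom {k : ℕ} {p : ℂ → ℂ} (hp : p ∈ HF ℂ k) : p ∈ Hom k := by
  induction hp using AddSubmonoid.closure_induction with
  | mem u hu =>
    obtain ⟨i, j, c, hij, rfl⟩ := hu
    have h := hom_smul c (hom_mul (hom_pow hom_re i) (hom_pow hom_im j))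
    rw [show i * 1 + j * 1 = k by omega] at h
    refine (congrArg (· ∈ Hom k) ?_).mp h
    funext z
    rw [Complex.real_smul]
    push_cast
    ring
  | zero => exact hom_zero k
  | add u v _ _ h1 h2 => exact hom_add h1 h2

theorem tayF (r : ℕ) : ∀ (F : Type) [NormedAddCommGroup F] [NormedSpace ℝ F] (f : ℂ → F),
    ContDiffAt ℝ r f 0 → ∃ u : ℕ → ℂ → F, (∀ k, u k ∈ HF F k) ∧
      (fun z => f z - ∑ k ∈ Finset.range (r + 1), u k z) =o[𝓝 0] (fun z => ‖z‖ ^ r) := by
  induction r with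
  | zero =>
    intro F _ _ f hf
    refine ⟨fun k => if k = 0 then fun _ => f 0 else 0, fun k => ?_, ?_⟩
    · by_cases hk : k = 0
      · subst hk
        simpa using hf_mono (F := F) 0 0 (f 0)
      · simp only [hk, if_false]
        exact zero_mem _
    · simp only [zero_add, Finset.range_one, Finset.sum_singleton, if_true, pow_zero]
      rw [isLittleO_one_iff]
      have h := hf.continuousAt
      have h2 : Tendsto (fun z => f z - f 0) (𝓝 0) (𝓝 (f 0 - f 0)) :=
        h.tendsto.sub tendsto_const_nhds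
      simpa using h2
  | succ r ih =>
    intro F _ _ f hf
    have hf2 : ContDiffAt ℝ ((r : ℕ∞) + 1 : ℕ∞) f 0 := by exact_mod_cast hf
    have hf3 : ContDiffAt ℝ ((r : WithTop ℕ∞) + 1) f 0 := by exact_mod_cast hf
    rw [contDiffAt_succ_iff_hasFDerivAt] at hf3
    obtain ⟨f', ⟨W, hW, hWd⟩, hf'⟩ := hf3
    obtain ⟨u', hu', ho⟩ := ih _ f' hf'
    refine ⟨fun k => Nat.casesOn k (fun _ => f 0) (fun k => fun z => (1 / ((k : ℝ) + 1)) • (u' k z z)),
      ?_, ?_⟩
    · rintro (_ | k)
      · simpa using hf_mono (F := F) 0 0 (f 0)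
      · exact hf_apply (hu' k) _
    · rw [isLittleO_iff]
      intro c hc
      have h1 := (isLittleO_iff.1 ho) hc
      obtain ⟨δ, hδ, hb⟩ := Metric.mem_nhds_iff.1 (inter_mem h1 hW)
      filter_upwards [Metric.ball_mem_nhds (0 : ℂ) hδ] with z hz
      rw [Finset.sum_range_succ']
      show ‖f z - (∑ k ∈ Finset.range (r + 1), (1 / ((k : ℝ) + 1)) • (u' k z z) + f 0)‖ ≤
        c * ‖‖z‖ ^ (r + 1)‖
      have hzt : ∀ t ∈ Icc (0 : ℝ) 1, t • z ∈ Metric.ball (0 : ℂ) δ := by
        intro t ht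
        rw [mem_ball_zero_iff] at hz ⊢
        rw [norm_smul, Real.norm_eq_abs, abs_of_nonneg ht.1]
        calc t * ‖z‖ ≤ 1 * ‖z‖ := mul_le_mul_of_nonneg_right ht.2 (norm_nonneg _)
          _ < δ := by rw [one_mul]; exact hz
      have key := norm_image_sub_le_of_norm_deriv_le_segment_01'
        (f := fun t : ℝ => f (t • z) - ∑ k ∈ Finset.range (r + 1),
          (t ^ (k + 1) / ((k : ℝ) + 1)) • (u' k z z))
        (f' := fun t : ℝ => f' (t • z) z - ∑ k ∈ Finset.range (r + 1), t ^ k • (u' k z z))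
        (C := c * ‖z‖ ^ (r + 1)) ?_ ?_
      · have e : f z - (∑ k ∈ Finset.range (r + 1), (1 / ((k : ℝ) + 1)) • (u' k z z) + f 0) =
            (f ((1 : ℝ) • z) - ∑ k ∈ Finset.range (r + 1),
              ((1 : ℝ) ^ (k + 1) / ((k : ℝ) + 1)) • (u' k z z)) -
            (f ((0 : ℝ) • z) - ∑ k ∈ Finset.range (r + 1),
              ((0 : ℝ) ^ (k + 1) / ((k : ℝ) + 1)) • (u' k z z)) := by
          simp
          abel
        rw [e]
        refine key.trans (le_of_eq ?_)
        rw [Real.norm_eq_abs, abs_of_nonneg (by positivity)]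
      · intro t ht
        refine HasDerivAt.hasDerivWithinAt ?_
        refine HasDerivAt.sub ?_ ?_
        · have hd := (hb (hzt t ht)).2
          have h2 := hWd _ hd
          have h3 : HasDerivAt (fun t : ℝ => t • z) z t := by
            simpa using (hasDerivAt_id t).smul_const z
          exact h2.comp_hasDerivAt t h3
        · refine HasDerivAt.fun_sum fun k _ => ?_
          have h4 : HasDerivAt (fun t : ℝ => t ^ (k + 1) / ((k : ℝ) + 1)) (t ^ k) t := by
            have := (hasDerivAt_pow (k + 1) t).div_const ((k : ℝ) + 1)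
            refine this.congr_deriv ?_
            have : ((k : ℝ) + 1) ≠ 0 := by positivity
            push_cast
            field_simp
          exact h4.smul_const _
      · intro t ht
        have ht' : t ∈ Icc (0 : ℝ) 1 := ⟨ht.1, ht.2.le⟩
        have h5 := (hb (hzt t ht')).1
        change ‖f' (t • z) - ∑ k ∈ Finset.range (r + 1), u' k (t • z)‖ ≤ c * ‖‖t • z‖ ^ r‖ at h5
        have e2 : f' (t • z) z - ∑ k ∈ Finset.range (r + 1), t ^ k • (u' k z z) =
            (f' (t • z) - ∑ k ∈ Finset.range (r + 1), u' k (t • z)) z := by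
          rw [_root_.sub_apply, _root_.sum_apply]
          congr 1
          refine Finset.sum_congr rfl fun k _ => ?_
          rw [hf_hom (hu' k) t z, _root_.smul_apply]
        rw [e2]
        refine (ContinuousLinearMap.le_opNorm _ _).trans ?_
        rw [pow_succ, ← mul_assoc]
        refine mul_le_mul_of_nonneg_right (h5.trans ?_) (norm_nonneg _)
        rw [Real.norm_eq_abs, abs_of_nonneg (by positivity)]
        refine mul_le_mul_of_nonneg_left ?_ hc.le
        refine pow_le_pow_left₀ (norm_nonneg _) ?_ _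
        rw [norm_smul, Real.norm_eq_abs, abs_of_nonneg ht.1]
        calc t * ‖z‖ ≤ 1 * ‖z‖ := mul_le_mul_of_nonneg_right ht.2.le (norm_nonneg _)
          _ = ‖z‖ := one_mul _

end TAY_

open TAY_

theorem tay : T_TAY := by
  intro r Φ h
  obtain ⟨u, h1, h2⟩ := tayF r ℂ Φ h
  exact ⟨u, fun k => hf_to_hom (h1 k), h2⟩

end Pool.Agent.Pal
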