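import Pool.Agent.Pal.Targets

/-!
# PAL-TRANS: transport of volume along a segment
-/

set_option autoImplicit false

open Set MeasureTheory Filter Topology Metric Asymptotics
open scoped Manifold ContDiff InnerProductSpace

namespace Pool.Agent.Pal

namespace TRANS_

/-- the bump function on the line -/
noncomputable def bR (s : ℝ) (hs : 0 < s) : ContDiffBump (0 : ℝ) :=
  ⟨s / 4, s / 2, by positivity, by linarith⟩

/-- the bump function on the space -/
noncomputable def bE (n : ℕ) (s : ℝ) (hs : 0 < s) : ContDiffBump (0 : E n) :=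
  ⟨s / 4, s / 2, by positivity, by linarith⟩

/-- the primitive of the bump function -/
noncomputable def gP (s : ℝ) (hs : 0 < s) (x : ℝ) : ℝ := ∫ t in (-s)..x, bR s hs t

lemma bR_zero {s : ℝ} (hs : 0 < s) {t : ℝ} (ht : s / 2 ≤ |t|) : bR s hs t = 0 := by
  apply (bR s hs).zero_of_le_dist
  rw [Real.dist_eq, sub_zero]
  exact ht

lemma bR_one {s : ℝ} (hs : 0 < s) {t : ℝ} (ht : |t| ≤ s / 4) : bR s hs t = 1 := by
  apply (bR s hs).one_of_mem_closedBall
  rw [mem_closedBall, Real.dist_eq, sub_zero]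
  exact ht

lemma gP_deriv {s : ℝ} (hs : 0 < s) (x : ℝ) : HasDerivAt (gP s hs) (bR s hs x) x :=
  ((bR s hs).continuous.integral_hasStrictDerivAt (-s) x).hasDerivAt

lemma gP_smooth {s : ℝ} (hs : 0 < s) : ContDiff ℝ ∞ (gP s hs) := by
  rw [contDiff_infty_iff_deriv]
  refine ⟨fun x => (gP_deriv hs x).differentiableAt, ?_⟩
  have : deriv (gP s hs) = fun x => bR s hs x := by
    funext x
    exact (gP_deriv hs x).deriv
  rw [this]
  exact (bR s hs).contDiff

lemma gP_left {s : ℝ} (hs : 0 < s) {x : ℝ} (hx : x ≤ -s / 2) : gP s hs x = 0 := by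
  unfold gP
  rw [intervalIntegral.integral_congr (g := fun _ => (0 : ℝ))]
  · simp
  · intro t ht
    apply bR_zero
    have h2 : t ≤ max (-s) x := ht.2
    have h3 : t ≤ -s / 2 := h2.trans (max_le (by linarith) hx)
    rw [abs_of_nonpos (by linarith)]
    linarith

lemma gP_right {s : ℝ} (hs : 0 < s) {x : ℝ} (hx : s / 2 ≤ x) : gP s hs x = gP s hs (s / 2) := by
  unfold gP
  have hi : ∀ a b : ℝ, IntervalIntegrable (fun t => bR s hs t) volume a b := fun a b =>
    (bR s hs).continuous.intervalIntegrable a b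
  rw [← intervalIntegral.integral_add_adjacent_intervals (hi (-s) (s / 2)) (hi (s / 2) x)]
  have : ∫ t in (s / 2)..x, bR s hs t = 0 := by
    rw [intervalIntegral.integral_congr (g := fun _ => (0 : ℝ))]
    · simp
    · intro t ht
      apply bR_zero
      rw [uIcc_of_le hx] at ht
      exact ht.1.trans (le_abs_self t)
  rw [this, add_zero]

/-- the profile along the segment -/
noncomputable def hh (s : ℝ) (hs : 0 < s) (l : ℝ) (x : ℝ) : ℝ := gP s hs x - gP s hs (x - l)

lemma hh_zero {s : ℝ} (hs : 0 < s) {l x : ℝ} (hl : 0 ≤ l) (hx : x ≤ -s / 2 ∨ l + s / 2 ≤ x) :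
    hh s hs l x = 0 := by
  rcases hx with h | h
  · rw [hh, gP_left hs h, gP_left hs (by linarith), sub_zero]
  · rw [hh, gP_right hs (x := x) (by linarith), gP_right hs (x := x - l) (by linarith), sub_self]

variable {n : ℕ}

/-- the coordinate along the segment -/
noncomputable def tau (y₀ u : E n) (y : E n) : ℝ := ⟪u, y - y₀⟫_ℝ

/-- the orthogonal part -/
noncomputable def ww (y₀ u : E n) (y : E n) : E n := (y - y₀) - tau y₀ u y • u

/-- the displacement -/
noncomputable def FF (s : ℝ) (hs : 0 < s) (l : ℝ) (y₀ u : E n) (y : E n) : ℝ :=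
  bE n s hs (ww y₀ u y) * hh s hs l (tau y₀ u y)

lemma tau_smooth (y₀ u : E n) : ContDiff ℝ ∞ (tau y₀ u) :=
  contDiff_const.inner ℝ (contDiff_id.sub contDiff_const)

lemma ww_smooth (y₀ u : E n) : ContDiff ℝ ∞ (ww y₀ u) :=
  (contDiff_id.sub contDiff_const).sub ((tau_smooth y₀ u).smul contDiff_const)

lemma FF_smooth (s : ℝ) (hs : 0 < s) (l : ℝ) (y₀ u : E n) : ContDiff ℝ ∞ (FF s hs l y₀ u) := by
  have h1 : ContDiff ℝ ∞ (fun y => bE n s hs (ww y₀ u y)) :=
    (bE n s hs).contDiff.comp (ww_smooth y₀ u)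
  have h2 : ContDiff ℝ ∞ (hh s hs l) :=
    (gP_smooth hs).sub ((gP_smooth hs).comp (contDiff_id.sub contDiff_const))
  exact h1.mul (h2.comp (tau_smooth y₀ u))

lemma bE_supp {s : ℝ} (hs : 0 < s) {w : E n} (hw : bE n s hs w ≠ 0) : ‖w‖ < s / 2 := by
  have : w ∈ Function.support (bE n s hs) := hw
  rw [(bE n s hs).support_eq, mem_ball_zero_iff] at this
  exact this

lemma decomp (y₀ u : E n) (y : E n) (t : ℝ) :
    y - (y₀ + t • u) = ww y₀ u y + (tau y₀ u y - t) • u := by
  rw [ww, sub_smul]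
  abel

lemma dist_le {s : ℝ} {y₀ u : E n} (hu : ‖u‖ = 1) {y : E n} {t : ℝ}
    (h1 : ‖ww y₀ u y‖ < s / 2) (h2 : |tau y₀ u y - t| ≤ s / 2) :
    dist y (y₀ + t • u) ≤ s := by
  rw [dist_eq_norm, decomp]
  calc ‖ww y₀ u y + (tau y₀ u y - t) • u‖ ≤ ‖ww y₀ u y‖ + ‖(tau y₀ u y - t) • u‖ :=
        norm_add_le _ _
    _ ≤ s / 2 + s / 2 := by
        rw [norm_smul, hu, mul_one, Real.norm_eq_abs]
        linarith
    _ = s := by ring

lemma FF_zero {s : ℝ} (hs : 0 < s) {l : ℝ} (hl : 0 < l) {y₀ u : E n} (hu : ‖u‖ = 1) {y : E n}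
    (hy : y ∉ cthickening s (segment ℝ y₀ (y₀ + l • u))) : FF s hs l y₀ u y = 0 := by
  by_contra hF
  apply hy
  have h1 : ‖ww y₀ u y‖ < s / 2 := bE_supp hs (left_ne_zero_of_mul hF)
  have h2 : hh s hs l (tau y₀ u y) ≠ 0 := right_ne_zero_of_mul hF
  have h3 : -s / 2 < tau y₀ u y ∧ tau y₀ u y < l + s / 2 := by
    constructor
    · by_contra h
      exact h2 (hh_zero hs hl.le (Or.inl (not_lt.1 h)))
    · by_contra h
      exact h2 (hh_zero hs hl.le (Or.inr (not_lt.1 h)))
  obtain ⟨t, ht0, htl, ht⟩ : ∃ t, 0 ≤ t ∧ t ≤ l ∧ |tau y₀ u y - t| ≤ s / 2 := by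
    rcases le_total (tau y₀ u y) 0 with h | h
    · exact ⟨0, le_rfl, hl.le, by rw [sub_zero, abs_of_nonpos h]; linarith⟩
    · rcases le_total (tau y₀ u y) l with h' | h'
      · exact ⟨tau y₀ u y, h, h', by rw [sub_self, abs_zero]; linarith⟩
      · exact ⟨l, hl.le, le_rfl, by rw [abs_of_nonneg (by linarith)]; linarith⟩
  refine mem_cthickening_of_dist_le y (y₀ + t • u) s _ ?_ (dist_le hu h1 ht)
  rw [segment_eq_image']
  refine ⟨t / l, ⟨by positivity, (div_le_one hl).2 htl⟩, ?_⟩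
  simp only [add_sub_cancel_left, smul_smul]
  rw [div_mul_cancel₀ _ hl.ne']

lemma tau_add (y₀ u : E n) (hu : ‖u‖ = 1) (y : E n) (t : ℝ) :
    tau y₀ u (y + t • u) = tau y₀ u y + t := by
  rw [tau, tau, add_sub_right_comm, inner_add_right, inner_smul_right,
    real_inner_self_eq_norm_sq, hu]
  ring

lemma ww_add (y₀ u : E n) (hu : ‖u‖ = 1) (y : E n) (t : ℝ) :
    ww y₀ u (y + t • u) = ww y₀ u y := by
  rw [ww, ww, tau_add y₀ u hu, add_smul]
  abel

lemma FF_deriv {s : ℝ} (hs : 0 < s) (l : ℝ) {y₀ u : E n} (hu : ‖u‖ = 1) (y : E n) :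
    fderiv ℝ (FF s hs l y₀ u) y u =
      bE n s hs (ww y₀ u y) * (bR s hs (tau y₀ u y) - bR s hs (tau y₀ u y - l)) := by
  have hd : DifferentiableAt ℝ (FF s hs l y₀ u) y :=
    (FF_smooth s hs l y₀ u).differentiable (by simp) y
  rw [← hd.lineDeriv_eq_fderiv, lineDeriv]
  have e : (fun t : ℝ => FF s hs l y₀ u (y + t • u)) = fun t : ℝ =>
      bE n s hs (ww y₀ u y) * (gP s hs (tau y₀ u y + t) - gP s hs (tau y₀ u y + t - l)) := by
    funext t
    rw [FF, tau_add y₀ u hu, ww_add y₀ u hu, hh]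
  rw [e]
  have h1 : HasDerivAt (fun t : ℝ => gP s hs (tau y₀ u y + t)) (bR s hs (tau y₀ u y)) 0 := by
    have h := gP_deriv hs (tau y₀ u y + 0)
    have h' := h.comp_const_add (tau y₀ u y) 0
    rwa [add_zero] at h'
  have h2 : HasDerivAt (fun t : ℝ => gP s hs (tau y₀ u y + t - l))
      (bR s hs (tau y₀ u y - l)) 0 := by
    have h := gP_deriv hs ((tau y₀ u y - l) + 0)
    have h' := h.comp_const_add (tau y₀ u y - l) 0
    rw [add_zero] at h'
    convert! h' using 2
    ring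
  exact ((h1.sub h2).const_mul _).deriv

/-- the transport -/
noncomputable def TT (s : ℝ) (hs : 0 < s) (l : ℝ) (y₀ u : E n) (κ : ℝ) (y : E n) : E n :=
  y + κ • (FF s hs l y₀ u y • u)

lemma TT_det {s : ℝ} (hs : 0 < s) (l : ℝ) {y₀ u : E n} (hu : ‖u‖ = 1) (κ : ℝ) (y : E n) :
    (fderiv ℝ (TT s hs l y₀ u κ) y).det =
      1 + κ * (bE n s hs (ww y₀ u y) * (bR s hs (tau y₀ u y) - bR s hs (tau y₀ u y - l))) := by
  have hd : DifferentiableAt ℝ (FF s hs l y₀ u) y :=
    (FF_smooth s hs l y₀ u).differentiable (by simp) y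
  have h1 : HasFDerivAt (TT s hs l y₀ u κ)
      (ContinuousLinearMap.id ℝ (E n) + κ • ((fderiv ℝ (FF s hs l y₀ u) y).smulRight u)) y :=
    (hasFDerivAt_id y).add ((hd.hasFDerivAt.smul_const u).const_smul κ)
  rw [h1.fderiv, ← FF_deriv hs l hu y]
  have h2 := LinearMap.transvection.det (R := ℝ) (V := E n)
    (κ • (fderiv ℝ (FF s hs l y₀ u) y : E n →ₗ[ℝ] ℝ)) u
  have h3 : ((ContinuousLinearMap.id ℝ (E n) +
      κ • ((fderiv ℝ (FF s hs l y₀ u) y).smulRight u) : E n →L[ℝ] E n) : E n →ₗ[ℝ] E n) =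
      LinearMap.transvection (κ • (fderiv ℝ (FF s hs l y₀ u) y : E n →ₗ[ℝ] ℝ)) u := by
    apply LinearMap.ext
    intro x
    simp [LinearMap.transvection, smul_smul]
  rw [ContinuousLinearMap.det, h3, h2]
  simp

lemma norm_ww_le {y₀ u : E n} (hu : ‖u‖ = 1) (y : E n) : ‖ww y₀ u y‖ ≤ ‖y - y₀‖ := by
  have h1 : ‖ww y₀ u y‖ ^ 2 = ‖y - y₀‖ ^ 2 - (tau y₀ u y) ^ 2 := by
    rw [ww, norm_sub_sq_real, inner_smul_right, norm_smul, hu, real_inner_comm, ← tau]
    rw [mul_one, Real.norm_eq_abs, sq_abs]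
    ring
  apply le_of_sq_le_sq _ (norm_nonneg _)
  rw [h1]
  nlinarith [sq_nonneg (tau y₀ u y)]

lemma abs_tau_le {y₀ u : E n} (hu : ‖u‖ = 1) (y : E n) : |tau y₀ u y| ≤ ‖y - y₀‖ := by
  have := abs_real_inner_le_norm u (y - y₀)
  rwa [hu, one_mul] at this

end TRANS_

open TRANS_

theorem trans1 : T_TRANS := by
  intro n y₀ y₁ s hs hl2
  set l : ℝ := ‖y₁ - y₀‖ with hl
  have hl2' : 2 * s ≤ l := by rw [hl, norm_sub_rev]; exact hl2
  have hl0 : 0 < l := by linarith
  set u : E n := l⁻¹ • (y₁ - y₀) with hu'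
  have hu : ‖u‖ = 1 := by
    rw [hu', norm_smul, norm_inv, Real.norm_eq_abs, abs_of_pos hl0, ← hl]
    exact inv_mul_cancel₀ hl0.ne'
  have hy1 : y₁ = y₀ + l • u := by
    rw [hu', smul_smul, mul_inv_cancel₀ hl0.ne', one_smul]
    abel
  have hcpt : IsCompact (cthickening s (segment ℝ y₀ y₁)) := by
    apply IsCompact.cthickening
    rw [segment_eq_image']
    exact isCompact_Icc.image (by fun_prop)
  have hF0 : ∀ y, y ∉ cthickening s (segment ℝ y₀ y₁) → FF s hs l y₀ u y = 0 := by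
    intro y hy
    apply FF_zero hs hl0 hu
    rw [← hy1]
    exact hy
  refine ⟨TT s hs l y₀ u, ?_, ?_, ?_⟩
  · intro κ
    have h1 : ContDiff ℝ ∞ (fun y => FF s hs l y₀ u y • u) :=
      (FF_smooth s hs l y₀ u).smul contDiff_const
    refine ⟨contDiff_id.add (h1.const_smul κ), fun y hy => ?_⟩
    rw [TT, hF0 y hy, zero_smul, smul_zero, add_zero]
  · intro κ hκ y
    rw [TT_det hs l hu]
    have c0 : 0 ≤ bE n s hs (ww y₀ u y) := (bE n s hs).nonneg
    have c1 : bE n s hs (ww y₀ u y) ≤ 1 := (bE n s hs).le_one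
    have b0 : 0 ≤ bR s hs (tau y₀ u y) := (bR s hs).nonneg
    have b0' : 0 ≤ bR s hs (tau y₀ u y - l) := (bR s hs).nonneg
    have b1' : bR s hs (tau y₀ u y - l) ≤ 1 := (bR s hs).le_one
    refine ⟨fun hy => ?_, fun hy => ?_, ?_⟩
    · have h0 : bE n s hs (ww y₀ u y) * bR s hs (tau y₀ u y - l) = 0 := by
        by_contra h
        apply hy
        have h1 : ‖ww y₀ u y‖ < s / 2 := bE_supp hs (left_ne_zero_of_mul h)
        have h2 : |tau y₀ u y - l| ≤ s / 2 := by
          by_contra h2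
          exact right_ne_zero_of_mul h (bR_zero hs (not_le.1 h2).le)
        rw [mem_closedBall, hy1]
        exact dist_le hu h1 h2
      have h3 : 0 ≤ bE n s hs (ww y₀ u y) * bR s hs (tau y₀ u y) := mul_nonneg c0 b0
      have h4 : 0 ≤ κ * (bE n s hs (ww y₀ u y) *
          (bR s hs (tau y₀ u y) - bR s hs (tau y₀ u y - l))) := by
        apply mul_nonneg hκ
        rw [mul_sub, h0, sub_zero]
        exact h3
      linarith
    · rw [mem_ball, dist_eq_norm] at hy
      have h1 : |tau y₀ u y| ≤ s / 4 := (abs_tau_le hu y).trans hy.le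
      have h2 : bE n s hs (ww y₀ u y) = 1 := by
        apply (bE n s hs).one_of_mem_closedBall
        rw [mem_closedBall_zero_iff]
        exact (norm_ww_le hu y).trans hy.le
      have h3 : bR s hs (tau y₀ u y) = 1 := bR_one hs h1
      have h4 : bR s hs (tau y₀ u y - l) = 0 := by
        apply bR_zero
        have := (abs_le.1 h1).2
        rw [abs_of_nonpos (by linarith)]
        linarith
      rw [h2, h3, h4]
      linarith
    · have h1 : -1 ≤ bE n s hs (ww y₀ u y) *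
          (bR s hs (tau y₀ u y) - bR s hs (tau y₀ u y - l)) := by nlinarith
      nlinarith
  · intro r δ hδ
    set G : E n → E n := fun z => FF s hs l y₀ u z • u with hG
    have hGs : ContDiff ℝ ∞ G := (FF_smooth s hs l y₀ u).smul contDiff_const
    have hGc : HasCompactSupport G := by
      apply HasCompactSupport.intro hcpt
      intro y hy
      rw [hG]
      simp only [hF0 y hy, zero_smul]
    have hb : ∀ j : ℕ, ∃ B : ℝ, ∀ y, ‖iteratedFDeriv ℝ j G y‖ ≤ B := by
      intro j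
      have h1 : Continuous (iteratedFDeriv ℝ j G) := hGs.continuous_iteratedFDeriv (by
        exact_mod_cast le_top)
      exact h1.bounded_above_of_compact_support (hGc.iteratedFDeriv j)
    choose B hB using hb
    have hB0 : ∀ j, 0 ≤ B j := fun j => (norm_nonneg _).trans (hB j 0)
    set S : ℝ := 1 + ∑ j ∈ Finset.range (r + 1), B j with hS
    have hS0 : 0 < S := by
      have : 0 ≤ ∑ j ∈ Finset.range (r + 1), B j := Finset.sum_nonneg fun j _ => hB0 j
      linarith
    refine ⟨δ / S, div_pos hδ hS0, fun κ hκ0 hκ j hj y => ?_⟩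
    have e1 : (fun z => TT s hs l y₀ u κ z - z) = κ • G := by
      funext z
      simp only [TT, hG, Pi.smul_apply, add_sub_cancel_left]
    rw [e1, iteratedFDeriv_const_smul_apply (hGs.of_le (by exact_mod_cast le_top)).contDiffAt,
      norm_smul, Real.norm_eq_abs, abs_of_nonneg hκ0]
    have h2 : B j ≤ S := by
      have := Finset.single_le_sum (f := B) (fun j _ => hB0 j)
        (Finset.mem_range.2 (Nat.lt_succ_of_le hj))
      linarith
    calc κ * ‖iteratedFDeriv ℝ j G y‖ ≤ δ / S * S :=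
          mul_le_mul hκ ((hB j y).trans h2) (norm_nonneg _) (div_pos hδ hS0).le
      _ = δ := div_mul_cancel₀ _ hS0.ne'

end Pool.Agent.Pal
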