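import Pool.Agent.Pal.Targets

/-!
# The twist
-/

set_option autoImplicit false

open Set MeasureTheory Filter Topology Metric Asymptotics
open scoped Manifold ContDiff

namespace Pool.Agent.Pal.TWI_

/-- A smooth family that vanishes at `0` and off a compact set is small. -/
theorem near_family {n : ℕ} (G : ℝ × E n → E n) (hG : ContDiff ℝ ∞ G) (h0 : ∀ y, G (0, y) = 0)
    (C : Set (E n)) (hC : IsCompact C) (hoff : ∀ t y, y ∉ C → G (t, y) = 0) (j : ℕ) (δ : ℝ)
    (hδ : 0 < δ) :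
    ∀ᶠ t : ℝ in 𝓝 0, ∀ y, ‖iteratedFDeriv ℝ j (fun z => G (t, z)) y‖ ≤ δ := by
  have key : ∀ (t : ℝ) (y : E n), iteratedFDeriv ℝ j (fun z => G (t, z)) y =
      (iteratedFDeriv ℝ j G (t, y)).compContinuousLinearMap
        (fun _ => ContinuousLinearMap.inr ℝ ℝ (E n)) := by
    intro t y
    have h1 : (fun z => G (t, z)) =
        (fun p => G ((t, (0 : E n)) + p)) ∘ (ContinuousLinearMap.inr ℝ ℝ (E n)) := by
      funext z
      simp
    rw [h1, ContinuousLinearMap.iteratedFDeriv_comp_right (n := ∞)]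
    · congr 1
      rw [iteratedFDeriv_comp_add_left]
      congr 1
      simp
    · exact hG.comp (contDiff_const.add contDiff_id)
    · exact_mod_cast le_top
  have hcont : Continuous (fun q : ℝ × E n => (iteratedFDeriv ℝ j G q).compContinuousLinearMap
        (fun _ => ContinuousLinearMap.inr ℝ ℝ (E n))) := by
    have h2 : Continuous (iteratedFDeriv ℝ j G) :=
      hG.continuous_iteratedFDeriv (by exact_mod_cast le_top)
    exact (ContinuousMultilinearMap.compContinuousLinearMapL (F := E n) (𝕜 := ℝ)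
      (fun _ : Fin j => ContinuousLinearMap.inr ℝ ℝ (E n))).continuous.comp h2
  have hopen : IsOpen {q : ℝ × E n | ‖(iteratedFDeriv ℝ j G q).compContinuousLinearMap
        (fun _ => ContinuousLinearMap.inr ℝ ℝ (E n))‖ < δ} :=
    isOpen_lt hcont.norm continuous_const
  have hsub : ({0} : Set ℝ) ×ˢ C ⊆ {q : ℝ × E n |
      ‖(iteratedFDeriv ℝ j G q).compContinuousLinearMap
        (fun _ => ContinuousLinearMap.inr ℝ ℝ (E n))‖ < δ} := by
    rintro ⟨t, y⟩ ⟨ht, hy⟩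
    simp only [mem_singleton_iff] at ht
    subst ht
    simp only [mem_ofPred_eq]
    rw [← key 0 y]
    have h3 : (fun z => G (0, z)) = fun _ => (0 : E n) := by
      funext z
      exact h0 z
    rw [h3]
    have h4 : iteratedFDeriv ℝ j (fun _ : E n => (0 : E n)) y = 0 := by
      have := iteratedFDeriv_fun_zero (𝕜 := ℝ) (E := E n) (F := E n) (n := j)
      exact congrFun this y
    rw [h4]
    simpa using hδ
  obtain ⟨u, v, hu, hv, h0u, hCv, huv⟩ := generalized_tube_lemma isCompact_singleton hC hopen hsub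
  have hu0 : u ∈ 𝓝 (0 : ℝ) := hu.mem_nhds (h0u rfl)
  filter_upwards [hu0] with t ht y
  by_cases hy : y ∈ C
  · have := huv (show ((t, y) : ℝ × E n) ∈ u ×ˢ v from ⟨ht, hCv hy⟩)
    simp only [mem_ofPred_eq] at this
    rw [key t y]
    exact this.le
  · have h5 : (fun z => G (t, z)) =ᶠ[𝓝 y] fun _ => (0 : E n) := by
      have : Cᶜ ∈ 𝓝 y := hC.isClosed.isOpen_compl.mem_nhds hy
      filter_upwards [this] with z hz
      exact hoff t z hz
    rw [(EventuallyEq.iteratedFDeriv ℝ h5 j).eq_of_nhds]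
    have h4 : iteratedFDeriv ℝ j (fun _ : E n => (0 : E n)) y = 0 := by
      have := iteratedFDeriv_fun_zero (𝕜 := ℝ) (E := E n) (F := E n) (n := j)
      exact congrFun this y
    rw [h4]
    simpa using hδ.le

/-- The determinant in coordinates. -/
theorem det2 (f : E 2 →L[ℝ] E 2) : f.det =
    f (EuclideanSpace.single 0 1) 0 * f (EuclideanSpace.single 1 1) 1 -
      f (EuclideanSpace.single 1 1) 0 * f (EuclideanSpace.single 0 1) 1 := by
  have h := LinearMap.det_toMatrix (EuclideanSpace.basisFun (Fin 2) ℝ).toBasis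
    (f : E 2 →ₗ[ℝ] E 2)
  rw [ContinuousLinearMap.det, ← h, Matrix.det_fin_two]
  simp [LinearMap.toMatrix_apply]

theorem rot0 (t : ℝ) (y : E 2) : rot t y 0 = Real.cos t * y 0 - Real.sin t * y 1 := by
  simp [rot, Matrix.toEuclideanLin, Matrix.toLin'_apply, Matrix.mulVec, dotProduct, Fin.sum_univ_two]
  ring

theorem rot1 (t : ℝ) (y : E 2) : rot t y 1 = Real.sin t * y 0 + Real.cos t * y 1 := by
  simp [rot, Matrix.toEuclideanLin, Matrix.toLin'_apply, Matrix.mulVec, dotProduct, Fin.sum_univ_two]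

/-- The cutoff. -/
noncomputable def chi (ρ : ℝ) (y : E 2) : ℝ := Real.smoothTransition (2 - 2 * ‖y‖ ^ 2 / ρ ^ 2)

theorem chi_smooth (ρ : ℝ) : ContDiff ℝ ∞ (chi ρ) := by
  unfold chi
  have h1 : ContDiff ℝ ∞ (fun y : E 2 => 2 - 2 * ‖y‖ ^ 2 / ρ ^ 2) := by
    have := contDiff_norm_sq ℝ (E := E 2) (n := ∞)
    exact contDiff_const.sub ((contDiff_const.mul this).div_const _)
  exact (Real.smoothTransition.contDiff (n := ⊤)).comp h1

theorem chi_off (ρ : ℝ) (hρ : 0 < ρ) (y : E 2) (hy : y ∉ closedBall (0 : E 2) ρ) : chi ρ y = 0 := by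
  have h1 : ρ < ‖y‖ := by simpa using hy
  unfold chi
  apply Real.smoothTransition.zero_of_nonpos
  have h2 : ρ ^ 2 < ‖y‖ ^ 2 := by
    exact pow_lt_pow_left₀ h1 hρ.le (by norm_num)
  have h3 : 0 < ρ ^ 2 := by positivity
  have h4 : 1 ≤ ‖y‖ ^ 2 / ρ ^ 2 := by
    rw [le_div_iff₀ h3]
    linarith
  have h5 : 2 * ‖y‖ ^ 2 / ρ ^ 2 = 2 * (‖y‖ ^ 2 / ρ ^ 2) := by ring
  rw [h5]
  linarith

/-- The quarter turn. -/
noncomputable def J : E 2 →L[ℝ] E 2 := rot (Real.pi / 2)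

theorem J0 (y : E 2) : J y 0 = - y 1 := by
  simp [J, rot0]

theorem J1 (y : E 2) : J y 1 = y 0 := by
  simp [J, rot1]

theorem chi_hasFDerivAt (ρ : ℝ) (y : E 2) :
    ∃ g : E 2 →L[ℝ] ℝ, HasFDerivAt (chi ρ) g y ∧ g (J y) = 0 := by
  have h1 : HasFDerivAt (fun y : E 2 => ‖y‖ ^ 2) (2 • (innerSL ℝ y)) y :=
    (hasStrictFDerivAt_norm_sq y).hasFDerivAt
  have h2 : HasFDerivAt (fun y : E 2 => 2 - (2 / ρ ^ 2) * ‖y‖ ^ 2)
      (-((2 / ρ ^ 2) • (2 • (innerSL ℝ y)))) y := by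
    exact (h1.const_mul (2 / ρ ^ 2)).const_sub 2
  have h3 : HasDerivAt Real.smoothTransition
      (deriv Real.smoothTransition (2 - (2 / ρ ^ 2) * ‖y‖ ^ 2)) (2 - (2 / ρ ^ 2) * ‖y‖ ^ 2) := by
    apply DifferentiableAt.hasDerivAt
    exact (Real.smoothTransition.contDiffAt (n := 1)).differentiableAt (by norm_num)
  have h4 := h3.comp_hasFDerivAt y h2
  have h5 : (Real.smoothTransition ∘ fun y : E 2 => 2 - (2 / ρ ^ 2) * ‖y‖ ^ 2) = chi ρ := by
    funext z
    unfold chi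
    simp only [Function.comp_apply]
    congr 1
    ring
  rw [h5] at h4
  have h6 : inner ℝ y (J y) = (0 : ℝ) := by
    simp [PiLp.inner_apply, Fin.sum_univ_two, J0, J1]
    ring
  exact ⟨_, h4, by simp [h6]⟩

/-- The twist. -/
noncomputable def tw (ρ t : ℝ) (y : E 2) : E 2 :=
  Real.cos (t * chi ρ y) • y + Real.sin (t * chi ρ y) • J y

theorem tw_smooth (ρ : ℝ) : ContDiff ℝ ∞ (fun q : ℝ × E 2 => tw ρ q.1 q.2) := by
  unfold tw
  have h1 : ContDiff ℝ ∞ (fun q : ℝ × E 2 => q.1 * chi ρ q.2) :=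
    contDiff_fst.mul ((chi_smooth ρ).comp contDiff_snd)
  exact ((Real.contDiff_cos.comp h1).smul contDiff_snd).add
    ((Real.contDiff_sin.comp h1).smul (J.contDiff.comp contDiff_snd))

theorem tw_smooth' (ρ t : ℝ) : ContDiff ℝ ∞ (tw ρ t) := by
  unfold tw
  have h1 : ContDiff ℝ ∞ (fun y : E 2 => t * chi ρ y) := contDiff_const.mul (chi_smooth ρ)
  exact ((Real.contDiff_cos.comp h1).smul contDiff_id).add
    ((Real.contDiff_sin.comp h1).smul J.contDiff)

theorem tw_det (ρ t : ℝ) (y : E 2) : (fderiv ℝ (tw ρ t) y).det = 1 := by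
  obtain ⟨g, hg, hJ⟩ := chi_hasFDerivAt ρ y
  have h1 : HasFDerivAt (fun y => t * chi ρ y) (t • g) y := hg.const_mul t
  have h2 := h1.cos.smul (hasFDerivAt_id (𝕜 := ℝ) y)
  have h3 := h1.sin.smul (J.hasFDerivAt (x := y))
  have h4 := h2.add h3
  have h5 : HasFDerivAt (tw ρ t) _ y := h4
  rw [h5.fderiv, det2]
  have hJ' : - y 1 * g (EuclideanSpace.single 0 1) + y 0 * g (EuclideanSpace.single 1 1) = 0 := by
    have h7 : J y = (- y 1) • EuclideanSpace.single (0 : Fin 2) (1 : ℝ)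
        + (y 0) • EuclideanSpace.single (1 : Fin 2) (1 : ℝ) := by
      ext i
      fin_cases i
      · simp [J0]
      · simp [J1]
    rw [h7] at hJ
    simpa using hJ
  have hsc : Real.sin (t * chi ρ y) ^ 2 + Real.cos (t * chi ρ y) ^ 2 = 1 :=
    Real.sin_sq_add_cos_sq _
  simp [J0, J1]
  generalize Real.sin (t * chi ρ y) = a at *
  generalize Real.cos (t * chi ρ y) = b at *
  generalize g (EuclideanSpace.single 0 1) = u at *
  generalize g (EuclideanSpace.single 1 1) = v at *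
  linear_combination (1 + t * (y 0 * v - y 1 * u)) * hsc + t * hJ'

theorem tw_zero (ρ t : ℝ) : tw ρ t 0 = 0 := by
  simp [tw]

theorem tw_fderiv_zero (ρ t : ℝ) : fderiv ℝ (tw ρ t) 0 = rot t := by
  obtain ⟨g, hg, hJ⟩ := chi_hasFDerivAt ρ 0
  have h1 : HasFDerivAt (fun y => t * chi ρ y) (t • g) 0 := hg.const_mul t
  have h2 := h1.cos.smul (hasFDerivAt_id (𝕜 := ℝ) (0 : E 2))
  have h3 := h1.sin.smul (J.hasFDerivAt (x := (0 : E 2)))
  have h4 := h2.add h3
  have h5 : HasFDerivAt (tw ρ t) _ 0 := h4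
  have hc : chi ρ 0 = 1 := by
    unfold chi
    simp
  rw [h5.fderiv]
  ext v i
  fin_cases i
  · simp [rot0, J0, hc]
    ring
  · simp [rot1, J1, hc]
    ring

theorem tw_off (ρ : ℝ) (hρ : 0 < ρ) (t : ℝ) (y : E 2) (hy : y ∉ closedBall (0 : E 2) ρ) :
    tw ρ t y = y := by
  simp [tw, chi_off ρ hρ y hy]

end Pool.Agent.Pal.TWI_

namespace Pool.Agent.Pal

open TWI_

theorem twi : T_TWI := by
  intro ρ hρ
  refine ⟨tw ρ, ?_, tw_det ρ, tw_zero ρ, tw_fderiv_zero ρ, ?_⟩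
  · intro t
    exact ⟨tw_smooth' ρ t, fun y hy => tw_off ρ hρ t y hy⟩
  · intro r δ hδ
    have hG : ContDiff ℝ ∞ (fun q : ℝ × E 2 => tw ρ q.1 q.2 - q.2) :=
      (tw_smooth ρ).sub contDiff_snd
    have h1 : ∀ j, ∀ᶠ t : ℝ in 𝓝 0, ∀ y,
        ‖iteratedFDeriv ℝ j (fun z => tw ρ t z - z) y‖ ≤ δ := by
      intro j
      exact near_family (fun q : ℝ × E 2 => tw ρ q.1 q.2 - q.2) hG (fun y => by simp [tw])
        (closedBall 0 ρ) (isCompact_closedBall 0 ρ)
        (fun t y hy => by simp [tw_off ρ hρ t y hy]) j δ hδ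
    have h2 : ∀ᶠ t : ℝ in 𝓝 0, ∀ j ∈ {j : ℕ | j ≤ r}, ∀ y,
        ‖iteratedFDeriv ℝ j (fun z => tw ρ t z - z) y‖ ≤ δ := by
      rw [Filter.eventually_all_finite (Set.finite_le_nat r)]
      intro j _
      exact h1 j
    rw [Metric.eventually_nhds_iff] at h2
    obtain ⟨ε, hε, h3⟩ := h2
    refine ⟨ε / 2, by positivity, ?_⟩
    intro t ht j hj y
    apply h3 _ j hj y
    rw [Real.dist_eq, sub_zero]
    linarith

end Pool.Agent.Pal
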