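import Pool.Agent.Pal.Targets

/-!
# PAL-VOL: elementary properties of smooth volumes
-/

set_option autoImplicit false

open Set MeasureTheory Filter Topology Metric
open scoped Manifold ContDiff

namespace Pool.Agent.Pal

namespace VOL_

/-- Translations are smooth changes of coordinates. -/
theorem trans_mem (n : ℕ) (v : E n) :
    (Homeomorph.addRight v).toOpenPartialHomeomorph ∈ contDiffGroupoid ∞ 𝓘(ℝ, E n) := by
  rw [contDiffGroupoid, mem_groupoid_of_pregroupoid]
  constructor
  · have : ContDiff ℝ ∞ (fun x : E n => x + v) := contDiff_id.add contDiff_const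
    exact this.contDiffOn
  · have : ContDiff ℝ ∞ (fun x : E n => x + -v) := contDiff_id.add contDiff_const
    refine this.contDiffOn.congr ?_
    intro x _
    simp [Homeomorph.addRight]

variable {n : ℕ} {M : Type} [TopologicalSpace M] [ChartedSpace (E n) M]

theorem ch_trans {e : OpenPartialHomeomorph M (E n)} (he : e ∈ Ch n M) (v : E n) :
    e.trans (Homeomorph.addRight v).toOpenPartialHomeomorph ∈ Ch n M := by
  intro e' he'
  obtain ⟨h1, h2⟩ := mem_maximalAtlas_iff.1 he e' he'
  have ht := trans_mem n v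
  constructor
  · rw [OpenPartialHomeomorph.trans_symm_eq_symm_trans_symm, OpenPartialHomeomorph.trans_assoc]
    exact (contDiffGroupoid ∞ 𝓘(ℝ, E n)).trans ((contDiffGroupoid ∞ 𝓘(ℝ, E n)).symm ht) h1
  · rw [← OpenPartialHomeomorph.trans_assoc]
    exact (contDiffGroupoid ∞ 𝓘(ℝ, E n)).trans h2 ht

omit [ChartedSpace (E n) M] in
theorem trans_src (e : OpenPartialHomeomorph M (E n)) (v : E n) :
    (e.trans (Homeomorph.addRight v).toOpenPartialHomeomorph).source = e.source := by
  simp

omit [ChartedSpace (E n) M] in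
theorem trans_app (e : OpenPartialHomeomorph M (E n)) (v : E n) (x : M) :
    e.trans (Homeomorph.addRight v).toOpenPartialHomeomorph x = e x + v := by
  simp

theorem uni_trans [MeasurableSpace M] {μ : Measure M} {e : OpenPartialHomeomorph M (E n)}
    (he : Uni μ e) (v : E n) :
    Uni μ (e.trans (Homeomorph.addRight v).toOpenPartialHomeomorph) := by
  refine ⟨ch_trans he.1 v, ?_⟩
  intro A hA hm
  rw [trans_src] at hA
  rw [he.2 A hA hm]
  have : (e.trans (Homeomorph.addRight v).toOpenPartialHomeomorph) '' A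
      = (fun x => x + v) '' (e '' A) := by
    rw [image_image]
    exact image_congr fun x _ => trans_app e v x
  rw [this]
  simp

end VOL_

open VOL_

theorem vol : T_VOL := by
  intro n M _ _ _ _ _ _ μ hμ
  have hfin : ∀ q : M, ∃ s ∈ 𝓝 q, μ s < ⊤ := by
    intro q
    obtain ⟨e, he, hq, hv⟩ := hμ q
    have ht : e.target ∈ 𝓝 (e q) := e.open_target.mem_nhds (e.map_source hq)
    obtain ⟨ρ, hρ, hb⟩ := Metric.mem_nhds_iff.1 ht
    refine ⟨e.source ∩ e ⁻¹' ball (e q) ρ, ?_, ?_⟩
    · exact (e.isOpen_inter_preimage isOpen_ball).mem_nhds ⟨hq, mem_ball_self hρ⟩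
    · rw [hv _ inter_subset_left (e.isOpen_inter_preimage isOpen_ball).measurableSet]
      refine lt_of_le_of_lt (measure_mono ?_) (measure_ball_lt_top (x := e q) (r := ρ))
      rintro _ ⟨x, hx, rfl⟩
      exact hx.2
  refine ⟨?_, ?_, ?_⟩
  · have : IsLocallyFiniteMeasure μ := ⟨fun q => by
      obtain ⟨s, hs, hs'⟩ := hfin q
      exact ⟨s, hs, hs'⟩⟩
    infer_instance
  · intro U hU hne
    obtain ⟨q, hqU⟩ := hne
    obtain ⟨e, he, hq, hv⟩ := hμ q
    have hO : IsOpen (U ∩ e.source) := hU.inter e.open_source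
    refine lt_of_lt_of_le ?_ (measure_mono (inter_subset_left : U ∩ e.source ⊆ U))
    rw [hv _ inter_subset_right hO.measurableSet]
    have hO' : IsOpen (e '' (U ∩ e.source)) := by
      rw [inter_comm]
      exact e.isOpen_image_source_inter hU
    exact hO'.measure_pos volume ⟨e q, q, ⟨hqU, hq⟩, rfl⟩
  · intro q
    obtain ⟨e, he, hq, hv⟩ := hμ q
    refine ⟨_, uni_trans ⟨he, hv⟩ (-(e q)), ?_, ?_⟩
    · rw [trans_src]; exact hq
    · rw [trans_app]; simp

end Pool.Agent.Pal
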