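import Pool.Agent.Pal.Targets

/-!
# Volumes of images
-/

set_option autoImplicit false

open Set MeasureTheory Filter Topology Metric Asymptotics
open scoped Manifold ContDiff

namespace Pool.Agent.Pal

theorem vole : T_VOLE := by
  intro n L A c hL hinj hA hc hdet
  have hd : ∀ x ∈ A, HasFDerivWithinAt L (fderiv ℝ L x) A x := fun x _ =>
    ((hL.differentiable (by simp)) x).hasFDerivAt.hasFDerivWithinAt
  rw [← lintegral_abs_det_fderiv_eq_addHaar_image (volume : Measure (E n)) hA hd
    hinj.injOn, ← setLIntegral_const]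
  exact setLIntegral_mono' hA fun x hx => ENNReal.ofReal_le_ofReal (hdet x hx)

theorem jac : T_JAC := by
  intro n Φ U hU hΦ hinj hvol
  -- derivative in a neighbourhood
  have hdiff : ∀ᶠ x in 𝓝 (0 : E n), DifferentiableAt ℝ Φ x :=
    (hΦ.eventually (by simp)).mono fun x hx => hx.differentiableAt (by simp)
  have hcont : ContinuousAt (fun x => |(fderiv ℝ Φ x).det|) 0 := by
    have h1 : ContinuousAt (fderiv ℝ Φ) 0 := hΦ.continuousAt_fderiv (by simp)
    have h2 : Continuous fun B : E n →L[ℝ] E n => |B.det| :=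
      continuous_abs.comp ContinuousLinearMap.continuous_det
    exact h2.continuousAt.comp h1
  -- the identity on small balls
  have key : ∀ P : E n → Prop, (∀ᶠ x in 𝓝 (0 : E n), P x) → ∃ A : Set (E n),
      MeasurableSet A ∧ 0 < volume A ∧ volume A < ⊤ ∧ (∀ x ∈ A, P x) ∧
      ∫⁻ x in A, ENNReal.ofReal |(fderiv ℝ Φ x).det| = volume A := by
    intro P hP
    obtain ⟨ε, hε, hball⟩ := Metric.mem_nhds_iff.1
      (inter_mem (inter_mem hU hdiff) hP : (U ∩ {x | DifferentiableAt ℝ Φ x}) ∩ {x | P x} ∈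
        𝓝 (0 : E n))
    refine ⟨ball 0 ε, measurableSet_ball, measure_ball_pos _ _ hε, measure_ball_lt_top,
      fun x hx => (hball hx).2, ?_⟩
    rw [lintegral_abs_det_fderiv_eq_addHaar_image (volume : Measure (E n)) measurableSet_ball
      (fun x hx => ((hball hx).1.2 : DifferentiableAt ℝ Φ x).hasFDerivAt.hasFDerivWithinAt)
      (hinj.mono fun x hx => (hball hx).1.1)]
    exact hvol _ (fun x hx => (hball hx).1.1) measurableSet_ball
  by_contra hne
  rcases lt_or_gt_of_ne hne with hlt | hgt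
  · obtain ⟨c, hc1, hc2⟩ := exists_between hlt
    obtain ⟨A, hA, hpos, hfin, hP, hint⟩ := key (fun x => |(fderiv ℝ Φ x).det| ≤ c)
      ((hcont.eventually_lt_const hc1).mono fun x hx => hx.le)
    have h1 : ∫⁻ x in A, ENNReal.ofReal |(fderiv ℝ Φ x).det| ≤ ENNReal.ofReal c * volume A := by
      rw [← setLIntegral_const]
      exact setLIntegral_mono' hA fun x hx => ENNReal.ofReal_le_ofReal (hP x hx)
    rw [hint] at h1
    have hc0 : ENNReal.ofReal c < 1 := by
      rw [← ENNReal.ofReal_one]
      exact (ENNReal.ofReal_lt_ofReal_iff one_pos).2 hc2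
    have h2 : ENNReal.ofReal c * volume A < 1 * volume A :=
      ENNReal.mul_lt_mul_left hpos.ne' hfin.ne hc0
    rw [one_mul] at h2
    exact absurd h1 (not_le.2 h2)
  · obtain ⟨c, hc1, hc2⟩ := exists_between hgt
    obtain ⟨A, hA, hpos, hfin, hP, hint⟩ := key (fun x => c ≤ |(fderiv ℝ Φ x).det|)
      ((hcont.eventually_const_lt hc2).mono fun x hx => hx.le)
    have h1 : ENNReal.ofReal c * volume A ≤ ∫⁻ x in A, ENNReal.ofReal |(fderiv ℝ Φ x).det| := by
      rw [← setLIntegral_const]
      exact setLIntegral_mono' hA fun x hx => ENNReal.ofReal_le_ofReal (hP x hx)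
    rw [hint] at h1
    have hc0 : 1 < ENNReal.ofReal c := by
      rw [← ENNReal.ofReal_one]
      exact (ENNReal.ofReal_lt_ofReal_iff (by linarith)).2 hc1
    have h2 : 1 * volume A < ENNReal.ofReal c * volume A :=
      ENNReal.mul_lt_mul_left hpos.ne' hfin.ne hc0
    rw [one_mul] at h2
    exact absurd h1 (not_le.2 h2)

end Pool.Agent.Pal
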