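import Pool.Agent.Pal.MAIN4
import Pool.Agent.Pal.MOD
import Pool.Agent.Pal.RCOMP
import Pool.Agent.Pal.LCOMP
import Pool.Agent.Pal.TRANS
import Pool.Agent.Pal.PROF
import Pool.Agent.Pal.RAD
import Pool.Agent.Pal.TWI
import Pool.Agent.Pal.VOLE
import Pool.Agent.Pal.EXT
import Pool.Agent.Pal.ROB
import Pool.Agent.Pal.C0
import Pool.Agent.Pal.VOLM
import Pool.Agent.Pal.VOL
import Pool.Agent.Pal.GSTEP
import Pool.Agent.Pal.GALL
import Pool.Agent.Pal.DEC
import Pool.Agent.Pal.PERS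
import Pool.Agent.Pal.LYAP
import Pool.Agent.Pal.TAY
import Pool.Agent.Pal.EXPC
import Pool.Agent.Pal.COH
import Pool.Agent.Pal.AREA
import Pool.Agent.Pal.LIN
import Pool.Agent.Pal.BIRK
import Pool.Agent.Pal.NBD
import Pool.Agent.Pal.C0C
import Pool.Agent.Pal.ITC
import Pool.Agent.Pal.JACC
import Pool.Agent.Pal.SINKC
import Pool.Agent.Pal.GLO2
import Pool.Agent.Pal.LINS
import Pool.Agent.Pal.SMALL

/-!
# Assembly
-/

set_option autoImplicit false

open Set MeasureTheory Filter Topology Metric Asymptotics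
open scoped Manifold ContDiff

namespace Pool.Agent.Pal

theorem tEXT : T_EXT := ext1 mod1
theorem tVOLM : T_VOLM := volm mod1 tEXT
theorem tVOLP : T_VOLP := volp mod1 tEXT
theorem tGOODALL : T_GOODALL := goodall (goodstep trans1 tEXT diff1 c0 tVOLM) vol
theorem tROB : T_ROB := rob rcomp lcomp diff1
theorem tITC : T_ITC := itc nbd diff1
theorem tC0C : T_C0C := c0c nbd
theorem tBIRK : T_BIRK := birk expc coh area lin jac

theorem tMAIN3 : T_MAIN3 := main3 tEXT diff1 tVOLM vol (glo2 tGOODALL diff1) prof rad1 dec pers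
  lyap2 orb meas2 nbd tC0C (jacc nbd diff1) (sinkc nbd tC0C tITC diff1) lins chs bas

theorem tMAIN4 : T_MAIN4 := main4 tEXT diff1 tVOLP vol twi jac nonres tBIRK tMAIN3

theorem near_mono {n r : ℕ} {δ δ' : ℝ} (h : δ ≤ δ') {L : E n → E n} (hL : Near r δ L) :
    Near r δ' L := fun j hj y => (hL j hj y).trans h

/-- Finitely many closeness conditions are robust. -/
theorem rob_all (n : ℕ) (M : Type) [TopologicalSpace M] [ChartedSpace (E n) M]
    [IsManifold 𝓘(ℝ, E n) ∞ M] [T2Space M] (s : ℕ∞) (r : ℕ) (f : M → M) (hrs : (r : ℕ∞) ≤ s)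
    (hf : IsDiffeo n s f) (N : ℕ) (e e' : Fin N → OpenPartialHomeomorph M (E n))
    (K : Fin N → Set M) (ε : ℝ)
    (h : ∀ i, e i ∈ Ch n M ∧ e' i ∈ Ch n M ∧ IsCompact (K i) ∧ K i ⊆ (e i).source ∧
      MapsTo f (K i) (e' i).source) :
    Rob n s r {g | ∀ i, CrClose r f g (e i) (e' i) (K i) ε} := by
  intro g hg hgd e₀ he₀ C hC hCt
  have h1 : ∀ i, ∃ δ : ℝ, 0 < δ ∧ ∀ L, Mod C L → Near r δ L →
      CrClose r f (ext e₀ L ∘ g) (e i) (e' i) (K i) ε := fun i =>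
    tROB n M s r f (e i) (e' i) (K i) ε hrs hf (h i).1 (h i).2.1 (h i).2.2.1 (h i).2.2.2.1
      (h i).2.2.2.2 g (hg i) hgd e₀ he₀ C hC hCt
  choose δ hδ hL using h1
  obtain ⟨δ₀, hδ₀, hle⟩ : ∃ δ₀ : ℝ, 0 < δ₀ ∧ ∀ i, δ₀ ≤ δ i := by
    have : ∀ t : Finset (Fin N), ∃ δ₀ : ℝ, 0 < δ₀ ∧ ∀ i ∈ t, δ₀ ≤ δ i := by
      intro t
      induction t using Finset.induction_on with
      | empty => exact ⟨1, one_pos, fun i hi => absurd hi (Finset.notMem_empty i)⟩
      | insert a t _ ih =>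
        obtain ⟨δ₁, h1, h2⟩ := ih
        refine ⟨min δ₁ (δ a), lt_min h1 (hδ a), fun i hi => ?_⟩
        rcases Finset.mem_insert.1 hi with rfl | hi
        · exact min_le_right _ _
        · exact (min_le_left _ _).trans (h2 i hi)
    obtain ⟨δ₀, h1, h2⟩ := this Finset.univ
    exact ⟨δ₀, h1, fun i => h2 i (Finset.mem_univ i)⟩
  exact ⟨δ₀, hδ₀, fun L hLm hLn i => hL i L hLm (near_mono (hle i) hLn)⟩

end Pool.Agent.Pal
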