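import Pool.Agent.Pal.Targets

/-!
# Targets for the robust version
-/

set_option autoImplicit false

open Set MeasureTheory Filter Topology Metric Asymptotics
open scoped Manifold ContDiff

namespace Pool.Agent.Pal

/-- `V` contains all `C^1` diffeomorphisms that are sufficiently close to `g` in the `C^1`
topology. -/
def Nbd (n : ℕ) {M : Type} [TopologicalSpace M] [ChartedSpace (E n) M] (g : M → M)
    (V : Set (M → M)) : Prop :=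
  ∃ (N : ℕ) (e e' : Fin N → OpenPartialHomeomorph M (E n)) (K : Fin N → Set M) (ε : ℝ), 0 < ε ∧
    (∀ i, e i ∈ Ch n M ∧ e' i ∈ Ch n M ∧ IsCompact (K i) ∧ K i ⊆ (e i).source ∧
      MapsTo g (K i) (e' i).source) ∧
    ∀ g' : M → M, IsDiffeo n 1 g' → (∀ i, CrClose 1 g g' (e i) (e' i) (K i) ε) → g' ∈ V

def T_NBD : Prop := ∀ (n : ℕ) (M : Type) [TopologicalSpace M] [ChartedSpace (E n) M]
  (g : M → M), (∀ V W : Set (M → M), Nbd n g V → Nbd n g W → Nbd n g (V ∩ W)) ∧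
  (∀ V W : Set (M → M), Nbd n g V → V ⊆ W → Nbd n g W) ∧
  (∀ V : Set (M → M), Nbd n g V → IsDiffeo n 1 g → g ∈ V) ∧
  ∀ (e e' : OpenPartialHomeomorph M (E n)) (K : Set M) (ε : ℝ), 0 < ε → e ∈ Ch n M →
    e' ∈ Ch n M → IsCompact K → K ⊆ e.source → MapsTo g K e'.source →
    Nbd n g {g' | CrClose 1 g g' e e' K ε}

/-- Uniform closeness. -/
def T_C0C : Prop := ∀ (n : ℕ) (M : Type) [MetricSpace M] [ChartedSpace (E n) M]
  [IsManifold 𝓘(ℝ, E n) ∞ M] [CompactSpace M] (g : M → M) (η : ℝ), Continuous g → 0 < η →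
  Nbd n g {g' | ∀ x, dist (g' x) (g x) < η}

/-- Closeness of iterates. -/
def T_ITC : Prop := ∀ (n : ℕ) (M : Type) [MetricSpace M] [ChartedSpace (E n) M]
  [IsManifold 𝓘(ℝ, E n) ∞ M] [CompactSpace M] (g : M → M) (m : ℕ)
  (e e' : OpenPartialHomeomorph M (E n)) (K : Set M) (ε : ℝ), IsDiffeo n 1 g → e ∈ Ch n M →
  e' ∈ Ch n M → IsCompact K → K ⊆ e.source → MapsTo g^[m] K e'.source → 0 < ε →
  Nbd n g {g' | CrClose 1 g^[m] g'^[m] e e' K ε}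

/-- Closeness of Jacobians. -/
def T_JACC : Prop := ∀ (n : ℕ) (M : Type) [TopologicalSpace M] [ChartedSpace (E n) M]
  [IsManifold 𝓘(ℝ, E n) ∞ M] [CompactSpace M] [T2Space M] [MeasurableSpace M] [BorelSpace M]
  (μ : Measure M) (g : M → M) (δ : ℝ), IsVolume n μ → IsDiffeo n 1 g → 0 < δ → δ < 1 →
  Nbd n g {g' | ∀ A, MeasurableSet A → ENNReal.ofReal (1 - δ) * μ (g '' A) ≤ μ (g' '' A)}

/-- Persistence of a sink and of a compact part of its basin. -/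
def T_SINKC : Prop := ∀ (n : ℕ) (M : Type) [MetricSpace M] [ChartedSpace (E n) M]
  [IsManifold 𝓘(ℝ, E n) ∞ M] [CompactSpace M] (g : M → M) (m : ℕ) (p : M) (K : Set M)
  (e : OpenPartialHomeomorph M (E n)), IsDiffeo n 1 g → 1 ≤ m → g^[m] p = p → e ∈ Ch n M →
  p ∈ e.source → ‖fderiv ℝ (e ∘ g^[m] ∘ e.symm) (e p)‖ < 1 → IsCompact K → p ∈ interior K →
  (∀ x ∈ K, g^[m] x ∈ interior K) →
  (∀ x ∈ K, Tendsto (fun k : ℕ => g^[m * k] x) atTop (𝓝 p)) →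
  Nbd n g {g' | (∀ x ∈ K, g'^[m] x ∈ interior K) ∧ ∃ p' ∈ K, g'^[m] p' = p' ∧
    ∀ x ∈ K, Tendsto (fun k : ℕ => g'^[m * k] x) atTop (𝓝 p')}

/-- Uniform expansion off small balls around the points of `P`. -/
def T_GLO2 : Prop := ∀ (n : ℕ) (M : Type) [MetricSpace M] [ChartedSpace (E n) M]
  [IsManifold 𝓘(ℝ, E n) ∞ M] [CompactSpace M] [ConnectedSpace M] [MeasurableSpace M]
  [BorelSpace M] (μ : Measure M) [IsFiniteMeasure μ] (s : ℕ∞) (r : ℕ) (P : Finset M) (d : ℝ),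
  (r : ℕ∞) ≤ s → IsVolume n μ → P.Nonempty → 0 < d →
  ∀ (g : M → M) (U : Set (M → M)) (η : ℝ), IsDiffeo n s g → Rob n s r U → g ∈ U → 0 < η →
    ∃ ψ : M → M, IsDiffeo n ⊤ ψ ∧ (ψ ∘ g) ∈ U ∧ (∀ x, dist (ψ x) x < η) ∧
      (∀ x, (∃ p ∈ P, dist x p ≤ d / 4) → ψ x = x) ∧
      ∃ θ : ℝ, 0 < θ ∧ ∀ A, MeasurableSet A → (∀ x ∈ A, ∀ p ∈ P, d ≤ dist x p) →
        ENNReal.ofReal (1 + θ) * μ A ≤ μ (ψ '' A)

/-- The derivative of the return map preserves a Euclidean norm. -/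
def T_LINS : Prop := ∀ (n : ℕ) (Φ : E n → E n) (I : E n → ℝ) (b : ℝ), Φ 0 = 0 →
  ContDiffAt ℝ 1 Φ 0 → ContDiffAt ℝ ∞ I 0 → I 0 = 0 → 0 < b →
  (∀ᶠ y in 𝓝 0, b * ‖y‖ ^ 2 ≤ I y) →
  (fun y => I (Φ y) - I y) =o[𝓝 0] (fun y => ‖y‖ ^ 2) →
  ∃ S : E n ≃L[ℝ] E n, ∀ v, ‖S (fderiv ℝ Φ 0 v)‖ = ‖S v‖

/-- A smooth chart followed by a linear isomorphism. -/
def T_CHS : Prop := ∀ (n : ℕ) (M : Type) [TopologicalSpace M] [ChartedSpace (E n) M]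
  [IsManifold 𝓘(ℝ, E n) ∞ M] (e : OpenPartialHomeomorph M (E n)) (S : E n ≃L[ℝ] E n),
  e ∈ Ch n M → e.trans S.toHomeomorph.toOpenPartialHomeomorph ∈ Ch n M

/-- Points that enter `K` are in the basin of the orbit of the sink. -/
def T_BAS : Prop := ∀ (M : Type) [MetricSpace M] [CompactSpace M] (g : M → M) (m : ℕ) (p : M)
  (K : Set M), Continuous g → 1 ≤ m → g^[m] p = p →
  (∀ x ∈ K, Tendsto (fun k : ℕ => g^[m * k] x) atTop (𝓝 p)) →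
  ∀ x, (∃ k, g^[k] x ∈ K) → x ∈ basin g {y | ∃ i < m, y = g^[i] p}

/-- The value at the orbit of the trap (T_LYAP in the form of a limit). -/
def T_LYAP2 : Prop := ∀ (M : Type) [MetricSpace M] [CompactSpace M] (g : M → M) (m : ℕ) (p : M)
  (K : Set M) (V : M → ℝ), Continuous g → 1 ≤ m → g^[m] p = p → IsCompact K →
  ContinuousOn V K → p ∈ K → (∀ x ∈ K, g^[m] x ∈ K) →
  (∀ x ∈ K, x ≠ p → V (g^[m] x) < V x) →
  ∀ x ∈ K, Tendsto (fun k : ℕ => g^[m * k] x) atTop (𝓝 p)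

/-- Almost all points enter the trap. -/
def T_MEAS2 : Prop := ∀ (M : Type) [TopologicalSpace M] [MeasurableSpace M] [BorelSpace M]
  (μ : Measure M) [IsFiniteMeasure μ] (g' : M ≃ₜ M) (f g ψR ψG : M ≃ₜ M) (U B D : Set M)
  (θ δ : ℝ), IsOpen U → (∀ x, g x = ψG (ψR (f x))) → (∀ x, g' x ∈ U ↔ x ∈ U) →
  (∀ x, f x ∈ B → x ∈ U) → (∀ x, ψR (f x) ∈ D → x ∈ U) →
  (∀ A, MeasurableSet A → μ (f '' A) = μ A) →
  (∀ A, MeasurableSet A → Disjoint A B → μ A ≤ μ (ψR '' A)) →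
  (∀ A, MeasurableSet A → Disjoint A D → ENNReal.ofReal (1 + θ) * μ A ≤ μ (ψG '' A)) →
  (∀ A, MeasurableSet A → ENNReal.ofReal (1 - δ) * μ (g '' A) ≤ μ (g' '' A)) →
  0 < θ → 0 < δ → δ < 1 → 1 < (1 - δ) * (1 + θ) → μ Uᶜ = 0

end Pool.Agent.Pal
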