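import Pool.Agent.Pal.MAIN1
import Pool.Agent.Pal.Targets2

/-!
# The robust theorem in every dimension (job MAIN)
-/

set_option autoImplicit false

open Set MeasureTheory Filter Topology Metric Asymptotics
open scoped Manifold ContDiff

namespace Pool.Agent.Pal

def T_MAIN3 : Prop := ∀ (n : ℕ) (M : Type) [MetricSpace M] [ChartedSpace (E n) M]
  [IsManifold 𝓘(ℝ, E n) ∞ M] [CompactSpace M] [ConnectedSpace M] [MeasurableSpace M]
  [BorelSpace M] (μ : Measure M) (s : ℕ∞) (r : ℕ) (f : M → M) (U : Set (M → M)) (m : ℕ) (p : M)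
  (e : OpenPartialHomeomorph M (E n)) (I : E n → ℝ) (b : ℝ),
  1 ≤ n → 1 ≤ r → (r : ℕ∞) ≤ s → IsVolume n μ → IsDiffeo n s f → MeasurePreserving f μ μ →
  Rob n s r U → f ∈ U → 1 ≤ m → f^[m] p = p → (∀ i, 0 < i → i < m → f^[i] p ≠ p) →
  e ∈ Ch n M → p ∈ e.source → ContDiffAt ℝ ∞ I (e p) → 0 < b →
  (∀ᶠ y in 𝓝 (e p), b * ‖y - e p‖ ^ 2 ≤ I y - I (e p)) →
  (fun y => I ((e ∘ f^[m] ∘ e.symm) y) - I y) =o[𝓝 (e p)] (fun y => ‖y - e p‖ ^ (r + 1)) →
  ∃ g ∈ U, IsDiffeo n s g ∧ Nbd n g {g' | OneSink μ g'}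

namespace MAIN_

/-- Iterates of a map that is close to `g` are close to the iterates of `g`. -/
theorem iter_close' {M : Type} [MetricSpace M] [CompactSpace M] {g : M → M} (hg : Continuous g)
    (k : ℕ) : ∀ ε : ℝ, 0 < ε → ∃ η : ℝ, 0 < η ∧ ∀ g' : M → M, (∀ x, dist (g' x) (g x) < η) →
      ∀ x, dist (g'^[k] x) (g^[k] x) < ε := by
  induction k with
  | zero => intro ε hε; exact ⟨1, one_pos, fun ψ _ x => by simpa using hε⟩
  | succ k ih =>
    intro ε hε
    have huc := CompactSpace.uniformContinuous_of_continuous hg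
    rw [Metric.uniformContinuous_iff] at huc
    obtain ⟨δ, hδ, hgδ⟩ := huc (ε / 2) (half_pos hε)
    obtain ⟨η, hη, hψ⟩ := ih δ hδ
    refine ⟨min η (ε / 2), lt_min hη (half_pos hε), fun g' h x => ?_⟩
    rw [Function.iterate_succ_apply', Function.iterate_succ_apply']
    have h1 := hψ g' (fun x => (h x).trans_le (min_le_left _ _)) x
    have h2 := hgδ h1
    have h3 := (h (g'^[k] x)).trans_le (min_le_right _ _)
    calc dist (g' (g'^[k] x)) (g (g^[k] x))
        ≤ dist (g' (g'^[k] x)) (g (g'^[k] x)) + dist (g (g'^[k] x)) (g (g^[k] x)) :=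
          dist_triangle _ _ _
      _ < ε := by linarith

/-- Points near the orbit of `p` enter the neighbourhood `O` of `p`. -/
theorem near_orbit' {M : Type} [MetricSpace M] [CompactSpace M] {g : M → M} (hg : Continuous g)
    {m : ℕ} {p : M} {O : Set M} (hO : IsOpen O) (hp : p ∈ O) (hgp : g^[m] p = p) :
    ∃ d : ℝ, 0 < d ∧ ∃ η : ℝ, 0 < η ∧ ∀ g' : M → M, (∀ x, dist (g' x) (g x) < η) → ∀ i < m, ∀ x,
      dist x (g^[i] p) < 2 * d → ∃ k, g'^[k] x ∈ O := by
  obtain ⟨ε, hε, hεO⟩ := Metric.isOpen_iff.1 hO p hp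
  have key : ∀ j ≤ m, ∃ d : ℝ, 0 < d ∧ ∃ η : ℝ, 0 < η ∧ ∀ g' : M → M,
      (∀ x, dist (g' x) (g x) < η) →
      ∀ i < j, ∀ x, dist x (g^[i] p) < 2 * d → ∃ k, g'^[k] x ∈ O := by
    intro j
    induction j with
    | zero => intro _; exact ⟨1, one_pos, 1, one_pos, fun ψ _ i hi => absurd hi (Nat.not_lt_zero i)⟩
    | succ j ih =>
      intro hj
      obtain ⟨d, hd, η, hη, h⟩ := ih (by omega)
      have hval : g^[m - j] (g^[j] p) = p := by
        rw [← Function.iterate_add_apply, Nat.sub_add_cancel (by omega), hgp]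
      have hc := (hg.iterate (m - j)).continuousAt (x := g^[j] p)
      rw [Metric.continuousAt_iff] at hc
      obtain ⟨δ, hδ, hgδ⟩ := hc (ε / 2) (half_pos hε)
      obtain ⟨η', hη', hψ⟩ := iter_close' hg (m - j) (ε / 2) (half_pos hε)
      refine ⟨min d (δ / 2), lt_min hd (half_pos hδ), min η η', lt_min hη hη', ?_⟩
      intro g' hg' i hi x hx
      rcases Nat.lt_succ_iff_lt_or_eq.1 hi with hi | rfl
      · exact h g' (fun x => (hg' x).trans_le (min_le_left _ _)) i hi x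
          (hx.trans_le (by linarith [min_le_left d (δ / 2)]))
      · refine ⟨m - i, hεO ?_⟩
        have h1 := hψ g' (fun x => (hg' x).trans_le (min_le_right _ _)) x
        have h2 : dist x (g^[i] p) < δ := hx.trans_le (by linarith [min_le_right d (δ / 2)])
        have h3 := hgδ h2
        rw [hval] at h3
        rw [mem_ball]
        calc dist (g'^[m - i] x) p ≤ dist (g'^[m - i] x) (g^[m - i] x)
              + dist (g^[m - i] x) p := dist_triangle _ _ _
          _ < ε := by linarith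
  obtain ⟨d, hd, η, hη, h⟩ := key m le_rfl
  exact ⟨d, hd, η, hη, h⟩

/-- A modification that is trivial near the orbit does not change the iterates near `p`. -/
theorem iter_germ {M : Type} [TopologicalSpace M] {g ψ : M → M} (hg : Continuous g) {m : ℕ}
    {p : M} {Z : Set M} (hZ : IsOpen Z) (hpZ : ∀ i ≤ m, g^[i] p ∈ Z) (hψ : ∀ x ∈ Z, ψ x = x)
    (i : ℕ) (hi : i ≤ m) : ∀ᶠ x in 𝓝 p, (ψ ∘ g)^[i] x = g^[i] x := by
  induction i with
  | zero => exact Eventually.of_forall fun x => rfl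
  | succ i ih =>
    have h1 : ∀ᶠ x in 𝓝 p, g^[i + 1] x ∈ Z :=
      (hg.iterate (i + 1)).continuousAt.preimage_mem_nhds (hZ.mem_nhds (hpZ (i + 1) hi))
    filter_upwards [ih (by omega), h1] with x hx hx1
    rw [Function.iterate_succ_apply', hx, Function.comp_apply,
      ← Function.iterate_succ_apply' g i x, hψ _ hx1]

/-- The derivative of the radial map at the centre. -/
theorem fderiv_rad {n : ℕ} {a : ℝ → ℝ} (ha : ContDiff ℝ ∞ a) (κ ρ : ℝ) :
    HasFDerivAt (rad (n := n) a κ ρ) ((1 - κ * a 0) • ContinuousLinearMap.id ℝ (E n)) 0 := by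
  have h1 : DifferentiableAt ℝ (fun y : E n => 1 - κ * a (‖y‖ ^ 2 / ρ ^ 2)) 0 := by
    have h2 : ContDiff ℝ ∞ (fun y : E n => 1 - κ * a (‖y‖ ^ 2 / ρ ^ 2)) := by
      refine contDiff_const.sub (contDiff_const.mul (ha.comp ?_))
      exact (contDiff_norm_sq ℝ).div_const _
    exact h2.contDiffAt.differentiableAt (by simp)
  have h3 := h1.hasFDerivAt.smul (hasFDerivAt_id (0 : E n))
  refine h3.congr_fderiv ?_
  ext v
  simp

end MAIN_

theorem main3 (hEXT : T_EXT) (hDIFF : T_DIFF) (hVOLM : T_VOLM) (hVOL : T_VOL) (hGLO2 : T_GLO2)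
    (hPROF : T_PROF) (hRAD : T_RAD) (hDEC : T_DEC) (hPERS : T_PERS) (hLYAP2 : T_LYAP2)
    (hORB : T_ORB) (hMEAS2 : T_MEAS2) (hNBD : T_NBD) (hC0C : T_C0C) (hJACC : T_JACC)
    (hSINKC : T_SINKC) (hLINS : T_LINS) (hCHS : T_CHS) (hBAS : T_BAS) : T_MAIN3 := by
  intro n M _ _ _ _ _ _ _ μ s r f U m p e I b hn hr hrs hμ hf hfμ hU hfU hm hfp hmin he hpe hI
    hb hIb hIo
  classical
  obtain ⟨hfin, hpos, hchart⟩ := hVOL n M μ hμ
  have := hfin
  obtain ⟨e₀, he₀, hp₀, h0⟩ := hchart p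
  obtain ⟨hcomp, hmono, hhomeo, hiter⟩ := hDIFF n M s
  obtain ⟨F, hF⟩ := hhomeo f hf
  have hfc : Continuous f := by rw [← hF]; exact F.continuous
  have hs1 : (1 : ℕ∞) ≤ s := le_trans (by exact_mod_cast hr) hrs
  obtain ⟨hI0, ⟨b', hb', hIb'⟩, hIo'⟩ := MAIN_.chart hDIFF he he₀.1 hpe hp₀ h0 (hfc.iterate m)
    hfp hI hb hIb hIo
  set I₀ : E n → ℝ := fun y => I (e (e₀.symm y)) - I (e p) with hI₀
  set Φ : E n → E n := e₀ ∘ f^[m] ∘ e₀.symm with hΦ
  have hs0 : e₀.symm 0 = p := by rw [← h0, e₀.left_inv hp₀]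
  have h0t : (0 : E n) ∈ e₀.target := by rw [← h0]; exact e₀.map_source hp₀
  have hsc : ContinuousAt e₀.symm 0 := e₀.continuousAt_symm h0t
  have hI00 : I₀ 0 = 0 := by simp [hI₀, hs0]
  have hΦ0 : Φ 0 = 0 := by simp [hΦ, hs0, hfp, h0]
  have hΦ1 : ContDiffAt ℝ 1 Φ 0 := by
    have := hiter f m e₀ e₀ p hf he₀.1 he₀.1 hp₀ (by rw [hfp]; exact hp₀)
    rw [h0] at this
    exact this.of_le (by exact_mod_cast hs1)
  have hΦinj := MAIN_.inj hDIFF hs1 hf he₀.1 hp₀ h0 hfp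
  obtain ⟨N, hN, hdec⟩ := hDEC n r Φ I₀ b' hr hΦ0 hΦ1 hΦinj hI0 hI00 hb' hIb' hIo'
  obtain ⟨a, c, κ₀, hprof⟩ := hPROF n N hn hN
  obtain ⟨hradMod, hradNear⟩ := hRAD n N a c κ₀ hN hprof
  obtain ⟨B, hB, hnear⟩ := hradNear r hr
  -- the neighbourhood
  obtain ⟨W, hW, hWi⟩ := MAIN_.local_nbhd hfc hmin
  have hWm : (f^[m]) ⁻¹' e₀.source ∈ 𝓝 p :=
    (hfc.iterate m).continuousAt.preimage_mem_nhds (e₀.open_source.mem_nhds (by rw [hfp]; exact hp₀))
  have hev : {y : E n | y ∈ e₀.target ∧ e₀.symm y ∈ W ∧ f^[m] (e₀.symm y) ∈ e₀.source} ∈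
      𝓝 (0 : E n) := by
    have h1 : ∀ᶠ y in 𝓝 (0 : E n), e₀.symm y ∈ W :=
      hsc.preimage_mem_nhds (by rw [hs0]; exact hW)
    have h2 : ∀ᶠ y in 𝓝 (0 : E n), f^[m] (e₀.symm y) ∈ e₀.source := by
      have : e₀.symm ⁻¹' ((f^[m]) ⁻¹' e₀.source) ∈ 𝓝 (0 : E n) :=
        hsc.preimage_mem_nhds (by rw [hs0]; exact hWm)
      exact this
    filter_upwards [e₀.open_target.mem_nhds h0t, h1, h2] with y hy1 hy2 hy3
    exact ⟨hy1, hy2, hy3⟩
  obtain ⟨σ, hσ, hσW⟩ := Metric.nhds_basis_closedBall.mem_iff.1 hev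
  have hC : closedBall (0 : E n) σ ⊆ e₀.target := fun y hy => (hσW hy).1
  obtain ⟨δ, hδ, hrob⟩ := hU f hfU hf e₀ he₀.1 _ (isCompact_closedBall 0 σ) hC
  obtain ⟨ε, hε, hεκ, hεδ, hε2⟩ : ∃ ε : ℝ, 0 < ε ∧ ε ≤ κ₀ ∧ B * ε ≤ δ ∧ B * ε ≤ 1 / 2 := by
    refine ⟨min κ₀ (min (δ / B) (1 / 2 / B)), ?_, min_le_left _ _, ?_, ?_⟩
    · exact lt_min hprof.κ_pos (lt_min (div_pos hδ hB) (by positivity))
    · calc B * min κ₀ (min (δ / B) (1 / 2 / B)) ≤ B * (δ / B) :=
          mul_le_mul_of_nonneg_left ((min_le_right _ _).trans (min_le_left _ _)) hB.le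
        _ = δ := by field_simp
    · calc B * min κ₀ (min (δ / B) (1 / 2 / B)) ≤ B * (1 / 2 / B) :=
          mul_le_mul_of_nonneg_left ((min_le_right _ _).trans (min_le_right _ _)) hB.le
        _ = 1 / 2 := by field_simp
  obtain ⟨ρ, hρ, hρ1, hρσ, K, hKc, hKσ, hρK, hIK, hKdec⟩ := hdec a c κ₀ hprof ε hε hεκ σ hσ
  have hκ0 : 0 ≤ ε * ρ ^ (r - 1) := by positivity
  have hκ1 : ε * ρ ^ (r - 1) ≤ κ₀ := by
    calc ε * ρ ^ (r - 1) ≤ ε * 1 := mul_le_mul_of_nonneg_left (pow_le_one₀ hρ.le hρ1) hε.le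
      _ ≤ κ₀ := by rw [mul_one]; exact hεκ
  set L : E n → E n := rad a (ε * ρ ^ (r - 1)) ρ with hL
  have hLmod : Mod (closedBall (0 : E n) σ) L :=
    ⟨(hradMod _ ρ hρ).1, fun y hy => (hradMod _ ρ hρ).2 y
      (fun h => hy (closedBall_subset_closedBall hρσ.le h))⟩
  have hLn : Near r (B * ε) L := hnear ρ ε hρ hρ1 hε.le
  have hLnδ : Near r δ L := fun j hj y => (hLn j hj y).trans hεδ
  have hLn1 : Near 1 (1 / 2) L := fun j hj y => (hLn j (hj.trans hr) y).trans hε2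
  have hL0 : L 0 = 0 := by simp [hL, rad]
  obtain ⟨hψRd, hψRs, hψRoff⟩ := hEXT n M e₀ _ L he₀.1 (isCompact_closedBall 0 σ) hC hLmod hLn1
  set ψR : M → M := ext e₀ L with hψR
  set g₀ : M → M := ψR ∘ f with hg₀
  have hg₀U : g₀ ∈ U := hrob L hLmod hLnδ
  have hg₀d : IsDiffeo n s g₀ := hcomp _ _ (hmono _ hψRd) hf
  obtain ⟨G₀, hG₀⟩ := hhomeo g₀ hg₀d
  have hg₀c : Continuous g₀ := by rw [← hG₀]; exact G₀.continuous
  -- iterates of g₀
  have hit : ∀ y ∈ closedBall (0 : E n) σ, ∀ i, i < m →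
      g₀^[i] (e₀.symm y) = f^[i] (e₀.symm y) := by
    intro y hy i
    induction i with
    | zero => intro _; rfl
    | succ i ih =>
      intro hi
      rw [Function.iterate_succ_apply', ih (by omega), hg₀, Function.comp_apply,
        ← Function.iterate_succ_apply' f i (e₀.symm y)]
      refine hψRoff _ ?_
      rintro ⟨y', hy', h⟩
      exact hWi _ (hσW hy).2.1 _ (hσW hy').2.1 (i + 1) (Nat.succ_pos i) hi h.symm
  have hval : ∀ y ∈ closedBall (0 : E n) σ, g₀^[m] (e₀.symm y) = e₀.symm (L (Φ y)) := by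
    intro y hy
    obtain ⟨m', rfl⟩ : ∃ m', m = m' + 1 := ⟨m - 1, by omega⟩
    rw [Function.iterate_succ_apply', hit y hy m' (Nat.lt_succ_self _), hg₀, Function.comp_apply,
      ← Function.iterate_succ_apply' f m' (e₀.symm y)]
    have hz : f^[m' + 1] (e₀.symm y) ∈ e₀.source := (hσW hy).2.2
    obtain ⟨h1, h2⟩ := hψRs _ hz
    rw [← e₀.left_inv h1, h2]
    rfl
  have hKt : K ⊆ e₀.target := fun y hy => hC (ball_subset_closedBall (hKσ hy))
  have hKcb : K ⊆ closedBall 0 σ := fun y hy => ball_subset_closedBall (hKσ hy)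
  set KM : Set M := e₀.symm '' K with hKM
  have hKMc : IsCompact KM := hKc.image_of_continuousOn (e₀.continuousOn_symm.mono hKt)
  have hopen : ∀ O : Set (E n), IsOpen O → O ⊆ e₀.target → IsOpen (e₀.symm '' O) :=
    fun O hO hOt => e₀.symm.isOpen_image_of_subset_source hO hOt
  have hintK : IsOpen (e₀.symm '' interior K) :=
    hopen _ isOpen_interior (interior_subset.trans hKt)
  have hintsub : e₀.symm '' interior K ⊆ interior KM :=
    interior_maximal (image_mono interior_subset) hintK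
  have h0int : (0 : E n) ∈ interior K := hρK (mem_closedBall_self hρ.le)
  have hpint : p ∈ interior KM := hintsub ⟨0, h0int, hs0⟩
  have hpK : p ∈ KM := interior_subset hpint
  have hg₀p : g₀^[m] p = p := by
    have := hval 0 (mem_closedBall_self hσ.le)
    rw [hs0, hΦ0, hL0, hs0] at this
    exact this
  set V : M → ℝ := fun x => I₀ (e₀ x) with hV
  have hVc : ContinuousOn V KM := by
    refine hIK.comp (e₀.continuousOn.mono ?_) ?_
    · rintro _ ⟨y, hy, rfl⟩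
      exact e₀.map_target (hKt hy)
    · rintro _ ⟨y, hy, rfl⟩
      rw [e₀.right_inv (hKt hy)]
      exact hy
  have hgint : ∀ x ∈ KM, g₀^[m] x ∈ interior KM := by
    rintro _ ⟨y, hy, rfl⟩
    rw [hval y (hKcb hy)]
    exact hintsub ⟨_, (hKdec y hy).1, rfl⟩
  have hgV : ∀ x ∈ KM, x ≠ p → V (g₀^[m] x) < V x := by
    rintro _ ⟨y, hy, rfl⟩ hne
    rw [hval y (hKcb hy)]
    have h1 := hKdec y hy
    have hy0 : y ≠ 0 := fun h => hne (by rw [h, hs0])
    simp only [hV]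
    rw [e₀.right_inv (hKt (interior_subset h1.1)), e₀.right_inv (hKt hy)]
    exact h1.2 hy0
  -- the orbit
  set P : Finset M := (Finset.range m).image (fun i => g₀^[i] p) with hP
  have hPne : P.Nonempty := ⟨p, Finset.mem_image.2 ⟨0, Finset.mem_range.2 (by omega), rfl⟩⟩
  obtain ⟨d, hd, η₁, hη₁, hnear'⟩ := MAIN_.near_orbit' hg₀c (m := m) isOpen_interior hpint hg₀p
  set Z : Set M := ⋃ p' ∈ P, ball p' (d / 4) with hZ
  have hZo : IsOpen Z := isOpen_biUnion fun _ _ => isOpen_ball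
  have hZi : ∀ i ≤ m, g₀^[i] p ∈ Z := by
    intro i hi
    rcases Nat.lt_or_ge i m with h | h
    · exact mem_biUnion (Finset.mem_image.2 ⟨i, Finset.mem_range.2 h, rfl⟩)
        (mem_ball_self (by linarith))
    · have : i = m := le_antisymm hi h
      rw [this, hg₀p]
      exact mem_biUnion (Finset.mem_image.2 ⟨0, Finset.mem_range.2 (by omega), rfl⟩)
        (mem_ball_self (by linarith))
  obtain ⟨η₂, hη₂, hpers⟩ := hPERS M g₀ m p KM Z V hg₀c hm hg₀p hKMc hZo hVc hpK hZi hgint hgV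
  set Bs : Set M := e₀.symm '' closedBall (0 : E n) ρ with hBs
  have hρK' : closedBall (0 : E n) ρ ⊆ K := hρK.trans interior_subset
  have hBsc : IsCompact Bs := (isCompact_closedBall 0 ρ).image_of_continuousOn
    (e₀.continuousOn_symm.mono (hρK'.trans hKt))
  have hBsint : Bs ⊆ interior KM := (image_mono hρK).trans hintsub
  obtain ⟨η₃, hη₃, hthick⟩ := hBsc.exists_thickening_subset_open isOpen_interior hBsint
  set η : ℝ := min (min (η₁ / 2) η₂) (min (η₃ / 2) (d / 2)) with hη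
  have hηpos : 0 < η :=
    lt_min (lt_min (half_pos hη₁) hη₂) (lt_min (half_pos hη₃) (half_pos hd))
  obtain ⟨ψ, hψd, hψU, hψη, hψid, θ, hθ, hψexp⟩ := hGLO2 n M μ s r P d hrs hμ hPne hd g₀ U η
    hg₀d hU hg₀U hηpos
  have hη1 : ∀ x, dist (ψ x) x < η₁ / 2 := fun x =>
    (hψη x).trans_le ((min_le_left _ _).trans (min_le_left _ _))
  have hη2 : ∀ x, dist (ψ x) x < η₂ := fun x =>
    (hψη x).trans_le ((min_le_left _ _).trans (min_le_right _ _))
  have hη3 : ∀ x, dist (ψ x) x < η₃ / 2 := fun x =>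
    (hψη x).trans_le ((min_le_right _ _).trans (min_le_left _ _))
  have hηd : ∀ x, dist (ψ x) x < d / 2 := fun x =>
    (hψη x).trans_le ((min_le_right _ _).trans (min_le_right _ _))
  obtain ⟨Gψ, hGψ⟩ := (hDIFF n M ⊤).2.2.1 ψ hψd
  obtain ⟨GR, hGR⟩ := (hDIFF n M ⊤).2.2.1 ψR hψRd
  have hψc : Continuous ψ := by rw [← hGψ]; exact Gψ.continuous
  have hψZ : ∀ x ∈ Z, ψ x = x := by
    intro x hx
    simp only [hZ, mem_iUnion, exists_prop] at hx
    obtain ⟨p', hp', hx⟩ := hx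
    exact hψid x ⟨p', hp', (mem_ball.1 hx).le⟩
  obtain ⟨hq1, hq2, hq3⟩ := hpers ψ hψc hη2 hψZ
  set g : M → M := ψ ∘ g₀ with hg
  have hgd : IsDiffeo n s g := hcomp _ _ (hmono _ hψd) hg₀d
  have hgd1 : IsDiffeo n 1 g := by
    obtain ⟨G, hG⟩ := hgd
    exact ⟨⟨G.toEquiv, G.contMDiff_toFun.of_le (by exact_mod_cast hs1),
      G.contMDiff_invFun.of_le (by exact_mod_cast hs1)⟩, hG⟩
  have hgc : Continuous g := hψc.comp hg₀c
  obtain ⟨Gg, hGg⟩ := hhomeo g hgd
  have hgp : g^[m] p = p := by rw [hq1 m le_rfl, hg₀p]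
  have hgtend : ∀ x ∈ KM, Tendsto (fun k : ℕ => g^[m * k] x) atTop (𝓝 p) :=
    hLYAP2 M g m p KM V hgc hm hgp hKMc hVc hpK (fun x hx => interior_subset (hq2 x hx)) hq3
  -- the derivative at the sink
  have hgerm : e₀ ∘ g^[m] ∘ e₀.symm =ᶠ[𝓝 0] L ∘ Φ := by
    have h1 : ∀ᶠ x in 𝓝 p, g^[m] x = g₀^[m] x := MAIN_.iter_germ hg₀c hZo hZi hψZ m le_rfl
    have h2 : ∀ᶠ y in 𝓝 (0 : E n), g^[m] (e₀.symm y) = g₀^[m] (e₀.symm y) := by
      have := hsc.tendsto
      rw [hs0] at this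
      exact this.eventually h1
    have h3 : ∀ᶠ y in 𝓝 (0 : E n), L (Φ y) ∈ e₀.target := by
      have hc1 : ContinuousAt (L ∘ Φ) 0 := hLmod.1.continuous.continuousAt.comp hΦ1.continuousAt
      refine hc1.preimage_mem_nhds (e₀.open_target.mem_nhds ?_)
      simp only [Function.comp_apply]
      rw [hΦ0, hL0]
      exact h0t
    filter_upwards [h2, h3, closedBall_mem_nhds (0 : E n) hσ] with y hy2 hy3 hy4
    simp only [Function.comp_apply]
    rw [hy2, hval y hy4, e₀.right_inv hy3]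
  set κ : ℝ := ε * ρ ^ (r - 1) with hκ
  have hκpos : 0 < κ := by positivity
  have hIo2 : (fun y => I₀ (Φ y) - I₀ y) =o[𝓝 0] (fun y => ‖y‖ ^ 2) := by
    refine hIo'.trans_isBigO ?_
    refine IsBigO.of_bound 1 ?_
    filter_upwards [closedBall_mem_nhds (0 : E n) one_pos] with y hy
    rw [mem_closedBall_zero_iff] at hy
    rw [norm_pow, norm_pow, norm_norm, one_mul]
    exact pow_le_pow_of_le_one (norm_nonneg _) hy (by omega)
  obtain ⟨S, hS⟩ := hLINS n Φ I₀ b' hΦ0 hΦ1 hI0 hI00 hb' hIb' hIo2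
  set e₁ : OpenPartialHomeomorph M (E n) := e₀.trans S.toHomeomorph.toOpenPartialHomeomorph
    with he₁
  have he₁Ch : e₁ ∈ Ch n M := hCHS n M e₀ S he₀.1
  have hp₁ : p ∈ e₁.source := by simp [he₁, hp₀]
  have he₁p : e₁ p = 0 := by simp [he₁, h0]
  have hfd : HasFDerivAt (e₁ ∘ g^[m] ∘ e₁.symm)
      ((S : E n →L[ℝ] E n) ∘L (((1 - κ * a 0) • ContinuousLinearMap.id ℝ (E n)) ∘L
        fderiv ℝ Φ 0) ∘L (S.symm : E n →L[ℝ] E n)) (e₁ p) := by
    rw [he₁p]
    have h1 : HasFDerivAt (L ∘ Φ) (((1 - κ * a 0) • ContinuousLinearMap.id ℝ (E n)) ∘L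
        fderiv ℝ Φ 0) 0 := by
      refine HasFDerivAt.comp 0 ?_ (hΦ1.differentiableAt (by simp)).hasFDerivAt
      rw [hΦ0]
      exact MAIN_.fderiv_rad hprof.smooth κ ρ
    have h2 : HasFDerivAt (e₀ ∘ g^[m] ∘ e₀.symm) (((1 - κ * a 0) •
        ContinuousLinearMap.id ℝ (E n)) ∘L fderiv ℝ Φ 0) 0 := h1.congr_of_eventuallyEq hgerm
    have h3 : HasFDerivAt ((e₀ ∘ g^[m] ∘ e₀.symm) ∘ S.symm) ((((1 - κ * a 0) •
        ContinuousLinearMap.id ℝ (E n)) ∘L fderiv ℝ Φ 0) ∘L (S.symm : E n →L[ℝ] E n)) 0 := by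
      refine HasFDerivAt.comp 0 ?_ S.symm.hasFDerivAt
      rw [map_zero]
      exact h2
    exact S.hasFDerivAt.comp 0 h3
  have hca : 0 < a 0 := lt_of_lt_of_le hprof.c_pos (hprof.low 0 (by positivity))
  have hκa : κ * a 0 ≤ 1 / 2 := by
    have h1 := hprof.le_one 0
    have h2 := hprof.κ_le
    nlinarith
  have hnorm : ‖fderiv ℝ (e₁ ∘ g^[m] ∘ e₁.symm) (e₁ p)‖ < 1 := by
    rw [hfd.fderiv]
    have h1 : 0 < κ * a 0 := mul_pos hκpos hca
    refine lt_of_le_of_lt (ContinuousLinearMap.opNorm_le_bound _ (M := 1 - κ * a 0)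
      (by linarith) fun v => ?_) (by linarith : 1 - κ * a 0 < 1)
    have h2 := hS (S.symm v)
    simp only [ContinuousLinearMap.comp_apply, ContinuousLinearEquiv.coe_coe,
      _root_.smul_apply, ContinuousLinearMap.id_apply, map_smul, norm_smul]
    rw [h2, S.apply_symm_apply, Real.norm_of_nonneg (by linarith)]
  -- the neighbourhoods
  set δ' : ℝ := θ / (2 * (1 + θ)) with hδ'
  have hδ'0 : 0 < δ' := by positivity
  have hδ'1 : δ' < 1 := by
    rw [hδ', div_lt_one (by positivity)]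
    linarith
  have hδ'2 : 1 < (1 - δ') * (1 + θ) := by
    have : δ' * (1 + θ) = θ / 2 := by rw [hδ']; field_simp
    nlinarith
  set η₄ : ℝ := min (η₁ / 2) (min (η₃ / 2) (d / 2)) with hη₄
  have hη₄pos : 0 < η₄ := lt_min (half_pos hη₁) (lt_min (half_pos hη₃) (half_pos hd))
  obtain ⟨hN1, hN2, -, -⟩ := hNBD n M g
  have hV0 : Nbd n g {g' | IsDiffeo n 1 g'} :=
    ⟨0, fun i => i.elim0, fun i => i.elim0, fun i => i.elim0, 1, one_pos, fun i => i.elim0,
      fun g' hg' _ => hg'⟩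
  have hV1 := hSINKC n M g m p KM e₁ hgd1 hm hgp he₁Ch hp₁ hnorm hKMc hpint hq2 hgtend
  have hV2 := hC0C n M g η₄ hgc hη₄pos
  have hV3 := hJACC n M μ g δ' hμ hgd1 hδ'0 hδ'1
  refine ⟨g, hψU, hgd, hN2 _ _ (hN1 _ _ (hN1 _ _ hV0 hV1) (hN1 _ _ hV2 hV3)) ?_⟩
  rintro g' ⟨⟨hg'd, hK', p', hp'K, hp'm, hp't⟩, hC', hJ'⟩
  obtain ⟨Gg', hGg'⟩ := (hDIFF n M 1).2.2.1 g' hg'd
  have hg'c : Continuous g' := by rw [← hGg']; exact Gg'.continuous
  set Λ : Set M := {y | ∃ i < m, y = g'^[i] p'} with hΛ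
  have hbas : ∀ x, (∃ k, g'^[k] x ∈ KM) → x ∈ basin g' Λ := hBAS M g' m p' KM hg'c hm hp'm hp't
  have hc1 : ∀ x, dist (g' x) (g x) < η₁ / 2 := fun x => (hC' x).trans_le (min_le_left _ _)
  have hc3 : ∀ x, dist (g' x) (g x) < η₃ / 2 := fun x =>
    (hC' x).trans_le ((min_le_right _ _).trans (min_le_left _ _))
  have hcd : ∀ x, dist (g' x) (g x) < d / 2 := fun x =>
    (hC' x).trans_le ((min_le_right _ _).trans (min_le_right _ _))
  have hc0 : ∀ x, dist (g' x) (g₀ x) < η₁ := fun x => by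
    calc dist (g' x) (g₀ x) ≤ dist (g' x) (g x) + dist (ψ (g₀ x)) (g₀ x) := dist_triangle _ _ _
      _ < η₁ := by linarith [hc1 x, hη1 (g₀ x)]
  -- the open set of the points that enter the trap
  set UU : Set M := ⋃ k : ℕ, (g'^[k]) ⁻¹' interior KM with hUU
  have hUUo : IsOpen UU := isOpen_iUnion fun k => isOpen_interior.preimage (hg'c.iterate k)
  have hUUinv : ∀ x, g' x ∈ UU ↔ x ∈ UU := by
    intro x
    simp only [hUU, mem_iUnion, mem_preimage]
    constructor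
    · rintro ⟨k, hk⟩
      exact ⟨k + 1, by rw [Function.iterate_succ_apply]; exact hk⟩
    · rintro ⟨k, hk⟩
      rcases k with _ | k
      · refine ⟨m - 1, ?_⟩
        rw [← Function.iterate_succ_apply, Nat.succ_eq_add_one, Nat.sub_add_cancel hm]
        exact hK' x (interior_subset hk)
      · exact ⟨k, by rw [Function.iterate_succ_apply] at hk; exact hk⟩
  have hnull : μ UUᶜ = 0 := by
    refine hMEAS2 M μ Gg' F Gg GR Gψ UU Bs {y | ∃ p' ∈ P, dist y p' < d} θ δ' hUUo ?_ ?_ ?_ ?_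
      ?_ ?_ ?_ ?_ hθ hδ'0 hδ'1 hδ'2
    · intro x
      rw [hGg, hF, hGR, hGψ]
      rfl
    · intro x
      rw [hGg']
      exact hUUinv x
    · intro x hx
      rw [hF] at hx
      rw [← hUUinv]
      obtain ⟨y, hy, hyx⟩ := hx
      have h1 : ψR (f x) ∈ Bs := by
        have hys : f x ∈ e₀.source := by
          rw [← hyx]; exact e₀.map_target (hKt (hρK' hy))
        obtain ⟨h2, h3⟩ := hψRs _ hys
        refine ⟨L (e₀ (f x)), ?_, ?_⟩
        · rw [← hyx, e₀.right_inv (hKt (hρK' hy))]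
          rw [mem_closedBall_zero_iff] at hy ⊢
          have ha0 := hprof.nonneg (‖y‖ ^ 2 / ρ ^ 2)
          have ha1 := hprof.le_one (‖y‖ ^ 2 / ρ ^ 2)
          have hk2 := hprof.κ_le
          have h4 : 0 ≤ κ * a (‖y‖ ^ 2 / ρ ^ 2) := mul_nonneg hκ0 ha0
          have h5 : κ * a (‖y‖ ^ 2 / ρ ^ 2) ≤ 1 := by nlinarith
          simp only [hL, rad, norm_smul, Real.norm_eq_abs]
          rw [abs_of_nonneg (by linarith)]
          nlinarith [norm_nonneg y]
        · rw [← h3, e₀.left_inv h2]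
      have h2 : g' x ∈ interior KM := by
        refine hthick ?_
        rw [mem_thickening_iff]
        refine ⟨ψR (f x), h1, ?_⟩
        calc dist (g' x) (ψR (f x)) ≤ dist (g' x) (g x) + dist (ψ (ψR (f x))) (ψR (f x)) :=
              dist_triangle _ _ _
          _ < η₃ := by linarith [hc3 x, hη3 (ψR (f x))]
      exact mem_iUnion.2 ⟨0, h2⟩
    · rintro x ⟨p', hp', hx⟩
      rw [hF, hGR] at hx
      rw [← hUUinv]
      obtain ⟨i, hi, rfl⟩ := Finset.mem_image.1 hp'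
      have h1 : dist (g' x) (g₀^[i] p) < 2 * d := by
        calc dist (g' x) (g₀^[i] p) ≤ dist (g' x) (g x) + dist (g x) (g₀^[i] p) :=
              dist_triangle _ _ _
          _ ≤ dist (g' x) (g x) + (dist (ψ (ψR (f x))) (ψR (f x))
              + dist (ψR (f x)) (g₀^[i] p)) := by
                gcongr
                exact dist_triangle _ _ _
          _ < 2 * d := by linarith [hηd (ψR (f x)), hcd x]
      obtain ⟨k, hk⟩ := hnear' g' hc0 i (Finset.mem_range.1 hi) (g' x) h1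
      exact mem_iUnion.2 ⟨k, hk⟩
    · intro A hA
      rw [hF]
      have h1 : MeasurableSet (f '' A) := by
        rw [← hF]; exact (F.toMeasurableEquiv.measurableSet_image).2 hA
      have hinj : Function.Injective f := by rw [← hF]; exact F.injective
      rw [← hfμ.measure_preimage h1.nullMeasurableSet, preimage_image_eq _ hinj]
    · intro A hA hAB
      rw [hGR]
      have h1 := hVOLM n M μ e₀ _ L 1 A he₀ (isCompact_closedBall 0 σ) hC hLmod hLn1 zero_le_one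
        hA (fun x hxA hxs => ?_) (Or.inr le_rfl)
      · simpa using h1
      · refine hprof.det ρ _ hρ hκ0 hκ1 _ ?_
        by_contra hlt
        refine Set.disjoint_left.1 hAB hxA ⟨e₀ x, ?_, e₀.left_inv hxs⟩
        rw [mem_closedBall_zero_iff]
        linarith
    · intro A hA hAD
      rw [hGψ]
      refine hψexp A hA (fun x hx p' hp' => ?_)
      by_contra hlt
      exact Set.disjoint_left.1 hAD hx ⟨p', hp', not_le.1 hlt⟩
    · intro A hA
      rw [hGg, hGg']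
      exact hJ' A hA
  have hUUbas : UU ⊆ basin g' Λ := by
    intro x hx
    obtain ⟨k, hk⟩ := mem_iUnion.1 hx
    exact hbas x ⟨k, interior_subset hk⟩
  have hposb : 0 < μ (basin g' Λ) := by
    refine (hpos (interior KM) isOpen_interior ⟨p, hpint⟩).trans_le (measure_mono ?_)
    refine Subset.trans ?_ hUUbas
    intro x hx
    exact mem_iUnion.2 ⟨0, hx⟩
  refine ⟨Λ, ?_, hORB M μ g' m p' hm hp'm hposb, ?_⟩
  · have : Λ = (fun i => g'^[i] p') '' (Finset.range m : Set ℕ) := by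
      ext y
      simp only [hΛ, mem_ofPred_eq, mem_image, Finset.coe_range, mem_Iio]
      constructor
      · rintro ⟨i, hi, rfl⟩; exact ⟨i, hi, rfl⟩
      · rintro ⟨i, hi, rfl⟩; exact ⟨i, hi, rfl⟩
    rw [this]
    exact (Finset.finite_toSet _).image _
  · exact measure_mono_null (compl_subset_compl.2 hUUbas) hnull

end Pool.Agent.Pal
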