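import Pool.Agent.Pal.FINAL
import Pool.Agent.Pal.MAIN5

/-!
# Assembly, non-hyperbolic periodic points
-/

set_option autoImplicit false

namespace Pool.Agent.Pal

theorem tMAIN5 : T_MAIN5 := main5 tEXT diff1 tVOLP vol twi jac nrs2 tBIRK tMAIN3

end Pool.Agent.Pal
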