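import Pool.Agent.Pal.Targets

/-!
# The theorem in every dimension (job MAIN)
-/

set_option autoImplicit false

open Set MeasureTheory Filter Topology Metric Asymptotics
open scoped Manifold ContDiff

namespace Pool.Agent.Pal

namespace MAIN_

theorem isDiffeo_id {n : ℕ} {M : Type} [TopologicalSpace M] [ChartedSpace (E n) M] (s : ℕ∞) :
    IsDiffeo n s (id : M → M) :=
  ⟨Diffeomorph.refl 𝓘(ℝ, E n) M s, rfl⟩

theorem isDiffeo_inv {n : ℕ} {M : Type} [TopologicalSpace M] [ChartedSpace (E n) M] {s : ℕ∞}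
    {f : M → M} (hf : IsDiffeo n s f) : ∃ f' : M → M, IsDiffeo n s f' ∧
      Function.LeftInverse f' f ∧ Function.RightInverse f' f := by
  obtain ⟨G, rfl⟩ := hf
  exact ⟨G.symm, ⟨G.symm, rfl⟩, G.symm_apply_apply, G.apply_symm_apply⟩

theorem trans_smooth (hDIFF : T_DIFF) {n : ℕ} {M : Type} [TopologicalSpace M]
    [ChartedSpace (E n) M] [IsManifold 𝓘(ℝ, E n) ∞ M] {e e' : OpenPartialHomeomorph M (E n)}
    (he : e ∈ Ch n M) (he' : e' ∈ Ch n M) {x : M} (hx : x ∈ e.source) (hx' : x ∈ e'.source) :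
    ContDiffAt ℝ ∞ (e' ∘ e.symm) (e x) := by
  have h := (hDIFF n M ⊤).2.2.2 id 0 e e' x (isDiffeo_id ⊤) he he' hx hx'
  simpa using h

/-- Change of charts for the integral. -/
theorem chart (hDIFF : T_DIFF) {n : ℕ} {M : Type} [TopologicalSpace M]
    [ChartedSpace (E n) M] [IsManifold 𝓘(ℝ, E n) ∞ M] {e e₀ : OpenPartialHomeomorph M (E n)}
    (he : e ∈ Ch n M) (he₀ : e₀ ∈ Ch n M) {p : M} (hp : p ∈ e.source) (hp₀ : p ∈ e₀.source)
    (h0 : e₀ p = 0) {f : M → M} (hf : Continuous f) (hfp : f p = p) {I : E n → ℝ}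
    (hI : ContDiffAt ℝ ∞ I (e p)) {b : ℝ} (hb : 0 < b)
    (hIb : ∀ᶠ y in 𝓝 (e p), b * ‖y - e p‖ ^ 2 ≤ I y - I (e p)) {k : ℕ}
    (hIo : (fun y => I ((e ∘ f ∘ e.symm) y) - I y) =o[𝓝 (e p)] (fun y => ‖y - e p‖ ^ k)) :
    ContDiffAt ℝ ∞ (fun y => I (e (e₀.symm y)) - I (e p)) 0 ∧
      (∃ b' : ℝ, 0 < b' ∧ ∀ᶠ y in 𝓝 (0 : E n), b' * ‖y‖ ^ 2 ≤ I (e (e₀.symm y)) - I (e p)) ∧
      (fun y => (I (e (e₀.symm ((e₀ ∘ f ∘ e₀.symm) y))) - I (e p)) -
        (I (e (e₀.symm y)) - I (e p))) =o[𝓝 0] (fun y => ‖y‖ ^ k) := by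
  have hs0 : e₀.symm 0 = p := by rw [← h0, e₀.left_inv hp₀]
  have hτ : ContDiffAt ℝ ∞ (e ∘ e₀.symm) 0 := by
    have := trans_smooth hDIFF he₀ he hp₀ hp
    rwa [h0] at this
  have hτ' : ContDiffAt ℝ ∞ (e₀ ∘ e.symm) (e p) := trans_smooth hDIFF he he₀ hp hp₀
  have hτ0 : (e ∘ e₀.symm) 0 = e p := by simp [hs0]
  have h0t : (0 : E n) ∈ e₀.target := by rw [← h0]; exact e₀.map_source hp₀
  have hsc : ContinuousAt e₀.symm 0 := e₀.continuousAt_symm h0t
  have hτc : Tendsto (e ∘ e₀.symm) (𝓝 0) (𝓝 (e p)) := by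
    have := hτ.continuousAt.tendsto
    rwa [hτ0] at this
  -- upper Lipschitz bound
  have hup : (fun y => (e ∘ e₀.symm) y - e p) =O[𝓝 0] (fun y : E n => y) := by
    have := (hτ.differentiableAt (by simp)).isBigO_sub
    simpa [hs0] using this
  have hlow : (fun y : E n => y) =O[𝓝 0] (fun y => (e ∘ e₀.symm) y - e p) := by
    have h1 := (hτ'.differentiableAt (by simp)).isBigO_sub
    have h2 := h1.comp_tendsto hτc
    refine (h2.congr' ?_ (Eventually.of_forall fun y => rfl))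
    have h3 : ∀ᶠ y in 𝓝 (0 : E n), e₀.symm y ∈ e.source :=
      hsc.eventually (e.open_source.mem_nhds (by rw [hs0]; exact hp))
    filter_upwards [h3, e₀.open_target.mem_nhds h0t] with y hy hyt
    simp only [Function.comp_apply]
    rw [e.left_inv hy, e₀.right_inv hyt, e.left_inv hp, h0, sub_zero]
  refine ⟨?_, ?_, ?_⟩
  · have : ContDiffAt ℝ ∞ (I ∘ (e ∘ e₀.symm)) 0 := by
      refine ContDiffAt.comp 0 ?_ hτ
      rw [hτ0]; exact hI
    exact this.sub contDiffAt_const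
  · obtain ⟨C, hC, hCb⟩ := hlow.exists_pos
    rw [IsBigOWith_def] at hCb
    refine ⟨b / C ^ 2, by positivity, ?_⟩
    filter_upwards [hτc.eventually hIb, hCb] with y hy1 hy2
    have h5 : ‖y‖ ^ 2 ≤ C ^ 2 * ‖(e ∘ e₀.symm) y - e p‖ ^ 2 := by
      rw [← mul_pow]
      exact pow_le_pow_left₀ (norm_nonneg _) hy2 2
    calc b / C ^ 2 * ‖y‖ ^ 2 ≤ b / C ^ 2 * (C ^ 2 * ‖(e ∘ e₀.symm) y - e p‖ ^ 2) :=
          mul_le_mul_of_nonneg_left h5 (by positivity)
      _ = b * ‖(e ∘ e₀.symm) y - e p‖ ^ 2 := by field_simp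
      _ ≤ _ := hy1
  · have h1 := hIo.comp_tendsto hτc
    have h2 : ((fun y => ‖y - e p‖ ^ k) ∘ (e ∘ e₀.symm)) =O[𝓝 0] (fun y : E n => ‖y‖ ^ k) := by
      have := hup.norm_norm.pow k
      exact this
    have h3 := h1.trans_isBigO h2
    refine h3.congr' ?_ (Eventually.of_forall fun y => rfl)
    have h4 : ∀ᶠ y in 𝓝 (0 : E n), e₀.symm y ∈ e.source :=
      hsc.eventually (e.open_source.mem_nhds (by rw [hs0]; exact hp))
    have h5 : ∀ᶠ y in 𝓝 (0 : E n), f (e₀.symm y) ∈ e₀.source := by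
      have : Tendsto (fun y => f (e₀.symm y)) (𝓝 0) (𝓝 (f (e₀.symm 0))) :=
        (hf.continuousAt.tendsto.comp hsc.tendsto)
      refine this.eventually (e₀.open_source.mem_nhds ?_)
      rw [hs0, hfp]; exact hp₀
    filter_upwards [h4, h5] with y hy1 hy2
    simp only [Function.comp_apply]
    rw [e.left_inv hy1, e₀.left_inv hy2]
    ring

/-- Iterates of a slightly modified map are close to the iterates. -/
theorem iter_close {M : Type} [MetricSpace M] [CompactSpace M] {g : M → M} (hg : Continuous g)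
    (k : ℕ) : ∀ ε : ℝ, 0 < ε → ∃ η : ℝ, 0 < η ∧ ∀ ψ : M → M, (∀ x, dist (ψ x) x < η) →
      ∀ x, dist ((ψ ∘ g)^[k] x) (g^[k] x) < ε := by
  induction k with
  | zero => intro ε hε; exact ⟨1, one_pos, fun ψ _ x => by simpa using hε⟩
  | succ k ih =>
    intro ε hε
    have huc := CompactSpace.uniformContinuous_of_continuous hg
    rw [Metric.uniformContinuous_iff] at huc
    obtain ⟨δ, hδ, hgδ⟩ := huc (ε / 2) (half_pos hε)
    obtain ⟨η, hη, hψ⟩ := ih δ hδ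
    refine ⟨min η (ε / 2), lt_min hη (half_pos hε), fun ψ h x => ?_⟩
    rw [Function.iterate_succ_apply', Function.iterate_succ_apply']
    have h1 := hψ ψ (fun x => (h x).trans_le (min_le_left _ _)) x
    have h2 := hgδ h1
    have h3 := (h (g ((ψ ∘ g)^[k] x))).trans_le (min_le_right _ _)
    calc dist ((ψ ∘ g) ((ψ ∘ g)^[k] x)) (g (g^[k] x))
        ≤ dist (ψ (g ((ψ ∘ g)^[k] x))) (g ((ψ ∘ g)^[k] x))
          + dist (g ((ψ ∘ g)^[k] x)) (g (g^[k] x)) := dist_triangle _ _ _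
      _ < ε := by linarith

/-- The local picture of a map near a periodic point. -/
theorem local_nbhd {M : Type} [MetricSpace M] {f : M → M} (hf : Continuous f) {m : ℕ} {p : M}
    (hm : ∀ i, 0 < i → i < m → f^[i] p ≠ p) :
    ∃ W ∈ 𝓝 p, ∀ x ∈ W, ∀ x' ∈ W, ∀ i, 0 < i → i < m → f^[i] x ≠ x' := by
  have h : ∀ i, ∃ W ∈ 𝓝 p, 0 < i → i < m → ∀ x ∈ W, ∀ x' ∈ W, f^[i] x ≠ x' := by
    intro i
    by_cases hi : 0 < i ∧ i < m
    · obtain ⟨u, v, hu, hv, hpu, hpv, huv⟩ := t2_separation (hm i hi.1 hi.2)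
      refine ⟨v ∩ (f^[i]) ⁻¹' u, Filter.inter_mem (hv.mem_nhds hpv)
        ((hf.iterate i).continuousAt.preimage_mem_nhds (hu.mem_nhds hpu)), fun _ _ x hx x' hx' h => ?_⟩
      have h1 : f^[i] x ∈ u := hx.2
      rw [h] at h1
      exact Set.disjoint_left.1 huv h1 hx'.1
    · exact ⟨univ, Filter.univ_mem, fun h1 h2 => absurd ⟨h1, h2⟩ hi⟩
  choose W hW hW' using h
  refine ⟨⋂ i ∈ Finset.range m, W i, (Filter.biInter_finset_mem _).2 fun i _ => hW i, ?_⟩
  intro x hx x' hx' i h0 hi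
  have h1 : x ∈ W i := by
    simp only [mem_iInter] at hx
    exact hx i (Finset.mem_range.2 hi)
  have h2 : x' ∈ W i := by
    simp only [mem_iInter] at hx'
    exact hx' i (Finset.mem_range.2 hi)
  exact hW' i h0 hi x h1 x' h2

/-- Points near the orbit of `p` enter the neighbourhood `O` of `p`. -/
theorem near_orbit {M : Type} [MetricSpace M] [CompactSpace M] {g : M → M} (hg : Continuous g)
    {m : ℕ} {p : M} {O : Set M} (hO : IsOpen O) (hp : p ∈ O) (hgp : g^[m] p = p) :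
    ∃ d : ℝ, 0 < d ∧ ∃ η : ℝ, 0 < η ∧ ∀ ψ : M → M, (∀ x, dist (ψ x) x < η) → ∀ i < m, ∀ x,
      dist x (g^[i] p) < 2 * d → ∃ k, (ψ ∘ g)^[k] x ∈ O := by
  obtain ⟨ε, hε, hεO⟩ := Metric.isOpen_iff.1 hO p hp
  have key : ∀ j ≤ m, ∃ d : ℝ, 0 < d ∧ ∃ η : ℝ, 0 < η ∧ ∀ ψ : M → M, (∀ x, dist (ψ x) x < η) →
      ∀ i < j, ∀ x, dist x (g^[i] p) < 2 * d → ∃ k, (ψ ∘ g)^[k] x ∈ O := by
    intro j
    induction j with
    | zero => intro _; exact ⟨1, one_pos, 1, one_pos, fun ψ _ i hi => absurd hi (Nat.not_lt_zero i)⟩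
    | succ j ih =>
      intro hj
      obtain ⟨d, hd, η, hη, h⟩ := ih (by omega)
      have hval : g^[m - j] (g^[j] p) = p := by
        rw [← Function.iterate_add_apply, Nat.sub_add_cancel (by omega), hgp]
      have hc := (hg.iterate (m - j)).continuousAt (x := g^[j] p)
      rw [Metric.continuousAt_iff] at hc
      obtain ⟨δ, hδ, hgδ⟩ := hc (ε / 2) (half_pos hε)
      obtain ⟨η', hη', hψ⟩ := iter_close hg (m - j) (ε / 2) (half_pos hε)
      refine ⟨min d (δ / 2), lt_min hd (half_pos hδ), min η η', lt_min hη hη', ?_⟩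
      intro ψ hψ' i hi x hx
      rcases Nat.lt_succ_iff_lt_or_eq.1 hi with hi | rfl
      · exact h ψ (fun x => (hψ' x).trans_le (min_le_left _ _)) i hi x
          (hx.trans_le (by linarith [min_le_left d (δ / 2)]))
      · refine ⟨m - i, hεO ?_⟩
        have h1 := hψ ψ (fun x => (hψ' x).trans_le (min_le_right _ _)) x
        have h2 : dist x (g^[i] p) < δ := hx.trans_le (by linarith [min_le_right d (δ / 2)])
        have h3 := hgδ h2
        rw [hval] at h3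
        rw [mem_ball]
        calc dist ((ψ ∘ g)^[m - i] x) p ≤ dist ((ψ ∘ g)^[m - i] x) (g^[m - i] x)
              + dist (g^[m - i] x) p := dist_triangle _ _ _
          _ < ε := by linarith
  obtain ⟨d, hd, η, hη, h⟩ := key m le_rfl
  exact ⟨d, hd, η, hη, h⟩

/-- The derivative of the return map is injective. -/
theorem inj (hDIFF : T_DIFF) {n : ℕ} {M : Type} [TopologicalSpace M] [ChartedSpace (E n) M]
    [IsManifold 𝓘(ℝ, E n) ∞ M] {s : ℕ∞} (hs : (1 : ℕ∞) ≤ s) {f : M → M} (hf : IsDiffeo n s f)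
    {e₀ : OpenPartialHomeomorph M (E n)} (he₀ : e₀ ∈ Ch n M) {p : M} (hp₀ : p ∈ e₀.source)
    (h0 : e₀ p = 0) {m : ℕ} (hfp : f^[m] p = p) :
    Function.Injective (fderiv ℝ (e₀ ∘ f^[m] ∘ e₀.symm) 0) := by
  obtain ⟨f', hf', hl, hr⟩ := isDiffeo_inv hf
  obtain ⟨-, -, hhomeo, hiter⟩ := hDIFF n M s
  obtain ⟨F, hF⟩ := hhomeo f hf
  have hfc : Continuous f := by rw [← hF]; exact F.continuous
  have hs0 : e₀.symm 0 = p := by rw [← h0, e₀.left_inv hp₀]
  have h0t : (0 : E n) ∈ e₀.target := by rw [← h0]; exact e₀.map_source hp₀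
  have hs' : ((1 : ℕ∞) : WithTop ℕ∞) ≤ (s : WithTop ℕ∞) := by exact_mod_cast hs
  have hlm : Function.LeftInverse f'^[m] f^[m] := hl.iterate m
  have hf'p : f'^[m] p = p := by
    conv_lhs => rw [← hfp]
    exact hlm p
  have h1 : ContDiffAt ℝ s (e₀ ∘ f^[m] ∘ e₀.symm) 0 := by
    have := hiter f m e₀ e₀ p hf he₀ he₀ hp₀ (by rw [hfp]; exact hp₀)
    rwa [h0] at this
  have h2 : ContDiffAt ℝ s (e₀ ∘ f'^[m] ∘ e₀.symm) 0 := by
    have := hiter f' m e₀ e₀ p hf' he₀ he₀ hp₀ (by rw [hf'p]; exact hp₀)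
    rwa [h0] at this
  have hne : (s : WithTop ℕ∞) ≠ 0 := by
    intro h
    rw [h] at hs'
    exact absurd hs' (by decide)
  have d1 : DifferentiableAt ℝ (e₀ ∘ f^[m] ∘ e₀.symm) 0 := h1.differentiableAt hne
  have d2 : DifferentiableAt ℝ (e₀ ∘ f'^[m] ∘ e₀.symm) 0 := h2.differentiableAt hne
  have hv : (e₀ ∘ f^[m] ∘ e₀.symm) 0 = 0 := by simp [hs0, hfp, h0]
  have hsc : ContinuousAt e₀.symm 0 := e₀.continuousAt_symm h0t
  have hcomp : (e₀ ∘ f'^[m] ∘ e₀.symm) ∘ (e₀ ∘ f^[m] ∘ e₀.symm) =ᶠ[𝓝 0] id := by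
    have h5 : ∀ᶠ y in 𝓝 (0 : E n), f^[m] (e₀.symm y) ∈ e₀.source := by
      have : Tendsto (fun y => f^[m] (e₀.symm y)) (𝓝 0) (𝓝 (f^[m] (e₀.symm 0))) :=
        ((hfc.iterate m).continuousAt.tendsto.comp hsc.tendsto)
      refine this.eventually (e₀.open_source.mem_nhds ?_)
      rw [hs0, hfp]; exact hp₀
    filter_upwards [h5, e₀.open_target.mem_nhds h0t] with y hy hyt
    simp only [Function.comp_apply, id]
    rw [e₀.left_inv hy, hlm (e₀.symm y), e₀.right_inv hyt]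
  have h6 : fderiv ℝ ((e₀ ∘ f'^[m] ∘ e₀.symm) ∘ (e₀ ∘ f^[m] ∘ e₀.symm)) 0
      = ContinuousLinearMap.id ℝ (E n) := by
    rw [hcomp.fderiv_eq, fderiv_id]
  rw [fderiv_comp 0 (by rw [hv]; exact d2) d1] at h6
  intro v w hvw
  have h7 : ∀ v, (fderiv ℝ (e₀ ∘ f'^[m] ∘ e₀.symm) ((e₀ ∘ f^[m] ∘ e₀.symm) 0))
      ((fderiv ℝ (e₀ ∘ f^[m] ∘ e₀.symm) 0) v) = v := fun v => by
    have := congrArg (fun A : E n →L[ℝ] E n => A v) h6
    simpa using this
  rw [← h7 v, ← h7 w, hvw]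

end MAIN_

theorem main1 (hEXT : T_EXT) (hDIFF : T_DIFF) (hVOLM : T_VOLM) (hVOL : T_VOL) (hGLO : T_GLO)
    (hPROF : T_PROF) (hRAD : T_RAD) (hDEC : T_DEC) (hPERS : T_PERS) (hLYAP : T_LYAP)
    (hORB : T_ORB) (hMEAS : T_MEAS) : T_MAIN1 := by
  intro n M _ _ _ _ _ _ _ μ s r f U m p e I b hn hr hrs hμ hf hfμ hU hfU hm hfp hmin he hpe hI
    hb hIb hIo
  classical
  obtain ⟨hfin, hpos, hchart⟩ := hVOL n M μ hμ
  have := hfin
  obtain ⟨e₀, he₀, hp₀, h0⟩ := hchart p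
  obtain ⟨hcomp, hmono, hhomeo, hiter⟩ := hDIFF n M s
  obtain ⟨F, hF⟩ := hhomeo f hf
  have hfc : Continuous f := by rw [← hF]; exact F.continuous
  have hs1 : (1 : ℕ∞) ≤ s := le_trans (by exact_mod_cast hr) hrs
  obtain ⟨hI0, ⟨b', hb', hIb'⟩, hIo'⟩ := MAIN_.chart hDIFF he he₀.1 hpe hp₀ h0 (hfc.iterate m)
    hfp hI hb hIb hIo
  set I₀ : E n → ℝ := fun y => I (e (e₀.symm y)) - I (e p) with hI₀
  set Φ : E n → E n := e₀ ∘ f^[m] ∘ e₀.symm with hΦ
  have hs0 : e₀.symm 0 = p := by rw [← h0, e₀.left_inv hp₀]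
  have h0t : (0 : E n) ∈ e₀.target := by rw [← h0]; exact e₀.map_source hp₀
  have hsc : ContinuousAt e₀.symm 0 := e₀.continuousAt_symm h0t
  have hI00 : I₀ 0 = 0 := by simp [hI₀, hs0]
  have hΦ0 : Φ 0 = 0 := by simp [hΦ, hs0, hfp, h0]
  have hΦ1 : ContDiffAt ℝ 1 Φ 0 := by
    have := hiter f m e₀ e₀ p hf he₀.1 he₀.1 hp₀ (by rw [hfp]; exact hp₀)
    rw [h0] at this
    exact this.of_le (by exact_mod_cast hs1)
  have hΦinj := MAIN_.inj hDIFF hs1 hf he₀.1 hp₀ h0 hfp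
  obtain ⟨N, hN, hdec⟩ := hDEC n r Φ I₀ b' hr hΦ0 hΦ1 hΦinj hI0 hI00 hb' hIb' hIo'
  obtain ⟨a, c, κ₀, hprof⟩ := hPROF n N hn hN
  obtain ⟨hradMod, hradNear⟩ := hRAD n N a c κ₀ hN hprof
  obtain ⟨B, hB, hnear⟩ := hradNear r hr
  -- the neighbourhood
  obtain ⟨W, hW, hWi⟩ := MAIN_.local_nbhd hfc hmin
  have hWm : (f^[m]) ⁻¹' e₀.source ∈ 𝓝 p :=
    (hfc.iterate m).continuousAt.preimage_mem_nhds (e₀.open_source.mem_nhds (by rw [hfp]; exact hp₀))
  have hev : {y : E n | y ∈ e₀.target ∧ e₀.symm y ∈ W ∧ f^[m] (e₀.symm y) ∈ e₀.source} ∈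
      𝓝 (0 : E n) := by
    have h1 : ∀ᶠ y in 𝓝 (0 : E n), e₀.symm y ∈ W :=
      hsc.preimage_mem_nhds (by rw [hs0]; exact hW)
    have h2 : ∀ᶠ y in 𝓝 (0 : E n), f^[m] (e₀.symm y) ∈ e₀.source := by
      have : e₀.symm ⁻¹' ((f^[m]) ⁻¹' e₀.source) ∈ 𝓝 (0 : E n) :=
        hsc.preimage_mem_nhds (by rw [hs0]; exact hWm)
      exact this
    filter_upwards [e₀.open_target.mem_nhds h0t, h1, h2] with y hy1 hy2 hy3
    exact ⟨hy1, hy2, hy3⟩
  obtain ⟨σ, hσ, hσW⟩ := Metric.nhds_basis_closedBall.mem_iff.1 hev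
  have hC : closedBall (0 : E n) σ ⊆ e₀.target := fun y hy => (hσW hy).1
  obtain ⟨δ, hδ, hrob⟩ := hU f hfU hf e₀ he₀.1 _ (isCompact_closedBall 0 σ) hC
  obtain ⟨ε, hε, hεκ, hεδ, hε2⟩ : ∃ ε : ℝ, 0 < ε ∧ ε ≤ κ₀ ∧ B * ε ≤ δ ∧ B * ε ≤ 1 / 2 := by
    refine ⟨min κ₀ (min (δ / B) (1 / 2 / B)), ?_, min_le_left _ _, ?_, ?_⟩
    · exact lt_min hprof.κ_pos (lt_min (div_pos hδ hB) (by positivity))
    · calc B * min κ₀ (min (δ / B) (1 / 2 / B)) ≤ B * (δ / B) :=
          mul_le_mul_of_nonneg_left ((min_le_right _ _).trans (min_le_left _ _)) hB.le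
        _ = δ := by field_simp
    · calc B * min κ₀ (min (δ / B) (1 / 2 / B)) ≤ B * (1 / 2 / B) :=
          mul_le_mul_of_nonneg_left ((min_le_right _ _).trans (min_le_right _ _)) hB.le
        _ = 1 / 2 := by field_simp
  obtain ⟨ρ, hρ, hρ1, hρσ, K, hKc, hKσ, hρK, hIK, hKdec⟩ := hdec a c κ₀ hprof ε hε hεκ σ hσ
  have hκ0 : 0 ≤ ε * ρ ^ (r - 1) := by positivity
  have hκ1 : ε * ρ ^ (r - 1) ≤ κ₀ := by
    calc ε * ρ ^ (r - 1) ≤ ε * 1 := mul_le_mul_of_nonneg_left (pow_le_one₀ hρ.le hρ1) hε.le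
      _ ≤ κ₀ := by rw [mul_one]; exact hεκ
  set L : E n → E n := rad a (ε * ρ ^ (r - 1)) ρ with hL
  have hLmod : Mod (closedBall (0 : E n) σ) L :=
    ⟨(hradMod _ ρ hρ).1, fun y hy => (hradMod _ ρ hρ).2 y
      (fun h => hy (closedBall_subset_closedBall hρσ.le h))⟩
  have hLn : Near r (B * ε) L := hnear ρ ε hρ hρ1 hε.le
  have hLnδ : Near r δ L := fun j hj y => (hLn j hj y).trans hεδ
  have hLn1 : Near 1 (1 / 2) L := fun j hj y => (hLn j (hj.trans hr) y).trans hε2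
  have hL0 : L 0 = 0 := by simp [hL, rad]
  obtain ⟨hψRd, hψRs, hψRoff⟩ := hEXT n M e₀ _ L he₀.1 (isCompact_closedBall 0 σ) hC hLmod hLn1
  set ψR : M → M := ext e₀ L with hψR
  set g₀ : M → M := ψR ∘ f with hg₀
  have hg₀U : g₀ ∈ U := hrob L hLmod hLnδ
  have hg₀d : IsDiffeo n s g₀ := hcomp _ _ (hmono _ hψRd) hf
  obtain ⟨G₀, hG₀⟩ := hhomeo g₀ hg₀d
  have hg₀c : Continuous g₀ := by rw [← hG₀]; exact G₀.continuous
  -- iterates of g₀
  have hit : ∀ y ∈ closedBall (0 : E n) σ, ∀ i, i < m →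
      g₀^[i] (e₀.symm y) = f^[i] (e₀.symm y) := by
    intro y hy i
    induction i with
    | zero => intro _; rfl
    | succ i ih =>
      intro hi
      rw [Function.iterate_succ_apply', ih (by omega), hg₀, Function.comp_apply,
        ← Function.iterate_succ_apply' f i (e₀.symm y)]
      refine hψRoff _ ?_
      rintro ⟨y', hy', h⟩
      exact hWi _ (hσW hy).2.1 _ (hσW hy').2.1 (i + 1) (Nat.succ_pos i) hi h.symm
  have hval : ∀ y ∈ closedBall (0 : E n) σ, g₀^[m] (e₀.symm y) = e₀.symm (L (Φ y)) := by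
    intro y hy
    obtain ⟨m', rfl⟩ : ∃ m', m = m' + 1 := ⟨m - 1, by omega⟩
    rw [Function.iterate_succ_apply', hit y hy m' (Nat.lt_succ_self _), hg₀, Function.comp_apply,
      ← Function.iterate_succ_apply' f m' (e₀.symm y)]
    have hz : f^[m' + 1] (e₀.symm y) ∈ e₀.source := (hσW hy).2.2
    obtain ⟨h1, h2⟩ := hψRs _ hz
    rw [← e₀.left_inv h1, h2]
    rfl
  have hKt : K ⊆ e₀.target := fun y hy => hC (ball_subset_closedBall (hKσ hy))
  have hKcb : K ⊆ closedBall 0 σ := fun y hy => ball_subset_closedBall (hKσ hy)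
  set KM : Set M := e₀.symm '' K with hKM
  have hKMc : IsCompact KM := hKc.image_of_continuousOn (e₀.continuousOn_symm.mono hKt)
  have hopen : ∀ O : Set (E n), IsOpen O → O ⊆ e₀.target → IsOpen (e₀.symm '' O) :=
    fun O hO hOt => e₀.symm.isOpen_image_of_subset_source hO hOt
  have hintK : IsOpen (e₀.symm '' interior K) :=
    hopen _ isOpen_interior (interior_subset.trans hKt)
  have hintsub : e₀.symm '' interior K ⊆ interior KM :=
    interior_maximal (image_mono interior_subset) hintK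
  have h0int : (0 : E n) ∈ interior K := hρK (mem_closedBall_self hρ.le)
  have hpint : p ∈ interior KM := hintsub ⟨0, h0int, hs0⟩
  have hpK : p ∈ KM := interior_subset hpint
  have hg₀p : g₀^[m] p = p := by
    have := hval 0 (mem_closedBall_self hσ.le)
    rw [hs0, hΦ0, hL0, hs0] at this
    exact this
  set V : M → ℝ := fun x => I₀ (e₀ x) with hV
  have hVc : ContinuousOn V KM := by
    refine hIK.comp (e₀.continuousOn.mono ?_) ?_
    · rintro _ ⟨y, hy, rfl⟩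
      exact e₀.map_target (hKt hy)
    · rintro _ ⟨y, hy, rfl⟩
      rw [e₀.right_inv (hKt hy)]
      exact hy
  have hgint : ∀ x ∈ KM, g₀^[m] x ∈ interior KM := by
    rintro _ ⟨y, hy, rfl⟩
    rw [hval y (hKcb hy)]
    exact hintsub ⟨_, (hKdec y hy).1, rfl⟩
  have hgV : ∀ x ∈ KM, x ≠ p → V (g₀^[m] x) < V x := by
    rintro _ ⟨y, hy, rfl⟩ hne
    rw [hval y (hKcb hy)]
    have h1 := hKdec y hy
    have hy0 : y ≠ 0 := fun h => hne (by rw [h, hs0])
    simp only [hV]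
    rw [e₀.right_inv (hKt (interior_subset h1.1)), e₀.right_inv (hKt hy)]
    exact h1.2 hy0
  -- the orbit
  set P : Finset M := (Finset.range m).image (fun i => g₀^[i] p) with hP
  have hPne : P.Nonempty := ⟨p, Finset.mem_image.2 ⟨0, Finset.mem_range.2 (by omega), rfl⟩⟩
  obtain ⟨d, hd, η₁, hη₁, hnear'⟩ := MAIN_.near_orbit hg₀c (m := m) isOpen_interior hpint hg₀p
  set Z : Set M := ⋃ p' ∈ P, ball p' (d / 4) with hZ
  have hZo : IsOpen Z := isOpen_biUnion fun _ _ => isOpen_ball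
  have hZi : ∀ i ≤ m, g₀^[i] p ∈ Z := by
    intro i hi
    rcases Nat.lt_or_ge i m with h | h
    · exact mem_biUnion (Finset.mem_image.2 ⟨i, Finset.mem_range.2 h, rfl⟩)
        (mem_ball_self (by linarith))
    · have : i = m := le_antisymm hi h
      rw [this, hg₀p]
      exact mem_biUnion (Finset.mem_image.2 ⟨0, Finset.mem_range.2 (by omega), rfl⟩)
        (mem_ball_self (by linarith))
  obtain ⟨η₂, hη₂, hpers⟩ := hPERS M g₀ m p KM Z V hg₀c hm hg₀p hKMc hZo hVc hpK hZi hgint hgV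
  set Bs : Set M := e₀.symm '' closedBall (0 : E n) ρ with hBs
  have hρK' : closedBall (0 : E n) ρ ⊆ K := hρK.trans interior_subset
  have hBsc : IsCompact Bs := (isCompact_closedBall 0 ρ).image_of_continuousOn
    (e₀.continuousOn_symm.mono (hρK'.trans hKt))
  have hBsint : Bs ⊆ interior KM := (image_mono hρK).trans hintsub
  obtain ⟨η₃, hη₃, hthick⟩ := hBsc.exists_thickening_subset_open isOpen_interior hBsint
  set η : ℝ := min (min η₁ η₂) (min η₃ d) with hη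
  have hηpos : 0 < η := lt_min (lt_min hη₁ hη₂) (lt_min hη₃ hd)
  obtain ⟨ψ, hψd, hψU, hψη, hψid, hψexp⟩ := hGLO n M μ s r P d hrs hμ hPne hd g₀ U η hg₀d hU
    hg₀U hηpos
  have hη1 : ∀ x, dist (ψ x) x < η₁ := fun x =>
    (hψη x).trans_le ((min_le_left _ _).trans (min_le_left _ _))
  have hη2 : ∀ x, dist (ψ x) x < η₂ := fun x =>
    (hψη x).trans_le ((min_le_left _ _).trans (min_le_right _ _))
  have hη3 : ∀ x, dist (ψ x) x < η₃ := fun x =>
    (hψη x).trans_le ((min_le_right _ _).trans (min_le_left _ _))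
  have hηd : ∀ x, dist (ψ x) x < d := fun x =>
    (hψη x).trans_le ((min_le_right _ _).trans (min_le_right _ _))
  obtain ⟨Gψ, hGψ⟩ := (hDIFF n M ⊤).2.2.1 ψ hψd
  obtain ⟨GR, hGR⟩ := (hDIFF n M ⊤).2.2.1 ψR hψRd
  have hψc : Continuous ψ := by rw [← hGψ]; exact Gψ.continuous
  have hψZ : ∀ x ∈ Z, ψ x = x := by
    intro x hx
    simp only [hZ, mem_iUnion, exists_prop] at hx
    obtain ⟨p', hp', hx⟩ := hx
    exact hψid x ⟨p', hp', (mem_ball.1 hx).le⟩
  obtain ⟨hq1, hq2, hq3⟩ := hpers ψ hψc hη2 hψZ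
  set g : M → M := ψ ∘ g₀ with hg
  have hgd : IsDiffeo n s g := hcomp _ _ (hmono _ hψd) hg₀d
  have hgc : Continuous g := hψc.comp hg₀c
  have hgp : g^[m] p = p := by rw [hq1 m le_rfl, hg₀p]
  set Λ : Set M := {y | ∃ i < m, y = g^[i] p} with hΛ
  have hbas : ∀ x, (∃ k, g^[k] x ∈ KM) → x ∈ basin g Λ :=
    hLYAP M g m p KM V hgc hm hgp hKMc hVc hpK (fun x hx => interior_subset (hq2 x hx)) hq3
  -- the open set of the points that enter the trap
  set UU : Set M := ⋃ k : ℕ, (g^[k]) ⁻¹' interior KM with hUU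
  have hUUo : IsOpen UU := isOpen_iUnion fun k => isOpen_interior.preimage (hgc.iterate k)
  have hUUinv : ∀ x, g x ∈ UU ↔ x ∈ UU := by
    intro x
    simp only [hUU, mem_iUnion, mem_preimage]
    constructor
    · rintro ⟨k, hk⟩
      exact ⟨k + 1, by rw [Function.iterate_succ_apply]; exact hk⟩
    · rintro ⟨k, hk⟩
      rcases k with _ | k
      · refine ⟨m - 1, ?_⟩
        rw [← Function.iterate_succ_apply, Nat.succ_eq_add_one, Nat.sub_add_cancel hm]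
        exact hq2 x (interior_subset hk)
      · exact ⟨k, by rw [Function.iterate_succ_apply] at hk; exact hk⟩
  have hnull : μ UUᶜ = 0 := by
    refine hMEAS M μ F GR Gψ UU Bs {y | ∃ p' ∈ P, dist y p' < d} hUUo ?_ ?_ ?_ ?_ ?_ ?_
    · intro x
      rw [hF, hGR, hGψ]
      exact hUUinv x
    · intro x hx
      rw [hF] at hx
      rw [← hUUinv]
      obtain ⟨y, hy, hyx⟩ := hx
      have h1 : ψR (f x) ∈ Bs := by
        have hys : f x ∈ e₀.source := by
          rw [← hyx]; exact e₀.map_target (hKt (hρK' hy))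
        obtain ⟨h2, h3⟩ := hψRs _ hys
        refine ⟨L (e₀ (f x)), ?_, ?_⟩
        · rw [← hyx, e₀.right_inv (hKt (hρK' hy))]
          rw [mem_closedBall_zero_iff] at hy ⊢
          have ha0 := hprof.nonneg (‖y‖ ^ 2 / ρ ^ 2)
          have ha1 := hprof.le_one (‖y‖ ^ 2 / ρ ^ 2)
          have hk2 := hprof.κ_le
          have h4 : 0 ≤ ε * ρ ^ (r - 1) * a (‖y‖ ^ 2 / ρ ^ 2) := mul_nonneg hκ0 ha0
          have h5 : ε * ρ ^ (r - 1) * a (‖y‖ ^ 2 / ρ ^ 2) ≤ 1 := by nlinarith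
          simp only [hL, rad, norm_smul, Real.norm_eq_abs]
          rw [abs_of_nonneg (by linarith)]
          nlinarith [norm_nonneg y]
        · rw [← h3, e₀.left_inv h2]
      have h2 : g x ∈ interior KM := by
        refine hthick ?_
        rw [mem_thickening_iff]
        exact ⟨ψR (f x), h1, hη3 _⟩
      exact mem_iUnion.2 ⟨0, h2⟩
    · rintro x ⟨p', hp', hx⟩
      rw [hF, hGR] at hx
      rw [← hUUinv]
      obtain ⟨i, hi, rfl⟩ := Finset.mem_image.1 hp'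
      have h1 : dist (g x) (g₀^[i] p) < 2 * d := by
        calc dist (g x) (g₀^[i] p) ≤ dist (ψ (ψR (f x))) (ψR (f x))
              + dist (ψR (f x)) (g₀^[i] p) := dist_triangle _ _ _
          _ < 2 * d := by linarith [hηd (ψR (f x))]
      obtain ⟨k, hk⟩ := hnear' ψ hη1 i (Finset.mem_range.1 hi) (g x) h1
      exact mem_iUnion.2 ⟨k, hk⟩
    · intro A hA
      rw [hF]
      have h1 : MeasurableSet (f '' A) := by
        rw [← hF]; exact (F.toMeasurableEquiv.measurableSet_image).2 hA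
      have hinj : Function.Injective f := by rw [← hF]; exact F.injective
      rw [← hfμ.measure_preimage h1.nullMeasurableSet, preimage_image_eq _ hinj]
    · intro A hA hAB
      rw [hGR]
      have h1 := hVOLM n M μ e₀ _ L 1 A he₀ (isCompact_closedBall 0 σ) hC hLmod hLn1 zero_le_one
        hA (fun x hxA hxs => ?_) (Or.inr le_rfl)
      · simpa using h1
      · refine hprof.det ρ _ hρ hκ0 hκ1 _ ?_
        by_contra hlt
        refine Set.disjoint_left.1 hAB hxA ⟨e₀ x, ?_, e₀.left_inv hxs⟩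
        rw [mem_closedBall_zero_iff]
        linarith
    · intro A hA hAD hpos'
      rw [hGψ]
      refine hψexp A hA (fun x hx p' hp' => ?_) hpos'
      by_contra hlt
      exact Set.disjoint_left.1 hAD hx ⟨p', hp', not_le.1 hlt⟩
  have hUUbas : UU ⊆ basin g Λ := by
    intro x hx
    obtain ⟨k, hk⟩ := mem_iUnion.1 hx
    exact hbas x ⟨k, interior_subset hk⟩
  have hposb : 0 < μ (basin g Λ) := by
    refine (hpos (interior KM) isOpen_interior ⟨p, hpint⟩).trans_le (measure_mono ?_)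
    refine Subset.trans ?_ hUUbas
    intro x hx
    exact mem_iUnion.2 ⟨0, hx⟩
  refine ⟨g, hψU, hgd, Λ, ?_, hORB M μ g m p hm hgp hposb, ?_⟩
  · have : Λ = (fun i => g^[i] p) '' (Finset.range m : Set ℕ) := by
      ext y
      simp only [hΛ, mem_ofPred_eq, mem_image, Finset.coe_range, mem_Iio]
      constructor
      · rintro ⟨i, hi, rfl⟩; exact ⟨i, hi, rfl⟩
      · rintro ⟨i, hi, rfl⟩; exact ⟨i, hi, rfl⟩
    rw [this]
    exact (Finset.finite_toSet _).image _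
  · exact measure_mono_null (compl_subset_compl.2 hUUbas) hnull

end Pool.Agent.Pal
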