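import Pool.Agent.Pal.MAIN1
import Pool.Agent.Pal.BIRK

/-!
# The theorem for surfaces (job MAIN)
-/

set_option autoImplicit false

open Set MeasureTheory Filter Topology Metric Asymptotics
open scoped Manifold ContDiff

namespace Pool.Agent.Pal

namespace MAIN_

/-- A map read in a chart. -/
def rd {n : ℕ} {M : Type} [TopologicalSpace M] [ChartedSpace (E n) M]
    (e : OpenPartialHomeomorph M (E n)) (g : M → M) : E n → E n := e ∘ g ∘ e.symm

theorem ev_source {n : ℕ} {M : Type} [TopologicalSpace M] [ChartedSpace (E n) M]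
    {e e' : OpenPartialHomeomorph M (E n)} {p : M} (hp : p ∈ e.source)
    {g : M → M} (hg : Continuous g) (hgp : g p ∈ e'.source) :
    ∀ᶠ y in 𝓝 (e p), g (e.symm y) ∈ e'.source := by
  have hsc : ContinuousAt e.symm (e p) := e.continuousAt_symm (e.map_source hp)
  have : Tendsto (fun y => g (e.symm y)) (𝓝 (e p)) (𝓝 (g (e.symm (e p)))) :=
    hg.continuousAt.tendsto.comp hsc.tendsto
  refine this.eventually (e'.open_source.mem_nhds ?_)
  rw [e.left_inv hp]; exact hgp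

theorem rd_comp {n : ℕ} {M : Type} [TopologicalSpace M] [ChartedSpace (E n) M]
    {e : OpenPartialHomeomorph M (E n)} {p : M} (hp : p ∈ e.source)
    {g h : M → M} (hh : Continuous h) (hhp : h p = p) :
    rd e (g ∘ h) =ᶠ[𝓝 (e p)] rd e g ∘ rd e h := by
  filter_upwards [ev_source hp hh (e' := e) (by rw [hhp]; exact hp)] with y hy
  simp only [rd, Function.comp_apply]
  rw [e.left_inv hy]

/-- The derivative of an iterate. -/
theorem rd_pow {n : ℕ} {M : Type} [TopologicalSpace M] [ChartedSpace (E n) M]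
    {e : OpenPartialHomeomorph M (E n)} {p : M} (hp : p ∈ e.source)
    {g : M → M} (hg : Continuous g) (hgp : g p = p) (hd : DifferentiableAt ℝ (rd e g) (e p))
    (j : ℕ) : HasFDerivAt (rd e g^[j]) ((fderiv ℝ (rd e g) (e p)) ^ j) (e p) := by
  have hfix : rd e g (e p) = e p := by simp [rd, e.left_inv hp, hgp]
  induction j with
  | zero =>
    have : rd e g^[0] =ᶠ[𝓝 (e p)] id := by
      filter_upwards [e.open_target.mem_nhds (e.map_source hp)] with y hy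
      simp [rd, e.right_inv hy]
    rw [pow_zero]
    exact (hasFDerivAt_id (e p)).congr_of_eventuallyEq this
  | succ j ih =>
    have hjp : g^[j] p = p := Function.iterate_fixed hgp j
    have hv : rd e g^[j] (e p) = e p := by simp [rd, e.left_inv hp, hjp]
    have h1 : rd e g^[j + 1] =ᶠ[𝓝 (e p)] rd e g ∘ rd e g^[j] := by
      rw [Function.iterate_succ']
      exact rd_comp hp (hg.iterate j) hjp
    have h2 : HasFDerivAt (rd e g ∘ rd e g^[j])
        ((fderiv ℝ (rd e g) (e p)) ∘L (fderiv ℝ (rd e g) (e p)) ^ j) (e p) := by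
      refine HasFDerivAt.comp (e p) ?_ ih
      rw [hv]
      exact hd.hasFDerivAt
    rw [pow_succ']
    exact h2.congr_of_eventuallyEq h1

/-- Ellipticity passes to the derivative of the first return in another chart. -/
theorem noreal (hDIFF : T_DIFF) {n : ℕ} {M : Type} [TopologicalSpace M] [ChartedSpace (E n) M]
    [IsManifold 𝓘(ℝ, E n) ∞ M] {e e₀ : OpenPartialHomeomorph M (E n)} (he : e ∈ Ch n M)
    (he₀ : e₀ ∈ Ch n M) {p : M} (hp : p ∈ e.source) (hp₀ : p ∈ e₀.source) {g : M → M}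
    (hg : Continuous g) (hgp : g p = p) (hd : DifferentiableAt ℝ (rd e₀ g) (e₀ p)) (j : ℕ)
    (hE : DifferentiableAt ℝ (rd e g^[j]) (e p))
    (h : NoRealEigenvalue (fderiv ℝ (rd e g^[j]) (e p))) :
    NoRealEigenvalue (fderiv ℝ (rd e₀ g) (e₀ p)) := by
  have hτ : ContDiffAt ℝ ∞ (e ∘ e₀.symm) (e₀ p) := trans_smooth hDIFF he₀ he hp₀ hp
  have hτ' : ContDiffAt ℝ ∞ (e₀ ∘ e.symm) (e p) := trans_smooth hDIFF he he₀ hp hp₀
  have dτ : HasFDerivAt (e ∘ e₀.symm) (fderiv ℝ (e ∘ e₀.symm) (e₀ p)) (e₀ p) :=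
    (hτ.differentiableAt (by simp)).hasFDerivAt
  have dτ' : HasFDerivAt (e₀ ∘ e.symm) (fderiv ℝ (e₀ ∘ e.symm) (e p)) (e p) :=
    (hτ'.differentiableAt (by simp)).hasFDerivAt
  set D := fderiv ℝ (e ∘ e₀.symm) (e₀ p) with hD
  set D' := fderiv ℝ (e₀ ∘ e.symm) (e p) with hD'
  have hτp : (e ∘ e₀.symm) (e₀ p) = e p := by simp [e₀.left_inv hp₀]
  have hτp' : (e₀ ∘ e.symm) (e p) = e₀ p := by simp [e.left_inv hp]
  -- D' ∘ D = id
  have h1 : D' ∘L D = ContinuousLinearMap.id ℝ (E n) := by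
    have h2 : HasFDerivAt ((e₀ ∘ e.symm) ∘ (e ∘ e₀.symm)) (D' ∘L D) (e₀ p) := by
      refine HasFDerivAt.comp (e₀ p) ?_ dτ
      rw [hτp]; exact dτ'
    have h3 : (e₀ ∘ e.symm) ∘ (e ∘ e₀.symm) =ᶠ[𝓝 (e₀ p)] id := by
      filter_upwards [ev_source hp₀ continuous_id (e' := e) hp,
        e₀.open_target.mem_nhds (e₀.map_source hp₀)] with y hy hyt
      simp only [Function.comp_apply, id] at hy ⊢
      rw [e.left_inv hy, e₀.right_inv hyt]
    exact h2.unique ((hasFDerivAt_id (e₀ p)).congr_of_eventuallyEq h3)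
  -- the conjugacy
  set A := fderiv ℝ (rd e₀ g) (e₀ p) with hA
  set Bj := fderiv ℝ (rd e g^[j]) (e p) with hB
  have hjp : g^[j] p = p := Function.iterate_fixed hgp j
  have hAj : HasFDerivAt (rd e₀ g^[j]) (A ^ j) (e₀ p) := rd_pow hp₀ hg hgp hd j
  have h4 : Bj ∘L D = D ∘L A ^ j := by
    have h5 : HasFDerivAt (rd e g^[j] ∘ (e ∘ e₀.symm)) (Bj ∘L D) (e₀ p) := by
      refine HasFDerivAt.comp (e₀ p) ?_ dτ
      rw [hτp]; exact hE.hasFDerivAt
    have h6 : HasFDerivAt ((e ∘ e₀.symm) ∘ rd e₀ g^[j]) (D ∘L A ^ j) (e₀ p) := by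
      refine HasFDerivAt.comp (e₀ p) ?_ hAj
      have : rd e₀ g^[j] (e₀ p) = e₀ p := by simp [rd, e₀.left_inv hp₀, hjp]
      rw [this]; exact dτ
    have h7 : rd e g^[j] ∘ (e ∘ e₀.symm) =ᶠ[𝓝 (e₀ p)] (e ∘ e₀.symm) ∘ rd e₀ g^[j] := by
      filter_upwards [ev_source hp₀ continuous_id (e' := e) hp,
        ev_source hp₀ (hg.iterate j) (e' := e₀) (by rw [hjp]; exact hp₀)] with y hy hy2
      simp only [rd, Function.comp_apply, id] at hy hy2 ⊢
      rw [e.left_inv hy, e₀.left_inv hy2]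
    exact (h5.congr_of_eventuallyEq h7.symm).unique h6
  intro v hv c hc
  have hpow : ∀ i : ℕ, (A ^ i) v = c ^ i • v := by
    intro i
    induction i with
    | zero => simp
    | succ i ih =>
      rw [pow_succ', mul_apply_eq_comp, ih, map_smul, hc, smul_smul, pow_succ]
  have hDv : D v ≠ 0 := by
    intro h0
    have h8 := congrArg (fun T : E n →L[ℝ] E n => T v) h1
    simp only [ContinuousLinearMap.comp_apply, h0, map_zero, ContinuousLinearMap.id_apply] at h8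
    exact hv h8.symm
  refine h (D v) hDv (c ^ j) ?_
  have h9 := congrArg (fun T : E n →L[ℝ] E n => T v) h4
  simp only [ContinuousLinearMap.comp_apply] at h9
  rw [h9, hpow, map_smul]

/-- A measure preserving map read in a unimodular chart preserves the volume. -/
theorem volpres {n : ℕ} {M : Type} [TopologicalSpace M] [ChartedSpace (E n) M]
    [MeasurableSpace M] [BorelSpace M] {μ : Measure M} {e : OpenPartialHomeomorph M (E n)}
    (he : Uni μ e) (g : M ≃ₜ M) (hg : MeasurePreserving g μ μ) {U : Set (E n)}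
    (hU : U ⊆ e.target) (hgU : ∀ y ∈ U, g (e.symm y) ∈ e.source) (A : Set (E n)) (hA : A ⊆ U)
    (hAm : MeasurableSet A) : volume (rd e g '' A) = volume A := by
  have hAt : A ⊆ e.target := hA.trans hU
  have hm1 : MeasurableSet (e.symm '' A) := by
    have h1 : e.symm '' A = e.source ∩ e ⁻¹' A := by
      rw [← e.symm_image_eq_source_inter_preimage hAt]
    rw [h1]
    have h2 : Measurable (e.source.domRestrict e) := (continuousOn_iff_continuous_domRestrict.1 e.continuousOn).measurable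
    have h3 := h2 hAm
    have h4 : e.source ∩ e ⁻¹' A = Subtype.val '' (e.source.domRestrict e ⁻¹' A) := by
      ext x
      constructor
      · rintro ⟨hx1, hx2⟩
        exact ⟨⟨x, hx1⟩, hx2, rfl⟩
      · rintro ⟨⟨x, hx1⟩, hx2, rfl⟩
        exact ⟨hx1, hx2⟩
    rw [h4]
    exact (MeasurableEmbedding.subtype_coe e.open_source.measurableSet).measurableSet_image.2 h3
  have hm2 : MeasurableSet (g '' (e.symm '' A)) := (g.toMeasurableEquiv.measurableSet_image).2 hm1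
  have hs1 : e.symm '' A ⊆ e.source := by
    rintro _ ⟨y, hy, rfl⟩; exact e.map_target (hAt hy)
  have hs2 : g '' (e.symm '' A) ⊆ e.source := by
    rintro _ ⟨_, ⟨y, hy, rfl⟩, rfl⟩; exact hgU y (hA hy)
  have h1 : rd e g '' A = e '' (g '' (e.symm '' A)) := by
    rw [rd, image_comp, image_comp]
  rw [h1, ← he.2 _ hs2 hm2]
  have h2 : e '' (e.symm '' A) = A := by
    rw [← image_comp]
    refine (image_congr fun y hy => ?_).trans (image_id A)
    simp [e.right_inv (hAt hy)]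
  conv_rhs => rw [← h2, ← he.2 _ hs1 hm1]
  rw [← hg.measure_preimage hm2.nullMeasurableSet, preimage_image_eq _ g.injective]

end MAIN_

theorem main2 (hEXT : T_EXT) (hDIFF : T_DIFF) (hVOLP : T_VOLP) (hVOL : T_VOL) (hTWI : T_TWI)
    (hJAC : T_JAC) (hNONRES : T_NONRES) (hBIRK : T_BIRK) (hMAIN1 : T_MAIN1) : T_MAIN2 := by
  intro M _ _ _ _ _ _ _ μ s r f U m p e hr hrs hμ hf hfμ hU hfU hm hfp he hpe hNR
  classical
  obtain ⟨hfin, hpos, hchart⟩ := hVOL 2 M μ hμ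
  have := hfin
  obtain ⟨e₀, he₀, hp₀, h0⟩ := hchart p
  obtain ⟨hcomp, hmono, hhomeo, hiter⟩ := hDIFF 2 M s
  obtain ⟨F, hF⟩ := hhomeo f hf
  have hfc : Continuous f := by rw [← hF]; exact F.continuous
  have hs1 : (1 : ℕ∞) ≤ s := le_trans (by exact_mod_cast hr) hrs
  have hs1' : ((1 : ℕ∞) : WithTop ℕ∞) ≤ (s : WithTop ℕ∞) := by exact_mod_cast hs1
  have hsne : (s : WithTop ℕ∞) ≠ 0 := by
    intro h
    rw [h] at hs1'
    exact absurd hs1' (by decide)
  have hs0 : e₀.symm 0 = p := by rw [← h0, e₀.left_inv hp₀]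
  have h0t : (0 : E 2) ∈ e₀.target := by rw [← h0]; exact e₀.map_source hp₀
  have hsc : ContinuousAt e₀.symm 0 := e₀.continuousAt_symm h0t
  -- the minimal period
  set k : ℕ := Function.minimalPeriod f p with hk
  have hper : Function.IsPeriodicPt f m p := hfp
  have hk0 : 0 < k := hper.minimalPeriod_pos hm
  have hfk : f^[k] p = p := Function.iterate_minimalPeriod
  have hmin : ∀ i, 0 < i → i < k → f^[i] p ≠ p := fun i hi hik h =>
    Function.not_isPeriodicPt_of_pos_of_lt_minimalPeriod hi.ne' hik h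
  obtain ⟨j, hj⟩ : k ∣ m := hper.minimalPeriod_dvd
  have hd0 : ContDiffAt ℝ s (MAIN_.rd e₀ f^[k]) (e₀ p) :=
    hiter f k e₀ e₀ p hf he₀.1 he₀.1 hp₀ (by rw [hfk]; exact hp₀)
  have hdm : ContDiffAt ℝ s (MAIN_.rd e f^[m]) (e p) :=
    hiter f m e e p hf he he hpe (by rw [hfp]; exact hpe)
  have hitj : f^[m] = (f^[k])^[j] := by rw [hj, Function.iterate_mul]
  have hNR0 : NoRealEigenvalue (fderiv ℝ (MAIN_.rd e₀ f^[k]) (e₀ p)) := by
    refine MAIN_.noreal hDIFF he he₀.1 hpe hp₀ (hfc.iterate k) hfk (hd0.differentiableAt hsne) j ?_ ?_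
    · rw [← hitj]; exact hdm.differentiableAt hsne
    · rw [← hitj]; exact hNR
  rw [h0] at hd0 hNR0
  set A : E 2 →L[ℝ] E 2 := fderiv ℝ (MAIN_.rd e₀ f^[k]) 0 with hA
  -- determinant one
  have hFk : ((F : M → M)^[k] = f^[k]) := by rw [hF]
  have hhomk : ∃ G : M ≃ₜ M, (G : M → M) = f^[k] := by
    refine ⟨⟨⟨f^[k], (F.symm : M → M)^[k], ?_, ?_⟩, hfc.iterate k, F.symm.continuous.iterate k⟩, rfl⟩
    · rw [← hF]; exact Function.LeftInverse.iterate F.symm_apply_apply k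
    · rw [← hF]; exact Function.RightInverse.iterate F.apply_symm_apply k
  obtain ⟨Gk, hGk⟩ := hhomk
  have hev : {y : E 2 | y ∈ e₀.target ∧ f^[k] (e₀.symm y) ∈ e₀.source} ∈ 𝓝 (0 : E 2) := by
    have h1 := MAIN_.ev_source (e := e₀) (e' := e₀) hp₀ (hfc.iterate k) (by rw [hfk]; exact hp₀)
    rw [h0] at h1
    filter_upwards [e₀.open_target.mem_nhds h0t, h1] with y hy1 hy2
    exact ⟨hy1, hy2⟩
  have hdet : A.det = 1 := by
    refine BIRK_.det_eq_one A hNR0 ?_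
    refine hJAC 2 (MAIN_.rd e₀ f^[k]) _ hev (hd0.of_le (by exact_mod_cast hs1)) ?_ ?_
    · rintro y ⟨hy1, hy2⟩ z ⟨hz1, hz2⟩ hyz
      simp only [MAIN_.rd, Function.comp_apply] at hyz
      have h1 := e₀.injOn hy2 hz2 hyz
      rw [← hGk] at h1
      have h2 := Gk.injective h1
      exact e₀.symm.injOn hy1 hz1 h2
    · intro B hB hBm
      have h1 := MAIN_.volpres he₀ Gk (by rw [hGk]; exact hfμ.iterate k) (U := B)
        (fun y hy => (hB hy).1) (fun y hy => by rw [hGk]; exact (hB hy).2) B Subset.rfl hBm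
      rw [hGk] at h1
      exact h1
  -- the twist
  obtain ⟨W, hW, hWi⟩ := MAIN_.local_nbhd hfc hmin
  have hev2 : {y : E 2 | y ∈ e₀.target ∧ e₀.symm y ∈ W ∧ f^[k] (e₀.symm y) ∈ e₀.source} ∈
      𝓝 (0 : E 2) := by
    have h1 : ∀ᶠ y in 𝓝 (0 : E 2), e₀.symm y ∈ W :=
      hsc.preimage_mem_nhds (by rw [hs0]; exact hW)
    filter_upwards [hev, h1] with y hy1 hy2
    exact ⟨hy1.1, hy2, hy1.2⟩
  obtain ⟨σ, hσ, hσW⟩ := Metric.nhds_basis_closedBall.mem_iff.1 hev2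
  have hC : closedBall (0 : E 2) σ ⊆ e₀.target := fun y hy => (hσW hy).1
  obtain ⟨δ, hδ, hrob⟩ := hU f hfU hf e₀ he₀.1 _ (isCompact_closedBall 0 σ) hC
  obtain ⟨T, hT1, hT2, hT3, hT4, hT5⟩ := hTWI σ hσ
  obtain ⟨t₁, ht₁, hTn1⟩ := hT5 r δ hδ
  obtain ⟨t₂, ht₂, hTn2⟩ := hT5 1 (1 / 2) (by norm_num)
  obtain ⟨t, ht, htNR, htres⟩ := hNONRES A (min t₁ t₂) (r + 1) hNR0 hdet (lt_min ht₁ ht₂)
  set L : E 2 → E 2 := T t with hL
  have hLn1 : Near 1 (1 / 2) L := hTn2 t (ht.trans (min_le_right _ _))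
  have hLn : Near r δ L := hTn1 t (ht.trans (min_le_left _ _))
  obtain ⟨hχd, hχs, hχoff⟩ := hEXT 2 M e₀ _ L he₀.1 (isCompact_closedBall 0 σ) hC (hT1 t) hLn1
  set χ : M → M := ext e₀ L with hχ
  set f₁ : M → M := χ ∘ f with hf₁
  have hf₁U : f₁ ∈ U := hrob L (hT1 t) hLn
  have hf₁d : IsDiffeo 2 s f₁ := hcomp _ _ (hmono _ hχd) hf
  have hχμ : MeasurePreserving χ μ μ :=
    hVOLP 2 M μ e₀ _ L he₀ (isCompact_closedBall 0 σ) hC (hT1 t) hLn1 (hT2 t)
  have hf₁μ : MeasurePreserving f₁ μ μ := hχμ.comp hfμ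
  have hit : ∀ y ∈ closedBall (0 : E 2) σ, ∀ i, i < k →
      f₁^[i] (e₀.symm y) = f^[i] (e₀.symm y) := by
    intro y hy i
    induction i with
    | zero => intro _; rfl
    | succ i ih =>
      intro hi
      rw [Function.iterate_succ_apply', ih (by omega), hf₁, Function.comp_apply,
        ← Function.iterate_succ_apply' f i (e₀.symm y)]
      refine hχoff _ ?_
      rintro ⟨y', hy', h⟩
      exact hWi _ (hσW hy).2.1 _ (hσW hy').2.1 (i + 1) (Nat.succ_pos i) hi h.symm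
  have hval : ∀ y ∈ closedBall (0 : E 2) σ, f₁^[k] (e₀.symm y) =
      e₀.symm (L (MAIN_.rd e₀ f^[k] y)) ∧ f₁^[k] (e₀.symm y) ∈ e₀.source := by
    intro y hy
    obtain ⟨k', hk'⟩ : ∃ k', k = k' + 1 := ⟨k - 1, by omega⟩
    have hz : f^[k] (e₀.symm y) ∈ e₀.source := (hσW hy).2.2
    obtain ⟨h1, h2⟩ := hχs _ hz
    have h3 : f₁^[k] (e₀.symm y) = χ (f^[k] (e₀.symm y)) := by
      rw [hk', Function.iterate_succ_apply', hit y hy k' (by omega), hf₁, Function.comp_apply,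
        ← Function.iterate_succ_apply' f k' (e₀.symm y)]
    rw [h3]
    refine ⟨?_, h1⟩
    rw [← e₀.left_inv h1, h2]
    rfl
  have hrd0 : MAIN_.rd e₀ f^[k] 0 = 0 := by simp [MAIN_.rd, hs0, hfk, h0]
  have hf₁k : f₁^[k] p = p := by
    have := (hval 0 (mem_closedBall_self hσ.le)).1
    have hL0 : L 0 = 0 := hT3 t
    rw [hs0, hrd0, hL0, hs0] at this
    exact this
  have hmin₁ : ∀ i, 0 < i → i < k → f₁^[i] p ≠ p := by
    intro i hi hik
    have := hit 0 (mem_closedBall_self hσ.le) i hik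
    rw [hs0] at this
    rw [this]
    exact hmin i hi hik
  have hrdeq : MAIN_.rd e₀ f₁^[k] =ᶠ[𝓝 0] L ∘ MAIN_.rd e₀ f^[k] := by
    have h1 : ∀ᶠ y in 𝓝 (0 : E 2), L (MAIN_.rd e₀ f^[k] y) ∈ e₀.target := by
      have hc1 : ContinuousAt (L ∘ MAIN_.rd e₀ f^[k]) 0 :=
        (hT1 t).1.continuous.continuousAt.comp hd0.continuousAt
      refine hc1.preimage_mem_nhds (e₀.open_target.mem_nhds ?_)
      simp only [Function.comp_apply]
      have hL0 : L 0 = 0 := hT3 t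
      rw [hrd0, hL0]
      exact h0t
    filter_upwards [closedBall_mem_nhds (0 : E 2) hσ, h1] with y hy hy2
    have h2 := (hval y hy).1
    show e₀ (f₁^[k] (e₀.symm y)) = L (MAIN_.rd e₀ f^[k] y)
    rw [h2, e₀.right_inv hy2]
  have hfder : fderiv ℝ (MAIN_.rd e₀ f₁^[k]) 0 = rot t ∘L A := by
    rw [hrdeq.fderiv_eq, fderiv_comp 0 ((hT1 t).1.contDiffAt.differentiableAt (by simp))
      (hd0.differentiableAt hsne), hrd0, hT4 t]
  -- the inverse
  obtain ⟨f₂, hf₂d, hl, hr'⟩ := MAIN_.isDiffeo_inv hf₁d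
  obtain ⟨F₁, hF₁⟩ := hhomeo f₁ hf₁d
  obtain ⟨F₂, hF₂⟩ := hhomeo f₂ hf₂d
  have hf₁c : Continuous f₁ := by rw [← hF₁]; exact F₁.continuous
  have hf₂c : Continuous f₂ := by rw [← hF₂]; exact F₂.continuous
  have hlk : Function.LeftInverse f₂^[k] f₁^[k] := hl.iterate k
  have hrk : Function.LeftInverse f₁^[k] f₂^[k] := Function.LeftInverse.iterate hr' k
  have hf₂k : f₂^[k] p = p := by
    conv_lhs => rw [← hf₁k]
    exact hlk p
  have hhom1 : ∃ G : M ≃ₜ M, (G : M → M) = f₁^[k] :=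
    ⟨⟨⟨f₁^[k], f₂^[k], hlk, hrk⟩, hf₁c.iterate k, hf₂c.iterate k⟩, rfl⟩
  obtain ⟨G₁, hG₁⟩ := hhom1
  have hhom2 : ∃ G : M ≃ₜ M, (G : M → M) = f₂^[k] :=
    ⟨⟨⟨f₂^[k], f₁^[k], hrk, hlk⟩, hf₂c.iterate k, hf₁c.iterate k⟩, rfl⟩
  obtain ⟨G₂, hG₂⟩ := hhom2
  have hG₁μ : MeasurePreserving G₁ μ μ := by rw [hG₁]; exact hf₁μ.iterate k
  have hG₂μ : MeasurePreserving G₂ μ μ := by
    refine ⟨G₂.continuous.measurable, ?_⟩
    have h1 : (G₂ : M → M) ∘ G₁ = id := by
      funext x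
      rw [hG₁, hG₂]
      exact hlk x
    conv_lhs => rw [← hG₁μ.map_eq]
    rw [Measure.map_map G₂.continuous.measurable G₁.continuous.measurable, h1, Measure.map_id]
  set Φ : E 2 → E 2 := MAIN_.rd e₀ f₁^[k] with hΦ
  set Ψ : E 2 → E 2 := MAIN_.rd e₀ f₂^[k] with hΨ
  set UU : Set (E 2) := {y : E 2 | y ∈ e₀.target ∧ f₁^[k] (e₀.symm y) ∈ e₀.source ∧
    f₂^[k] (e₀.symm y) ∈ e₀.source} with hUU
  have hUUn : UU ∈ 𝓝 (0 : E 2) := by
    have h1 := MAIN_.ev_source (e := e₀) (e' := e₀) hp₀ (hf₁c.iterate k)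
      (by rw [hf₁k]; exact hp₀)
    have h2 := MAIN_.ev_source (e := e₀) (e' := e₀) hp₀ (hf₂c.iterate k)
      (by rw [hf₂k]; exact hp₀)
    rw [h0] at h1 h2
    filter_upwards [e₀.open_target.mem_nhds h0t, h1, h2] with y hy1 hy2 hy3
    exact ⟨hy1, hy2, hy3⟩
  have hΦ0 : Φ 0 = 0 := by simp [hΦ, MAIN_.rd, hs0, hf₁k, h0]
  have hΨ0 : Ψ 0 = 0 := by simp [hΨ, MAIN_.rd, hs0, hf₂k, h0]
  have hΦr : ContDiffAt ℝ r Φ 0 := by
    have := hiter f₁ k e₀ e₀ p hf₁d he₀.1 he₀.1 hp₀ (by rw [hf₁k]; exact hp₀)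
    rw [h0] at this
    exact this.of_le (by exact_mod_cast hrs)
  have hcon : ∀ g : M → M, Continuous g → (∀ y ∈ UU, g (e₀.symm y) ∈ e₀.source) →
      ContinuousOn (MAIN_.rd e₀ g) UU := by
    intro g hg hgU
    refine e₀.continuousOn.comp ?_ hgU
    exact hg.comp_continuousOn (e₀.continuousOn_symm.mono fun y hy => hy.1)
  have hΦc : ContinuousOn Φ UU := hcon _ (hf₁c.iterate k) fun y hy => hy.2.1
  have hΨc : ContinuousOn Ψ UU := hcon _ (hf₂c.iterate k) fun y hy => hy.2.2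
  obtain ⟨I, b, hIs, hI0, hb, hIb, hIo⟩ := hBIRK r Φ Ψ UU hr hΦ0 hΨ0 hΦr
    (hΨc.continuousAt hUUn) hUUn hΦc hΨc
    (fun y hy => by
      simp only [hΦ, hΨ, MAIN_.rd, Function.comp_apply]
      rw [e₀.left_inv hy.2.1, hlk (e₀.symm y), e₀.right_inv hy.1])
    (fun y hy => by
      simp only [hΦ, hΨ, MAIN_.rd, Function.comp_apply]
      rw [e₀.left_inv hy.2.2, hrk (e₀.symm y), e₀.right_inv hy.1])
    (fun B hB hBm => by
      have h1 := MAIN_.volpres he₀ G₁ hG₁μ (U := B) (fun y hy => (hB hy).1)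
        (fun y hy => by rw [hG₁]; exact (hB hy).2.1) B Subset.rfl hBm
      rw [hG₁] at h1
      exact h1)
    (fun B hB hBm => by
      have h1 := MAIN_.volpres he₀ G₂ hG₂μ (U := B) (fun y hy => (hB hy).1)
        (fun y hy => by rw [hG₂]; exact (hB hy).2.2) B Subset.rfl hBm
      rw [hG₂] at h1
      exact h1)
    (by rw [hfder]; exact htNR) (by rw [hfder]; exact htres)
  refine hMAIN1 2 M μ s r f₁ U k p e₀ I b (by norm_num) hr hrs hμ hf₁d hf₁μ hU hf₁U hk0 hf₁k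
    hmin₁ he₀.1 hp₀ hIs.contDiffAt hb ?_ ?_
  · rw [h0, hI0]
    simpa using hIb
  · rw [h0]
    simp only [sub_zero]
    exact hIo

end Pool.Agent.Pal
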