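import Pool.Agent.Pal.MAIN2
import Pool.Agent.Pal.MAIN3

/-!
# The robust theorem for surfaces (job MAIN)
-/

set_option autoImplicit false

open Set MeasureTheory Filter Topology Metric Asymptotics
open scoped Manifold ContDiff

namespace Pool.Agent.Pal

def T_MAIN4 : Prop := ∀ (M : Type) [MetricSpace M] [ChartedSpace (E 2) M]
  [IsManifold 𝓘(ℝ, E 2) ∞ M] [CompactSpace M] [ConnectedSpace M] [MeasurableSpace M]
  [BorelSpace M] (μ : Measure M) (s : ℕ∞) (r : ℕ) (f : M → M) (U : Set (M → M)) (m : ℕ) (p : M)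
  (e : OpenPartialHomeomorph M (E 2)),
  1 ≤ r → (r : ℕ∞) ≤ s → IsVolume 2 μ → IsDiffeo 2 s f → MeasurePreserving f μ μ →
  Rob 2 s r U → f ∈ U → 1 ≤ m → f^[m] p = p → e ∈ Ch 2 M → p ∈ e.source →
  NoRealEigenvalue (fderiv ℝ (e ∘ f^[m] ∘ e.symm) (e p)) →
  ∃ g ∈ U, IsDiffeo 2 s g ∧ Nbd 2 g {g' | OneSink μ g'}

theorem main4 (hEXT : T_EXT) (hDIFF : T_DIFF) (hVOLP : T_VOLP) (hVOL : T_VOL) (hTWI : T_TWI)
    (hJAC : T_JAC) (hNONRES : T_NONRES) (hBIRK : T_BIRK) (hMAIN3 : T_MAIN3) : T_MAIN4 := by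
  intro M _ _ _ _ _ _ _ μ s r f U m p e hr hrs hμ hf hfμ hU hfU hm hfp he hpe hNR
  classical
  obtain ⟨hfin, hpos, hchart⟩ := hVOL 2 M μ hμ
  have := hfin
  obtain ⟨e₀, he₀, hp₀, h0⟩ := hchart p
  obtain ⟨hcomp, hmono, hhomeo, hiter⟩ := hDIFF 2 M s
  obtain ⟨F, hF⟩ := hhomeo f hf
  have hfc : Continuous f := by rw [← hF]; exact F.continuous
  have hs1 : (1 : ℕ∞) ≤ s := le_trans (by exact_mod_cast hr) hrs
  have hs1' : ((1 : ℕ∞) : WithTop ℕ∞) ≤ (s : WithTop ℕ∞) := by exact_mod_cast hs1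
  have hsne : (s : WithTop ℕ∞) ≠ 0 := by
    intro h
    rw [h] at hs1'
    exact absurd hs1' (by decide)
  have hs0 : e₀.symm 0 = p := by rw [← h0, e₀.left_inv hp₀]
  have h0t : (0 : E 2) ∈ e₀.target := by rw [← h0]; exact e₀.map_source hp₀
  have hsc : ContinuousAt e₀.symm 0 := e₀.continuousAt_symm h0t
  -- the minimal period
  set k : ℕ := Function.minimalPeriod f p with hk
  have hper : Function.IsPeriodicPt f m p := hfp
  have hk0 : 0 < k := hper.minimalPeriod_pos hm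
  have hfk : f^[k] p = p := Function.iterate_minimalPeriod
  have hmin : ∀ i, 0 < i → i < k → f^[i] p ≠ p := fun i hi hik h =>
    Function.not_isPeriodicPt_of_pos_of_lt_minimalPeriod hi.ne' hik h
  obtain ⟨j, hj⟩ : k ∣ m := hper.minimalPeriod_dvd
  have hd0 : ContDiffAt ℝ s (MAIN_.rd e₀ f^[k]) (e₀ p) :=
    hiter f k e₀ e₀ p hf he₀.1 he₀.1 hp₀ (by rw [hfk]; exact hp₀)
  have hdm : ContDiffAt ℝ s (MAIN_.rd e f^[m]) (e p) :=
    hiter f m e e p hf he he hpe (by rw [hfp]; exact hpe)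
  have hitj : f^[m] = (f^[k])^[j] := by rw [hj, Function.iterate_mul]
  have hNR0 : NoRealEigenvalue (fderiv ℝ (MAIN_.rd e₀ f^[k]) (e₀ p)) := by
    refine MAIN_.noreal hDIFF he he₀.1 hpe hp₀ (hfc.iterate k) hfk (hd0.differentiableAt hsne) j ?_ ?_
    · rw [← hitj]; exact hdm.differentiableAt hsne
    · rw [← hitj]; exact hNR
  rw [h0] at hd0 hNR0
  set A : E 2 →L[ℝ] E 2 := fderiv ℝ (MAIN_.rd e₀ f^[k]) 0 with hA
  -- determinant one
  have hFk : ((F : M → M)^[k] = f^[k]) := by rw [hF]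
  have hhomk : ∃ G : M ≃ₜ M, (G : M → M) = f^[k] := by
    refine ⟨⟨⟨f^[k], (F.symm : M → M)^[k], ?_, ?_⟩, hfc.iterate k, F.symm.continuous.iterate k⟩, rfl⟩
    · rw [← hF]; exact Function.LeftInverse.iterate F.symm_apply_apply k
    · rw [← hF]; exact Function.RightInverse.iterate F.apply_symm_apply k
  obtain ⟨Gk, hGk⟩ := hhomk
  have hev : {y : E 2 | y ∈ e₀.target ∧ f^[k] (e₀.symm y) ∈ e₀.source} ∈ 𝓝 (0 : E 2) := by
    have h1 := MAIN_.ev_source (e := e₀) (e' := e₀) hp₀ (hfc.iterate k) (by rw [hfk]; exact hp₀)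
    rw [h0] at h1
    filter_upwards [e₀.open_target.mem_nhds h0t, h1] with y hy1 hy2
    exact ⟨hy1, hy2⟩
  have hdet : A.det = 1 := by
    refine BIRK_.det_eq_one A hNR0 ?_
    refine hJAC 2 (MAIN_.rd e₀ f^[k]) _ hev (hd0.of_le (by exact_mod_cast hs1)) ?_ ?_
    · rintro y ⟨hy1, hy2⟩ z ⟨hz1, hz2⟩ hyz
      simp only [MAIN_.rd, Function.comp_apply] at hyz
      have h1 := e₀.injOn hy2 hz2 hyz
      rw [← hGk] at h1
      have h2 := Gk.injective h1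
      exact e₀.symm.injOn hy1 hz1 h2
    · intro B hB hBm
      have h1 := MAIN_.volpres he₀ Gk (by rw [hGk]; exact hfμ.iterate k) (U := B)
        (fun y hy => (hB hy).1) (fun y hy => by rw [hGk]; exact (hB hy).2) B Subset.rfl hBm
      rw [hGk] at h1
      exact h1
  -- the twist
  obtain ⟨W, hW, hWi⟩ := MAIN_.local_nbhd hfc hmin
  have hev2 : {y : E 2 | y ∈ e₀.target ∧ e₀.symm y ∈ W ∧ f^[k] (e₀.symm y) ∈ e₀.source} ∈
      𝓝 (0 : E 2) := by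
    have h1 : ∀ᶠ y in 𝓝 (0 : E 2), e₀.symm y ∈ W :=
      hsc.preimage_mem_nhds (by rw [hs0]; exact hW)
    filter_upwards [hev, h1] with y hy1 hy2
    exact ⟨hy1.1, hy2, hy1.2⟩
  obtain ⟨σ, hσ, hσW⟩ := Metric.nhds_basis_closedBall.mem_iff.1 hev2
  have hC : closedBall (0 : E 2) σ ⊆ e₀.target := fun y hy => (hσW hy).1
  obtain ⟨δ, hδ, hrob⟩ := hU f hfU hf e₀ he₀.1 _ (isCompact_closedBall 0 σ) hC
  obtain ⟨T, hT1, hT2, hT3, hT4, hT5⟩ := hTWI σ hσ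
  obtain ⟨t₁, ht₁, hTn1⟩ := hT5 r δ hδ
  obtain ⟨t₂, ht₂, hTn2⟩ := hT5 1 (1 / 2) (by norm_num)
  obtain ⟨t, ht, htNR, htres⟩ := hNONRES A (min t₁ t₂) (r + 1) hNR0 hdet (lt_min ht₁ ht₂)
  set L : E 2 → E 2 := T t with hL
  have hLn1 : Near 1 (1 / 2) L := hTn2 t (ht.trans (min_le_right _ _))
  have hLn : Near r δ L := hTn1 t (ht.trans (min_le_left _ _))
  obtain ⟨hχd, hχs, hχoff⟩ := hEXT 2 M e₀ _ L he₀.1 (isCompact_closedBall 0 σ) hC (hT1 t) hLn1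
  set χ : M → M := ext e₀ L with hχ
  set f₁ : M → M := χ ∘ f with hf₁
  have hf₁U : f₁ ∈ U := hrob L (hT1 t) hLn
  have hf₁d : IsDiffeo 2 s f₁ := hcomp _ _ (hmono _ hχd) hf
  have hχμ : MeasurePreserving χ μ μ :=
    hVOLP 2 M μ e₀ _ L he₀ (isCompact_closedBall 0 σ) hC (hT1 t) hLn1 (hT2 t)
  have hf₁μ : MeasurePreserving f₁ μ μ := hχμ.comp hfμ
  have hit : ∀ y ∈ closedBall (0 : E 2) σ, ∀ i, i < k →
      f₁^[i] (e₀.symm y) = f^[i] (e₀.symm y) := by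
    intro y hy i
    induction i with
    | zero => intro _; rfl
    | succ i ih =>
      intro hi
      rw [Function.iterate_succ_apply', ih (by omega), hf₁, Function.comp_apply,
        ← Function.iterate_succ_apply' f i (e₀.symm y)]
      refine hχoff _ ?_
      rintro ⟨y', hy', h⟩
      exact hWi _ (hσW hy).2.1 _ (hσW hy').2.1 (i + 1) (Nat.succ_pos i) hi h.symm
  have hval : ∀ y ∈ closedBall (0 : E 2) σ, f₁^[k] (e₀.symm y) =
      e₀.symm (L (MAIN_.rd e₀ f^[k] y)) ∧ f₁^[k] (e₀.symm y) ∈ e₀.source := by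
    intro y hy
    obtain ⟨k', hk'⟩ : ∃ k', k = k' + 1 := ⟨k - 1, by omega⟩
    have hz : f^[k] (e₀.symm y) ∈ e₀.source := (hσW hy).2.2
    obtain ⟨h1, h2⟩ := hχs _ hz
    have h3 : f₁^[k] (e₀.symm y) = χ (f^[k] (e₀.symm y)) := by
      rw [hk', Function.iterate_succ_apply', hit y hy k' (by omega), hf₁, Function.comp_apply,
        ← Function.iterate_succ_apply' f k' (e₀.symm y)]
    rw [h3]
    refine ⟨?_, h1⟩
    rw [← e₀.left_inv h1, h2]
    rfl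
  have hrd0 : MAIN_.rd e₀ f^[k] 0 = 0 := by simp [MAIN_.rd, hs0, hfk, h0]
  have hf₁k : f₁^[k] p = p := by
    have := (hval 0 (mem_closedBall_self hσ.le)).1
    have hL0 : L 0 = 0 := hT3 t
    rw [hs0, hrd0, hL0, hs0] at this
    exact this
  have hmin₁ : ∀ i, 0 < i → i < k → f₁^[i] p ≠ p := by
    intro i hi hik
    have := hit 0 (mem_closedBall_self hσ.le) i hik
    rw [hs0] at this
    rw [this]
    exact hmin i hi hik
  have hrdeq : MAIN_.rd e₀ f₁^[k] =ᶠ[𝓝 0] L ∘ MAIN_.rd e₀ f^[k] := by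
    have h1 : ∀ᶠ y in 𝓝 (0 : E 2), L (MAIN_.rd e₀ f^[k] y) ∈ e₀.target := by
      have hc1 : ContinuousAt (L ∘ MAIN_.rd e₀ f^[k]) 0 :=
        (hT1 t).1.continuous.continuousAt.comp hd0.continuousAt
      refine hc1.preimage_mem_nhds (e₀.open_target.mem_nhds ?_)
      simp only [Function.comp_apply]
      have hL0 : L 0 = 0 := hT3 t
      rw [hrd0, hL0]
      exact h0t
    filter_upwards [closedBall_mem_nhds (0 : E 2) hσ, h1] with y hy hy2
    have h2 := (hval y hy).1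
    show e₀ (f₁^[k] (e₀.symm y)) = L (MAIN_.rd e₀ f^[k] y)
    rw [h2, e₀.right_inv hy2]
  have hfder : fderiv ℝ (MAIN_.rd e₀ f₁^[k]) 0 = rot t ∘L A := by
    rw [hrdeq.fderiv_eq, fderiv_comp 0 ((hT1 t).1.contDiffAt.differentiableAt (by simp))
      (hd0.differentiableAt hsne), hrd0, hT4 t]
  -- the inverse
  obtain ⟨f₂, hf₂d, hl, hr'⟩ := MAIN_.isDiffeo_inv hf₁d
  obtain ⟨F₁, hF₁⟩ := hhomeo f₁ hf₁d
  obtain ⟨F₂, hF₂⟩ := hhomeo f₂ hf₂d
  have hf₁c : Continuous f₁ := by rw [← hF₁]; exact F₁.continuous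
  have hf₂c : Continuous f₂ := by rw [← hF₂]; exact F₂.continuous
  have hlk : Function.LeftInverse f₂^[k] f₁^[k] := hl.iterate k
  have hrk : Function.LeftInverse f₁^[k] f₂^[k] := Function.LeftInverse.iterate hr' k
  have hf₂k : f₂^[k] p = p := by
    conv_lhs => rw [← hf₁k]
    exact hlk p
  have hhom1 : ∃ G : M ≃ₜ M, (G : M → M) = f₁^[k] :=
    ⟨⟨⟨f₁^[k], f₂^[k], hlk, hrk⟩, hf₁c.iterate k, hf₂c.iterate k⟩, rfl⟩
  obtain ⟨G₁, hG₁⟩ := hhom1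
  have hhom2 : ∃ G : M ≃ₜ M, (G : M → M) = f₂^[k] :=
    ⟨⟨⟨f₂^[k], f₁^[k], hrk, hlk⟩, hf₂c.iterate k, hf₁c.iterate k⟩, rfl⟩
  obtain ⟨G₂, hG₂⟩ := hhom2
  have hG₁μ : MeasurePreserving G₁ μ μ := by rw [hG₁]; exact hf₁μ.iterate k
  have hG₂μ : MeasurePreserving G₂ μ μ := by
    refine ⟨G₂.continuous.measurable, ?_⟩
    have h1 : (G₂ : M → M) ∘ G₁ = id := by
      funext x
      rw [hG₁, hG₂]
      exact hlk x
    conv_lhs => rw [← hG₁μ.map_eq]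
    rw [Measure.map_map G₂.continuous.measurable G₁.continuous.measurable, h1, Measure.map_id]
  set Φ : E 2 → E 2 := MAIN_.rd e₀ f₁^[k] with hΦ
  set Ψ : E 2 → E 2 := MAIN_.rd e₀ f₂^[k] with hΨ
  set UU : Set (E 2) := {y : E 2 | y ∈ e₀.target ∧ f₁^[k] (e₀.symm y) ∈ e₀.source ∧
    f₂^[k] (e₀.symm y) ∈ e₀.source} with hUU
  have hUUn : UU ∈ 𝓝 (0 : E 2) := by
    have h1 := MAIN_.ev_source (e := e₀) (e' := e₀) hp₀ (hf₁c.iterate k)
      (by rw [hf₁k]; exact hp₀)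
    have h2 := MAIN_.ev_source (e := e₀) (e' := e₀) hp₀ (hf₂c.iterate k)
      (by rw [hf₂k]; exact hp₀)
    rw [h0] at h1 h2
    filter_upwards [e₀.open_target.mem_nhds h0t, h1, h2] with y hy1 hy2 hy3
    exact ⟨hy1, hy2, hy3⟩
  have hΦ0 : Φ 0 = 0 := by simp [hΦ, MAIN_.rd, hs0, hf₁k, h0]
  have hΨ0 : Ψ 0 = 0 := by simp [hΨ, MAIN_.rd, hs0, hf₂k, h0]
  have hΦr : ContDiffAt ℝ r Φ 0 := by
    have := hiter f₁ k e₀ e₀ p hf₁d he₀.1 he₀.1 hp₀ (by rw [hf₁k]; exact hp₀)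
    rw [h0] at this
    exact this.of_le (by exact_mod_cast hrs)
  have hcon : ∀ g : M → M, Continuous g → (∀ y ∈ UU, g (e₀.symm y) ∈ e₀.source) →
      ContinuousOn (MAIN_.rd e₀ g) UU := by
    intro g hg hgU
    refine e₀.continuousOn.comp ?_ hgU
    exact hg.comp_continuousOn (e₀.continuousOn_symm.mono fun y hy => hy.1)
  have hΦc : ContinuousOn Φ UU := hcon _ (hf₁c.iterate k) fun y hy => hy.2.1
  have hΨc : ContinuousOn Ψ UU := hcon _ (hf₂c.iterate k) fun y hy => hy.2.2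
  obtain ⟨I, b, hIs, hI0, hb, hIb, hIo⟩ := hBIRK r Φ Ψ UU hr hΦ0 hΨ0 hΦr
    (hΨc.continuousAt hUUn) hUUn hΦc hΨc
    (fun y hy => by
      simp only [hΦ, hΨ, MAIN_.rd, Function.comp_apply]
      rw [e₀.left_inv hy.2.1, hlk (e₀.symm y), e₀.right_inv hy.1])
    (fun y hy => by
      simp only [hΦ, hΨ, MAIN_.rd, Function.comp_apply]
      rw [e₀.left_inv hy.2.2, hrk (e₀.symm y), e₀.right_inv hy.1])
    (fun B hB hBm => by
      have h1 := MAIN_.volpres he₀ G₁ hG₁μ (U := B) (fun y hy => (hB hy).1)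
        (fun y hy => by rw [hG₁]; exact (hB hy).2.1) B Subset.rfl hBm
      rw [hG₁] at h1
      exact h1)
    (fun B hB hBm => by
      have h1 := MAIN_.volpres he₀ G₂ hG₂μ (U := B) (fun y hy => (hB hy).1)
        (fun y hy => by rw [hG₂]; exact (hB hy).2.2) B Subset.rfl hBm
      rw [hG₂] at h1
      exact h1)
    (by rw [hfder]; exact htNR) (by rw [hfder]; exact htres)
  refine hMAIN3 2 M μ s r f₁ U k p e₀ I b (by norm_num) hr hrs hμ hf₁d hf₁μ hU hf₁U hk0 hf₁k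
    hmin₁ he₀.1 hp₀ hIs.contDiffAt hb ?_ ?_
  · rw [h0, hI0]
    simpa using hIb
  · rw [h0]
    simp only [sub_zero]
    exact hIo

end Pool.Agent.Pal
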