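import Pool.Agent.Pal.Targets

/-!
# T_MEAS: the points that never enter the trap form a null set
-/

set_option autoImplicit false

open Set MeasureTheory Filter Topology

namespace Pool.Agent.Pal

theorem meas : T_MEAS := by
  intro M _ _ _ μ _ f ψR ψG U B D hU hinv hB hD hf hR hG
  have hm : MeasurableSet (Uᶜ) := hU.measurableSet.compl
  have hmf : MeasurableSet (f '' Uᶜ) := f.measurableEmbedding.measurableSet_image.2 hm
  have hmR : MeasurableSet (ψR '' (f '' Uᶜ)) :=
    ψR.measurableEmbedding.measurableSet_image.2 hmf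
  have himg : ψG '' (ψR '' (f '' Uᶜ)) = Uᶜ := by
    ext y
    constructor
    · rintro ⟨_, ⟨_, ⟨x, hx, rfl⟩, rfl⟩, rfl⟩
      intro h
      exact hx ((hinv x).1 h)
    · intro hy
      refine ⟨ψG.symm y, ⟨ψR.symm (ψG.symm y), ⟨f.symm (ψR.symm (ψG.symm y)), ?_, ?_⟩, ?_⟩, ?_⟩
      · intro h
        have := (hinv (f.symm (ψR.symm (ψG.symm y)))).2 h
        simp only [Homeomorph.apply_symm_apply] at this
        exact hy this
      · exact f.apply_symm_apply _
      · exact ψR.apply_symm_apply _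
      · exact ψG.apply_symm_apply _
  have h1 : μ Uᶜ ≤ μ (ψR '' (f '' Uᶜ)) := by
    rw [← hf _ hm]
    refine hR _ hmf (Set.disjoint_left.2 ?_)
    rintro _ ⟨x, hx, rfl⟩ hb
    exact hx (hB x hb)
  by_contra hne
  have hpos : 0 < μ Uᶜ := pos_iff_ne_zero.2 hne
  have h2 := hG _ hmR (Set.disjoint_left.2 (by
    rintro _ ⟨_, ⟨x, hx, rfl⟩, rfl⟩ hd
    exact hx (hD x hd))) (hpos.trans_le h1)
  rw [himg] at h2
  exact absurd (h1.trans_lt h2) (lt_irrefl _)

end Pool.Agent.Pal
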