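import Pool.Agent.Pal.Core

/-!
# The targets of the jobs
-/

set_option autoImplicit false

open Set MeasureTheory Filter Topology Metric Asymptotics
open scoped Manifold ContDiff

namespace Pool.Agent.Pal

/-! ## Calculus in `E n` -/

/-- A small modification of the identity is bijective, maps `C` onto itself and has a positive
Jacobian and a smooth inverse, which is again the identity off `C`. -/
def T_MOD : Prop := ∀ (n : ℕ) (C : Set (E n)) (L : E n → E n), IsCompact C → Mod C L →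
  Near 1 (1 / 2) L → Function.Bijective L ∧ L '' C = C ∧ (∀ y, 0 < (fderiv ℝ L y).det) ∧
    ∃ L' : E n → E n, Mod C L' ∧ Function.LeftInverse L' L ∧ Function.RightInverse L' L

/-- Composition with a map that is close to the identity, on the right. -/
def T_RCOMP : Prop := ∀ (n r : ℕ) (Ω C : Set (E n)) (τ : E n → E n) (ε : ℝ), IsOpen Ω →
  IsCompact C → C ⊆ Ω → ContDiffOn ℝ ∞ τ Ω → 0 < ε →
  ∃ δ : ℝ, 0 < δ ∧ ∀ L : E n → E n, ContDiff ℝ ∞ L → Near r δ L →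
    ∀ y ∈ C, L y ∈ Ω ∧ ∀ j ≤ r,
      ‖iteratedFDeriv ℝ j (τ ∘ L) y - iteratedFDeriv ℝ j τ y‖ ≤ ε

/-- Composition of a small map with a fixed map. -/
def T_LCOMP : Prop := ∀ (n r : ℕ) (Ω K : Set (E n)) (u : E n → E n) (ε : ℝ), IsOpen Ω →
  IsCompact K → K ⊆ Ω → ContDiffOn ℝ r u Ω → 0 < ε →
  ∃ δ : ℝ, 0 < δ ∧ ∀ (W : Set (E n)) (w : E n → E n), IsOpen W → ContDiffOn ℝ r w W →
    (∀ y ∈ K, u y ∈ W) → (∀ y ∈ K, ∀ j ≤ r, ‖iteratedFDeriv ℝ j w (u y)‖ ≤ δ) →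
    ∀ y ∈ K, ∀ j ≤ r, ‖iteratedFDeriv ℝ j (w ∘ u) y‖ ≤ ε

/-- The transport from `y₁` to `y₀`. -/
def T_TRANS : Prop := ∀ (n : ℕ) (y₀ y₁ : E n) (s : ℝ), 0 < s → 2 * s ≤ ‖y₀ - y₁‖ →
  ∃ T : ℝ → E n → E n,
    (∀ κ, Mod (cthickening s (segment ℝ y₀ y₁)) (T κ)) ∧
    (∀ κ, 0 ≤ κ → ∀ y, (y ∉ closedBall y₁ s → 1 ≤ (fderiv ℝ (T κ) y).det) ∧
      (y ∈ ball y₀ (s / 4) → 1 + κ ≤ (fderiv ℝ (T κ) y).det) ∧
      1 - κ ≤ (fderiv ℝ (T κ) y).det) ∧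
    ∀ (r : ℕ) (δ : ℝ), 0 < δ → ∃ κ₀ : ℝ, 0 < κ₀ ∧ ∀ κ, 0 ≤ κ → κ ≤ κ₀ → Near r δ (T κ)

/-- Profiles exist. -/
def T_PROF : Prop := ∀ (n : ℕ) (N : ℝ), 1 ≤ n → 2 ≤ N → ∃ (a : ℝ → ℝ) (c κ₀ : ℝ),
  Profile n N a c κ₀

/-- The radial map with `κ = ε ρ ^ (r - 1)` is of size `B ε`. -/
def T_RAD : Prop := ∀ (n : ℕ) (N : ℝ) (a : ℝ → ℝ) (c κ₀ : ℝ), 2 ≤ N → Profile n N a c κ₀ →
  (∀ κ ρ : ℝ, 0 < ρ → Mod (closedBall (0 : E n) (N * ρ)) (rad a κ ρ)) ∧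
  ∀ r : ℕ, 1 ≤ r → ∃ B : ℝ, 0 < B ∧ ∀ ρ ε : ℝ, 0 < ρ → ρ ≤ 1 → 0 ≤ ε →
    Near r (B * ε) (rad (n := n) a (ε * ρ ^ (r - 1)) ρ)

/-- The twist. -/
def T_TWI : Prop := ∀ ρ : ℝ, 0 < ρ → ∃ T : ℝ → E 2 → E 2,
  (∀ t, Mod (closedBall 0 ρ) (T t)) ∧ (∀ t y, (fderiv ℝ (T t) y).det = 1) ∧
  (∀ t, T t 0 = 0) ∧ (∀ t, fderiv ℝ (T t) 0 = rot t) ∧
  ∀ (r : ℕ) (δ : ℝ), 0 < δ → ∃ t₀ : ℝ, 0 < t₀ ∧ ∀ t, |t| ≤ t₀ → Near r δ (T t)

/-- Volume of an image. -/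
def T_VOLE : Prop := ∀ (n : ℕ) (L : E n → E n) (A : Set (E n)) (c : ℝ), ContDiff ℝ ∞ L →
  Function.Injective L → MeasurableSet A → 0 ≤ c → (∀ y ∈ A, c ≤ |(fderiv ℝ L y).det|) →
  ENNReal.ofReal c * volume A ≤ volume (L '' A)

/-! ## Modifications of maps of `M` -/

def T_EXT : Prop := ∀ (n : ℕ) (M : Type) [TopologicalSpace M] [ChartedSpace (E n) M]
  [IsManifold 𝓘(ℝ, E n) ∞ M] [T2Space M] (e : OpenPartialHomeomorph M (E n)) (C : Set (E n))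
  (L : E n → E n), e ∈ Ch n M → IsCompact C → C ⊆ e.target → Mod C L → Near 1 (1 / 2) L →
  IsDiffeo n ⊤ (ext e L) ∧ (∀ x ∈ e.source, ext e L x ∈ e.source ∧ e (ext e L x) = L (e x)) ∧
    ∀ x, x ∉ e.symm '' C → ext e L x = x

def T_DIFF : Prop := ∀ (n : ℕ) (M : Type) [TopologicalSpace M] [ChartedSpace (E n) M]
  [IsManifold 𝓘(ℝ, E n) ∞ M] (s : ℕ∞),
  (∀ g h : M → M, IsDiffeo n s g → IsDiffeo n s h → IsDiffeo n s (g ∘ h)) ∧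
  (∀ g : M → M, IsDiffeo n ⊤ g → IsDiffeo n s g) ∧
  (∀ g : M → M, IsDiffeo n s g → ∃ G : M ≃ₜ M, (G : M → M) = g) ∧
  (∀ (g : M → M) (m : ℕ) (e e' : OpenPartialHomeomorph M (E n)) (x : M), IsDiffeo n s g →
    e ∈ Ch n M → e' ∈ Ch n M → x ∈ e.source → g^[m] x ∈ e'.source →
    ContDiffAt ℝ s (e' ∘ g^[m] ∘ e.symm) (e x))

/-- Closeness in the `C^r` topology is a robust property. -/
def T_ROB : Prop := ∀ (n : ℕ) (M : Type) [TopologicalSpace M] [ChartedSpace (E n) M]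
  [IsManifold 𝓘(ℝ, E n) ∞ M] [T2Space M] (s : ℕ∞) (r : ℕ) (f : M → M)
  (e e' : OpenPartialHomeomorph M (E n)) (K : Set M) (ε : ℝ), (r : ℕ∞) ≤ s → IsDiffeo n s f →
  e ∈ Ch n M → e' ∈ Ch n M → IsCompact K → K ⊆ e.source → MapsTo f K e'.source →
  Rob n s r {g | CrClose r f g e e' K ε}

/-- The modification is uniformly close to the identity. -/
def T_C0 : Prop := ∀ (n : ℕ) (M : Type) [MetricSpace M] [ChartedSpace (E n) M]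
  [IsManifold 𝓘(ℝ, E n) ∞ M] (e : OpenPartialHomeomorph M (E n)) (C : Set (E n)) (η : ℝ),
  e ∈ Ch n M → IsCompact C → C ⊆ e.target → 0 < η →
  ∃ δ : ℝ, 0 < δ ∧ ∀ L, Mod C L → Near 0 δ L → ∀ x, dist (ext e L x) x < η

/-- Volume of the image under a modification. -/
def T_VOLM : Prop := ∀ (n : ℕ) (M : Type) [TopologicalSpace M] [ChartedSpace (E n) M]
  [IsManifold 𝓘(ℝ, E n) ∞ M] [T2Space M] [MeasurableSpace M] [BorelSpace M] (μ : Measure M)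
  (e : OpenPartialHomeomorph M (E n)) (C : Set (E n)) (L : E n → E n) (c : ℝ) (A : Set M),
  Uni μ e → IsCompact C → C ⊆ e.target → Mod C L → Near 1 (1 / 2) L → 0 ≤ c →
  MeasurableSet A → (∀ x ∈ A, x ∈ e.source → c ≤ (fderiv ℝ L (e x)).det) →
  (A ⊆ e.source ∨ c ≤ 1) → ENNReal.ofReal c * μ A ≤ μ (ext e L '' A)

/-- A modification with Jacobian `1` preserves the measure. -/
def T_VOLP : Prop := ∀ (n : ℕ) (M : Type) [TopologicalSpace M] [ChartedSpace (E n) M]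
  [IsManifold 𝓘(ℝ, E n) ∞ M] [T2Space M] [MeasurableSpace M] [BorelSpace M] (μ : Measure M)
  (e : OpenPartialHomeomorph M (E n)) (C : Set (E n)) (L : E n → E n),
  Uni μ e → IsCompact C → C ⊆ e.target → Mod C L → Near 1 (1 / 2) L →
  (∀ y, (fderiv ℝ L y).det = 1) → MeasurePreserving (ext e L) μ μ

/-- A smooth volume is finite on a compact manifold and gives positive mass to open sets; around
every point there is a chart in which it is Lebesgue measure and the point is `0`. -/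
def T_VOL : Prop := ∀ (n : ℕ) (M : Type) [TopologicalSpace M] [ChartedSpace (E n) M]
  [IsManifold 𝓘(ℝ, E n) ∞ M] [CompactSpace M] [MeasurableSpace M] [BorelSpace M]
  (μ : Measure M), IsVolume n μ → IsFiniteMeasure μ ∧ (∀ U : Set M, IsOpen U → U.Nonempty →
    0 < μ U) ∧ ∀ q : M, ∃ e : OpenPartialHomeomorph M (E n), Uni μ e ∧ q ∈ e.source ∧ e q = 0

/-! ## Global expansion -/

def T_GOODSTEP : Prop := ∀ (n : ℕ) (M : Type) [MetricSpace M] [ChartedSpace (E n) M]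
  [IsManifold 𝓘(ℝ, E n) ∞ M] [CompactSpace M] [MeasurableSpace M] [BorelSpace M]
  (μ : Measure M) [IsFiniteMeasure μ] (s : ℕ∞) (r : ℕ) (P : Finset M) (d : ℝ)
  (e : OpenPartialHomeomorph M (E n)) (y₀ y₁ : E n) (σ : ℝ) (V : Set M),
  (r : ℕ∞) ≤ s → Uni μ e → 0 < σ → 2 * σ ≤ ‖y₀ - y₁‖ →
  cthickening σ (segment ℝ y₀ y₁) ⊆ e.target →
  (∀ y ∈ cthickening σ (segment ℝ y₀ y₁), ∀ p ∈ P, d / 4 < dist (e.symm y) p) →
  IsOpen V → (∀ y ∈ closedBall y₁ σ, e.symm y ∈ V) → Good n μ s r P d V →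
  Good n μ s r P d (e.symm '' ball y₀ (σ / 8))

def T_GOODALL : Prop := ∀ (n : ℕ) (M : Type) [MetricSpace M] [ChartedSpace (E n) M]
  [IsManifold 𝓘(ℝ, E n) ∞ M] [CompactSpace M] [ConnectedSpace M] [MeasurableSpace M]
  [BorelSpace M] (μ : Measure M) [IsFiniteMeasure μ] (s : ℕ∞) (r : ℕ) (P : Finset M) (d : ℝ),
  (r : ℕ∞) ≤ s → IsVolume n μ → P.Nonempty → 0 < d →
  ∀ x : M, (∀ p ∈ P, d / 4 < dist x p) → ∃ V, IsOpen V ∧ x ∈ V ∧ Good n μ s r P d V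

/-- Strict expansion off small balls around the points of `P`. -/
def T_GLO : Prop := ∀ (n : ℕ) (M : Type) [MetricSpace M] [ChartedSpace (E n) M]
  [IsManifold 𝓘(ℝ, E n) ∞ M] [CompactSpace M] [ConnectedSpace M] [MeasurableSpace M]
  [BorelSpace M] (μ : Measure M) [IsFiniteMeasure μ] (s : ℕ∞) (r : ℕ) (P : Finset M) (d : ℝ),
  (r : ℕ∞) ≤ s → IsVolume n μ → P.Nonempty → 0 < d →
  ∀ (g : M → M) (U : Set (M → M)) (η : ℝ), IsDiffeo n s g → Rob n s r U → g ∈ U → 0 < η →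
    ∃ ψ : M → M, IsDiffeo n ⊤ ψ ∧ (ψ ∘ g) ∈ U ∧ (∀ x, dist (ψ x) x < η) ∧
      (∀ x, (∃ p ∈ P, dist x p ≤ d / 4) → ψ x = x) ∧
      ∀ A, MeasurableSet A → (∀ x ∈ A, ∀ p ∈ P, d ≤ dist x p) → 0 < μ A → μ A < μ (ψ '' A)

/-! ## The trap -/

/-- The choice of the radial map near the periodic point. -/
def T_DEC : Prop := ∀ (n r : ℕ) (Φ : E n → E n) (I : E n → ℝ) (b : ℝ), 1 ≤ r → Φ 0 = 0 →
  ContDiffAt ℝ 1 Φ 0 → Function.Injective (fderiv ℝ Φ 0) → ContDiffAt ℝ ∞ I 0 → I 0 = 0 →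
  0 < b → (∀ᶠ y in 𝓝 0, b * ‖y‖ ^ 2 ≤ I y) →
  (fun y => I (Φ y) - I y) =o[𝓝 0] (fun y => ‖y‖ ^ (r + 1)) →
  ∃ N : ℝ, 2 ≤ N ∧ ∀ (a : ℝ → ℝ) (c κ₀ : ℝ), Profile n N a c κ₀ → ∀ ε : ℝ, 0 < ε → ε ≤ κ₀ →
    ∀ σ : ℝ, 0 < σ → ∃ ρ : ℝ, 0 < ρ ∧ ρ ≤ 1 ∧ N * ρ < σ ∧ ∃ K : Set (E n), IsCompact K ∧
      K ⊆ ball 0 σ ∧ closedBall 0 ρ ⊆ interior K ∧ ContinuousOn I K ∧
      ∀ y ∈ K, rad a (ε * ρ ^ (r - 1)) ρ (Φ y) ∈ interior K ∧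
        (y ≠ 0 → I (rad a (ε * ρ ^ (r - 1)) ρ (Φ y)) < I y)

/-- A trap persists under small modifications that are trivial near the orbit. -/
def T_PERS : Prop := ∀ (M : Type) [MetricSpace M] [CompactSpace M] (g : M → M) (m : ℕ) (p : M)
  (K Z : Set M) (V : M → ℝ), Continuous g → 1 ≤ m → g^[m] p = p → IsCompact K → IsOpen Z →
  ContinuousOn V K → p ∈ K → (∀ i ≤ m, g^[i] p ∈ Z) → (∀ x ∈ K, g^[m] x ∈ interior K) →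
  (∀ x ∈ K, x ≠ p → V (g^[m] x) < V x) →
  ∃ η : ℝ, 0 < η ∧ ∀ ψ : M → M, Continuous ψ → (∀ x, dist (ψ x) x < η) → (∀ x ∈ Z, ψ x = x) →
    (∀ i ≤ m, (ψ ∘ g)^[i] p = g^[i] p) ∧ (∀ x ∈ K, (ψ ∘ g)^[m] x ∈ interior K) ∧
    ∀ x ∈ K, x ≠ p → V ((ψ ∘ g)^[m] x) < V x

/-- All points that enter a trap converge to the orbit. -/
def T_LYAP : Prop := ∀ (M : Type) [MetricSpace M] [CompactSpace M] (g : M → M) (m : ℕ) (p : M)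
  (K : Set M) (V : M → ℝ), Continuous g → 1 ≤ m → g^[m] p = p → IsCompact K →
  ContinuousOn V K → p ∈ K → (∀ x ∈ K, g^[m] x ∈ K) →
  (∀ x ∈ K, x ≠ p → V (g^[m] x) < V x) →
  ∀ x, (∃ k, g^[k] x ∈ K) → x ∈ basin g {y | ∃ i < m, y = g^[i] p}

/-- The orbit of a periodic point is an attractor if its basin has positive measure. -/
def T_ORB : Prop := ∀ (M : Type) [TopologicalSpace M] [MeasurableSpace M] (μ : Measure M)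
  (g : M → M) (m : ℕ) (p : M), 1 ≤ m → g^[m] p = p →
  0 < μ (basin g {y | ∃ i < m, y = g^[i] p}) → IsAttractor μ g {y | ∃ i < m, y = g^[i] p}

/-- The points that never enter the trap form a null set. -/
def T_MEAS : Prop := ∀ (M : Type) [TopologicalSpace M] [MeasurableSpace M] [BorelSpace M]
  (μ : Measure M) [IsFiniteMeasure μ] (f ψR ψG : M ≃ₜ M) (U B D : Set M), IsOpen U →
  (∀ x, ψG (ψR (f x)) ∈ U ↔ x ∈ U) → (∀ x, f x ∈ B → x ∈ U) → (∀ x, ψR (f x) ∈ D → x ∈ U) →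
  (∀ A, MeasurableSet A → μ (f '' A) = μ A) →
  (∀ A, MeasurableSet A → Disjoint A B → μ A ≤ μ (ψR '' A)) →
  (∀ A, MeasurableSet A → Disjoint A D → 0 < μ A → μ A < μ (ψG '' A)) → μ Uᶜ = 0

/-! ## The Birkhoff integral -/

/-- The functions `z ^ i * conj z ^ j` of degree `k`, their real combinations. -/
def Hom (k : ℕ) : Set (ℂ → ℂ) :=
  {u | ∃ c : ℕ → ℂ, ∀ z, u z = ∑ i ∈ Finset.range (k + 1), c i * z ^ i * (starRingEnd ℂ z) ^ (k - i)}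

/-- Expansions of a `C^r` map of the plane. -/
def T_TAY : Prop := ∀ (r : ℕ) (Φ : ℂ → ℂ), ContDiffAt ℝ r Φ 0 →
  ∃ u : ℕ → ℂ → ℂ, (∀ k, u k ∈ Hom k) ∧
    (fun z => Φ z - ∑ k ∈ Finset.range (r + 1), u k z) =o[𝓝 0] (fun z => ‖z‖ ^ r)

/-- If `Φ 0 = 0` and `u` is a polynomial without terms of degree less than `2` then `u ∘ Φ` has an
expansion of order `r + 1`. -/
def T_EXPC : Prop := ∀ (r K : ℕ) (Φ : ℂ → ℂ), 1 ≤ r → Φ 0 = 0 → ContDiffAt ℝ r Φ 0 →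
  ∀ u : ℕ → ℂ → ℂ, (∀ k, u k ∈ Hom k) →
  ∃ v : ℕ → ℂ → ℂ, (∀ k, v k ∈ Hom k) ∧
    (fun z => (∑ k ∈ Finset.Icc 2 K, u k (Φ z)) - ∑ k ∈ Finset.Icc 2 (r + 1), v k z)
      =o[𝓝 0] (fun z => ‖z‖ ^ (r + 1))

/-- The cohomological equation. -/
def T_COH : Prop := ∀ (k : ℕ) (l : ℂ) (v : ℂ → ℂ), 1 ≤ k → ‖l‖ = 1 →
  (∀ j, 1 ≤ j → j ≤ k → l ^ j ≠ 1) → v ∈ Hom k →
  ∃ (h : ℂ → ℂ) (c : ℂ), h ∈ Hom k ∧ ∀ z, h (l * z) - h z + v z = c * ‖z‖ ^ k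

/-- A volume preserving local map cannot decrease a function with a strict minimum. -/
def T_AREA : Prop := ∀ (n : ℕ) (Φ : E n → E n) (I : E n → ℝ) (U : Set (E n)), 1 ≤ n →
  U ∈ 𝓝 (0 : E n) → Φ 0 = 0 → ContinuousOn Φ U → ContinuousOn I U → I 0 = 0 →
  (∀ y ∈ U, y ≠ 0 → 0 < I y) → (∀ A ⊆ U, MeasurableSet A → volume (Φ '' A) = volume A) →
  ¬ ∀ y ∈ U, y ≠ 0 → I (Φ y) < I y

/-- An elliptic linear map of the plane is conjugate to a rotation. -/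
def T_LIN : Prop := ∀ A : E 2 →L[ℝ] E 2, NoRealEigenvalue A → A.det = 1 →
  ∃ (P : ℂ ≃L[ℝ] E 2) (l : ℂ), ‖l‖ = 1 ∧ (∀ z, A (P z) = P (l * z)) ∧
    ∀ k : ℕ, (A ^ k = 1 ↔ l ^ k = 1)

/-- The Jacobian of a volume preserving local map. -/
def T_JAC : Prop := ∀ (n : ℕ) (Φ : E n → E n) (U : Set (E n)), U ∈ 𝓝 (0 : E n) →
  ContDiffAt ℝ 1 Φ 0 → Set.InjOn Φ U →
  (∀ A ⊆ U, MeasurableSet A → volume (Φ '' A) = volume A) → |(fderiv ℝ Φ 0).det| = 1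

/-- Birkhoff's integral, from the expansions. -/
def T_BIRK : Prop := ∀ (r : ℕ) (Φ Ψ : E 2 → E 2) (U : Set (E 2)), 1 ≤ r → Φ 0 = 0 → Ψ 0 = 0 →
  ContDiffAt ℝ r Φ 0 → ContinuousAt Ψ 0 → U ∈ 𝓝 (0 : E 2) → ContinuousOn Φ U →
  ContinuousOn Ψ U → (∀ y ∈ U, Ψ (Φ y) = y) → (∀ y ∈ U, Φ (Ψ y) = y) →
  (∀ A ⊆ U, MeasurableSet A → volume (Φ '' A) = volume A) →
  (∀ A ⊆ U, MeasurableSet A → volume (Ψ '' A) = volume A) →
  NoRealEigenvalue (fderiv ℝ Φ 0) →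
  (∀ k, 1 ≤ k → k ≤ r + 1 → (fderiv ℝ Φ 0) ^ k ≠ 1) →
  ∃ (I : E 2 → ℝ) (b : ℝ), ContDiff ℝ ∞ I ∧ I 0 = 0 ∧ 0 < b ∧ (∀ᶠ y in 𝓝 0, b * ‖y‖ ^ 2 ≤ I y) ∧
    (fun y => I (Φ y) - I y) =o[𝓝 0] (fun y => ‖y‖ ^ (r + 1))

/-- Resonances can be avoided by a small rotation. -/
def T_NONRES : Prop := ∀ (A : E 2 →L[ℝ] E 2) (t₀ : ℝ) (R : ℕ), NoRealEigenvalue A → A.det = 1 →
  0 < t₀ → ∃ t : ℝ, |t| ≤ t₀ ∧ NoRealEigenvalue (rot t ∘L A) ∧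
    ∀ k, 1 ≤ k → k ≤ R → (rot t ∘L A) ^ k ≠ 1

/-! ## The theorems -/

/-- The conclusion: `g` has an attractor that is a finite set and attracts almost every point. -/
def OneSink {M : Type} [TopologicalSpace M] [MeasurableSpace M] (μ : Measure M) (g : M → M) :
    Prop :=
  ∃ Λ : Set M, Λ.Finite ∧ IsAttractor μ g Λ ∧ μ (basin g Λ)ᶜ = 0

def T_MAIN1 : Prop := ∀ (n : ℕ) (M : Type) [MetricSpace M] [ChartedSpace (E n) M]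
  [IsManifold 𝓘(ℝ, E n) ∞ M] [CompactSpace M] [ConnectedSpace M] [MeasurableSpace M]
  [BorelSpace M] (μ : Measure M) (s : ℕ∞) (r : ℕ) (f : M → M) (U : Set (M → M)) (m : ℕ) (p : M)
  (e : OpenPartialHomeomorph M (E n)) (I : E n → ℝ) (b : ℝ),
  1 ≤ n → 1 ≤ r → (r : ℕ∞) ≤ s → IsVolume n μ → IsDiffeo n s f → MeasurePreserving f μ μ →
  Rob n s r U → f ∈ U → 1 ≤ m → f^[m] p = p → (∀ i, 0 < i → i < m → f^[i] p ≠ p) →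
  e ∈ Ch n M → p ∈ e.source → ContDiffAt ℝ ∞ I (e p) → 0 < b →
  (∀ᶠ y in 𝓝 (e p), b * ‖y - e p‖ ^ 2 ≤ I y - I (e p)) →
  (fun y => I ((e ∘ f^[m] ∘ e.symm) y) - I y) =o[𝓝 (e p)] (fun y => ‖y - e p‖ ^ (r + 1)) →
  ∃ g ∈ U, IsDiffeo n s g ∧ OneSink μ g

def T_MAIN2 : Prop := ∀ (M : Type) [MetricSpace M] [ChartedSpace (E 2) M]
  [IsManifold 𝓘(ℝ, E 2) ∞ M] [CompactSpace M] [ConnectedSpace M] [MeasurableSpace M]
  [BorelSpace M] (μ : Measure M) (s : ℕ∞) (r : ℕ) (f : M → M) (U : Set (M → M)) (m : ℕ) (p : M)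
  (e : OpenPartialHomeomorph M (E 2)),
  1 ≤ r → (r : ℕ∞) ≤ s → IsVolume 2 μ → IsDiffeo 2 s f → MeasurePreserving f μ μ →
  Rob 2 s r U → f ∈ U → 1 ≤ m → f^[m] p = p → e ∈ Ch 2 M → p ∈ e.source →
  NoRealEigenvalue (fderiv ℝ (e ∘ f^[m] ∘ e.symm) (e p)) →
  ∃ g ∈ U, IsDiffeo 2 s g ∧ OneSink μ g

end Pool.Agent.Pal
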